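import Pool.Agent.A856.BH.Lrg
import Pool.Agent.A856.SE.Sig

/-!
# The density theorem for all moduli `q`, with the factor `N(q)/φ(q)`

Owner helper856 (zeros of bounded height).
-/

set_option autoImplicit false

open NumberField Complex

namespace Pool.Agent.A856.BH

open Pool.Agent.A856.SD (Zst Zst_bdd fin_zeros)
open Pool.Agent.H304R3.HK (tc HC psi LH tc_star_mul one_le_norm_tc goodH)
open H385 (ZI RQ chiZ FQs phiQ nrm)
open Pool.Agent.A856.SE (nz nz_zero nz_mono dens_exact pr_inj tc_nrm hc_finite sum_Dv)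

/-- `N(q)/φ(q)` -/
noncomputable def rho (q : ZI) : ℝ := (nrm q : ℝ) / phiQ q

lemma phi_pos' {q : ZI} (hq : q ≠ 0) : (0 : ℝ) < phiQ q := by
  exact_mod_cast (H385.fq_finite q hq).2.1

lemma phi_le {q : ZI} (hq : q ≠ 0) : phiQ q ≤ nrm q := by
  have h1 := H385.he1_finite hq
  rw [← H385.H10.card_RQ]
  unfold phiQ
  exact Nat.card_le_card_of_injective (fun u : (RQ q)ˣ => (u : RQ q)) Units.val_injective

lemma rho_ge {q : ZI} (hq : q ≠ 0) : 1 ≤ rho q := by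
  unfold rho
  rw [one_le_div (phi_pos' hq)]
  exact_mod_cast phi_le hq

lemma rho_mul {q : ZI} (hq : q ≠ 0) : rho q * (phiQ q : ℝ) = (nrm q : ℝ) := by
  unfold rho
  exact div_mul_cancel₀ _ (phi_pos' hq).ne'

/-- `N(q)/φ(q)` is at most a small power of `N(q)` -/
theorem rho_small {ε : ℝ} (hε : 0 < ε) : ∃ C : ℝ, 0 < C ∧ ∀ q : ZI, q ≠ 0 →
    rho q ≤ C * (nrm q : ℝ) ^ ε := by
  obtain ⟨C1, hC1, hdiv⟩ := Pool.Agent.H369R2.divisor_bound (ε / 2) (by linarith)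
  refine ⟨4 * C1 ^ 2, by positivity, ?_⟩
  intro q hq
  have hN1 : 1 ≤ nrm q := H385.H10.nrm_pos hq
  have h0 : (0 : ℝ) ≤ (nrm q : ℝ) := Nat.cast_nonneg _
  have h1 : ((H385.H10.Dv q).card : ℝ) ≤ 4 * ((nrm q).divisors.card : ℝ) ^ 2 := by
    exact_mod_cast H385.H10.card_Dv q hq
  have h2 := hdiv (nrm q) hN1
  have h3 : ((nrm q).divisors.card : ℝ) ^ 2 ≤ (C1 * (nrm q : ℝ) ^ (ε / 2)) ^ 2 :=
    pow_le_pow_left₀ (Nat.cast_nonneg _) h2 2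
  have h4 : (C1 * (nrm q : ℝ) ^ (ε / 2)) ^ 2 = C1 ^ 2 * (nrm q : ℝ) ^ ε := by
    rw [mul_pow, ← Real.rpow_natCast ((nrm q : ℝ) ^ (ε / 2)) 2, ← Real.rpow_mul h0]
    congr 2
    push_cast; ring
  rw [h4] at h3
  have h5 : (nrm q : ℝ) ≤ ((H385.H10.Dv q).card : ℝ) * (phiQ q : ℝ) := by
    exact_mod_cast H385.H10.phi_lower q hq
  unfold rho
  rw [div_le_iff₀ (phi_pos' hq)]
  refine h5.trans (mul_le_mul_of_nonneg_right ?_ (phi_pos' hq).le)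
  linarith

/-- the sum over the divisors -/
theorem div_sumR {c c' : ℝ} (hc0 : 0 < c) (hcc : c < c') (hc1 : c' < 1)
    : ∃ C : ℝ, 0 < C ∧ ∀ q : ZI, q ≠ 0 → ∀ δ : ℝ, 0 ≤ δ →
      δ ≤ 1 / 2 → ∑ d ∈ H385.H10.Dv q, (nrm d : ℝ) ^ (1 - c' * δ) ≤
        C * rho q * (nrm q : ℝ) ^ (1 - c * δ) := by
  obtain ⟨θ, hθ⟩ : ∃ θ : ℝ, θ = c / c' := ⟨_, rfl⟩
  have hc'0 : 0 < c' := by linarith
  have hθ0 : 0 < θ := by rw [hθ]; positivity
  have hθ1 : θ < 1 := by rw [hθ, div_lt_one hc'0]; exact hcc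
  have hθc : θ * c' = c := by rw [hθ]; field_simp
  obtain ⟨C1, hC1, hdiv⟩ := Pool.Agent.H369R2.divisor_bound ((1 - θ) / 2) (by linarith)
  refine ⟨4 + 4 * C1 ^ 2, by positivity, ?_⟩
  intro q hq δ hδ0 hδ1
  have hρ1 := rho_ge hq
  have hρe := rho_mul hq
  have hφ0 := phi_pos' hq
  obtain ⟨ρ, hρ⟩ : ∃ ρ : ℝ, ρ = rho q := ⟨_, rfl⟩
  rw [← hρ] at hρ1 hρe ⊢
  obtain ⟨N, hN⟩ : ∃ N : ℝ, N = (nrm q : ℝ) := ⟨_, rfl⟩
  have hN1 : 1 ≤ nrm q := H385.H10.nrm_pos hq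
  have hN1' : (1 : ℝ) ≤ N := by rw [hN]; exact_mod_cast hN1
  have hN0 : 0 < N := by linarith
  rw [← hN] at hρe ⊢
  have hcδ : 0 ≤ 1 - c' * δ := by nlinarith
  have hd : ∀ d ∈ H385.H10.Dv q, (1 : ℝ) ≤ (nrm d : ℝ) ∧ (nrm d : ℝ) ≤ N := by
    intro d hd
    rw [H385.H10.mem_Dv hq] at hd
    have hd0 : d ≠ 0 := by
      rintro rfl
      exact hq (zero_dvd_iff.1 hd)
    refine ⟨by exact_mod_cast H385.H10.nrm_pos hd0, ?_⟩
    rw [hN]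
    exact_mod_cast H385.he3_nrm hd hq
  -- each divisor
  have hone : ∀ d ∈ H385.H10.Dv q, (nrm d : ℝ) ^ (1 - c' * δ) ≤
      (nrm d : ℝ) * N ^ (-(c * δ)) + N ^ (θ - c * δ) := by
    intro d hdm
    obtain ⟨h1, h2⟩ := hd d hdm
    have h3 : 0 < (nrm d : ℝ) := by linarith
    rcases le_or_gt (N ^ θ) (nrm d : ℝ) with h4 | h4
    · have h5 : (nrm d : ℝ) ^ (1 - c' * δ) ≤ (nrm d : ℝ) * N ^ (-(c * δ)) := by
        rw [sub_eq_add_neg, Real.rpow_add h3, Real.rpow_one]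
        apply mul_le_mul_of_nonneg_left _ h3.le
        have h6 : (nrm d : ℝ) ^ (-(c' * δ)) ≤ (N ^ θ) ^ (-(c' * δ)) :=
          Real.rpow_le_rpow_of_nonpos (Real.rpow_pos_of_pos hN0 _) h4 (by nlinarith)
        refine h6.trans (le_of_eq ?_)
        rw [← Real.rpow_mul hN0.le]
        congr 1
        rw [← hθc]; ring
      have : 0 ≤ N ^ (θ - c * δ) := (Real.rpow_pos_of_pos hN0 _).le
      linarith
    · have h5 : (nrm d : ℝ) ^ (1 - c' * δ) ≤ N ^ (θ - c * δ) := by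
        have h6 : (nrm d : ℝ) ^ (1 - c' * δ) ≤ (N ^ θ) ^ (1 - c' * δ) :=
          Real.rpow_le_rpow h3.le h4.le hcδ
        refine h6.trans (le_of_eq ?_)
        rw [← Real.rpow_mul hN0.le]
        congr 1
        rw [← hθc]; ring
      have : 0 ≤ (nrm d : ℝ) * N ^ (-(c * δ)) := by positivity
      linarith
  refine (Finset.sum_le_sum hone).trans ?_
  rw [Finset.sum_add_distrib, ← Finset.sum_mul, Finset.sum_const, nsmul_eq_mul]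
  -- the sum of the norms
  have e1 : ∑ d ∈ H385.H10.Dv q, (nrm d : ℝ) ≤ 4 * ρ * N := by
    have h1 := sum_Dv q hq
    have h2 : (∑ d ∈ H385.H10.Dv q, (nrm d : ℝ)) * (phiQ q : ℝ) ≤ 4 * N ^ 2 := by
      rw [hN]; exact_mod_cast h1
    have h5 : (∑ d ∈ H385.H10.Dv q, (nrm d : ℝ)) * (phiQ q : ℝ) ≤ (4 * ρ * N) * (phiQ q : ℝ) := by
      refine h2.trans (le_of_eq ?_)
      calc 4 * N ^ 2 = 4 * N * N := by ring
        _ = 4 * N * (ρ * (phiQ q : ℝ)) := by rw [hρe]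
        _ = _ := by ring
    exact le_of_mul_le_mul_right h5 hφ0
  have e2 : ((H385.H10.Dv q).card : ℝ) ≤ 4 * C1 ^ 2 * N ^ (1 - θ) := by
    have h1 : ((H385.H10.Dv q).card : ℝ) ≤ 4 * ((nrm q).divisors.card : ℝ) ^ 2 := by
      exact_mod_cast H385.H10.card_Dv q hq
    have h2 := hdiv (nrm q) hN1
    rw [← hN] at h2
    have h3 : ((nrm q).divisors.card : ℝ) ^ 2 ≤ (C1 * N ^ ((1 - θ) / 2)) ^ 2 :=
      pow_le_pow_left₀ (Nat.cast_nonneg _) h2 2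
    have h4 : (C1 * N ^ ((1 - θ) / 2)) ^ 2 = C1 ^ 2 * N ^ (1 - θ) := by
      rw [mul_pow, ← Real.rpow_natCast (N ^ ((1 - θ) / 2)) 2, ← Real.rpow_mul hN0.le]
      congr 2
      push_cast; ring
    rw [h4] at h3
    linarith
  have e3 : N * N ^ (-(c * δ)) = N ^ (1 - c * δ) := by
    rw [sub_eq_add_neg, Real.rpow_add hN0, Real.rpow_one]
  have e4 : N ^ (1 - θ) * N ^ (θ - c * δ) = N ^ (1 - c * δ) := by
    rw [← Real.rpow_add hN0]; congr 1; ring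
  have p1 : 0 < N ^ (-(c * δ)) := Real.rpow_pos_of_pos hN0 _
  have p2 : 0 < N ^ (θ - c * δ) := Real.rpow_pos_of_pos hN0 _
  calc (∑ d ∈ H385.H10.Dv q, (nrm d : ℝ)) * N ^ (-(c * δ)) +
        ((H385.H10.Dv q).card : ℝ) * N ^ (θ - c * δ)
      ≤ (4 * ρ * N) * N ^ (-(c * δ)) + (4 * C1 ^ 2 * N ^ (1 - θ)) * N ^ (θ - c * δ) := by
        gcongr
    _ = 4 * ρ * (N * N ^ (-(c * δ))) + 4 * C1 ^ 2 * (N ^ (1 - θ) * N ^ (θ - c * δ)) := by ring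
    _ = (4 * ρ + 4 * C1 ^ 2) * N ^ (1 - c * δ) := by rw [e3, e4]; ring
    _ ≤ ((4 + 4 * C1 ^ 2) * ρ) * N ^ (1 - c * δ) := by
        apply mul_le_mul_of_nonneg_right _ (Real.rpow_pos_of_pos hN0 _).le
        have : 0 ≤ C1 ^ 2 := by positivity
        nlinarith

section
variable (cd : (q : ZI) → MulChar (RQ q) ℂ → ZI)
    (pr : (q : ZI) → MulChar (RQ q) ℂ → (ZI →* ℂ))
    (hprim : ∀ q : ZI, q ≠ 0 → ∀ χ ∈ FQs q, cd q χ ∣ q ∧ HC (cd q χ) (pr q χ) ∧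
      ∀ a : ZI, IsCoprime a q → pr q χ a = chiZ q χ a)

include hprim

theorem lrg_densR {c : ℝ} (hc0 : 0 < c) (hc1 : c < 1) :
    ∃ (C X₀ : ℝ) (B : ℕ), 0 < C ∧ ∀ q : ZI, 8 ≤ nrm q → ∀ δ t : ℝ, 0 ≤ δ →
      ∑ χ ∈ (open Classical in (FQs q).filter (fun χ => X₀ ≤ (nrm (cd q χ) : ℝ))),
        nz (pr q χ) δ t (1 / Real.log (nrm q)) ≤
        C * rho q * (1 + |t|) ^ B * (nrm q : ℝ) ^ (1 - c * δ) := by
  classical
  obtain ⟨c', hc'⟩ : ∃ c' : ℝ, c' = (1 + c) / 2 := ⟨_, rfl⟩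
  have hcc : c < c' := by rw [hc']; linarith
  have hc'1 : c' < 1 := by rw [hc']; linarith
  have hc'0 : 0 < c' := by linarith
  obtain ⟨C0, L₀, B, hC0, hL₀, hex⟩ := dens_exact hc'0 hc'1
  obtain ⟨Cd, hCd, hdv⟩ := div_sumR hc0 hcc hc'1
  refine ⟨C0 * Cd, Real.exp L₀, B, by positivity, ?_⟩
  intro q hq8 δ t hδ
  have hq : q ≠ 0 := by
    rintro rfl
    simp [nrm] at hq8
  obtain ⟨N, hN⟩ : ∃ N : ℝ, N = (nrm q : ℝ) := ⟨_, rfl⟩
  have hN8 : (8 : ℝ) ≤ N := by rw [hN]; exact_mod_cast hq8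
  have hN0 : 0 < N := by linarith
  obtain ⟨L, hL⟩ : ∃ L : ℝ, L = Real.log N := ⟨_, rfl⟩
  have hL1 : 1 ≤ L := by
    rw [hL, Real.le_log_iff_exp_le hN0]
    have := Real.exp_one_lt_d9
    linarith
  have hL0 : 0 < L := by linarith
  have hρ1 := rho_ge hq
  obtain ⟨ρ, hρ⟩ : ∃ ρ : ℝ, ρ = rho q := ⟨_, rfl⟩
  rw [← hρ] at hρ1 ⊢
  have hρ0 : 0 < ρ := by linarith
  have hpos : 0 ≤ C0 * Cd * ρ * (1 + |t|) ^ B * N ^ (1 - c * δ) := by positivity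
  have hP := hprim q hq
  rw [← hN, ← hL]
  rcases lt_or_ge (1 / 2) δ with hδ2 | hδ2
  · refine le_trans (le_of_eq ?_) hpos
    exact Finset.sum_eq_zero fun χ _ => nz_zero hδ2
  have hcd0 : ∀ χ ∈ FQs q, cd q χ ≠ 0 := fun χ hχ => (hP χ hχ).2.1.q0
  have hcdm : ∀ χ ∈ FQs q, cd q χ ∈ H385.H10.Dv q := fun χ hχ =>
    (H385.H10.mem_Dv hq _).2 (hP χ hχ).1
  rw [← Finset.sum_fiberwise_of_maps_to (g := fun χ => cd q χ) (t := H385.H10.Dv q)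
    (fun χ hχ => hcdm χ (Finset.mem_filter.mp hχ).1)]
  have h1 : ∀ d ∈ H385.H10.Dv q, ∑ χ ∈ ((FQs q).filter
      (fun χ => Real.exp L₀ ≤ (nrm (cd q χ) : ℝ))).filter (fun χ => cd q χ = d),
      nz (pr q χ) δ t (1 / L) ≤ C0 * (1 + |t|) ^ B * (nrm d : ℝ) ^ (1 - c' * δ) := by
    intro d hd
    obtain ⟨S, hS⟩ : ∃ S : Finset (MulChar (RQ q) ℂ), S = ((FQs q).filter
      (fun χ => Real.exp L₀ ≤ (nrm (cd q χ) : ℝ))).filter (fun χ => cd q χ = d) := ⟨_, rfl⟩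
    rw [← hS]
    rcases S.eq_empty_or_nonempty with hE | ⟨χ₀, hχ₀⟩
    · rw [hE, Finset.sum_empty]
      positivity
    have hSm : ∀ χ ∈ S, χ ∈ FQs q ∧ Real.exp L₀ ≤ (nrm d : ℝ) ∧ cd q χ = d := by
      intro χ hχ
      rw [hS, Finset.mem_filter, Finset.mem_filter] at hχ
      obtain ⟨⟨h2, h3⟩, h4⟩ := hχ
      rw [h4] at h3
      exact ⟨h2, h3, h4⟩
    obtain ⟨-, hdX, -⟩ := hSm χ₀ hχ₀
    have hd0 : (0 : ℝ) < nrm d := lt_of_lt_of_le (Real.exp_pos _) hdX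
    obtain ⟨Ld, hLd⟩ : ∃ Ld : ℝ, Ld = Real.log (nrm d) := ⟨_, rfl⟩
    have hLde : Real.exp Ld = ‖tc d‖ ^ 2 := by rw [hLd, Real.exp_log hd0, tc_nrm]
    have hLdL : L₀ ≤ Ld := by rw [hLd, Real.le_log_iff_exp_le hd0]; exact hdX
    have hLdq : Ld ≤ L := by
      rw [hLd, hL]
      apply Real.log_le_log hd0
      rw [hN]
      rw [H385.H10.mem_Dv hq] at hd
      exact_mod_cast H385.he3_nrm hd hq
    have hLd0 : 0 < Ld := by linarith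
    have hinj : Set.InjOn (pr q) (S : Set (MulChar (RQ q) ℂ)) :=
      (pr_inj cd pr hprim hq).mono fun χ hχ => (hSm χ hχ).1
    have hY : ∀ χ ∈ S.image (pr q), HC d χ := by
      intro χ' hχ'
      obtain ⟨χ, hχ, rfl⟩ := Finset.mem_image.mp hχ'
      obtain ⟨h2, -, h4⟩ := hSm χ hχ
      have := (hP χ h2).2.1
      rwa [h4] at this
    obtain ⟨-, h2⟩ := hex d Ld hLde hLdL (S.image (pr q)) hY
    have h3 := h2 δ t hδ
    rw [Finset.sum_image hinj] at h3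
    have h4 : ∀ χ ∈ S, nz (pr q χ) δ t (1 / L) ≤ nz (pr q χ) δ t (1 / Ld) := by
      intro χ hχ
      refine nz_mono (hY _ (Finset.mem_image_of_mem _ hχ)) ?_
      rintro ρ ⟨a1, a2, a3, a4, a5⟩
      refine ⟨a1, a2, a3, a4, a5.trans ?_⟩
      exact one_div_le_one_div_of_le hLd0 hLdq
    refine (Finset.sum_le_sum h4).trans (h3.trans ?_)
    have h5 : Real.exp (Ld - c' * Ld * δ) = (nrm d : ℝ) ^ (1 - c' * δ) := by
      rw [Real.rpow_def_of_pos hd0, ← hLd]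
      congr 1
      ring
    rw [h5]
  refine (Finset.sum_le_sum h1).trans ?_
  rw [← Finset.mul_sum]
  have h2 := hdv q hq δ hδ hδ2
  rw [← hN, ← hρ] at h2
  calc C0 * (1 + |t|) ^ B * ∑ d ∈ H385.H10.Dv q, (nrm d : ℝ) ^ (1 - c' * δ)
      ≤ C0 * (1 + |t|) ^ B * (Cd * ρ * N ^ (1 - c * δ)) := by gcongr
    _ = _ := by ring

end


end Pool.Agent.A856.BH
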