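import Pool.Agent.A856.BH.AvgNB
import Pool.Agent.A856.BH.LrgR

/-!
# The average over the characters of the number of bad zeros, for all moduli

(`AvgNB.lean` of helper732, with the factor `N(q)/φ(q)`.)  Owner helper856.
-/

set_option autoImplicit false

open Complex Filter Topology Set MeasureTheory
open H370 (zset mult NN Nd Ns)

namespace Pool.Agent.A856.BH

open Pool.Agent.H304R3.HK (tc HC psi LH)
open H385 (ZI RQ chiZ FQs phiQ nrm)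
open Pool.Agent.A856.SE (nz)
open Pool.Agent.A856.SD (Zst Zst_bdd fin_zeros cnt_cover)

/-- the numerical bound for one distance -/
lemma avgNB_numR {N L C0 T κe Λ k M : ℝ} {B : ℕ} (hM : 0 < M) (hC0 : 0 < C0) (hN : 0 < N) (hL : L = Real.log N)
    (hL1 : 1 ≤ L) (hT : 1 ≤ T) (hκe : 1 ≤ κe) (hκT : κe ≤ T) (hΛ : 0 < Λ) (hΛL : Λ ≤ L)
    (hk : 0 ≤ k) (hexp : M * (1 + T) ^ (B + 1) ≤ Real.exp (κe ^ 2 / 32)) {J : ℝ} (hJ0 : 0 ≤ J)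
    (hJ : J ≤ 3 * (2 + (T / 2 + κe + k + 1)) * L) :
    J * (C0 * (2 + (T / 2 + κe + k + 1)) ^ B * N ^ (1 - 1 / 2 * ((κe + k) ^ 2 / (16 * Λ)))) ≤
      3 ^ (B + 2) * C0 * (N * L) * ((1 / M) * ((1 + k) ^ (B + 1) * Real.exp (-(k ^ 2 / 32)))) := by
  have hL0 : 0 < L := by linarith
  have h1 : N ^ (1 - 1 / 2 * ((κe + k) ^ 2 / (16 * Λ))) ≤
      N * (Real.exp (-(κe ^ 2 / 32)) * Real.exp (-(k ^ 2 / 32))) := by
    rw [sub_eq_add_neg, Real.rpow_add hN, Real.rpow_one]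
    refine mul_le_mul_of_nonneg_left ?_ hN.le
    rw [Real.rpow_def_of_pos hN, ← hL, ← Real.exp_add, Real.exp_le_exp]
    have h2 : (κe + k) ^ 2 / 32 ≤ L * (1 / 2 * ((κe + k) ^ 2 / (16 * Λ))) := by
      have h3 : L * (1 / 2 * ((κe + k) ^ 2 / (16 * Λ))) = (κe + k) ^ 2 / 32 * (L / Λ) := by
        field_simp
        ring
      rw [h3]
      have h4 : 1 ≤ L / Λ := by rw [le_div_iff₀ hΛ]; linarith
      have h5 : 0 ≤ (κe + k) ^ 2 / 32 := by positivity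
      nlinarith
    have h6 : 0 ≤ κe * k := by positivity
    nlinarith
  have hR0 : 0 ≤ 2 + (T / 2 + κe + k + 1) := by linarith
  have hR : 2 + (T / 2 + κe + k + 1) ≤ 3 * ((1 + T) * (1 + k)) := by nlinarith
  have hR2 : (2 + (T / 2 + κe + k + 1)) ^ (B + 1) ≤
      3 ^ (B + 1) * ((1 + T) ^ (B + 1) * (1 + k) ^ (B + 1)) := by
    refine (pow_le_pow_left₀ hR0 hR (B + 1)).trans (le_of_eq ?_)
    rw [mul_pow, mul_pow]
  have hTe : (1 + T) ^ (B + 1) * Real.exp (-(κe ^ 2 / 32)) ≤ 1 / M := by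
    rw [Real.exp_neg, ← div_eq_mul_inv, div_le_div_iff₀ (Real.exp_pos _) hM]
    linarith
  have hN0' : 0 ≤ N ^ (1 - 1 / 2 * ((κe + k) ^ 2 / (16 * Λ))) := (Real.rpow_pos_of_pos hN _).le
  have hP : 0 ≤ C0 * (2 + (T / 2 + κe + k + 1)) ^ B := by positivity
  calc J * (C0 * (2 + (T / 2 + κe + k + 1)) ^ B *
        N ^ (1 - 1 / 2 * ((κe + k) ^ 2 / (16 * Λ))))
      ≤ (3 * (2 + (T / 2 + κe + k + 1)) * L) * (C0 * (2 + (T / 2 + κe + k + 1)) ^ B *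
        (N * (Real.exp (-(κe ^ 2 / 32)) * Real.exp (-(k ^ 2 / 32))))) := by
        refine mul_le_mul hJ (mul_le_mul_of_nonneg_left h1 hP) (mul_nonneg hP hN0') ?_
        exact hJ0.trans hJ
    _ = 3 * C0 * (N * L) * ((2 + (T / 2 + κe + k + 1)) ^ (B + 1) *
        Real.exp (-(κe ^ 2 / 32)) * Real.exp (-(k ^ 2 / 32))) := by ring
    _ ≤ 3 * C0 * (N * L) * ((3 ^ (B + 1) * ((1 + T) ^ (B + 1) * (1 + k) ^ (B + 1))) *
        Real.exp (-(κe ^ 2 / 32)) * Real.exp (-(k ^ 2 / 32))) := by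
        gcongr
    _ = 3 ^ (B + 2) * C0 * (N * L) * (((1 + T) ^ (B + 1) * Real.exp (-(κe ^ 2 / 32))) *
        ((1 + k) ^ (B + 1) * Real.exp (-(k ^ 2 / 32)))) := by ring
    _ ≤ 3 ^ (B + 2) * C0 * (N * L) * ((1 / M) *
        ((1 + k) ^ (B + 1) * Real.exp (-(k ^ 2 / 32)))) := by
        gcongr

theorem avg_NB_R (cd : (q : ZI) → MulChar (RQ q) ℂ → ZI)
    (pr : (q : ZI) → MulChar (RQ q) ℂ → (ZI →* ℂ))
    (hprim : ∀ q : ZI, q ≠ 0 → ∀ χ ∈ FQs q, cd q χ ∣ q ∧ HC (cd q χ) (pr q χ) ∧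
      ∀ a : ZI, IsCoprime a q → pr q χ a = chiZ q χ a)
    (X₀ C0 : ℝ) (B : ℕ) (hC0 : 0 < C0)
    (hdens : ∀ q : ZI, 8 ≤ nrm q → ∀ δ t : ℝ, 0 ≤ δ →
      ∑ χ ∈ (open Classical in (FQs q).filter (fun χ => X₀ ≤ (nrm (cd q χ) : ℝ))),
        nz (pr q χ) δ t (1 / Real.log (nrm q)) ≤
        C0 * rho q * (1 + |t|) ^ B * (nrm q : ℝ) ^ (1 - 1 / 2 * δ)) :
    ∃ C : ℝ, 0 < C ∧ ∀ (q : ZI) (T κ κe Λ : ℝ) (V1 V2 : MulChar (RQ q) ℂ → ℝ),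
      8 ≤ nrm q → 1 ≤ T → 1 ≤ κe → κe ≤ T → κe ≤ κ → 0 < Λ →
      Λ ≤ Real.log (nrm q) → rho q ^ 2 * (1 + T) ^ (B + 1) ≤ Real.exp (κe ^ 2 / 32) →
      (∀ χ, T - 3 * κ ≤ V1 χ ∧ V2 χ ≤ 2 * T + 3 * κ) →
      ∑ χ ∈ (open Classical in (FQs q).filter (fun χ => X₀ ≤ (nrm (cd q χ) : ℝ))),
        NB (fun z => LH (pr q χ) (z - ((3 / 2 * T : ℝ) : ℂ) * I)) (V1 χ) (V2 χ) T κe Λ ≤
        C * ((phiQ q : ℝ) * Real.log (nrm q)) := by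
  classical
  obtain ⟨S, hS0, hS⟩ := avgNB_summ B
  refine ⟨3 ^ (B + 2) * C0 * (S + 1), by positivity, ?_⟩
  intro q T κ κe Λ V1 V2 h8 hT hκe hκT hκκ hΛ hΛL hexp hV
  have hq : q ≠ 0 := by
    rintro rfl
    simp [nrm] at h8
  obtain ⟨Y, hY⟩ : ∃ Y : Finset (MulChar (RQ q) ℂ), Y =
      (open Classical in (FQs q).filter (fun χ => X₀ ≤ (nrm (cd q χ) : ℝ))) := ⟨_, rfl⟩
  have hρ1 := rho_ge hq
  have hρe := rho_mul hq
  obtain ⟨ρ, hρ⟩ : ∃ ρ : ℝ, ρ = rho q := ⟨_, rfl⟩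
  have hd := hdens q h8
  rw [← hY] at hd ⊢
  rw [← hρ] at hρ1 hρe hd hexp
  have hρ0 : 0 < ρ := by linarith
  obtain ⟨C1, hC1d⟩ : ∃ C1 : ℝ, C1 = C0 * ρ := ⟨_, rfl⟩
  have hC1 : 0 < C1 := by rw [hC1d]; positivity
  rw [← hC1d] at hd
  have hYH : ∀ χ ∈ Y, HC (cd q χ) (pr q χ) := by
    intro χ hχ
    rw [hY, Finset.mem_filter] at hχ
    exact (hprim q hq χ hχ.1).2.1
  obtain ⟨N, hN⟩ : ∃ N : ℝ, N = (nrm q : ℝ) := ⟨_, rfl⟩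
  have hN8 : (8 : ℝ) ≤ N := by rw [hN]; exact_mod_cast h8
  have hN0 : 0 < N := by linarith
  rw [← hN] at hd hΛL hρe ⊢
  obtain ⟨L, hL⟩ : ∃ L : ℝ, L = Real.log N := ⟨_, rfl⟩
  rw [← hL] at hd hΛL ⊢
  have hL1 : 1 ≤ L := by
    rw [hL, Real.le_log_iff_exp_le hN0]
    have := Real.exp_one_lt_d9
    linarith
  have hL0 : 0 < L := by linarith
  have hr : 0 < 1 / L := by positivity
  -- the bound for one distance
  have hone : ∀ δ R : ℝ, 0 ≤ δ → 0 ≤ R → ∃ J : ℝ, 0 ≤ J ∧ J ≤ 3 * (2 + R) * L ∧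
      ∑ χ ∈ Y, nz (pr q χ) δ 0 R ≤ J * (C1 * (2 + R) ^ B * N ^ (1 - 1 / 2 * δ)) := by
    intro δ R hδ hR
    obtain ⟨J, hJ⟩ : ∃ J : Finset ℤ, J = Finset.Icc (-⌈R / (1 / L)⌉₊ : ℤ) ⌈R / (1 / L)⌉₊ :=
      ⟨_, rfl⟩
    have hceil : (⌈R / (1 / L)⌉₊ : ℝ) ≤ R * L + 1 := by
      have h0 := (Nat.ceil_lt_add_one (show 0 ≤ R / (1 / L) by positivity)).le
      have h1' : R / (1 / L) = R * L := by rw [div_div_eq_mul_div, div_one]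
      calc (⌈R / (1 / L)⌉₊ : ℝ) ≤ R / (1 / L) + 1 := h0
        _ = R * L + 1 := by rw [h1']
    have hJc : (J.card : ℝ) ≤ 3 * (2 + R) * L := by
      rw [hJ, Int.card_Icc]
      have h2 : ((⌈R / (1 / L)⌉₊ : ℤ) + 1 - (-(⌈R / (1 / L)⌉₊ : ℤ))).toNat =
          2 * ⌈R / (1 / L)⌉₊ + 1 := by
        omega
      rw [h2]
      push_cast
      nlinarith
    refine ⟨(J.card : ℝ), Nat.cast_nonneg _, hJc, ?_⟩
    have h1 : ∀ χ ∈ Y, nz (pr q χ) δ 0 R ≤ ∑ j ∈ J, nz (pr q χ) δ ((j : ℝ) * (1 / L)) (1 / L) := by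
      intro χ hχ
      rw [hJ]
      exact cnt_cover (Pool.Agent.A856.SE.LH_diff (hYH χ hχ))
        (Pool.Agent.A856.SE.LH_nz (hYH χ hχ)) _ hr
    refine (Finset.sum_le_sum h1).trans ?_
    rw [Finset.sum_comm]
    have h2 : ∀ j ∈ J, ∑ χ ∈ Y, nz (pr q χ) δ ((j : ℝ) * (1 / L)) (1 / L) ≤
        C1 * (2 + R) ^ B * N ^ (1 - 1 / 2 * δ) := by
      intro j hj
      have h4 : |(j : ℝ) * (1 / L)| ≤ R + 1 := by
        rw [abs_mul, abs_of_pos hr]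
        have h5 : |(j : ℝ)| ≤ R * L + 1 := by
          rw [hJ, Finset.mem_Icc] at hj
          refine le_trans ?_ hceil
          rw [abs_le]
          constructor
          · have := hj.1
            have h6 : ((-(⌈R / (1 / L)⌉₊ : ℤ) : ℤ) : ℝ) ≤ (j : ℝ) := by exact_mod_cast this
            push_cast at h6
            exact h6
          · have h6 : (j : ℝ) ≤ ((⌈R / (1 / L)⌉₊ : ℤ) : ℝ) := by exact_mod_cast hj.2
            push_cast at h6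
            exact h6
        rw [mul_one_div, div_le_iff₀ hL0]
        nlinarith
      refine (hd δ _ hδ).trans ?_
      have h5 : 1 + |(j : ℝ) * (1 / L)| ≤ 2 + R := by linarith
      have h6 : (0 : ℝ) ≤ N ^ (1 - 1 / 2 * δ) := (Real.rpow_pos_of_pos hN0 _).le
      have h7 : (1 + |(j : ℝ) * (1 / L)|) ^ B ≤ (2 + R) ^ B :=
        pow_le_pow_left₀ (by positivity) h5 B
      exact mul_le_mul_of_nonneg_right (mul_le_mul_of_nonneg_left h7 hC1.le) h6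
    refine (Finset.sum_le_sum h2).trans (le_of_eq ?_)
    rw [Finset.sum_const, nsmul_eq_mul]
  -- sum over the characters and the distances
  have hA : ∀ χ ∈ Y, NB (fun z => LH (pr q χ) (z - ((3 / 2 * T : ℝ) : ℂ) * I)) (V1 χ) (V2 χ) T κe Λ ≤
      ∑ k ∈ Finset.range (⌊3 * κ⌋₊ + 1),
        nz (pr q χ) ((κe + (k : ℝ)) ^ 2 / (16 * Λ)) 0 (T / 2 + κe + k + 1) := by
    intro χ hχ
    exact avgNB_one (LH (pr q χ)) (Pool.Agent.A856.SE.LH_diff (hYH χ hχ))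
      (Pool.Agent.A856.SE.LH_nz (hYH χ hχ)) hκe hΛ (hV χ).1 (hV χ).2
  refine (Finset.sum_le_sum hA).trans ?_
  rw [Finset.sum_comm]
  have hB : ∀ k ∈ Finset.range (⌊3 * κ⌋₊ + 1),
      ∑ χ ∈ Y, nz (pr q χ) ((κe + (k : ℝ)) ^ 2 / (16 * Λ)) 0 (T / 2 + κe + k + 1) ≤
        3 ^ (B + 2) * C1 * (N * L) * ((1 / ρ ^ 2) *
          ((1 + (k : ℝ)) ^ (B + 1) * Real.exp (-((k : ℝ) ^ 2 / 32)))) := by
    intro k _
    have hk0 : (0 : ℝ) ≤ k := Nat.cast_nonneg k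
    obtain ⟨J, hJ0, hJ1, hJ2⟩ := hone ((κe + (k : ℝ)) ^ 2 / (16 * Λ)) (T / 2 + κe + k + 1)
      (by positivity) (by positivity)
    exact hJ2.trans (avgNB_numR (by positivity) hC1 hN0 hL hL1 hT hκe hκT hΛ hΛL hk0 hexp hJ0 hJ1)
  refine (Finset.sum_le_sum hB).trans ?_
  rw [← Finset.mul_sum, ← Finset.mul_sum]
  have h1 := hS (⌊3 * κ⌋₊ + 1)
  calc 3 ^ (B + 2) * C1 * (N * L) * ((1 / ρ ^ 2) * ∑ k ∈ Finset.range (⌊3 * κ⌋₊ + 1),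
        (1 + (k : ℝ)) ^ (B + 1) * Real.exp (-((k : ℝ) ^ 2 / 32)))
      ≤ 3 ^ (B + 2) * C1 * (N * L) * ((1 / ρ ^ 2) * (S + 1)) := by
        have : ∑ k ∈ Finset.range (⌊3 * κ⌋₊ + 1),
          (1 + (k : ℝ)) ^ (B + 1) * Real.exp (-((k : ℝ) ^ 2 / 32)) ≤ S + 1 := by linarith
        gcongr
    _ = 3 ^ (B + 2) * C0 * (S + 1) * ((phiQ q : ℝ) * L) := by
        rw [← hρe, hC1d]
        field_simp

end Pool.Agent.A856.BH
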