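import Pool.Agent.A856.BH.LocB
import Pool.Agent.A856.BH.AvgR
import Pool.Agent.H385R5.HE8c

/-!
# Zeros of bounded height: the average number of the bad zeros

Owner helper856.
-/

set_option autoImplicit false

open Complex Filter Topology Set MeasureTheory
open H370 (zset mult NN Nd Ns)

namespace Pool.Agent.A856.BH

open Pool.Agent.H304R3.HK (tc HC psi LH aH one_le_norm_tc)
open H385 (ZI RQ chiZ FQs phiQ nrm)

lemma NB_nonneg (F : ℂ → ℂ) (V1 V2 T κe Λ : ℝ) : 0 ≤ NB F V1 V2 T κe Λ :=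
  finsum_nonneg fun _ => finsum_nonneg fun _ => Nat.cast_nonneg _

lemma NB_le {A ℒ E H q0 : ℝ} {F : ℂ → ℂ} {a : ℕ → ℂ} (hF : GoodB A ℒ E H q0 F a)
    (V1 V2 T κe Λ : ℝ) : NB F V1 V2 T κe Λ ≤ (NN F V1 V2 : ℝ) := by
  have hfin := zfin hF V1 V2
  have hsub : bad F V1 V2 T κe Λ ⊆ zset F V1 V2 := fun s hs => hs.1
  unfold NB NN
  rw [finsum_mem_eq_finite_toFinset_sum _ hfin,
    finsum_mem_eq_finite_toFinset_sum _ (hfin.subset hsub)]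
  push_cast
  refine Finset.sum_le_sum_of_subset_of_nonneg ?_ fun _ _ _ => Nat.cast_nonneg _
  intro s hs
  rw [Set.Finite.mem_toFinset] at hs ⊢
  exact hsub hs

/-- the average of the number of the bad zeros -/
theorem nb_totalR (cd : (q : ZI) → MulChar (RQ q) ℂ → ZI)
    (pr : (q : ZI) → MulChar (RQ q) ℂ → (ZI →* ℂ))
    (hprim : ∀ q : ZI, q ≠ 0 → ∀ χ ∈ FQs q, cd q χ ∣ q ∧ HC (cd q χ) (pr q χ) ∧
      ∀ a : ZI, IsCoprime a q → pr q χ a = chiZ q χ a)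
    (A : ℝ) (hA : 1 ≤ A) :
    ∃ (C : ℝ) (B : ℕ), 0 < C ∧ ∀ (q : ZI) (T κ κe Λ ℒ E H : ℝ) (q0 : MulChar (RQ q) ℂ → ℝ)
      (a : MulChar (RQ q) ℂ → ℕ → ℂ) (V1 V2 : MulChar (RQ q) ℂ → ℝ),
      8 ≤ nrm q → Real.log (nrm q) = 2 * ℒ →
      (∀ χ ∈ FQs q, GoodB A ℒ E H (q0 χ)
        (fun z => LH (pr q χ) (z - ((3 / 2 * T : ℝ) : ℂ) * I)) (a χ)) →
      3 ≤ κe → κe ≤ κ → 4 * κe ≤ T → 0 < Λ → Λ ≤ 2 * ℒ →
      rho q ^ 2 * (1 + T) ^ (B + 1) ≤ Real.exp (κe ^ 2 / 32) → 2 * T + 3 * κ + 6 ≤ H →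
      T + 6 * κ ≤ phiQ q →
      (∀ χ ∈ FQs q, T - 3 * κ ≤ V1 χ ∧ V1 χ ≤ T - 3 * κ + 1 ∧ 2 * T + 3 * κ - 1 ≤ V2 χ ∧
        V2 χ ≤ 2 * T + 3 * κ) →
      ∑ χ ∈ FQs q, (1 / ((FQs q).card : ℝ)) *
        NB (fun z => LH (pr q χ) (z - ((3 / 2 * T : ℝ) : ℂ) * I)) (V1 χ) (V2 χ) T κe Λ ≤
        C * ℒ := by
  classical
  obtain ⟨C0, X₀, B, hC0, hd⟩ := lrg_densR cd pr hprim
    (c := 1 / 2) (by norm_num) (by norm_num)
  obtain ⟨C1, hC1, hav⟩ := avg_NB_R cd pr hprim X₀ C0 B hC0 hd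
  obtain ⟨C2, hC2, hcnt⟩ := zcount_longB A hA
  obtain ⟨K, hK, hsc⟩ := small_card X₀
  refine ⟨4 * (C1 * 2 + K * C2), B, by positivity, ?_⟩
  intro q T κ κe Λ ℒ E H q0 a V1 V2 hq8 hℒ hG hκe hκ hκT hΛ hΛ2 hB hH hTN hV
  have hq : q ≠ 0 := by
    rintro rfl
    simp [nrm] at hq8
  obtain ⟨N, hN⟩ : ∃ N : ℝ, N = (phiQ q : ℝ) := ⟨_, rfl⟩
  have hN0 : 0 < N := by rw [hN]; exact phi_pos' hq
  have hcard := H385.fq_card q (by omega)
  obtain ⟨cr, hcr⟩ : ∃ cr : ℝ, cr = ((FQs q).card : ℝ) := ⟨_, rfl⟩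
  rw [← hcr] at hcard ⊢
  rw [← hN] at hcard
  have hcr0 : 0 < cr := by rw [hcard]; positivity
  obtain ⟨f, hf⟩ : ∃ f : MulChar (RQ q) ℂ → ℝ, ∀ χ, f χ =
      NB (fun z => LH (pr q χ) (z - ((3 / 2 * T : ℝ) : ℂ) * I)) (V1 χ) (V2 χ) T κe Λ :=
    ⟨_, fun _ => rfl⟩
  have hf' : ∑ χ ∈ FQs q, (1 / cr) *
        NB (fun z => LH (pr q χ) (z - ((3 / 2 * T : ℝ) : ℂ) * I)) (V1 χ) (V2 χ) T κe Λ =
      (1 / cr) * ∑ χ ∈ FQs q, f χ := by
    rw [Finset.mul_sum]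
    exact Finset.sum_congr rfl fun χ _ => by rw [hf]
  rw [hf']
  have hT1 : 1 ≤ T := by linarith
  -- the large conductors
  have h1 : ∑ χ ∈ (FQs q).filter (fun χ => X₀ ≤ (nrm (cd q χ) : ℝ)), f χ ≤ C1 * (N * (2 * ℒ)) := by
    have h2 := hav q T κ κe Λ (fun χ => if χ ∈ FQs q then V1 χ else T)
      (fun χ => if χ ∈ FQs q then V2 χ else T) hq8 hT1 (by linarith) (by linarith) hκ hΛ
      (by rw [hℒ]; exact hΛ2) hB (by
        intro χ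
        by_cases h : χ ∈ FQs q
        · obtain ⟨a1, a2, a3, a4⟩ := hV χ h
          simp only [h, if_true]
          exact ⟨a1, a4⟩
        · simp only [h, if_false]
          constructor <;> linarith)
    rw [← hN, hℒ] at h2
    refine le_trans (le_of_eq ?_) h2
    refine Finset.sum_congr rfl fun χ hχ => ?_
    rw [hf]
    simp only [(Finset.mem_filter.mp hχ).1, if_true]
  -- the small conductors
  have h2 : ∑ χ ∈ (FQs q).filter (fun χ => ¬ X₀ ≤ (nrm (cd q χ) : ℝ)), f χ ≤ K * (C2 * N * ℒ) := by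
    have h3 : ∀ χ ∈ (FQs q).filter (fun χ => ¬ X₀ ≤ (nrm (cd q χ) : ℝ)), f χ ≤ C2 * N * ℒ := by
      intro χ hχ
      have hχ' := (Finset.mem_filter.mp hχ).1
      obtain ⟨a1, a2, a3, a4⟩ := hV χ hχ'
      have hGχ := hG χ hχ'
      have hL1 := hGχ.hL
      rw [hf]
      refine (NB_le hGχ _ _ _ _ _).trans ?_
      have h4 := hcnt ℒ E H (q0 χ) _ (a χ) hGχ (V1 χ) (V2 χ) (by linarith) (by
        have : |V1 χ| ≤ T + 3 * κ := by rw [abs_le]; constructor <;> linarith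
        linarith) (by
        have : |V2 χ| ≤ 2 * T + 3 * κ := by rw [abs_le]; constructor <;> linarith
        linarith)
      refine h4.trans ?_
      have h5 : V2 χ - V1 χ ≤ N := by
        rw [← hN] at hTN
        linarith
      have h6 : C2 * (V2 χ - V1 χ) ≤ C2 * N := mul_le_mul_of_nonneg_left h5 hC2.le
      exact mul_le_mul_of_nonneg_right h6 (by linarith)
    refine (Finset.sum_le_sum h3).trans ?_
    rw [Finset.sum_const, nsmul_eq_mul]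
    rcases (FQs q).eq_empty_or_nonempty with hE | ⟨χ₀, hχ₀⟩
    · rw [hcr, hE] at hcr0
      simp at hcr0
    have hL1 := (hG χ₀ hχ₀).hL
    refine mul_le_mul_of_nonneg_right (hsc cd pr hprim q hq) ?_
    have : 0 < ℒ := by linarith
    positivity
  have hL0 : 0 < ℒ := by linarith
  have h3 : ∑ χ ∈ FQs q, f χ ≤ (C1 * 2 + K * C2) * (N * ℒ) := by
    rw [← Finset.sum_filter_add_sum_filter_not (FQs q) (fun χ => X₀ ≤ (nrm (cd q χ) : ℝ))]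
    calc _ ≤ C1 * (N * (2 * ℒ)) + K * (C2 * N * ℒ) := add_le_add h1 h2
      _ = _ := by ring
  calc (1 / cr) * ∑ χ ∈ FQs q, f χ ≤ (1 / cr) * ((C1 * 2 + K * C2) * (N * ℒ)) :=
        mul_le_mul_of_nonneg_left h3 (by positivity)
    _ = 4 * (C1 * 2 + K * C2) * ℒ := by
        have h4 : N = 4 * cr := by rw [hcard]; ring
        rw [h4]
        field_simp

end Pool.Agent.A856.BH
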