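import Pool.Agent.A856.BH.AvgNB
import Pool.Agent.A856.BH.LrgK
import Pool.Agent.A856.BH.Core2R

/-!
# The average over the characters of the number of bad zeros, one odd infinity type

(`AvgR.lean`, `Core2R.lean` for infinity type one.)  Owner helper856.
-/

set_option autoImplicit false

open NumberField Complex Filter Topology Set MeasureTheory
open H370 (zset mult NN Nd Ns)

namespace Pool.Agent.A856.BH

open Pool.Agent.A856.SD (Zst Zst_bdd fin_zeros cnt_cover)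
open Pool.Agent.H304R3.HK (tc tc_star_mul one_le_norm_tc)
open Pool.Agent.W354.PK (HCk psik LK aK bK uh_psik goodK)
open Pool.Agent.Y762.HK (PrimData cond_all AllC mem_AllC)
open Pool.Agent.Y762.EG (FQk mem_FQk card_FQk)
open H385 (ZI RQ chiZ phiQ nrm im1)
open Pool.Agent.A856.SE (nzK nzK_zero nzK_mono dens_exactK pr_injK tc_nrm hck_finite sum_Dv)

theorem avg_NB_K (cd : (q : ZI) → MulChar (RQ q) ℂ → ZI)
    (pr : (q : ZI) → MulChar (RQ q) ℂ → (ZI →* ℂ))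
    (hprim : ∀ q : ZI, q ≠ 0 → ∀ χ, PrimData q χ (cd q χ) (pr q χ)) (l : ℕ)
    (X₀ C0 : ℝ) (B : ℕ) (hC0 : 0 < C0)
    (hdens : ∀ q : ZI, 8 ≤ nrm q → ∀ δ t : ℝ, 0 ≤ δ →
      ∑ χ ∈ (open Classical in (FQk q (2 * l + 1)).filter (fun χ => X₀ ≤ (nrm (cd q χ) : ℝ))),
        nzK (2 * l + 1) (pr q χ) δ t (1 / Real.log (nrm q)) ≤
        C0 * rho q * (1 + |t|) ^ B * (nrm q : ℝ) ^ (1 - 1 / 2 * δ)) :
    ∃ C : ℝ, 0 < C ∧ ∀ (q : ZI) (T κ κe Λ : ℝ) (V1 V2 : MulChar (RQ q) ℂ → ℝ),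
      8 ≤ nrm q → 1 ≤ T → 1 ≤ κe → κe ≤ T → κe ≤ κ → 0 < Λ →
      Λ ≤ Real.log (nrm q) → rho q ^ 2 * (1 + T) ^ (B + 1) ≤ Real.exp (κe ^ 2 / 32) →
      (∀ χ, T - 3 * κ ≤ V1 χ ∧ V2 χ ≤ 2 * T + 3 * κ) →
      ∑ χ ∈ (open Classical in (FQk q (2 * l + 1)).filter (fun χ => X₀ ≤ (nrm (cd q χ) : ℝ))),
        NB (fun z => LK (2 * l + 1) (pr q χ) (z - ((3 / 2 * T : ℝ) : ℂ) * I)) (V1 χ) (V2 χ) T κe Λ ≤
        C * ((phiQ q : ℝ) * Real.log (nrm q)) := by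
  classical
  obtain ⟨S, hS0, hS⟩ := avgNB_summ B
  refine ⟨3 ^ (B + 2) * C0 * (S + 1), by positivity, ?_⟩
  intro q T κ κe Λ V1 V2 h8 hT hκe hκT hκκ hΛ hΛL hexp hV
  have hq : q ≠ 0 := by
    rintro rfl
    simp [nrm] at h8
  obtain ⟨Y, hY⟩ : ∃ Y : Finset (MulChar (RQ q) ℂ), Y =
      (open Classical in (FQk q (2 * l + 1)).filter (fun χ => X₀ ≤ (nrm (cd q χ) : ℝ))) := ⟨_, rfl⟩
  have hρ1 := rho_ge hq
  have hρe := rho_mul hq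
  obtain ⟨ρ, hρ⟩ : ∃ ρ : ℝ, ρ = rho q := ⟨_, rfl⟩
  have hd := hdens q h8
  rw [← hY] at hd ⊢
  rw [← hρ] at hρ1 hρe hd hexp
  have hρ0 : 0 < ρ := by linarith
  obtain ⟨C1, hC1d⟩ : ∃ C1 : ℝ, C1 = C0 * ρ := ⟨_, rfl⟩
  have hC1 : 0 < C1 := by rw [hC1d]; positivity
  rw [← hC1d] at hd
  have hYH : ∀ χ ∈ Y, HCk (2 * l + 1) (cd q χ) (pr q χ) := by
    intro χ hχ
    rw [hY, Finset.mem_filter] at hχ
    exact (hprimK cd pr hprim (2 * l + 1) q hq χ hχ.1).2.1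
  obtain ⟨N, hN⟩ : ∃ N : ℝ, N = (nrm q : ℝ) := ⟨_, rfl⟩
  have hN8 : (8 : ℝ) ≤ N := by rw [hN]; exact_mod_cast h8
  have hN0 : 0 < N := by linarith
  rw [← hN] at hd hΛL hρe ⊢
  obtain ⟨L, hL⟩ : ∃ L : ℝ, L = Real.log N := ⟨_, rfl⟩
  rw [← hL] at hd hΛL ⊢
  have hL1 : 1 ≤ L := by
    rw [hL, Real.le_log_iff_exp_le hN0]
    have := Real.exp_one_lt_d9
    linarith
  have hL0 : 0 < L := by linarith
  have hr : 0 < 1 / L := by positivity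
  -- the bound for one distance
  have hone : ∀ δ R : ℝ, 0 ≤ δ → 0 ≤ R → ∃ J : ℝ, 0 ≤ J ∧ J ≤ 3 * (2 + R) * L ∧
      ∑ χ ∈ Y, nzK (2 * l + 1) (pr q χ) δ 0 R ≤ J * (C1 * (2 + R) ^ B * N ^ (1 - 1 / 2 * δ)) := by
    intro δ R hδ hR
    obtain ⟨J, hJ⟩ : ∃ J : Finset ℤ, J = Finset.Icc (-⌈R / (1 / L)⌉₊ : ℤ) ⌈R / (1 / L)⌉₊ :=
      ⟨_, rfl⟩
    have hceil : (⌈R / (1 / L)⌉₊ : ℝ) ≤ R * L + 1 := by
      have h0 := (Nat.ceil_lt_add_one (show 0 ≤ R / (1 / L) by positivity)).le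
      have h1' : R / (1 / L) = R * L := by rw [div_div_eq_mul_div, div_one]
      calc (⌈R / (1 / L)⌉₊ : ℝ) ≤ R / (1 / L) + 1 := h0
        _ = R * L + 1 := by rw [h1']
    have hJc : (J.card : ℝ) ≤ 3 * (2 + R) * L := by
      rw [hJ, Int.card_Icc]
      have h2 : ((⌈R / (1 / L)⌉₊ : ℤ) + 1 - (-(⌈R / (1 / L)⌉₊ : ℤ))).toNat =
          2 * ⌈R / (1 / L)⌉₊ + 1 := by
        omega
      rw [h2]
      push_cast
      nlinarith
    refine ⟨(J.card : ℝ), Nat.cast_nonneg _, hJc, ?_⟩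
    have h1 : ∀ χ ∈ Y, nzK (2 * l + 1) (pr q χ) δ 0 R ≤ ∑ j ∈ J, nzK (2 * l + 1) (pr q χ) δ ((j : ℝ) * (1 / L)) (1 / L) := by
      intro χ hχ
      rw [hJ]
      exact cnt_cover (Pool.Agent.A856.SE.LK_diff (by omega) (hYH χ hχ))
        (Pool.Agent.A856.SE.LK_nz (by omega) (hYH χ hχ)) _ hr
    refine (Finset.sum_le_sum h1).trans ?_
    rw [Finset.sum_comm]
    have h2 : ∀ j ∈ J, ∑ χ ∈ Y, nzK (2 * l + 1) (pr q χ) δ ((j : ℝ) * (1 / L)) (1 / L) ≤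
        C1 * (2 + R) ^ B * N ^ (1 - 1 / 2 * δ) := by
      intro j hj
      have h4 : |(j : ℝ) * (1 / L)| ≤ R + 1 := by
        rw [abs_mul, abs_of_pos hr]
        have h5 : |(j : ℝ)| ≤ R * L + 1 := by
          rw [hJ, Finset.mem_Icc] at hj
          refine le_trans ?_ hceil
          rw [abs_le]
          constructor
          · have := hj.1
            have h6 : ((-(⌈R / (1 / L)⌉₊ : ℤ) : ℤ) : ℝ) ≤ (j : ℝ) := by exact_mod_cast this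
            push_cast at h6
            exact h6
          · have h6 : (j : ℝ) ≤ ((⌈R / (1 / L)⌉₊ : ℤ) : ℝ) := by exact_mod_cast hj.2
            push_cast at h6
            exact h6
        rw [mul_one_div, div_le_iff₀ hL0]
        nlinarith
      refine (hd δ _ hδ).trans ?_
      have h5 : 1 + |(j : ℝ) * (1 / L)| ≤ 2 + R := by linarith
      have h6 : (0 : ℝ) ≤ N ^ (1 - 1 / 2 * δ) := (Real.rpow_pos_of_pos hN0 _).le
      have h7 : (1 + |(j : ℝ) * (1 / L)|) ^ B ≤ (2 + R) ^ B :=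
        pow_le_pow_left₀ (by positivity) h5 B
      exact mul_le_mul_of_nonneg_right (mul_le_mul_of_nonneg_left h7 hC1.le) h6
    refine (Finset.sum_le_sum h2).trans (le_of_eq ?_)
    rw [Finset.sum_const, nsmul_eq_mul]
  -- sum over the characters and the distances
  have hA : ∀ χ ∈ Y, NB (fun z => LK (2 * l + 1) (pr q χ) (z - ((3 / 2 * T : ℝ) : ℂ) * I)) (V1 χ) (V2 χ) T κe Λ ≤
      ∑ k ∈ Finset.range (⌊3 * κ⌋₊ + 1),
        nzK (2 * l + 1) (pr q χ) ((κe + (k : ℝ)) ^ 2 / (16 * Λ)) 0 (T / 2 + κe + k + 1) := by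
    intro χ hχ
    exact avgNB_one (LK (2 * l + 1) (pr q χ)) (Pool.Agent.A856.SE.LK_diff (by omega) (hYH χ hχ))
      (Pool.Agent.A856.SE.LK_nz (by omega) (hYH χ hχ)) hκe hΛ (hV χ).1 (hV χ).2
  refine (Finset.sum_le_sum hA).trans ?_
  rw [Finset.sum_comm]
  have hB : ∀ k ∈ Finset.range (⌊3 * κ⌋₊ + 1),
      ∑ χ ∈ Y, nzK (2 * l + 1) (pr q χ) ((κe + (k : ℝ)) ^ 2 / (16 * Λ)) 0 (T / 2 + κe + k + 1) ≤
        3 ^ (B + 2) * C1 * (N * L) * ((1 / ρ ^ 2) *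
          ((1 + (k : ℝ)) ^ (B + 1) * Real.exp (-((k : ℝ) ^ 2 / 32)))) := by
    intro k _
    have hk0 : (0 : ℝ) ≤ k := Nat.cast_nonneg k
    obtain ⟨J, hJ0, hJ1, hJ2⟩ := hone ((κe + (k : ℝ)) ^ 2 / (16 * Λ)) (T / 2 + κe + k + 1)
      (by positivity) (by positivity)
    exact hJ2.trans (avgNB_numR (by positivity) hC1 hN0 hL hL1 hT hκe hκT hΛ hΛL hk0 hexp hJ0 hJ1)
  refine (Finset.sum_le_sum hB).trans ?_
  rw [← Finset.mul_sum, ← Finset.mul_sum]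
  have h1 := hS (⌊3 * κ⌋₊ + 1)
  calc 3 ^ (B + 2) * C1 * (N * L) * ((1 / ρ ^ 2) * ∑ k ∈ Finset.range (⌊3 * κ⌋₊ + 1),
        (1 + (k : ℝ)) ^ (B + 1) * Real.exp (-((k : ℝ) ^ 2 / 32)))
      ≤ 3 ^ (B + 2) * C1 * (N * L) * ((1 / ρ ^ 2) * (S + 1)) := by
        have : ∑ k ∈ Finset.range (⌊3 * κ⌋₊ + 1),
          (1 + (k : ℝ)) ^ (B + 1) * Real.exp (-((k : ℝ) ^ 2 / 32)) ≤ S + 1 := by linarith
        gcongr
    _ = 3 ^ (B + 2) * C0 * (S + 1) * ((phiQ q : ℝ) * L) := by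
        rw [← hρe, hC1d]
        field_simp


/-- the average of the number of the bad zeros -/
theorem nb_totalK (cd : (q : ZI) → MulChar (RQ q) ℂ → ZI)
    (pr : (q : ZI) → MulChar (RQ q) ℂ → (ZI →* ℂ))
    (hprim : ∀ q : ZI, q ≠ 0 → ∀ χ, PrimData q χ (cd q χ) (pr q χ)) (l : ℕ)
    (A : ℝ) (hA : 1 ≤ A) :
    ∃ (C : ℝ) (B : ℕ), 0 < C ∧ ∀ (q : ZI) (T κ κe Λ ℒ E H : ℝ) (q0 : MulChar (RQ q) ℂ → ℝ)
      (a : MulChar (RQ q) ℂ → ℕ → ℂ) (V1 V2 : MulChar (RQ q) ℂ → ℝ),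
      8 ≤ nrm q → Real.log (nrm q) = 2 * ℒ →
      (∀ χ ∈ FQk q (2 * l + 1), GoodB A ℒ E H (q0 χ)
        (fun z => LK (2 * l + 1) (pr q χ) (z - ((3 / 2 * T : ℝ) : ℂ) * I)) (a χ)) →
      3 ≤ κe → κe ≤ κ → 4 * κe ≤ T → 0 < Λ → Λ ≤ 2 * ℒ →
      rho q ^ 2 * (1 + T) ^ (B + 1) ≤ Real.exp (κe ^ 2 / 32) → 2 * T + 3 * κ + 6 ≤ H →
      T + 6 * κ ≤ phiQ q →
      (∀ χ ∈ FQk q (2 * l + 1), T - 3 * κ ≤ V1 χ ∧ V1 χ ≤ T - 3 * κ + 1 ∧ 2 * T + 3 * κ - 1 ≤ V2 χ ∧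
        V2 χ ≤ 2 * T + 3 * κ) →
      ∑ χ ∈ FQk q (2 * l + 1), (1 / ((FQk q (2 * l + 1)).card : ℝ)) *
        NB (fun z => LK (2 * l + 1) (pr q χ) (z - ((3 / 2 * T : ℝ) : ℂ) * I)) (V1 χ) (V2 χ) T κe Λ ≤
        C * ℒ := by
  classical
  obtain ⟨C0, X₀, B, hC0, hd⟩ := lrg_densK cd pr hprim l
    (c := 1 / 2) (by norm_num) (by norm_num)
  obtain ⟨C1, hC1, hav⟩ := avg_NB_K cd pr hprim l X₀ C0 B hC0 hd
  obtain ⟨C2, hC2, hcnt⟩ := zcount_longB A hA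
  obtain ⟨K, hK, hsc⟩ := small_cardK l X₀
  refine ⟨4 * (C1 * 2 + K * C2), B, by positivity, ?_⟩
  intro q T κ κe Λ ℒ E H q0 a V1 V2 hq8 hℒ hG hκe hκ hκT hΛ hΛ2 hB hH hTN hV
  have hq : q ≠ 0 := by
    rintro rfl
    simp [nrm] at hq8
  obtain ⟨N, hN⟩ : ∃ N : ℝ, N = (phiQ q : ℝ) := ⟨_, rfl⟩
  have hN0 : 0 < N := by rw [hN]; exact phi_pos' hq
  have hcard := card_FQk (q := q) (by omega) (2 * l + 1)
  obtain ⟨cr, hcr⟩ : ∃ cr : ℝ, cr = ((FQk q (2 * l + 1)).card : ℝ) := ⟨_, rfl⟩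
  rw [← hcr] at hcard ⊢
  rw [← hN] at hcard
  have hcr0 : 0 < cr := by rw [hcard]; positivity
  obtain ⟨f, hf⟩ : ∃ f : MulChar (RQ q) ℂ → ℝ, ∀ χ, f χ =
      NB (fun z => LK (2 * l + 1) (pr q χ) (z - ((3 / 2 * T : ℝ) : ℂ) * I)) (V1 χ) (V2 χ) T κe Λ :=
    ⟨_, fun _ => rfl⟩
  have hf' : ∑ χ ∈ FQk q (2 * l + 1), (1 / cr) *
        NB (fun z => LK (2 * l + 1) (pr q χ) (z - ((3 / 2 * T : ℝ) : ℂ) * I)) (V1 χ) (V2 χ) T κe Λ =
      (1 / cr) * ∑ χ ∈ FQk q (2 * l + 1), f χ := by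
    rw [Finset.mul_sum]
    exact Finset.sum_congr rfl fun χ _ => by rw [hf]
  rw [hf']
  have hT1 : 1 ≤ T := by linarith
  -- the large conductors
  have h1 : ∑ χ ∈ (FQk q (2 * l + 1)).filter (fun χ => X₀ ≤ (nrm (cd q χ) : ℝ)), f χ ≤ C1 * (N * (2 * ℒ)) := by
    have h2 := hav q T κ κe Λ (fun χ => if χ ∈ FQk q (2 * l + 1) then V1 χ else T)
      (fun χ => if χ ∈ FQk q (2 * l + 1) then V2 χ else T) hq8 hT1 (by linarith) (by linarith) hκ hΛ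
      (by rw [hℒ]; exact hΛ2) hB (by
        intro χ
        by_cases h : χ ∈ FQk q (2 * l + 1)
        · obtain ⟨a1, a2, a3, a4⟩ := hV χ h
          simp only [h, if_true]
          exact ⟨a1, a4⟩
        · simp only [h, if_false]
          constructor <;> linarith)
    rw [← hN, hℒ] at h2
    refine le_trans (le_of_eq ?_) h2
    refine Finset.sum_congr rfl fun χ hχ => ?_
    rw [hf]
    simp only [(Finset.mem_filter.mp hχ).1, if_true]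
  -- the small conductors
  have h2 : ∑ χ ∈ (FQk q (2 * l + 1)).filter (fun χ => ¬ X₀ ≤ (nrm (cd q χ) : ℝ)), f χ ≤ K * (C2 * N * ℒ) := by
    have h3 : ∀ χ ∈ (FQk q (2 * l + 1)).filter (fun χ => ¬ X₀ ≤ (nrm (cd q χ) : ℝ)), f χ ≤ C2 * N * ℒ := by
      intro χ hχ
      have hχ' := (Finset.mem_filter.mp hχ).1
      obtain ⟨a1, a2, a3, a4⟩ := hV χ hχ'
      have hGχ := hG χ hχ'
      have hL1 := hGχ.hL
      rw [hf]
      refine (NB_le hGχ _ _ _ _ _).trans ?_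
      have h4 := hcnt ℒ E H (q0 χ) _ (a χ) hGχ (V1 χ) (V2 χ) (by linarith) (by
        have : |V1 χ| ≤ T + 3 * κ := by rw [abs_le]; constructor <;> linarith
        linarith) (by
        have : |V2 χ| ≤ 2 * T + 3 * κ := by rw [abs_le]; constructor <;> linarith
        linarith)
      refine h4.trans ?_
      have h5 : V2 χ - V1 χ ≤ N := by
        rw [← hN] at hTN
        linarith
      have h6 : C2 * (V2 χ - V1 χ) ≤ C2 * N := mul_le_mul_of_nonneg_left h5 hC2.le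
      exact mul_le_mul_of_nonneg_right h6 (by linarith)
    refine (Finset.sum_le_sum h3).trans ?_
    rw [Finset.sum_const, nsmul_eq_mul]
    rcases (FQk q (2 * l + 1)).eq_empty_or_nonempty with hE | ⟨χ₀, hχ₀⟩
    · rw [hcr, hE] at hcr0
      simp at hcr0
    have hL1 := (hG χ₀ hχ₀).hL
    refine mul_le_mul_of_nonneg_right (hsc cd pr hprim q hq) ?_
    have : 0 < ℒ := by linarith
    positivity
  have hL0 : 0 < ℒ := by linarith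
  have h3 : ∑ χ ∈ FQk q (2 * l + 1), f χ ≤ (C1 * 2 + K * C2) * (N * ℒ) := by
    rw [← Finset.sum_filter_add_sum_filter_not (FQk q (2 * l + 1)) (fun χ => X₀ ≤ (nrm (cd q χ) : ℝ))]
    calc _ ≤ C1 * (N * (2 * ℒ)) + K * (C2 * N * ℒ) := add_le_add h1 h2
      _ = _ := by ring
  calc (1 / cr) * ∑ χ ∈ FQk q (2 * l + 1), f χ ≤ (1 / cr) * ((C1 * 2 + K * C2) * (N * ℒ)) :=
        mul_le_mul_of_nonneg_left h3 (by positivity)
    _ = 4 * (C1 * 2 + K * C2) * ℒ := by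
        have h4 : N = 4 * cr := by rw [hcard]; ring
        rw [h4]
        field_simp


end Pool.Agent.A856.BH
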