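import Pool.Agent.A856.BH.Defs
import Pool.Agent.A856.SE.Fam2
import Pool.Agent.A856.SD.Near

/-!
# The average over the characters of the number of bad zeros

Job of helper856, proved by helper732.
-/

set_option autoImplicit false

open Complex Filter Topology Set MeasureTheory
open H370 (zset mult NN Nd Ns)

namespace Pool.Agent.A856.BH

open Pool.Agent.H304R3.HK (tc HC psi LH)
open H385 (ZI RQ chiZ FQs phiQ nrm)
open Pool.Agent.A856.SE (nz)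
open Pool.Agent.A856.SD (Zst Zst_bdd fin_zeros cnt_cover)

lemma avgNB_ord (G : ℂ → ℂ) (c s : ℂ) :
    analyticOrderNatAt (fun z => G (z - c)) s = analyticOrderNatAt G (s - c) := by
  have hg : AnalyticAt ℂ (fun z : ℂ => z - c) s := by fun_prop
  have hd : deriv (fun z : ℂ => z - c) s ≠ 0 := by
    simp
  have h := analyticOrderAt_comp_of_deriv_ne_zero (f := G) hg hd
  unfold analyticOrderNatAt
  have h2 : (fun z : ℂ => G (z - c)) = G ∘ (fun z : ℂ => z - c) := rfl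
  rw [h2, h]

/-- one bad zero -/
lemma avgNB_mem (G : ℂ → ℂ) {V1 V2 T κ κe Λ : ℝ} (hκe : 1 ≤ κe) (hΛ : 0 < Λ)
    (hV1 : T - 3 * κ ≤ V1) (hV2 : V2 ≤ 2 * T + 3 * κ) {s : ℂ}
    (hs : s ∈ bad (fun z => G (z - ((3 / 2 * T : ℝ) : ℂ) * I)) V1 V2 T κe Λ) :
    ∃ k ∈ Finset.range (⌊3 * κ⌋₊ + 1), s - ((3 / 2 * T : ℝ) : ℂ) * I ∈
      Zst G ((κe + (k : ℝ)) ^ 2 / (16 * Λ)) 0 (T / 2 + κe + k + 1) := by
  obtain ⟨⟨h1, h2, h3, h4, h5⟩, h6, h7⟩ := hs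
  have hre : (s - ((3 / 2 * T : ℝ) : ℂ) * I).re = s.re := by
    rw [sub_re, re_ofReal_mul, I_re, mul_zero, sub_zero]
  have him : (s - ((3 / 2 * T : ℝ) : ℂ) * I).im = s.im - 3 / 2 * T := by
    rw [sub_im, im_ofReal_mul, I_im, mul_one]
  have hdd : |s.im - 3 / 2 * T| = dd T s + T / 2 := by
    unfold dd
    rcases le_total 0 (s.im - 3 / 2 * T) with h | h
    · rw [abs_of_nonneg h, max_eq_right (by linarith)]
      ring
    · rw [abs_of_nonpos h, max_eq_left (by linarith)]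
      ring
  have hd3 : dd T s ≤ 3 * κ := by
    unfold dd
    exact max_le (by linarith) (by linarith)
  have hf0 : 0 ≤ dd T s - κe := by linarith
  have hf1 := Nat.floor_le hf0
  have hf2 := Nat.lt_floor_add_one (dd T s - κe)
  obtain ⟨k, hk⟩ : ∃ k : ℕ, k = ⌊dd T s - κe⌋₊ := ⟨_, rfl⟩
  rw [← hk] at hf1 hf2
  have hk0 : (0 : ℝ) ≤ k := Nat.cast_nonneg k
  refine ⟨k, ?_, h5, ?_, ?_, ?_, ?_⟩
  · rw [Finset.mem_range, Nat.lt_succ_iff]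
    exact Nat.le_floor (by linarith)
  · rw [hre]; exact h1
  · rw [hre]; exact h2
  · rw [hre, div_le_iff₀ (by positivity)]
    have h8 : (κe + (k : ℝ)) ^ 2 ≤ (dd T s) ^ 2 :=
      pow_le_pow_left₀ (by positivity) (by linarith) 2
    linarith
  · rw [him, sub_zero, hdd]
    linarith

/-- the bad zeros of one function -/
lemma avgNB_one (G : ℂ → ℂ) (hG : Differentiable ℂ G) (hnz : ∃ z, G z ≠ 0)
    {V1 V2 T κ κe Λ : ℝ} (hκe : 1 ≤ κe) (hΛ : 0 < Λ)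
    (hV1 : T - 3 * κ ≤ V1) (hV2 : V2 ≤ 2 * T + 3 * κ) :
    NB (fun z => G (z - ((3 / 2 * T : ℝ) : ℂ) * I)) V1 V2 T κe Λ ≤
      ∑ k ∈ Finset.range (⌊3 * κ⌋₊ + 1),
        ∑ᶠ ρ ∈ Zst G ((κe + (k : ℝ)) ^ 2 / (16 * Λ)) 0 (T / 2 + κe + k + 1),
          (analyticOrderNatAt G ρ : ℝ) := by
  classical
  obtain ⟨c, hc⟩ : ∃ c : ℂ, c = ((3 / 2 * T : ℝ) : ℂ) * I := ⟨_, rfl⟩
  have hmem := fun s (hs : s ∈ bad (fun z => G (z - ((3 / 2 * T : ℝ) : ℂ) * I)) V1 V2 T κe Λ) =>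
    avgNB_mem G hκe hΛ hV1 hV2 hs
  rw [← hc] at hmem ⊢
  obtain ⟨Zk, hZk⟩ : ∃ Zk : ℕ → Set ℂ, ∀ k, Zk k =
      Zst G ((κe + (k : ℝ)) ^ 2 / (16 * Λ)) 0 (T / 2 + κe + k + 1) := ⟨_, fun _ => rfl⟩
  simp only [← hZk] at hmem ⊢
  have hZf : ∀ k, (Zk k).Finite := fun k => by
    rw [hZk]
    exact fin_zeros hG hnz (Zst_bdd _ _ _ _) fun z hz => hz.1
  obtain ⟨A, hA⟩ : ∃ A : Set ℂ, A = bad (fun z => G (z - c)) V1 V2 T κe Λ := ⟨_, rfl⟩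
  unfold NB
  rw [← hA] at hmem ⊢
  have hinj : Function.Injective (fun s : ℂ => s - c) := fun a b h => by simpa using h
  have hAf : A.Finite := by
    have h1 : ((fun s : ℂ => s - c) '' A).Finite := by
      refine Set.Finite.subset (Set.Finite.biUnion
        (Finset.finite_toSet (Finset.range (⌊3 * κ⌋₊ + 1))) fun k _ => hZf k) ?_
      rintro _ ⟨s, hs, rfl⟩
      obtain ⟨k, hk, h2⟩ := hmem s hs
      rw [Set.mem_iUnion₂]
      exact ⟨k, hk, h2⟩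
    exact Set.Finite.of_finite_image h1 hinj.injOn
  rw [finsum_mem_eq_finite_toFinset_sum _ hAf]
  have e1 : ∀ k ∈ Finset.range (⌊3 * κ⌋₊ + 1),
      ∑ᶠ ρ ∈ Zk k, (analyticOrderNatAt G ρ : ℝ) =
        ∑ ρ ∈ (hZf k).toFinset, (analyticOrderNatAt G ρ : ℝ) := fun k _ =>
    finsum_mem_eq_finite_toFinset_sum _ _
  rw [Finset.sum_congr rfl e1]
  have h1 : ∀ s ∈ hAf.toFinset, (mult (fun z => G (z - c)) s : ℝ) ≤
      ∑ k ∈ Finset.range (⌊3 * κ⌋₊ + 1),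
        if s - c ∈ Zk k then (analyticOrderNatAt G (s - c) : ℝ) else 0 := by
    intro s hs
    rw [Set.Finite.mem_toFinset] at hs
    obtain ⟨k, hk, h2⟩ := hmem s hs
    have h3 : (if s - c ∈ Zk k then (analyticOrderNatAt G (s - c) : ℝ) else 0) ≤
        ∑ k ∈ Finset.range (⌊3 * κ⌋₊ + 1),
          if s - c ∈ Zk k then (analyticOrderNatAt G (s - c) : ℝ) else 0 :=
      Finset.single_le_sum (f := fun k => if s - c ∈ Zk k then
        (analyticOrderNatAt G (s - c) : ℝ) else 0) (fun i _ => by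
          split_ifs
          · exact Nat.cast_nonneg _
          · exact le_refl _) hk
    rw [if_pos h2] at h3
    refine le_trans (le_of_eq ?_) h3
    unfold mult
    rw [avgNB_ord G c s]
  refine (Finset.sum_le_sum h1).trans ?_
  rw [Finset.sum_comm]
  refine Finset.sum_le_sum fun k _ => ?_
  rw [← Finset.sum_filter]
  have h4 : ∑ s ∈ hAf.toFinset.filter (fun s => s - c ∈ Zk k),
      (analyticOrderNatAt G (s - c) : ℝ) =
      ∑ ρ ∈ (hAf.toFinset.filter (fun s => s - c ∈ Zk k)).image (fun s => s - c),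
        (analyticOrderNatAt G ρ : ℝ) := by
    rw [Finset.sum_image fun a _ b _ h => hinj h]
  rw [h4]
  refine Finset.sum_le_sum_of_subset_of_nonneg ?_ fun _ _ _ => Nat.cast_nonneg _
  intro ρ hρ
  rw [Finset.mem_image] at hρ
  obtain ⟨s, hs, rfl⟩ := hρ
  rw [Finset.mem_filter] at hs
  rw [Set.Finite.mem_toFinset]
  exact hs.2

/-- the sum over the distances -/
lemma avgNB_summ (B : ℕ) : ∃ S : ℝ, 0 ≤ S ∧ ∀ K : ℕ,
    ∑ k ∈ Finset.range K, (1 + (k : ℝ)) ^ (B + 1) * Real.exp (-((k : ℝ) ^ 2 / 32)) ≤ S := by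
  have h1 := Real.summable_pow_mul_exp_neg_nat_mul (B + 1) (show (0 : ℝ) < 1 / 32 by norm_num)
  have h2 := (summable_nat_add_iff 1).2 h1
  have hnn : ∀ k : ℕ, 0 ≤ ((k + 1 : ℕ) : ℝ) ^ (B + 1) *
      Real.exp (-(1 / 32) * ((k + 1 : ℕ) : ℝ)) := fun k => by positivity
  refine ⟨Real.exp (1 / 32) * ∑' k : ℕ, ((k + 1 : ℕ) : ℝ) ^ (B + 1) *
      Real.exp (-(1 / 32) * ((k + 1 : ℕ) : ℝ)), ?_, ?_⟩
  · exact mul_nonneg (Real.exp_pos _).le (tsum_nonneg hnn)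
  · intro K
    have h3 : ∑ k ∈ Finset.range K, ((k + 1 : ℕ) : ℝ) ^ (B + 1) *
        Real.exp (-(1 / 32) * ((k + 1 : ℕ) : ℝ)) ≤
        ∑' k : ℕ, ((k + 1 : ℕ) : ℝ) ^ (B + 1) * Real.exp (-(1 / 32) * ((k + 1 : ℕ) : ℝ)) :=
      h2.sum_le_tsum _ fun k _ => hnn k
    refine le_trans ?_ (mul_le_mul_of_nonneg_left h3 (Real.exp_pos _).le)
    rw [Finset.mul_sum]
    refine Finset.sum_le_sum fun k _ => ?_
    have h4 : Real.exp (-((k : ℝ) ^ 2 / 32)) ≤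
        Real.exp (1 / 32) * Real.exp (-(1 / 32) * ((k + 1 : ℕ) : ℝ)) := by
      rw [← Real.exp_add, Real.exp_le_exp]
      push_cast
      have h5 : (k : ℝ) ≤ (k : ℝ) ^ 2 := by exact_mod_cast Nat.le_self_pow two_ne_zero k
      linarith
    calc (1 + (k : ℝ)) ^ (B + 1) * Real.exp (-((k : ℝ) ^ 2 / 32))
        ≤ (1 + (k : ℝ)) ^ (B + 1) *
          (Real.exp (1 / 32) * Real.exp (-(1 / 32) * ((k + 1 : ℕ) : ℝ))) :=
          mul_le_mul_of_nonneg_left h4 (by positivity)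
      _ = Real.exp (1 / 32) * (((k + 1 : ℕ) : ℝ) ^ (B + 1) *
          Real.exp (-(1 / 32) * ((k + 1 : ℕ) : ℝ))) := by
          push_cast
          ring

/-- the numerical bound for one distance -/
lemma avgNB_num {N L C0 T κe Λ k : ℝ} {B : ℕ} (hC0 : 0 < C0) (hN : 0 < N) (hL : L = Real.log N)
    (hL1 : 1 ≤ L) (hT : 1 ≤ T) (hκe : 1 ≤ κe) (hκT : κe ≤ T) (hΛ : 0 < Λ) (hΛL : Λ ≤ L)
    (hk : 0 ≤ k) (hexp : (1 + T) ^ (B + 1) ≤ Real.exp (κe ^ 2 / 32)) {J : ℝ} (hJ0 : 0 ≤ J)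
    (hJ : J ≤ 3 * (2 + (T / 2 + κe + k + 1)) * L) :
    J * (C0 * (2 + (T / 2 + κe + k + 1)) ^ B * N ^ (1 - 1 / 2 * ((κe + k) ^ 2 / (16 * Λ)))) ≤
      3 ^ (B + 2) * C0 * (N * L) * ((1 + k) ^ (B + 1) * Real.exp (-(k ^ 2 / 32))) := by
  have hL0 : 0 < L := by linarith
  have h1 : N ^ (1 - 1 / 2 * ((κe + k) ^ 2 / (16 * Λ))) ≤
      N * (Real.exp (-(κe ^ 2 / 32)) * Real.exp (-(k ^ 2 / 32))) := by
    rw [sub_eq_add_neg, Real.rpow_add hN, Real.rpow_one]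
    refine mul_le_mul_of_nonneg_left ?_ hN.le
    rw [Real.rpow_def_of_pos hN, ← hL, ← Real.exp_add, Real.exp_le_exp]
    have h2 : (κe + k) ^ 2 / 32 ≤ L * (1 / 2 * ((κe + k) ^ 2 / (16 * Λ))) := by
      have h3 : L * (1 / 2 * ((κe + k) ^ 2 / (16 * Λ))) = (κe + k) ^ 2 / 32 * (L / Λ) := by
        field_simp
        ring
      rw [h3]
      have h4 : 1 ≤ L / Λ := by rw [le_div_iff₀ hΛ]; linarith
      have h5 : 0 ≤ (κe + k) ^ 2 / 32 := by positivity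
      nlinarith
    have h6 : 0 ≤ κe * k := by positivity
    nlinarith
  have hR0 : 0 ≤ 2 + (T / 2 + κe + k + 1) := by linarith
  have hR : 2 + (T / 2 + κe + k + 1) ≤ 3 * ((1 + T) * (1 + k)) := by nlinarith
  have hR2 : (2 + (T / 2 + κe + k + 1)) ^ (B + 1) ≤
      3 ^ (B + 1) * ((1 + T) ^ (B + 1) * (1 + k) ^ (B + 1)) := by
    refine (pow_le_pow_left₀ hR0 hR (B + 1)).trans (le_of_eq ?_)
    rw [mul_pow, mul_pow]
  have hTe : (1 + T) ^ (B + 1) * Real.exp (-(κe ^ 2 / 32)) ≤ 1 := by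
    rw [Real.exp_neg, ← div_eq_mul_inv, div_le_one (Real.exp_pos _)]
    exact hexp
  have hN0' : 0 ≤ N ^ (1 - 1 / 2 * ((κe + k) ^ 2 / (16 * Λ))) := (Real.rpow_pos_of_pos hN _).le
  have hP : 0 ≤ C0 * (2 + (T / 2 + κe + k + 1)) ^ B := by positivity
  calc J * (C0 * (2 + (T / 2 + κe + k + 1)) ^ B *
        N ^ (1 - 1 / 2 * ((κe + k) ^ 2 / (16 * Λ))))
      ≤ (3 * (2 + (T / 2 + κe + k + 1)) * L) * (C0 * (2 + (T / 2 + κe + k + 1)) ^ B *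
        (N * (Real.exp (-(κe ^ 2 / 32)) * Real.exp (-(k ^ 2 / 32))))) := by
        refine mul_le_mul hJ (mul_le_mul_of_nonneg_left h1 hP) (mul_nonneg hP hN0') ?_
        exact hJ0.trans hJ
    _ = 3 * C0 * (N * L) * ((2 + (T / 2 + κe + k + 1)) ^ (B + 1) *
        Real.exp (-(κe ^ 2 / 32)) * Real.exp (-(k ^ 2 / 32))) := by ring
    _ ≤ 3 * C0 * (N * L) * ((3 ^ (B + 1) * ((1 + T) ^ (B + 1) * (1 + k) ^ (B + 1))) *
        Real.exp (-(κe ^ 2 / 32)) * Real.exp (-(k ^ 2 / 32))) := by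
        gcongr
    _ = 3 ^ (B + 2) * C0 * (N * L) * (((1 + T) ^ (B + 1) * Real.exp (-(κe ^ 2 / 32))) *
        ((1 + k) ^ (B + 1) * Real.exp (-(k ^ 2 / 32)))) := by ring
    _ ≤ 3 ^ (B + 2) * C0 * (N * L) * (1 *
        ((1 + k) ^ (B + 1) * Real.exp (-(k ^ 2 / 32)))) := by
        gcongr
    _ = 3 ^ (B + 2) * C0 * (N * L) * ((1 + k) ^ (B + 1) * Real.exp (-(k ^ 2 / 32))) := by
        rw [one_mul]

theorem avg_NB_of (cd : (q : ZI) → MulChar (RQ q) ℂ → ZI)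
    (pr : (q : ZI) → MulChar (RQ q) ℂ → (ZI →* ℂ))
    (hprim : ∀ q : ZI, q ≠ 0 → ∀ χ ∈ FQs q, cd q χ ∣ q ∧ HC (cd q χ) (pr q χ) ∧
      ∀ a : ZI, IsCoprime a q → pr q χ a = chiZ q χ a)
    (κ0 X₀ C0 : ℝ) (B : ℕ) (hC0 : 0 < C0)
    (hdens : ∀ q : ZI, 8 ≤ nrm q → κ0 * (nrm q : ℝ) ≤ phiQ q → ∀ δ t : ℝ, 0 ≤ δ →
      ∑ χ ∈ (open Classical in (FQs q).filter (fun χ => X₀ ≤ (nrm (cd q χ) : ℝ))),
        nz (pr q χ) δ t (1 / Real.log (nrm q)) ≤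
        C0 * (1 + |t|) ^ B * (nrm q : ℝ) ^ (1 - 1 / 2 * δ)) :
    ∃ C : ℝ, 0 < C ∧ ∀ (q : ZI) (T κ κe Λ : ℝ) (V1 V2 : MulChar (RQ q) ℂ → ℝ),
      8 ≤ nrm q → κ0 * (nrm q : ℝ) ≤ phiQ q → 1 ≤ T → 1 ≤ κe → κe ≤ T → κe ≤ κ → 0 < Λ →
      Λ ≤ Real.log (nrm q) → (1 + T) ^ (B + 1) ≤ Real.exp (κe ^ 2 / 32) →
      (∀ χ, T - 3 * κ ≤ V1 χ ∧ V2 χ ≤ 2 * T + 3 * κ) →
      ∑ χ ∈ (open Classical in (FQs q).filter (fun χ => X₀ ≤ (nrm (cd q χ) : ℝ))),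
        NB (fun z => LH (pr q χ) (z - ((3 / 2 * T : ℝ) : ℂ) * I)) (V1 χ) (V2 χ) T κe Λ ≤
        C * ((nrm q : ℝ) * Real.log (nrm q)) := by
  classical
  obtain ⟨S, hS0, hS⟩ := avgNB_summ B
  refine ⟨3 ^ (B + 2) * C0 * (S + 1), by positivity, ?_⟩
  intro q T κ κe Λ V1 V2 h8 hφ hT hκe hκT hκκ hΛ hΛL hexp hV
  have hq : q ≠ 0 := by
    rintro rfl
    simp [nrm] at h8
  obtain ⟨Y, hY⟩ : ∃ Y : Finset (MulChar (RQ q) ℂ), Y =
      (open Classical in (FQs q).filter (fun χ => X₀ ≤ (nrm (cd q χ) : ℝ))) := ⟨_, rfl⟩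
  have hd := hdens q h8 hφ
  rw [← hY] at hd ⊢
  have hYH : ∀ χ ∈ Y, HC (cd q χ) (pr q χ) := by
    intro χ hχ
    rw [hY, Finset.mem_filter] at hχ
    exact (hprim q hq χ hχ.1).2.1
  obtain ⟨N, hN⟩ : ∃ N : ℝ, N = (nrm q : ℝ) := ⟨_, rfl⟩
  have hN8 : (8 : ℝ) ≤ N := by rw [hN]; exact_mod_cast h8
  have hN0 : 0 < N := by linarith
  rw [← hN] at hd hΛL ⊢
  obtain ⟨L, hL⟩ : ∃ L : ℝ, L = Real.log N := ⟨_, rfl⟩
  rw [← hL] at hd hΛL ⊢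
  have hL1 : 1 ≤ L := by
    rw [hL, Real.le_log_iff_exp_le hN0]
    have := Real.exp_one_lt_d9
    linarith
  have hL0 : 0 < L := by linarith
  have hr : 0 < 1 / L := by positivity
  -- the bound for one distance
  have hone : ∀ δ R : ℝ, 0 ≤ δ → 0 ≤ R → ∃ J : ℝ, 0 ≤ J ∧ J ≤ 3 * (2 + R) * L ∧
      ∑ χ ∈ Y, nz (pr q χ) δ 0 R ≤ J * (C0 * (2 + R) ^ B * N ^ (1 - 1 / 2 * δ)) := by
    intro δ R hδ hR
    obtain ⟨J, hJ⟩ : ∃ J : Finset ℤ, J = Finset.Icc (-⌈R / (1 / L)⌉₊ : ℤ) ⌈R / (1 / L)⌉₊ :=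
      ⟨_, rfl⟩
    have hceil : (⌈R / (1 / L)⌉₊ : ℝ) ≤ R * L + 1 := by
      have h0 := (Nat.ceil_lt_add_one (show 0 ≤ R / (1 / L) by positivity)).le
      have h1' : R / (1 / L) = R * L := by rw [div_div_eq_mul_div, div_one]
      calc (⌈R / (1 / L)⌉₊ : ℝ) ≤ R / (1 / L) + 1 := h0
        _ = R * L + 1 := by rw [h1']
    have hJc : (J.card : ℝ) ≤ 3 * (2 + R) * L := by
      rw [hJ, Int.card_Icc]
      have h2 : ((⌈R / (1 / L)⌉₊ : ℤ) + 1 - (-(⌈R / (1 / L)⌉₊ : ℤ))).toNat =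
          2 * ⌈R / (1 / L)⌉₊ + 1 := by
        omega
      rw [h2]
      push_cast
      nlinarith
    refine ⟨(J.card : ℝ), Nat.cast_nonneg _, hJc, ?_⟩
    have h1 : ∀ χ ∈ Y, nz (pr q χ) δ 0 R ≤ ∑ j ∈ J, nz (pr q χ) δ ((j : ℝ) * (1 / L)) (1 / L) := by
      intro χ hχ
      rw [hJ]
      exact cnt_cover (Pool.Agent.A856.SE.LH_diff (hYH χ hχ))
        (Pool.Agent.A856.SE.LH_nz (hYH χ hχ)) _ hr
    refine (Finset.sum_le_sum h1).trans ?_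
    rw [Finset.sum_comm]
    have h2 : ∀ j ∈ J, ∑ χ ∈ Y, nz (pr q χ) δ ((j : ℝ) * (1 / L)) (1 / L) ≤
        C0 * (2 + R) ^ B * N ^ (1 - 1 / 2 * δ) := by
      intro j hj
      have h4 : |(j : ℝ) * (1 / L)| ≤ R + 1 := by
        rw [abs_mul, abs_of_pos hr]
        have h5 : |(j : ℝ)| ≤ R * L + 1 := by
          rw [hJ, Finset.mem_Icc] at hj
          refine le_trans ?_ hceil
          rw [abs_le]
          constructor
          · have := hj.1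
            have h6 : ((-(⌈R / (1 / L)⌉₊ : ℤ) : ℤ) : ℝ) ≤ (j : ℝ) := by exact_mod_cast this
            push_cast at h6
            exact h6
          · have h6 : (j : ℝ) ≤ ((⌈R / (1 / L)⌉₊ : ℤ) : ℝ) := by exact_mod_cast hj.2
            push_cast at h6
            exact h6
        rw [mul_one_div, div_le_iff₀ hL0]
        nlinarith
      refine (hd δ _ hδ).trans ?_
      have h5 : 1 + |(j : ℝ) * (1 / L)| ≤ 2 + R := by linarith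
      have h6 : (0 : ℝ) ≤ N ^ (1 - 1 / 2 * δ) := (Real.rpow_pos_of_pos hN0 _).le
      have h7 : (1 + |(j : ℝ) * (1 / L)|) ^ B ≤ (2 + R) ^ B :=
        pow_le_pow_left₀ (by positivity) h5 B
      exact mul_le_mul_of_nonneg_right (mul_le_mul_of_nonneg_left h7 hC0.le) h6
    refine (Finset.sum_le_sum h2).trans (le_of_eq ?_)
    rw [Finset.sum_const, nsmul_eq_mul]
  -- sum over the characters and the distances
  have hA : ∀ χ ∈ Y, NB (fun z => LH (pr q χ) (z - ((3 / 2 * T : ℝ) : ℂ) * I)) (V1 χ) (V2 χ) T κe Λ ≤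
      ∑ k ∈ Finset.range (⌊3 * κ⌋₊ + 1),
        nz (pr q χ) ((κe + (k : ℝ)) ^ 2 / (16 * Λ)) 0 (T / 2 + κe + k + 1) := by
    intro χ hχ
    exact avgNB_one (LH (pr q χ)) (Pool.Agent.A856.SE.LH_diff (hYH χ hχ))
      (Pool.Agent.A856.SE.LH_nz (hYH χ hχ)) hκe hΛ (hV χ).1 (hV χ).2
  refine (Finset.sum_le_sum hA).trans ?_
  rw [Finset.sum_comm]
  have hB : ∀ k ∈ Finset.range (⌊3 * κ⌋₊ + 1),
      ∑ χ ∈ Y, nz (pr q χ) ((κe + (k : ℝ)) ^ 2 / (16 * Λ)) 0 (T / 2 + κe + k + 1) ≤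
        3 ^ (B + 2) * C0 * (N * L) * ((1 + (k : ℝ)) ^ (B + 1) * Real.exp (-((k : ℝ) ^ 2 / 32))) := by
    intro k _
    have hk0 : (0 : ℝ) ≤ k := Nat.cast_nonneg k
    obtain ⟨J, hJ0, hJ1, hJ2⟩ := hone ((κe + (k : ℝ)) ^ 2 / (16 * Λ)) (T / 2 + κe + k + 1)
      (by positivity) (by positivity)
    exact hJ2.trans (avgNB_num hC0 hN0 hL hL1 hT hκe hκT hΛ hΛL hk0 hexp hJ0 hJ1)
  refine (Finset.sum_le_sum hB).trans ?_
  rw [← Finset.mul_sum]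
  have h1 := hS (⌊3 * κ⌋₊ + 1)
  calc 3 ^ (B + 2) * C0 * (N * L) * ∑ k ∈ Finset.range (⌊3 * κ⌋₊ + 1),
        (1 + (k : ℝ)) ^ (B + 1) * Real.exp (-((k : ℝ) ^ 2 / 32))
      ≤ 3 ^ (B + 2) * C0 * (N * L) * (S + 1) := by
        refine mul_le_mul_of_nonneg_left (by linarith) (by positivity)
    _ = 3 ^ (B + 2) * C0 * (S + 1) * (N * L) := by ring

end Pool.Agent.A856.BH
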