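import Pool.Agent.A856.BH.Defs
import Pool.Agent.H385R2.EFD

/-!
The explicit formula for the zeros of bounded height (job of helper856, written by helper419): an
adaptation of `A1_formula_of_D` in `Pool/Agent/H385R2/EFD.lean`.
-/

set_option autoImplicit false
set_option maxHeartbeats 1000000

open Complex Filter Topology Set MeasureTheory
open H370 (zset mult NN Nd Ns)
open H385 (A1 PP1)

namespace Pool.Agent.A856.BH

open H370 (rect_residue mk_eq DD D0 D0_nonneg)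
open H343 (hhb PPb norm_hhb hhb_diff hhb_cont_line gauss_lineb tail_boundb int_boundb)
open H385 (A1_eq_D PP1_eq_D norm_DD_D DD_cont_D PPb_integral_D)

/-- the constant bounding the Dirichlet series at `5/4` -/
noncomputable def D54 : ℝ :=
  ∑' n : ℕ, ArithmeticFunction.vonMangoldt n * (n : ℝ) ^ (-(5 / 4 : ℝ))

lemma D54_nonneg : 0 ≤ D54 := tsum_nonneg fun n =>
  mul_nonneg ArithmeticFunction.vonMangoldt_nonneg (by positivity)

lemma lam_summable54 :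
    Summable (fun n : ℕ => ArithmeticFunction.vonMangoldt n * (n : ℝ) ^ (-(5 / 4 : ℝ))) := by
  have h := ArithmeticFunction.LSeriesSummable_vonMangoldt (s := (5 / 4 : ℂ)) (by norm_num)
  have h2 := h.norm
  refine h2.congr (fun n => ?_)
  rw [LSeries.norm_term_eq]
  split_ifs with h0
  · subst h0; simp
  · rw [Real.rpow_neg (by positivity), div_eq_mul_inv]
    congr 1
    · simp [abs_of_nonneg ArithmeticFunction.vonMangoldt_nonneg]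
    · congr 2; norm_num

lemma norm_npow54 (n : ℕ) (v : ℝ) (a : ℂ) (ha : ‖a‖ ≤ 2 * ArithmeticFunction.vonMangoldt n) :
    ‖a * (n : ℂ) ^ (-(⟨5 / 4, v⟩ : ℂ))‖ ≤
      2 * (ArithmeticFunction.vonMangoldt n * (n : ℝ) ^ (-(5 / 4 : ℝ))) := by
  rcases Nat.eq_zero_or_pos n with h | h
  · subst h
    have : a = 0 := by
      have h0 : ‖a‖ ≤ 0 := by simpa using ha
      exact norm_le_zero_iff.1 h0
    rw [this]; simp
  · rw [norm_mul, Complex.norm_natCast_cpow_of_pos h, ← mul_assoc]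
    apply mul_le_mul ha (le_of_eq _) (by positivity)
      (mul_nonneg (by norm_num) ArithmeticFunction.vonMangoldt_nonneg)
    simp

lemma norm_DD54 (a : ℕ → ℂ) (ha : ∀ n, ‖a n‖ ≤ 2 * ArithmeticFunction.vonMangoldt n) (v : ℝ) :
    ‖DD a (⟨5 / 4, v⟩ : ℂ)‖ ≤ 2 * D54 := by
  unfold DD D54
  exact tsum_of_norm_bounded (lam_summable54.hasSum.mul_left 2)
    (fun n => norm_npow54 n v (a n) (ha n))

theorem A1_formulaB_of (A : ℝ) (hA : 1 ≤ A)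
    (hgh : ∃ C : ℝ, 0 < C ∧
      ∀ (ℒ E H q0 : ℝ) (F : ℂ → ℂ) (a : ℕ → ℂ), GoodB A ℒ E H q0 F a → ∀ T : ℝ, |T| + 5 ≤ H →
        ∃ U ∈ Set.Icc T (T + 1), ∀ σ ∈ Set.Icc (-1 / 4 : ℝ) (3 / 2),
          F (⟨σ, U⟩ : ℂ) ≠ 0 ∧ ‖deriv F (⟨σ, U⟩ : ℂ) / F (⟨σ, U⟩ : ℂ)‖ ≤ C * ℒ ^ 2) :
    ∃ C : ℝ, 0 < C ∧
    ∀ (ℒ E H q0 : ℝ) (F : ℂ → ℂ) (a : ℕ → ℂ), GoodB A ℒ E H q0 F a →
    ∀ T κ : ℝ, 1 ≤ T → 3 ≤ κ → 2 * T + 3 * κ + 6 ≤ H →
    ∃ V1 V2 : ℝ, T - 3 * κ ≤ V1 ∧ V1 ≤ T - 3 * κ + 1 ∧ 2 * T + 3 * κ - 1 ≤ V2 ∧ V2 ≤ 2 * T + 3 * κ ∧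
      ∀ u m : ℝ, 0 ≤ u → V1 + κ ≤ m → m ≤ V2 - κ →
        ‖A1 F V1 V2 u m - (1 / (2 * Real.sqrt Real.pi) : ℝ) *
          (((q0 : ℝ) : ℂ) * cexp (I * m * u) * Real.exp (-u ^ 2 / 4) - PP1 a u m)‖ ≤
        C * (E * Real.exp (-(3 / 4) * u) + ℒ ^ 2 * Real.exp (u - κ ^ 2 / 2)) := by
  obtain ⟨C1, hC1, hgh⟩ := hgh
  have hD0 := D0_nonneg
  have hD54 := D54_nonneg
  obtain ⟨EB, hEBdef⟩ : ∃ x, x = Real.exp ((2 : ℝ) / 2) := ⟨_, rfl⟩
  obtain ⟨G, hGdef⟩ : ∃ x, x = Real.sqrt (Real.pi / ((2 : ℝ) / 4)) := ⟨_, rfl⟩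
  have hEB : 0 < EB := hEBdef ▸ Real.exp_pos _
  have hG0 : 0 ≤ G := hGdef ▸ Real.sqrt_nonneg _
  have hA0 : 0 < A := by linarith
  refine ⟨4 * C1 * EB + (2 * D0) * EB * G + 2 * EB * G + (A + 2 * D54) * EB * G + 1,
    by positivity, ?_⟩
  intro ℒ E H q0 F a hF T κ hT1 hκ hTH
  have ha := hF.ha
  have hld := hF.ld
  have hleft := hF.left
  have hL1 := hF.hL
  have hE1 := hF.hE
  have hTpos : 0 < T := by linarith
  have hdD0 : 0 ≤ 2 * D0 := by positivity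
  have habs1 : |T - 3 * κ| + 5 ≤ H := by
    have : |T - 3 * κ| ≤ T + 3 * κ := by
      rw [abs_le]; constructor <;> linarith
    linarith
  have habs2 : |2 * T + 3 * κ - 1| + 5 ≤ H := by
    rw [abs_of_nonneg (by linarith)]; linarith
  obtain ⟨U1, hU1, hg1⟩ := hgh ℒ E H q0 F a hF (T - 3 * κ) habs1
  obtain ⟨U2, hU2, hg2⟩ := hgh ℒ E H q0 F a hF (2 * T + 3 * κ - 1) habs2
  have hU2' : U2 ≤ 2 * T + 3 * κ := by linarith [hU2.2]
  refine ⟨U1, U2, hU1.1, hU1.2, hU2.1, hU2', ?_⟩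
  intro u t hu ht1 ht2
  have hU12 : U1 < U2 := by linarith [hU1.2, hU2.1]
  have hW1 : U1 ≤ t - κ := by linarith
  have hW2 : t + κ ≤ U2 := by linarith
  have hW0 : 0 ≤ κ := by linarith
  have hyH : ∀ y ∈ Icc U1 U2, |y| ≤ H := by
    intro y hy
    rw [abs_le]
    constructor
    · linarith [hy.1, hU1.1]
    · linarith [hy.2]
  -- residue theorem
  have hK : ∀ s ∈ Set.Icc (-1 / 4 : ℝ) (3 / 2) ×ℂ Set.Icc U1 U2, U1 ≤ s.im ∧ s.im ≤ U2 ∧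
      -1 / 4 ≤ s.re ∧ s.re ≤ 3 / 2 := by
    intro s hs
    obtain ⟨h1, h2⟩ := hs
    rw [mem_preimage] at h1 h2
    exact ⟨h2.1, h2.2, h1.1, h1.2⟩
  have hzero : ∀ s ∈ Set.Icc (-1 / 4 : ℝ) (3 / 2) ×ℂ Set.Icc U1 U2, F s = 0 →
      0 < s.re ∧ s.re < 1 ∧ U1 < s.im ∧ s.im < U2 := by
    intro s hs h0
    obtain ⟨h2, h3, h4, h5⟩ := hK s hs
    refine ⟨?_, ?_, ?_, ?_⟩
    · by_contra hc
      exact hF.nzl s h4 (not_lt.1 hc) h0
    · by_contra hc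
      exact hF.nzr s (not_lt.1 hc) h0
    · refine lt_of_le_of_ne h2 (fun he => ?_)
      have := (hg1 s.re ⟨h4, h5⟩).1
      rw [he] at this
      exact this h0
    · refine lt_of_le_of_ne h3 (fun he => ?_)
      have := (hg2 s.re ⟨h4, h5⟩).1
      rw [← he] at this
      exact this h0
  have hres := (rect_residue F (hhb 2 u t) (-1 / 4) (3 / 2) U1 U2 (by norm_num) hU12
    (fun s _ => hF.diff.analyticAt s) (hhb_diff 2 u t)
    (fun s hs h0 => by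
      obtain ⟨h1, h2, h3, h4⟩ := hzero s hs h0
      exact ⟨⟨by linarith, by linarith⟩, ⟨h3, h4⟩⟩)).2
  have hset : {s | s ∈ Set.Ioo (-1 / 4 : ℝ) (3 / 2) ×ℂ Set.Ioo U1 U2 ∧ F s = 0} = zset F U1 U2 := by
    ext s
    constructor
    · rintro ⟨h1, h2⟩
      obtain ⟨h3, h4, h5, h6⟩ := hzero s ⟨Ioo_subset_Icc_self h1.1, Ioo_subset_Icc_self h1.2⟩ h2
      exact ⟨h3, h4, h5, h6.le, h2⟩
    · rintro ⟨h3, h4, h5, h6, h7⟩
      obtain ⟨k1, k2, k3, k4⟩ := hzero s ⟨⟨by linarith, by linarith⟩, ⟨h5.le, h6⟩⟩ h7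
      exact ⟨⟨⟨by linarith, by linarith⟩, ⟨k3, k4⟩⟩, h7⟩
  rw [hset] at hres
  rw [← A1_eq_D] at hres
  set HB := ∫ x in (-1 / 4 : ℝ)..(3 / 2), deriv F (⟨x, U1⟩ : ℂ) / F ⟨x, U1⟩ * hhb 2 u t ⟨x, U1⟩ with hHB
  set HT := ∫ x in (-1 / 4 : ℝ)..(3 / 2), deriv F (⟨x, U2⟩ : ℂ) / F ⟨x, U2⟩ * hhb 2 u t ⟨x, U2⟩ with hHT
  set R := ∫ y in U1..U2, deriv F (⟨3 / 2, y⟩ : ℂ) / F ⟨3 / 2, y⟩ * hhb 2 u t ⟨3 / 2, y⟩ with hR
  set Lf := ∫ y in U1..U2, deriv F (⟨-1 / 4, y⟩ : ℂ) / F ⟨-1 / 4, y⟩ * hhb 2 u t ⟨-1 / 4, y⟩ with hLf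
  -- error scale
  have hδ : 0 < Real.exp (-2 * κ ^ 2 / 4) := Real.exp_pos _
  obtain ⟨Z, hZ⟩ : ∃ Z, Z = ℒ ^ 2 * Real.exp (u - κ ^ 2 / 2) := ⟨_, rfl⟩
  have hZe : Real.exp u * (ℒ ^ 2 * Real.exp (-2 * κ ^ 2 / 4)) = Z := by
    rw [hZ]
    have : Real.exp (u - κ ^ 2 / 2) = Real.exp u * Real.exp (-2 * κ ^ 2 / 4) := by
      rw [← Real.exp_add]; congr 1; ring
    rw [this]; ring
  have hZ0 : 0 ≤ Z := by rw [hZ]; positivity
  have hL2 : 1 ≤ ℒ ^ 2 := by nlinarith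
  have hhor : ∀ (U : ℝ) (x : ℝ), κ ^ 2 ≤ (U - t) ^ 2 → x ∈ Set.Icc (-1 / 4 : ℝ) (3 / 2) →
      ‖hhb 2 u t (⟨x, U⟩ : ℂ)‖ ≤ Real.exp u * (EB * Real.exp (-2 * κ ^ 2 / 4)) := by
    intro U x hU hx
    rw [norm_hhb]
    have h1 : Real.exp (u * (x - 1 / 2)) ≤ Real.exp u := by
      apply Real.exp_le_exp.2
      nlinarith [hx.2]
    have h2 : Real.exp (2 * ((x - 1 / 2) ^ 2 - (U - t) ^ 2) / 2) ≤
        EB * Real.exp (-2 * κ ^ 2 / 4) := by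
      rw [hEBdef, ← Real.exp_add]
      apply Real.exp_le_exp.2
      have h5 : (x - 1 / 2) ^ 2 ≤ 1 := by
        have h3 := hx.1
        have h4 := hx.2
        nlinarith
      have h8 : 0 ≤ κ ^ 2 := by positivity
      nlinarith
    exact mul_le_mul h1 h2 (Real.exp_pos _).le (Real.exp_pos _).le
  have hhorb : ∀ (U : ℝ), κ ^ 2 ≤ (U - t) ^ 2 →
      (∀ σ ∈ Set.Icc (-1 / 4 : ℝ) (3 / 2),
          F (⟨σ, U⟩ : ℂ) ≠ 0 ∧ ‖deriv F (⟨σ, U⟩ : ℂ) / F (⟨σ, U⟩ : ℂ)‖ ≤ C1 * ℒ ^ 2) →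
      ‖∫ x in (-1 / 4 : ℝ)..(3 / 2), deriv F (⟨x, U⟩ : ℂ) / F ⟨x, U⟩ * hhb 2 u t ⟨x, U⟩‖ ≤
        2 * C1 * EB * Z := by
    intro U hUt hgU
    have hb : ‖∫ x in (-1 / 4 : ℝ)..(3 / 2), deriv F (⟨x, U⟩ : ℂ) / F ⟨x, U⟩ * hhb 2 u t ⟨x, U⟩‖ ≤
        (C1 * ℒ ^ 2 * (Real.exp u * (EB * Real.exp (-2 * κ ^ 2 / 4)))) *
        |(3 / 2 : ℝ) - (-1 / 4)| := by
      apply intervalIntegral.norm_integral_le_of_norm_le_const
      intro x hx
      rw [uIoc_of_le (by norm_num)] at hx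
      have hx' : x ∈ Set.Icc (-1 / 4 : ℝ) (3 / 2) := ⟨hx.1.le, hx.2⟩
      rw [norm_mul]
      exact mul_le_mul (hgU x hx').2 (hhor U x hUt hx') (norm_nonneg _) (by positivity)
    rw [show |(3 / 2 : ℝ) - (-1 / 4)| = 7 / 4 by norm_num [abs_of_pos]] at hb
    have h0 : 0 ≤ C1 * EB * Z := by positivity
    calc ‖_‖ ≤ _ := hb
      _ = 7 / 4 * (C1 * EB * (Real.exp u * (ℒ ^ 2 * Real.exp (-2 * κ ^ 2 / 4)))) := by ring
      _ = 7 / 4 * (C1 * EB * Z) := by rw [hZe]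
      _ ≤ 2 * C1 * EB * Z := by nlinarith
  have hHBb : ‖HB‖ ≤ 2 * C1 * EB * Z := hhorb U1 (by nlinarith) hg1
  have hHTb : ‖HT‖ ≤ 2 * C1 * EB * Z := hhorb U2 (by nlinarith) hg2
  -- right side
  have hRD : ∀ y : ℝ, deriv F (⟨3 / 2, y⟩ : ℂ) / F ⟨3 / 2, y⟩ = - DD a (⟨3 / 2, y⟩ : ℂ) := by
    intro y
    exact hld _ (by norm_num)
  have hRD54 : ∀ y : ℝ, deriv F (⟨5 / 4, y⟩ : ℂ) / F ⟨5 / 4, y⟩ = - DD a (⟨5 / 4, y⟩ : ℂ) := by
    intro y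
    exact hld _ (by norm_num)
  have hReq : R = - ∫ y in U1..U2, DD a (⟨3 / 2, y⟩ : ℂ) * hhb 2 u t ⟨3 / 2, y⟩ := by
    rw [hR, ← intervalIntegral.integral_neg]
    apply intervalIntegral.integral_congr
    intro y hy
    simp only
    rw [hRD y]; ring
  have h2one : (1 : ℝ) ≤ 2 := by norm_num
  have heR : ‖(∫ v : ℝ, DD a (⟨3 / 2, v⟩ : ℂ) * hhb 2 u t (⟨3 / 2, v⟩ : ℂ)) -
      ∫ y in U1..U2, DD a (⟨3 / 2, y⟩ : ℂ) * hhb 2 u t ⟨3 / 2, y⟩‖ ≤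
        (2 * D0) * EB * G * Z := by
    have hbd : ∀ v : ℝ, ‖DD a (⟨3 / 2, v⟩ : ℂ) * hhb 2 u t (⟨3 / 2, v⟩ : ℂ)‖ ≤
        ((2 * D0) * (Real.exp u * EB)) * Real.exp (-2 * (v - t) ^ 2 / 2) := by
      intro v
      rw [norm_mul, norm_hhb, mul_assoc]
      apply mul_le_mul (norm_DD_D h2one ha v) _ (by positivity) hdD0
      have e1 : u * (3 / 2 - 1 / 2 : ℝ) = u := by ring
      have e2 : 2 * ((3 / 2 - 1 / 2 : ℝ) ^ 2 - (v - t) ^ 2) / 2 = 2 / 2 + -2 * (v - t) ^ 2 / 2 := by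
        ring
      rw [e1, e2, Real.exp_add, mul_assoc, hEBdef]
    have := tail_boundb (((DD_cont_D h2one ha).mul (hhb_cont_line 2 u t (3 / 2))).aestronglyMeasurable)
      (by norm_num : (0 : ℝ) < 2) (by positivity) hbd hW0 hW1 hW2
    refine this.trans ?_
    rw [← hGdef]
    calc (2 * D0) * (Real.exp u * EB) * (G * Real.exp (-2 * κ ^ 2 / 4))
        = (2 * D0) * EB * G * (Real.exp u * (1 * Real.exp (-2 * κ ^ 2 / 4))) := by ring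
      _ ≤ (2 * D0) * EB * G * (Real.exp u * (ℒ ^ 2 * Real.exp (-2 * κ ^ 2 / 4))) := by gcongr
      _ = (2 * D0) * EB * G * Z := by rw [hZe]
  rw [PPb_integral_D h2one 2 (by norm_num) ha u t] at heR
  -- left side
  have hnorml : ∀ v : ℝ, ‖hhb 2 u t (⟨-1 / 4, v⟩ : ℂ)‖ ≤
      (Real.exp (-(3 / 4) * u) * EB) * Real.exp (-2 * (v - t) ^ 2 / 2) := by
    intro v
    rw [norm_hhb, mul_assoc]
    have e1 : u * (-1 / 4 - 1 / 2 : ℝ) = -(3 / 4) * u := by ring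
    rw [e1]
    apply mul_le_mul_of_nonneg_left _ (Real.exp_pos _).le
    rw [hEBdef, ← Real.exp_add]
    apply Real.exp_le_exp.2
    nlinarith
  have hGl : (∫ v : ℝ, hhb 2 u t (⟨-1 / 4, v⟩ : ℂ)) =
      Real.sqrt (2 * Real.pi / 2) * (cexp (I * u * t) * Real.exp (-u ^ 2 / (2 * 2))) := by
    have h := gauss_lineb 2 (-1 / 4) u t 0 (by norm_num)
    simp only [ofReal_zero, neg_zero, zero_mul, Complex.exp_zero, mul_one, zero_div, Real.exp_zero,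
      sub_zero, ofReal_one] at h
    rw [h, mul_assoc]
    congr 3; ring
  have heG : ‖(∫ v : ℝ, hhb 2 u t (⟨-1 / 4, v⟩ : ℂ)) - ∫ y in U1..U2, hhb 2 u t (⟨-1 / 4, y⟩ : ℂ)‖ ≤
      (Real.exp (-(3 / 4) * u) * EB) * (G * Real.exp (-2 * κ ^ 2 / 4)) := by
    rw [hGdef]
    exact tail_boundb (hhb_cont_line 2 u t (-1 / 4)).aestronglyMeasurable (by norm_num)
      (by positivity) hnorml hW0 hW1 hW2
  have hLe : ‖((q0 : ℝ) : ℂ) * ((∫ v : ℝ, hhb 2 u t (⟨-1 / 4, v⟩ : ℂ)) -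
      ∫ y in U1..U2, hhb 2 u t (⟨-1 / 4, y⟩ : ℂ))‖ ≤ 2 * EB * G * Z := by
    rw [norm_mul, Complex.norm_real, Real.norm_eq_abs, abs_of_nonneg hF.hq0]
    have huu : Real.exp (-(3 / 4) * u) ≤ Real.exp u := Real.exp_le_exp.2 (by linarith)
    have hLL : ℒ ≤ ℒ ^ 2 := by nlinarith
    calc q0 * ‖_‖ ≤ (2 * ℒ) * ((Real.exp (-(3 / 4) * u) * EB) * (G * Real.exp (-2 * κ ^ 2 / 4))) :=
          mul_le_mul hF.hq1 heG (norm_nonneg _) (by positivity)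
      _ = 2 * EB * G * (Real.exp (-(3 / 4) * u) * (ℒ * Real.exp (-2 * κ ^ 2 / 4))) := by ring
      _ ≤ 2 * EB * G * (Real.exp u * (ℒ ^ 2 * Real.exp (-2 * κ ^ 2 / 4))) := by
          apply mul_le_mul_of_nonneg_left _ (by positivity)
          apply mul_le_mul huu _ (by positivity) (by positivity)
          exact mul_le_mul_of_nonneg_right hLL hδ.le
      _ = 2 * EB * G * Z := by rw [hZe]
  have hFl : ∀ y : ℝ, F (⟨-1 / 4, y⟩ : ℂ) ≠ 0 := by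
    intro y
    exact hF.nzl _ (by norm_num) (by norm_num)
  have hcontl : ContinuousOn (fun y : ℝ => deriv F (⟨-1 / 4, y⟩ : ℂ) / F ⟨-1 / 4, y⟩) (Icc U1 U2) := by
    intro y hy
    have han := hF.diff.analyticAt (⟨-1 / 4, y⟩ : ℂ)
    have h1 : ContinuousAt (fun z => deriv F z / F z) (⟨-1 / 4, y⟩ : ℂ) :=
      han.deriv.continuousAt.div han.continuousAt (hFl y)
    have h2 : ContinuousAt (fun y : ℝ => (⟨-1 / 4, y⟩ : ℂ)) y := by
      have : (fun y : ℝ => (⟨-1 / 4, y⟩ : ℂ)) = fun y : ℝ => ((-1 / 4 : ℝ) : ℂ) + y * I := by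
        funext v; exact mk_eq _ v
      rw [this]; fun_prop
    exact (ContinuousAt.comp (f := fun y : ℝ => (⟨-1 / 4, y⟩ : ℂ)) (x := y) h1 h2).continuousWithinAt
  set Ef : ℝ → ℂ := fun y => deriv F (⟨-1 / 4, y⟩ : ℂ) / F ⟨-1 / 4, y⟩ + ((q0 : ℝ) : ℂ) with hEf
  have hEb : ∀ y ∈ Icc U1 U2, ‖Ef y‖ ≤ (A + 2 * D54) * E := by
    intro y hy
    have h1 := hleft (⟨-1 / 4, y⟩ : ℂ) (by norm_num) (by norm_num) (hyH y hy) (hFl y)
    have h2 : (1 : ℂ) - (starRingEnd ℂ) (⟨-1 / 4, y⟩ : ℂ) = ⟨5 / 4, y⟩ := by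
      apply Complex.ext <;> simp <;> norm_num
    rw [h2, hRD54 y] at h1
    have h3 : ‖(starRingEnd ℂ) (-DD a (⟨5 / 4, y⟩ : ℂ))‖ ≤ 2 * D54 := by
      rw [RCLike.norm_conj, norm_neg]
      exact norm_DD54 a ha y
    have h5 : Ef y = (deriv F (⟨-1 / 4, y⟩ : ℂ) / F ⟨-1 / 4, y⟩ + ((q0 : ℝ) : ℂ) +
        (starRingEnd ℂ) (-DD a (⟨5 / 4, y⟩ : ℂ))) - (starRingEnd ℂ) (-DD a (⟨5 / 4, y⟩ : ℂ)) := by
      simp only [hEf]
      ring
    rw [h5]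
    calc ‖_‖ ≤ _ := norm_sub_le _ _
      _ ≤ A * E + 2 * D54 := add_le_add h1 h3
      _ ≤ (A + 2 * D54) * E := by nlinarith
  have hcl := hhb_cont_line 2 u t (-1 / 4)
  have hcE : ContinuousOn Ef (Icc U1 U2) := hcontl.add continuousOn_const
  have hLsplit : Lf = (∫ y in U1..U2, Ef y * hhb 2 u t (⟨-1 / 4, y⟩ : ℂ)) -
      ((q0 : ℝ) : ℂ) * ∫ y in U1..U2, hhb 2 u t (⟨-1 / 4, y⟩ : ℂ) := by
    rw [hLf, ← intervalIntegral.integral_const_mul, ← intervalIntegral.integral_sub]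
    · apply intervalIntegral.integral_congr
      intro y _
      simp only [hEf]
      ring
    · apply ContinuousOn.intervalIntegrable
      rw [uIcc_of_le hU12.le]
      exact hcE.mul hcl.continuousOn
    · exact (continuous_const.mul hcl).intervalIntegrable _ _
  have heE : ‖∫ y in U1..U2, Ef y * hhb 2 u t (⟨-1 / 4, y⟩ : ℂ)‖ ≤
      (A + 2 * D54) * EB * G * (E * Real.exp (-(3 / 4) * u)) := by
    have := int_boundb (f := fun y => Ef y * hhb 2 u t (⟨-1 / 4, y⟩ : ℂ)) (b := 2)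
      (K := ((A + 2 * D54) * E) * (Real.exp (-(3 / 4) * u) * EB))
      (t := t) (by norm_num) hU12.le (by positivity) (by
        intro v hv
        rw [norm_mul, mul_assoc]
        exact mul_le_mul (hEb v (Ioc_subset_Icc_self hv)) (hnorml v) (norm_nonneg _) (by positivity))
    rw [← hGdef] at this
    refine this.trans (le_of_eq ?_)
    ring
  -- assembling
  set IR := ∫ y in U1..U2, DD a (⟨3 / 2, y⟩ : ℂ) * hhb 2 u t ⟨3 / 2, y⟩ with hIR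
  set IG := ∫ y in U1..U2, hhb 2 u t (⟨-1 / 4, y⟩ : ℂ) with hIG
  set IE := ∫ y in U1..U2, Ef y * hhb 2 u t (⟨-1 / 4, y⟩ : ℂ) with hIE
  set GG := ∫ v : ℝ, hhb 2 u t (⟨-1 / 4, v⟩ : ℂ) with hGG
  rw [← PP1_eq_D] at heR
  set Az := A1 F U1 U2 u t with hAz
  set P := PP1 a u t with hP
  set w : ℂ := (Real.sqrt (2 * Real.pi / 2) : ℂ) with hw
  have hwr : Real.sqrt (2 * Real.pi / 2) = Real.sqrt Real.pi := by
    congr 1; ring
  have hw1 : (((1 / (2 * Real.sqrt Real.pi) : ℝ)) : ℂ) = w / (2 * Real.pi) := by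
    rw [hw, hwr]
    have : (1 / (2 * Real.sqrt Real.pi) : ℝ) = Real.sqrt Real.pi / (2 * Real.pi) := by
      have h1 : Real.sqrt Real.pi * Real.sqrt Real.pi = Real.pi :=
        Real.mul_self_sqrt (by positivity)
      have h2 : Real.sqrt Real.pi ≠ 0 := by positivity
      have hpi : Real.pi ≠ 0 := Real.pi_ne_zero
      field_simp
      nlinarith
    rw [this]; push_cast; ring
  have hpi0 : (Real.pi : ℂ) ≠ 0 := by exact_mod_cast Real.pi_ne_zero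
  have hGl' : GG = w * (cexp (I * t * u) * Real.exp (-u ^ 2 / 4)) := by
    rw [hGl]
    congr 2
    · congr 1; ring
    · norm_num
  have hmain : Az - (1 / (2 * Real.sqrt Real.pi) : ℝ) * (((q0 : ℝ) : ℂ) * cexp (I * t * u) *
              Real.exp (-u ^ 2 / 4) - P) =
      (1 / (2 * Real.pi)) * ((-I) * (HB - HT) + (w * P - IR) -
        ((q0 : ℝ) : ℂ) * (GG - IG) - IE) := by
    have h3 : Az = (1 / (2 * Real.pi)) * ((-I) * (HB - HT) + R - Lf) := by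
      have hI : I ≠ 0 := I_ne_zero
      have h4 : 2 * Real.pi * I * Az = HB - HT + I * R - I * Lf := hres.symm
      field_simp
      have h5 : I * (2 * Real.pi * Az) = I * (-(I * (HB - HT)) + R - Lf) := by
        linear_combination h4 + (HB - HT) * I_sq
      have h6 := mul_left_cancel₀ hI h5
      linear_combination h6
    rw [hw1, h3, hReq, hLsplit, hGl']
    field_simp
    ring
  rw [hmain, norm_mul]
  have hn1 : ‖(1 / (2 * Real.pi) : ℂ)‖ ≤ 1 := by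
    rw [norm_div, norm_mul]
    simp only [norm_one, Complex.norm_ofNat, Complex.norm_real, Real.norm_eq_abs, abs_of_pos Real.pi_pos]
    rw [div_le_one (by positivity)]
    have := Real.pi_gt_three
    linarith
  have hn2 : ‖(-I) * (HB - HT) + (w * P - IR) - ((q0 : ℝ) : ℂ) * (GG - IG) - IE‖ ≤
      2 * C1 * EB * Z + 2 * C1 * EB * Z + (2 * D0) * EB * G * Z +
      2 * EB * G * Z + (A + 2 * D54) * EB * G * (E * Real.exp (-(3 / 4) * u)) := by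
    have h1 : ‖(-I) * (HB - HT)‖ ≤ 2 * C1 * EB * Z + 2 * C1 * EB * Z := by
      rw [norm_mul, norm_neg, norm_I, one_mul]
      exact (norm_sub_le _ _).trans (add_le_add hHBb hHTb)
    calc ‖_‖ ≤ ‖(-I) * (HB - HT) + (w * P - IR) - ((q0 : ℝ) : ℂ) * (GG - IG)‖ + ‖IE‖ :=
          norm_sub_le _ _
      _ ≤ (‖(-I) * (HB - HT) + (w * P - IR)‖ + ‖((q0 : ℝ) : ℂ) * (GG - IG)‖) + ‖IE‖ := by
          gcongr; exact norm_sub_le _ _
      _ ≤ ((‖(-I) * (HB - HT)‖ + ‖(w * P - IR)‖) + ‖((q0 : ℝ) : ℂ) * (GG - IG)‖) + ‖IE‖ := by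
          gcongr; exact norm_add_le _ _
      _ ≤ _ := by gcongr
  rw [← hZ]
  obtain ⟨Y, hY⟩ : ∃ Y, Y = E * Real.exp (-(3 / 4) * u) := ⟨_, rfl⟩
  have hY0 : 0 ≤ Y := by rw [hY]; positivity
  rw [← hY] at hn2 ⊢
  calc ‖(1 / (2 * Real.pi) : ℂ)‖ * ‖_‖ ≤ 1 * _ := by
        apply mul_le_mul hn1 hn2 (norm_nonneg _) zero_le_one
    _ ≤ (4 * C1 * EB + (2 * D0) * EB * G + 2 * EB * G + (A + 2 * D54) * EB * G + 1) *
          (Y + Z) := by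
        have h2 : 0 ≤ C1 * EB := by positivity
        have h3 : 0 ≤ (2 * D0) * EB * G := by positivity
        have h4 : 0 ≤ 2 * EB * G := by positivity
        have h5 : 0 ≤ (A + 2 * D54) * EB * G := by positivity
        have e : (4 * C1 * EB + (2 * D0) * EB * G + 2 * EB * G + (A + 2 * D54) * EB * G + 1) *
          (Y + Z) - 1 * (2 * C1 * EB * Z + 2 * C1 * EB * Z + (2 * D0) * EB * G * Z +
      2 * EB * G * Z + (A + 2 * D54) * EB * G * Y) =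
          4 * (C1 * EB) * Y + ((2 * D0) * EB * G) * Y +
          (2 * EB * G) * Y + ((A + 2 * D54) * EB * G) * Z + (Y + Z) := by ring
        have h6 : 0 ≤ 4 * (C1 * EB) * Y + ((2 * D0) * EB * G) * Y +
          (2 * EB * G) * Y + ((A + 2 * D54) * EB * G) * Z + (Y + Z) := by
          positivity
        linarith

end Pool.Agent.A856.BH
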