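import Pool.Agent.A856.BH.Defs
import Pool.Agent.H385R2.NLowDCore
import Pool.Agent.H385R2.NLowD

/-!
Job for helper856.  URGENT (needed by 17:55 UTC, Nov 27).  Prove `N_lowerB_of`.  This is an adaptation of
`N_lower_core_D` in `Pool/Agent/H385R2/NLowDCore.lean` (on origin/main): copy that proof and replace
`GoodD d A Q F a` by `GoodB A ℒ E H q0 F a` (file `Pool/Agent/A856/BH/Defs.lean`), `d log (Q T)` by `q0`,
`log (Q T)` in the bounds by `ℒ`, `d = 2`.  Changes: two parameters: `κ` (truncation, `V1` about `T - 3κ`) and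
`κe` (width of the edges, `κe ≤ T`).  Zeros within `κe` of the end points: at most `C κe ℒ` (hypothesis
`hcnt`).  Zeros with `dd T s ≥ κe` (outside `[T - κe, 2T + κe]`): here
`‖c1 T (zz s)‖ ≤ 2 exp(-(dd T s)²/2) ≤ C exp(-dd T s)` by `c1_far` with the distance `dd T s` as parameter
(`c1_far` is used in the original with `κ`), and the sum over these zeros is bounded with `hshell`.
Zeros inside, at distance `≥ κe` from the ends: `‖c1 - 1‖ ≤ 2 exp(-κe²/2)`; their number is at most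
`C T ℒ`, and `T exp(-κe²/2) ≤ 1`.  The error of the explicit formula at `u = 0` is
`C (E + ℒ² exp(-κ²/2)) ≤ 2 C E`.
-/

set_option autoImplicit false

open Complex Filter Topology Set MeasureTheory
open H370 (zset mult NN Nd Ns)
open H385 (A1 PP1)

namespace Pool.Agent.A856.BH

section

open H385 H385.NLow H385.Cut

theorem N_lowerB_aux (A : ℝ) (hA : 1 ≤ A)
    (hfin : ∀ (ℒ E H q0 : ℝ) (F : ℂ → ℂ) (a : ℕ → ℂ), GoodB A ℒ E H q0 F a → ∀ T1 T2 : ℝ,
      (zset F T1 T2).Finite)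
    (hcnt : ∃ C : ℝ, 0 < C ∧
      ∀ (ℒ E H q0 : ℝ) (F : ℂ → ℂ) (a : ℕ → ℂ), GoodB A ℒ E H q0 F a → ∀ T1 T2 : ℝ, T1 + 1 ≤ T2 →
        |T1| + 3 ≤ H → |T2| + 3 ≤ H → (NN F T1 T2 : ℝ) ≤ C * (T2 - T1) * ℒ)
    (hA1 : ∃ C : ℝ, 0 < C ∧
      ∀ (ℒ E H q0 : ℝ) (F : ℂ → ℂ) (a : ℕ → ℂ), GoodB A ℒ E H q0 F a →
      ∀ T κ : ℝ, 1 ≤ T → 3 ≤ κ → 2 * T + 3 * κ + 6 ≤ H →
      ∃ V1 V2 : ℝ, T - 3 * κ ≤ V1 ∧ V1 ≤ T - 3 * κ + 1 ∧ 2 * T + 3 * κ - 1 ≤ V2 ∧
        V2 ≤ 2 * T + 3 * κ ∧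
        ∀ u m : ℝ, 0 ≤ u → V1 + κ ≤ m → m ≤ V2 - κ →
          ‖A1 F V1 V2 u m - (1 / (2 * Real.sqrt Real.pi) : ℝ) *
            (((q0 : ℝ) : ℂ) * cexp (I * m * u) * Real.exp (-u ^ 2 / 4) - PP1 a u m)‖ ≤
          C * (E * Real.exp (-(3 / 4) * u) + ℒ ^ 2 * Real.exp (u - κ ^ 2 / 2)))
    (hshell : ∃ C : ℝ, 0 < C ∧
      ∀ (ℒ E H q0 : ℝ) (F : ℂ → ℂ) (a : ℕ → ℂ), GoodB A ℒ E H q0 F a →
        ∀ T κe V1 V2 : ℝ, 1 ≤ T → 0 ≤ κe → |V1| + 4 ≤ H → |V2| + 4 ≤ H → V1 ≤ T → 2 * T ≤ V2 →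
        ∀ hfin : (zset F V1 V2).Finite,
          ∑ s ∈ hfin.toFinset, (if κe ≤ dd T s then (mult F s : ℝ) * Real.exp (-dd T s) else 0) ≤
            C * ℒ * Real.exp (-κe)) :
    ∃ C : ℝ, 0 < C ∧
    ∀ (ℒ E H q0 : ℝ) (F : ℂ → ℂ) (a : ℕ → ℂ), GoodB A ℒ E H q0 F a →
    ∀ T κ κe : ℝ, 3 ≤ κe → κe ≤ κ → 4 * κe ≤ T → T ≤ Real.exp (κe ^ 2 / 2) →
      ℒ ^ 2 * Real.exp (-κ ^ 2 / 2) ≤ 1 → 2 * T + 3 * κ + 6 ≤ H →
      T / (2 * Real.pi) * q0 - C * (T * E + κe * ℒ) ≤ (NN F T (2 * T) : ℝ) := by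
  obtain ⟨C1, hC1, hZ⟩ := hcnt
  obtain ⟨C2, hC2, hEF⟩ := hA1
  obtain ⟨C3, hC3, hSh⟩ := hshell
  have hK := K0_nonneg
  refine ⟨2 * K0 + 2 * C2 + 10 * C1 + 2 * C3 + 1, by linarith,
    fun ℒ E H q0 F a hF T κ κe hκe hκeκ hT4 hTe hLκ hTH => ?_⟩
  have hL1 : 1 ≤ ℒ := hF.hL
  have hE1 : 1 ≤ E := hF.hE
  have hκ3 : 3 ≤ κ := hκe.trans hκeκ
  have hT12 : 12 ≤ T := by linarith
  have hT0 : 0 < T := by linarith
  have hκe0 : 0 < κe := by linarith
  obtain ⟨V1, V2, hV1, hV1', hV2, hV2', hform⟩ :=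
    hEF ℒ E H q0 F a hF T κ (by linarith) hκ3 hTH
  have hfinV := hfin ℒ E H q0 F a hF V1 V2
  set ε := Real.exp (-κ ^ 2 / 2) with hε
  set εe := Real.exp (-κe ^ 2 / 2) with hεe
  have hε0 : 0 < ε := Real.exp_pos _
  have hεe0 : 0 < εe := Real.exp_pos _
  have hTε : T * εe ≤ 1 := by
    have h1 : T * εe ≤ Real.exp (κe ^ 2 / 2) * εe := mul_le_mul_of_nonneg_right hTe hεe0.le
    have h2 : Real.exp (κe ^ 2 / 2) * εe = 1 := by
      rw [hεe, ← Real.exp_add, show κe ^ 2 / 2 + -κe ^ 2 / 2 = 0 by ring, Real.exp_zero]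
    linarith
  -- integral lower bound
  have hsp := Cut.sqrt_pi_pos
  have hsq1 : Real.sqrt Real.pi ^ 2 = Real.pi := Real.sq_sqrt Real.pi_pos.le
  have hlow : ∀ m ∈ Icc T (2 * T), 1 / (2 * Real.sqrt Real.pi) * (q0 - 2 * K0) - 2 * C2 * E ≤
      (A1 F V1 V2 0 m).re := by
    intro m hm
    have h1 := hform 0 m le_rfl (by linarith [hm.1]) (by linarith [hm.2])
    have h2 : (((q0 : ℝ) : ℂ) * cexp (I * m * (0 : ℝ)) * (Real.exp (-(0:ℝ) ^ 2 / 4) : ℂ) - PP1 a 0 m) =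
        ((q0 : ℝ) : ℂ) - PP1 a 0 m := by simp
    rw [h2] at h1
    have h3 : C2 * (E * Real.exp (-(3 / 4) * (0:ℝ)) + ℒ ^ 2 * Real.exp (0 - κ ^ 2 / 2)) ≤
        2 * C2 * E := by
      have e1 : Real.exp (0 - κ ^ 2 / 2) = ε := by
        rw [hε]; congr 1; ring
      rw [e1, mul_zero, Real.exp_zero, mul_one]
      have : C2 * (E + ℒ ^ 2 * ε) ≤ C2 * (2 * E) :=
        mul_le_mul_of_nonneg_left (by linarith) hC2.le
      linarith
    have h4 := (abs_le.mp ((Complex.abs_re_le_norm _).trans (h1.trans h3))).1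
    rw [Complex.sub_re, Complex.re_ofReal_mul, Complex.sub_re, Complex.ofReal_re] at h4
    have h5 : (PP1 a 0 m).re ≤ 2 * K0 :=
      (Complex.re_le_norm _).trans (PP1_zero_le_D 2 a hF.ha m)
    have h6 : 1 / (2 * Real.sqrt Real.pi) * (q0 - 2 * K0) ≤
        1 / (2 * Real.sqrt Real.pi) * (q0 - (PP1 a 0 m).re) := by
      apply mul_le_mul_of_nonneg_left (by linarith) (by positivity)
    linarith
  have hcont : Continuous (fun m : ℝ => A1 F V1 V2 0 m) := by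
    simp only [A1_zero F V1 V2 hfinV]
    fun_prop
  have hint : T * (1 / (2 * Real.sqrt Real.pi) * (q0 - 2 * K0) - 2 * C2 * E) ≤
      (∫ m in T..(2 * T), A1 F V1 V2 0 m).re := by
    have h1 : (∫ m in T..(2 * T), A1 F V1 V2 0 m).re = ∫ m in T..(2 * T), (A1 F V1 V2 0 m).re := by
      have := (Complex.reCLM.intervalIntegral_comp_comm
        (hcont.intervalIntegrable (μ := volume) T (2 * T)))
      simpa using this.symm
    rw [h1]
    have h2 : ∫ m in T..(2 * T), (1 / (2 * Real.sqrt Real.pi) * (q0 - 2 * K0) - 2 * C2 * E) =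
        T * (1 / (2 * Real.sqrt Real.pi) * (q0 - 2 * K0) - 2 * C2 * E) := by
      rw [intervalIntegral.integral_const, smul_eq_mul]
      ring
    rw [← h2]
    apply intervalIntegral.integral_mono_on (by linarith)
    · exact continuous_const.intervalIntegrable _ _
    · exact (Complex.continuous_re.comp hcont).intervalIntegrable _ _
    · exact hlow
  -- upper bound of the zero side
  have hdexp : ∀ x : ℝ, 3 ≤ x → Real.exp (-x ^ 2 / 2) ≤ Real.exp (-x) := by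
    intro x hx
    apply Real.exp_le_exp.mpr
    nlinarith
  have hup : ∀ s ∈ hfinV.toFinset, (c1 T (zz s)).re ≤
      (if T < s.im ∧ s.im ≤ 2 * T then 1 else 0) +
      2 * (if T - κe < s.im ∧ s.im ≤ T + κe then 1 else 0) +
      2 * (if 2 * T - κe < s.im ∧ s.im ≤ 2 * T + κe then 1 else 0) +
      2 * εe * (if T < s.im ∧ s.im ≤ 2 * T then 1 else 0) +
      2 * (if κe ≤ dd T s then Real.exp (-dd T s) else 0) := by
    intro s hs
    rw [Finite.mem_toFinset] at hs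
    obtain ⟨hs1, hs2, hs3, hs4, _⟩ := hs
    have him : |(zz s).im| ≤ 1 / 2 := by
      rw [H385.NLow.zz_im, abs_le]
      constructor <;> linarith
    have i1 : (0:ℝ) ≤ if T < s.im ∧ s.im ≤ 2 * T then 1 else 0 := by split_ifs <;> norm_num
    have i1' : (0:ℝ) ≤ 2 * εe * (if T < s.im ∧ s.im ≤ 2 * T then 1 else 0) :=
      mul_nonneg (by positivity) i1
    have i2 : (0:ℝ) ≤ if T - κe < s.im ∧ s.im ≤ T + κe then 1 else 0 := by split_ifs <;> norm_num
    have i3 : (0:ℝ) ≤ if 2 * T - κe < s.im ∧ s.im ≤ 2 * T + κe then 1 else 0 := by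
      split_ifs <;> norm_num
    have i4 : (0:ℝ) ≤ if κe ≤ dd T s then Real.exp (-dd T s) else 0 := by
      split_ifs
      · exact (Real.exp_pos _).le
      · exact le_rfl
    rcases le_or_gt s.im (T - κe) with h1 | h1
    · have hd : dd T s = T - s.im := by
        unfold dd
        exact max_eq_left (by linarith)
      have := c1_far T (T - s.im) (by linarith) (by linarith) (zz s) him
        (Or.inl (by rw [H385.NLow.zz_re]; linarith))
      have h2 := Complex.re_le_norm (c1 T (zz s))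
      have h3 := hdexp (T - s.im) (by linarith)
      rw [if_pos (show κe ≤ dd T s by rw [hd]; linarith), hd]
      linarith
    rcases le_or_gt s.im (T + κe) with h2 | h2
    · have := c1_bound T (by linarith) (zz s) him
      have h3 := Complex.re_le_norm (c1 T (zz s))
      rw [if_pos (⟨h1, h2⟩ : T - κe < s.im ∧ s.im ≤ T + κe)]
      linarith
    rcases le_or_gt s.im (2 * T - κe) with h3 | h3
    · have := c1_near T κe (by linarith) (zz s) him (by rw [H385.NLow.zz_re]; exact h2.le)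
        (by rw [H385.NLow.zz_re]; exact h3)
      have h4 := Complex.re_le_norm (c1 T (zz s) - 1)
      rw [Complex.sub_re, Complex.one_re] at h4
      rw [if_pos (⟨by linarith, by linarith⟩ : T < s.im ∧ s.im ≤ 2 * T)]
      linarith
    rcases le_or_gt s.im (2 * T + κe) with h4 | h4
    · have := c1_bound T (by linarith) (zz s) him
      have h5 := Complex.re_le_norm (c1 T (zz s))
      rw [if_pos (⟨h3, h4⟩ : 2 * T - κe < s.im ∧ s.im ≤ 2 * T + κe)]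
      linarith
    · have hd : dd T s = s.im - 2 * T := by
        unfold dd
        exact max_eq_right (by linarith)
      have := c1_far T (s.im - 2 * T) (by linarith) (by linarith) (zz s) him
        (Or.inr (by rw [H385.NLow.zz_re]; linarith))
      have h2 := Complex.re_le_norm (c1 T (zz s))
      have h3 := hdexp (s.im - 2 * T) (by linarith)
      rw [if_pos (show κe ≤ dd T s by rw [hd]; linarith), hd]
      linarith
  have hsum : (∑ s ∈ hfinV.toFinset, (mult F s : ℂ) * c1 T (zz s)).re ≤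
      NN F T (2 * T) + 2 * NN F (T - κe) (T + κe) + 2 * NN F (2 * T - κe) (2 * T + κe) +
        2 * εe * NN F T (2 * T) +
        2 * ∑ s ∈ hfinV.toFinset,
          (if κe ≤ dd T s then (mult F s : ℝ) * Real.exp (-dd T s) else 0) := by
    rw [Complex.re_sum, NN_eq_sum F V1 V2 hfinV T (2 * T) (by linarith) (by linarith),
      NN_eq_sum F V1 V2 hfinV (T - κe) (T + κe) (by linarith) (by linarith),
      NN_eq_sum F V1 V2 hfinV (2 * T - κe) (2 * T + κe) (by linarith) (by linarith),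
      Finset.mul_sum, Finset.mul_sum, Finset.mul_sum, Finset.mul_sum,
      ← Finset.sum_add_distrib, ← Finset.sum_add_distrib, ← Finset.sum_add_distrib,
      ← Finset.sum_add_distrib]
    apply Finset.sum_le_sum
    intro s hs
    have h1 : ((mult F s : ℂ) * c1 T (zz s)).re = (mult F s : ℝ) * (c1 T (zz s)).re := by
      rw [show (mult F s : ℂ) = ((mult F s : ℝ) : ℂ) by push_cast; rfl, Complex.re_ofReal_mul]
    rw [h1]
    have h2 := mul_le_mul_of_nonneg_left (hup s hs) (Nat.cast_nonneg (α := ℝ) (mult F s))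
    refine h2.trans (le_of_eq ?_)
    by_cases hc : κe ≤ dd T s
    · rw [if_pos hc, if_pos hc]; ring
    · rw [if_neg hc, if_neg hc]; ring
  have hab1 : |T - κe| + 3 ≤ H := by rw [abs_of_nonneg (by linarith)]; linarith
  have hab2 : |T + κe| + 3 ≤ H := by rw [abs_of_nonneg (by linarith)]; linarith
  have hab3 : |2 * T - κe| + 3 ≤ H := by rw [abs_of_nonneg (by linarith)]; linarith
  have hab4 : |2 * T + κe| + 3 ≤ H := by rw [abs_of_nonneg (by linarith)]; linarith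
  have hab5 : |T| + 3 ≤ H := by rw [abs_of_nonneg (by linarith)]; linarith
  have hab6 : |2 * T| + 3 ≤ H := by rw [abs_of_nonneg (by linarith)]; linarith
  have hab7 : |V1| + 4 ≤ H := by
    have : |V1| ≤ 2 * T + 3 * κ := abs_le.mpr ⟨by linarith, by linarith⟩
    linarith
  have hab8 : |V2| + 4 ≤ H := by
    have : |V2| ≤ 2 * T + 3 * κ := abs_le.mpr ⟨by linarith, by linarith⟩
    linarith
  have hcount1 := hZ ℒ E H q0 F a hF (T - κe) (T + κe) (by linarith) hab1 hab2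
  have hcount2 := hZ ℒ E H q0 F a hF (2 * T - κe) (2 * T + κe) (by linarith) hab3 hab4
  have hcount3 := hZ ℒ E H q0 F a hF T (2 * T) (by linarith) hab5 hab6
  have hshl := hSh ℒ E H q0 F a hF T κe V1 V2 (by linarith) (by linarith) hab7 hab8
    (by linarith) (by linarith) hfinV
  have hκL : ℒ ≤ κe * ℒ := by nlinarith
  have g1 : (NN F (T - κe) (T + κe) : ℝ) ≤ 2 * C1 * (κe * ℒ) := by
    have : C1 * (T + κe - (T - κe)) * ℒ = 2 * C1 * (κe * ℒ) := by ring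
    linarith
  have g2 : (NN F (2 * T - κe) (2 * T + κe) : ℝ) ≤ 2 * C1 * (κe * ℒ) := by
    have : C1 * (2 * T + κe - (2 * T - κe)) * ℒ = 2 * C1 * (κe * ℒ) := by ring
    linarith
  have g3 : 2 * εe * (NN F T (2 * T) : ℝ) ≤ 2 * C1 * (κe * ℒ) := by
    calc 2 * εe * (NN F T (2 * T) : ℝ) ≤ 2 * εe * (C1 * (2 * T - T) * ℒ) :=
          mul_le_mul_of_nonneg_left hcount3 (by positivity)
      _ = 2 * C1 * ℒ * (T * εe) := by ring
      _ ≤ 2 * C1 * ℒ * 1 := mul_le_mul_of_nonneg_left hTε (by positivity)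
      _ = 2 * C1 * ℒ := by ring
      _ ≤ 2 * C1 * (κe * ℒ) := mul_le_mul_of_nonneg_left hκL (by positivity)
  have g4 : ∑ s ∈ hfinV.toFinset,
          (if κe ≤ dd T s then (mult F s : ℝ) * Real.exp (-dd T s) else 0) ≤ C3 * (κe * ℒ) := by
    calc _ ≤ C3 * ℒ * Real.exp (-κe) := hshl
      _ ≤ C3 * ℒ * 1 := mul_le_mul_of_nonneg_left (by
            rw [Real.exp_le_one_iff]; linarith) (by positivity)
      _ = C3 * ℒ := by ring
      _ ≤ _ := mul_le_mul_of_nonneg_left hκL hC3.le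
  have hA1 := A1_integral F V1 V2 T hfinV
  have hre := congrArg Complex.re hA1
  rw [Complex.re_ofReal_mul] at hre
  have hfinal : 1 / Real.sqrt Real.pi *
      (T * (1 / (2 * Real.sqrt Real.pi) * (q0 - 2 * K0) - 2 * C2 * E)) ≤
      NN F T (2 * T) + 2 * NN F (T - κe) (T + κe) + 2 * NN F (2 * T - κe) (2 * T + κe) +
        2 * εe * NN F T (2 * T) +
        2 * ∑ s ∈ hfinV.toFinset,
          (if κe ≤ dd T s then (mult F s : ℝ) * Real.exp (-dd T s) else 0) := by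
    calc _ ≤ 1 / Real.sqrt Real.pi * (∫ m in T..(2 * T), A1 F V1 V2 0 m).re :=
          mul_le_mul_of_nonneg_left hint (by positivity)
      _ ≤ _ := by rw [hre]; exact hsum
  have hs1 : 1 ≤ Real.sqrt Real.pi := by
    rw [Real.le_sqrt (by norm_num) (by positivity)]
    have := Real.pi_gt_three
    linarith
  have hleft : T / (2 * Real.pi) * q0 - T * (2 * K0) - 2 * C2 * (T * E) ≤ 1 / Real.sqrt Real.pi *
      (T * (1 / (2 * Real.sqrt Real.pi) * (q0 - 2 * K0) - 2 * C2 * E)) := by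
    have e1 : 1 / Real.sqrt Real.pi *
      (T * (1 / (2 * Real.sqrt Real.pi) * (q0 - 2 * K0) - 2 * C2 * E)) =
      T / (2 * Real.pi) * q0 - T * (2 * K0) * (1 / (2 * Real.pi)) -
        (1 / Real.sqrt Real.pi) * (2 * C2 * (T * E)) := by
      have hs2 : Real.pi = Real.sqrt Real.pi * Real.sqrt Real.pi := by rw [← sq, hsq1]
      generalize Real.sqrt Real.pi = s at hs2 hsp ⊢
      rw [hs2]
      field_simp
      try ring
    rw [e1]
    have e2 : 1 / (2 * Real.pi) ≤ 1 := by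
      rw [div_le_one (by positivity)]
      have := Real.pi_gt_three
      linarith
    have e3 : 1 / Real.sqrt Real.pi ≤ 1 := by
      rw [div_le_one hsp]
      exact hs1
    have e4 : T * (2 * K0) * (1 / (2 * Real.pi)) ≤ T * (2 * K0) :=
      mul_le_of_le_one_right (mul_nonneg hT0.le (by linarith)) e2
    have e5 : (1 / Real.sqrt Real.pi) * (2 * C2 * (T * E)) ≤ 2 * C2 * (T * E) :=
      mul_le_of_le_one_left (by positivity) e3
    linarith
  have hTE : T ≤ T * E := le_mul_of_one_le_right hT0.le hE1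
  have hTE0 : 0 ≤ T * E := by positivity
  have hκL0 : 0 ≤ κe * ℒ := by positivity
  have q1 := mul_nonneg hK hκL0
  have q1' := mul_le_mul_of_nonneg_left hTE hK
  have q3 := mul_nonneg hC2.le hκL0
  have q4 := mul_nonneg hC1.le hTE0
  have q5 := mul_nonneg hC3.le hTE0
  have hexp : (2 * K0 + 2 * C2 + 10 * C1 + 2 * C3 + 1) * (T * E + κe * ℒ) =
      2 * (K0 * (T * E)) + 2 * (K0 * (κe * ℒ)) + 2 * C2 * (T * E) + 2 * (C2 * (κe * ℒ)) +
      10 * (C1 * (T * E)) + 10 * C1 * (κe * ℒ) + 2 * (C3 * (T * E)) + 2 * (C3 * (κe * ℒ)) +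
      T * E + κe * ℒ := by ring
  rw [hexp]
  have q6 : T * (2 * K0) = 2 * (K0 * T) := by ring
  linarith

end

theorem N_lowerB_of (A : ℝ) (hA : 1 ≤ A)
    (hfin : ∀ (ℒ E H q0 : ℝ) (F : ℂ → ℂ) (a : ℕ → ℂ), GoodB A ℒ E H q0 F a → ∀ T1 T2 : ℝ,
      (zset F T1 T2).Finite)
    (hcnt : ∃ C : ℝ, 0 < C ∧
      ∀ (ℒ E H q0 : ℝ) (F : ℂ → ℂ) (a : ℕ → ℂ), GoodB A ℒ E H q0 F a → ∀ T1 T2 : ℝ, T1 + 1 ≤ T2 →
        |T1| + 3 ≤ H → |T2| + 3 ≤ H → (NN F T1 T2 : ℝ) ≤ C * (T2 - T1) * ℒ)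
    (hA1 : ∃ C : ℝ, 0 < C ∧
      ∀ (ℒ E H q0 : ℝ) (F : ℂ → ℂ) (a : ℕ → ℂ), GoodB A ℒ E H q0 F a →
      ∀ T κ : ℝ, 1 ≤ T → 3 ≤ κ → 2 * T + 3 * κ + 6 ≤ H →
      ∃ V1 V2 : ℝ, T - 3 * κ ≤ V1 ∧ V1 ≤ T - 3 * κ + 1 ∧ 2 * T + 3 * κ - 1 ≤ V2 ∧
        V2 ≤ 2 * T + 3 * κ ∧
        ∀ u m : ℝ, 0 ≤ u → V1 + κ ≤ m → m ≤ V2 - κ →
          ‖A1 F V1 V2 u m - (1 / (2 * Real.sqrt Real.pi) : ℝ) *
            (((q0 : ℝ) : ℂ) * cexp (I * m * u) * Real.exp (-u ^ 2 / 4) - PP1 a u m)‖ ≤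
          C * (E * Real.exp (-(3 / 4) * u) + ℒ ^ 2 * Real.exp (u - κ ^ 2 / 2)))
    (hshell : ∃ C : ℝ, 0 < C ∧
      ∀ (ℒ E H q0 : ℝ) (F : ℂ → ℂ) (a : ℕ → ℂ), GoodB A ℒ E H q0 F a →
        ∀ T κe V1 V2 : ℝ, 1 ≤ T → 0 ≤ κe → |V1| + 4 ≤ H → |V2| + 4 ≤ H → V1 ≤ T → 2 * T ≤ V2 →
        ∀ hfin : (zset F V1 V2).Finite,
          ∑ s ∈ hfin.toFinset, (if κe ≤ dd T s then (mult F s : ℝ) * Real.exp (-dd T s) else 0) ≤
            C * ℒ * Real.exp (-κe)) :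
    ∃ C : ℝ, 0 < C ∧
    ∀ (ℒ E H q0 : ℝ) (F : ℂ → ℂ) (a : ℕ → ℂ), GoodB A ℒ E H q0 F a →
    ∀ T κ κe : ℝ, 3 ≤ κe → κe ≤ κ → 4 * κe ≤ T → T ≤ Real.exp (κe ^ 2 / 2) →
      ℒ ^ 2 * Real.exp (-κ ^ 2 / 2) ≤ 1 → 2 * T + 3 * κ + 6 ≤ H →
      T / (2 * Real.pi) * q0 - C * (T * E + κe * ℒ) ≤ (NN F T (2 * T) : ℝ) := by
  exact N_lowerB_aux A hA hfin hcnt hA1 hshell


end Pool.Agent.A856.BH
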