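import Pool.Agent.A856.BH.GoodLH
import Pool.Agent.A856.SE.GoodK

/-!
The shifted Hecke L-functions of infinity type `k` satisfy `GoodB` (adapted from `GoodLH.lean`).
-/

set_option autoImplicit false

open Complex Filter Topology Set MeasureTheory

namespace Pool.Agent.A856.BH

open Pool.Agent.H304R3.HK (tc)
open Pool.Agent.W354.PK (HCk psik LK aK)

namespace GoodLKAux

open H370.DL (refl analyticAt_refl logDeriv_refl order_refl digamma_ext)
open GoodLHAux (ne_nat ev_strip order_shift norm_cpow_I)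
open Pool.Agent.A856.SE.GoodKAux (XK XK_fe FF_right re_k' im_k')
open Pool.Agent.W354.PK (FFk Thk bK)
open Pool.Agent.W354.PK.L2x (re_k im_k)

/-- the factor of the functional equation -/
noncomputable def LXk (k : ℕ) (w : ℂ) (κ : ℝ) (s : ℂ) : ℂ :=
  (κ : ℂ) ^ (1 - 2 * s) * w * Gamma (1 - s + k / 2) / Gamma (s + k / 2)

theorem XK_eq (k : ℕ) (κ : ℝ) (w z : ℂ) : XK k κ w z = LXk k w (κ / Real.pi) z := by
  unfold XK LXk
  rw [div_eq_mul_inv (_ * _ * _) _]
  ring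

theorem fe_refl {k : ℕ} {κ : ℝ} {b : ℕ → ℂ} {w : ℂ} (H : Thk k κ b w) (z : ℂ) (hz : z.re < 1) :
    FFk k b z = LXk k w (κ / Real.pi) z * refl (FFk k b) z := by
  rw [← XK_eq]
  exact XK_fe k H z hz

theorem pos1 (k : ℕ) {s : ℂ} (h2 : s.re < 1) : 0 < (1 - s + k / 2 : ℂ).re := by
  have hk0 : (0 : ℝ) ≤ k := Nat.cast_nonneg k
  rw [re_k']
  linarith

theorem pos2 {k : ℕ} (hk : 1 ≤ k) {s : ℂ} (h1 : -1 / 2 < s.re) : 0 < (s + k / 2 : ℂ).re := by
  have hk0 : (1 : ℝ) ≤ k := by exact_mod_cast hk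
  rw [re_k]
  linarith

theorem LX_ne {k : ℕ} (hk : 1 ≤ k) {w : ℂ} (hw : w ≠ 0) {κ : ℝ} (hκ : 0 < κ) {s : ℂ}
    (h1 : -1 / 2 < s.re) (h2 : s.re < 1) : LXk k w κ s ≠ 0 := by
  have hg1 := Gamma_ne_zero_of_re_pos (pos1 k h2)
  have hg2 := Gamma_ne_zero_of_re_pos (pos2 hk h1)
  have hκc : (κ : ℂ) ≠ 0 := ofReal_ne_zero.mpr hκ.ne'
  have hqne : (κ : ℂ) ^ (1 - 2 * s) ≠ 0 := by
    rw [Ne, cpow_eq_zero_iff]
    exact fun h => hκc h.1
  unfold LXk
  exact div_ne_zero (mul_ne_zero (mul_ne_zero hqne hw) hg1) hg2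

theorem logDeriv_LX' {k : ℕ} (hk : 1 ≤ k) (w : ℂ) (hw : w ≠ 0) (κ : ℝ) (hκ : 0 < κ) {s : ℂ}
    (h1 : -1 / 2 < s.re) (h2 : s.re < 1) :
    logDeriv (LXk k w κ) s = -(2 * Real.log κ : ℂ) - logDeriv Gamma (1 - s + k / 2) -
      logDeriv Gamma (s + k / 2) := by
  have hr1 := pos1 k h2
  have hr2 := pos2 hk h1
  have hg1 := Gamma_ne_zero_of_re_pos hr1
  have hg2 := Gamma_ne_zero_of_re_pos hr2
  have hκc : (κ : ℂ) ≠ 0 := ofReal_ne_zero.mpr hκ.ne'
  have hqne : (κ : ℂ) ^ (1 - 2 * s) ≠ 0 := by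
    rw [Ne, cpow_eq_zero_iff]
    exact fun h => hκc h.1
  have d1 : HasDerivAt (fun z : ℂ => (κ : ℂ) ^ (1 - 2 * z))
      ((κ : ℂ) ^ (1 - 2 * s) * log (κ : ℂ) * (-(2 * 1))) s := by
    have h1 : HasDerivAt (fun z : ℂ => 1 - 2 * z) (-(2 * 1)) s :=
      ((hasDerivAt_id s).const_mul 2).const_sub 1
    exact h1.const_cpow (Or.inl hκc)
  have d2 : HasDerivAt (fun z : ℂ => Gamma (1 - z + k / 2))
      (deriv Gamma (1 - s + k / 2) * (-1)) s := by
    have h1 : HasDerivAt (fun z : ℂ => 1 - z + k / 2) (-1) s :=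
      ((hasDerivAt_id s).const_sub _).add_const _
    exact HasDerivAt.comp s (differentiableAt_Gamma _ (ne_nat hr1)).hasDerivAt h1
  have d3 : HasDerivAt (fun z : ℂ => Gamma (z + k / 2)) (deriv Gamma (s + k / 2)) s := by
    have h1 : HasDerivAt (fun z : ℂ => z + k / 2) 1 s := (hasDerivAt_id s).add_const _
    simpa [Function.comp_def] using
      HasDerivAt.comp s (differentiableAt_Gamma _ (ne_nat hr2)).hasDerivAt h1
  have d4 := ((d1.mul_const w).mul d2).div d3 hg2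
  have e : deriv (LXk k w κ) s = _ := d4.deriv
  rw [logDeriv_apply, e, logDeriv_apply, logDeriv_apply, LXk]
  have hlog : log (κ : ℂ) = (Real.log κ : ℂ) := by
    rw [Complex.ofReal_log hκ.le]
  simp only [Pi.mul_apply]
  rw [hlog]
  generalize (κ : ℂ) ^ (1 - 2 * s) = P at *
  generalize Gamma (1 - s + k / 2) = G1 at *
  generalize Gamma (s + k / 2) = G2 at *
  field_simp
  ring

theorem LX_an {k : ℕ} (hk : 1 ≤ k) (w : ℂ) (κ : ℝ) (hκ : 0 < κ) {s : ℂ} (h1 : -1 / 2 < s.re)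
    (h2 : s.re < 1) : AnalyticAt ℂ (LXk k w κ) s := by
  rw [analyticAt_iff_eventually_differentiableAt]
  filter_upwards [ev_strip h1 h2] with z hz
  have hr1 := pos1 k hz.2
  have hr2 := pos2 hk hz.1
  have hκc : (κ : ℂ) ≠ 0 := ofReal_ne_zero.mpr hκ.ne'
  have hg2 := Gamma_ne_zero_of_re_pos hr2
  have a1 : DifferentiableAt ℂ (fun z : ℂ => (κ : ℂ) ^ (1 - 2 * z)) z :=
    DifferentiableAt.const_cpow (by fun_prop) (Or.inl hκc)
  have a2 : DifferentiableAt ℂ (fun z : ℂ => Gamma (1 - z + k / 2)) z :=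
    DifferentiableAt.comp z (differentiableAt_Gamma _ (ne_nat hr1)) (by fun_prop)
  have a3 : DifferentiableAt ℂ (fun z : ℂ => Gamma (z + k / 2)) z :=
    DifferentiableAt.comp z (differentiableAt_Gamma _ (ne_nat hr2)) (by fun_prop)
  exact ((a1.mul_const w).mul a2).div a3 hg2

theorem psi_bd (j : ℕ) : ∃ C : ℝ, 0 ≤ C ∧ ∀ u : ℂ, 1 / 4 ≤ u.re → u.re ≤ 7 / 4 + j →
    ‖logDeriv Gamma u‖ ≤ C + Real.log (1 + |u.im|) := by
  induction j with
  | zero =>
    obtain ⟨C, hC0, hC⟩ := GoodLHAux.psi_bd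
    exact ⟨C, hC0, fun u h1 h2 => hC u h1 (by simpa using h2)⟩
  | succ j ih =>
    obtain ⟨C, hC0, hC⟩ := ih
    refine ⟨C + 2, by linarith, fun u h1 h2 => ?_⟩
    push_cast at h2
    rcases le_or_gt u.re (7 / 4) with h3 | h3
    · have h0 : (0 : ℝ) ≤ j := Nat.cast_nonneg j
      have := hC u h1 (by linarith)
      linarith
    · have hre : (u - 1).re = u.re - 1 := by rw [Complex.sub_re, Complex.one_re]
      have him : (u - 1).im = u.im := by rw [Complex.sub_im, Complex.one_im, sub_zero]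
      have h4 := hC (u - 1) (by rw [hre]; linarith) (by rw [hre]; linarith)
      rw [him] at h4
      have h5 : logDeriv Gamma u = logDeriv Gamma (u - 1) + (u - 1)⁻¹ := by
        have h6 := Complex.digamma_apply_add_one (u - 1) (ne_nat (by rw [hre]; linarith))
        rw [sub_add_cancel] at h6
        exact h6
      have h7 : ‖(u - 1)⁻¹‖ ≤ 2 := by
        rw [norm_inv]
        have h8 : (1 / 2 : ℝ) ≤ ‖u - 1‖ := by
          have := Complex.re_le_norm (u - 1)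
          rw [hre] at this
          linarith
        calc ‖u - 1‖⁻¹ ≤ (1 / 2 : ℝ)⁻¹ := inv_anti₀ (by norm_num) h8
          _ = 2 := by norm_num
      rw [h5]
      have h9 := norm_add_le (logDeriv Gamma (u - 1)) ((u - 1)⁻¹)
      linarith

/-- the logarithmic derivative of the functional equation -/
theorem left_bd {k : ℕ} (hk : 1 ≤ k) : ∃ C : ℝ, 0 ≤ C ∧ ∀ (κ : ℝ) (b : ℕ → ℂ) (w : ℂ),
    Thk k κ b w →
    ∀ s : ℂ, -1 / 4 ≤ s.re → s.re ≤ 1 / 2 → FFk k b s ≠ 0 →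
    ‖deriv (FFk k b) s / FFk k b s + ((2 * Real.log κ : ℝ) : ℂ) +
      (starRingEnd ℂ) (deriv (FFk k b) (1 - (starRingEnd ℂ) s) /
        FFk k b (1 - (starRingEnd ℂ) s))‖ ≤ C + 2 * Real.log (1 + |s.im|) := by
  obtain ⟨C, hC0, hC⟩ := psi_bd k
  have hk1' : (1 : ℝ) ≤ k := by exact_mod_cast hk
  refine ⟨2 * Real.log Real.pi + 2 * C, by
    have := Real.log_nonneg (by linarith [Real.pi_gt_three] : (1 : ℝ) ≤ Real.pi)
    linarith, ?_⟩
  intro κ b w H s h1 h2 h4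
  have hk1 := H.k1
  have hk0 : (0 : ℝ) < κ := by linarith
  have hpi := Real.pi_pos
  have hκ : 0 < κ / Real.pi := by positivity
  have hw := H.w1
  have hw0 : w ≠ 0 := by
    intro h
    rw [h, norm_zero] at hw
    exact zero_ne_one hw
  set κ' : ℝ := κ / Real.pi with hκd
  have hd : Differentiable ℂ (FFk k b) := Pool.Agent.W354.PK.FF_entire k κ b w H
  have ha : AnalyticAt ℂ (FFk k b) (1 - (starRingEnd ℂ) s) := hd.analyticAt _
  have g1 : -1 / 2 < s.re := by linarith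
  have g2 : s.re < 1 := by linarith
  have e1 : FFk k b =ᶠ[𝓝 s] fun z => LXk k w κ' z * refl (FFk k b) z := by
    filter_upwards [ev_strip g1 g2] with z hz
    exact fe_refl H z hz.2
  have hr : refl (FFk k b) s ≠ 0 := by
    intro h
    apply h4
    rw [fe_refl H s g2, h, mul_zero]
  have e2 : logDeriv (FFk k b) s = logDeriv (LXk k w κ') s + logDeriv (refl (FFk k b)) s := by
    rw [(logDeriv_congr_nhds e1).eq_of_nhds]
    exact logDeriv_mul s (LX_ne hk hw0 hκ g1 g2) hr (LX_an hk w κ' hκ g1 g2).differentiableAt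
      (analyticAt_refl ha).differentiableAt
  rw [logDeriv_refl ha.differentiableAt, logDeriv_LX' hk w hw0 κ' hκ g1 g2] at e2
  change ‖logDeriv (FFk k b) s + ((2 * Real.log κ : ℝ) : ℂ) +
    (starRingEnd ℂ) (logDeriv (FFk k b) (1 - (starRingEnd ℂ) s))‖ ≤ _
  rw [e2]
  have b1 := hC (1 - s + k / 2) (by rw [re_k']; linarith) (by rw [re_k']; linarith)
  have b2 := hC (s + k / 2) (by rw [re_k]; linarith) (by rw [re_k]; linarith)
  rw [im_k', abs_neg] at b1
  rw [im_k] at b2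
  have hlogκ : Real.log κ' = Real.log κ - Real.log Real.pi := Real.log_div hk0.ne' hpi.ne'
  have e3 : -(2 * Real.log κ' : ℂ) - logDeriv Gamma (1 - s + k / 2) -
      logDeriv Gamma (s + k / 2) +
      -(starRingEnd ℂ) (logDeriv (FFk k b) (1 - (starRingEnd ℂ) s)) +
        ((2 * Real.log κ : ℝ) : ℂ) +
      (starRingEnd ℂ) (logDeriv (FFk k b) (1 - (starRingEnd ℂ) s)) =
      ((2 * Real.log Real.pi : ℝ) : ℂ) - logDeriv Gamma (1 - s + k / 2) -
      logDeriv Gamma (s + k / 2) := by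
    rw [hlogκ]
    push_cast
    ring
  rw [e3]
  have n0 : ‖((2 * Real.log Real.pi : ℝ) : ℂ)‖ = 2 * Real.log Real.pi := by
    rw [Complex.norm_real, Real.norm_eq_abs, abs_of_nonneg]
    have := Real.log_nonneg (by linarith [Real.pi_gt_three] : (1 : ℝ) ≤ Real.pi)
    linarith
  have n1 := norm_sub_le (((2 * Real.log Real.pi : ℝ) : ℂ) - logDeriv Gamma (1 - s + k / 2))
    (logDeriv Gamma (s + k / 2))
  have n2 := norm_sub_le ((2 * Real.log Real.pi : ℝ) : ℂ) (logDeriv Gamma (1 - s + k / 2))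
  linarith

/-- symmetry of the zeros -/
theorem symm_all {k : ℕ} (hk : 1 ≤ k) {κ : ℝ} {b : ℕ → ℂ} {w : ℂ} (H : Thk k κ b w) (s : ℂ)
    (h1 : 0 < s.re) (h2 : s.re < 1) :
    analyticOrderAt (FFk k b) (1 - (starRingEnd ℂ) s) = analyticOrderAt (FFk k b) s := by
  have hk0 : (0 : ℝ) < κ := by linarith [H.k1]
  have hκ : 0 < κ / Real.pi := div_pos hk0 Real.pi_pos
  have hw0 : w ≠ 0 := by
    intro h
    have := H.w1
    rw [h, norm_zero] at this
    exact zero_ne_one this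
  have g1 : -1 / 2 < s.re := by linarith
  have ha : AnalyticAt ℂ (FFk k b) (1 - (starRingEnd ℂ) s) :=
    (Pool.Agent.W354.PK.FF_entire k κ b w H).analyticAt _
  have h1 : FFk k b =ᶠ[𝓝 s] (LXk k w (κ / Real.pi)) * refl (FFk k b) := by
    filter_upwards [ev_strip g1 h2] with z hz
    exact fe_refl H z hz.2
  have hX : AnalyticAt ℂ (LXk k w (κ / Real.pi)) s := LX_an hk w _ hκ g1 h2
  rw [analyticOrderAt_congr h1, analyticOrderAt_mul hX (analyticAt_refl ha),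
    hX.analyticOrderAt_eq_zero.mpr (LX_ne hk hw0 hκ g1 h2), zero_add, order_refl ha]

end GoodLKAux

open GoodLKAux in
open GoodLHAux (nz_line order_shift norm_cpow_I) in
theorem goodB_LK (k : ℕ) (hk : 1 ≤ k) : ∃ A : ℝ, 1 ≤ A ∧
    ∀ (d : GaussianInt) (χ : GaussianInt →* ℂ), HCk k d χ →
    ∀ w H E ℒ : ℝ, 0 ≤ w → 0 ≤ H → 1 + Real.log (1 + H + w) ≤ E → E ≤ ℒ →
      Real.log ‖tc d‖ ≤ ℒ →
      GoodB A ℒ E H (2 * Real.log ‖tc d‖) (fun z => LK k χ (z - (w : ℂ) * I))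
        (fun n => aK k χ n * (n : ℂ) ^ ((w : ℂ) * I)) := by
  obtain ⟨c0, hc0, hlow⟩ := Pool.Agent.H304R3.HK.F_lower
  obtain ⟨Cl, hCl, hleft⟩ := left_bd hk
  have hC0 := Pool.Agent.H304R3.HK.L2x.C0_nonneg
  set C0 : ℝ := Pool.Agent.H304R3.HK.L2x.C0 with hC0d
  have hk0 : (0 : ℝ) ≤ k := Nat.cast_nonneg k
  have hD0 : 0 ≤ 50 * (3 + k : ℝ) ^ 2 * C0 := by positivity
  set A1 : ℝ := Real.log (50 * (3 + k : ℝ) ^ 2 * C0 + 1) with hA1d
  have hA1 : 0 ≤ A1 := Real.log_nonneg (by linarith)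
  obtain ⟨A, hAd⟩ : ∃ A : ℝ, A = max (A1 + 4) (max c0⁻¹ (Cl + 2)) := ⟨_, rfl⟩
  have hAa : A1 + 4 ≤ A := by rw [hAd]; exact le_max_left _ _
  have hAb : c0⁻¹ ≤ A := by rw [hAd]; exact (le_max_left _ _).trans (le_max_right _ _)
  have hAc : Cl + 2 ≤ A := by rw [hAd]; exact (le_max_right _ _).trans (le_max_right _ _)
  have hA : 1 ≤ A := by linarith
  refine ⟨A, hA, ?_⟩
  intro d χ Hd w H E ℒ hw hH hE hEL hκL
  obtain ⟨w0, hT⟩ := Pool.Agent.W354.PK.th_psik hk d χ Hd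
  have hLg := Pool.Agent.H304R3.HK.lg_bb (psik k χ)
    (Pool.Agent.W354.PK.uh_psik Hd)
  have hκ1 : 1 ≤ ‖tc d‖ := hT.k1
  have hκ0 : 0 < ‖tc d‖ := by linarith
  have hent : Differentiable ℂ (LK k χ) := Pool.Agent.W354.PK.FF_entire _ _ _ _ hT
  have hser : ∀ s : ℂ, 1 < s.re →
      HasSum (fun n : ℕ => Pool.Agent.W354.PK.bK k χ n * (n : ℂ) ^ (-s)) (LK k χ s) := by
    intro s hs
    exact Pool.Agent.W354.PK.FF_series k (Pool.Agent.W354.PK.bK k χ) hLg.b0 hLg.bd s hs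
  have haH : ∀ n, aK k χ n = (ArithmeticFunction.vonMangoldt n : ℂ) *
      Pool.Agent.H304R3.HK.ccf (psik k χ) n :=
    fun n => Pool.Agent.H304R3.HK.lam_eq (psik k χ)
      (Pool.Agent.W354.PK.uh_psik Hd) n
  have hab : ∀ n, ‖aK k χ n‖ ≤ 2 * ArithmeticFunction.vonMangoldt n := by
    intro n
    rw [haH, norm_mul, Complex.norm_real, Real.norm_of_nonneg
      ArithmeticFunction.vonMangoldt_nonneg]
    nlinarith [hLg.cd n, norm_nonneg (Pool.Agent.H304R3.HK.ccf (psik k χ) n),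
      ArithmeticFunction.vonMangoldt_nonneg (n := n)]
  have ha0 : aK k χ 0 = 0 := by
    rw [haH]; simp
  have hne : ∀ s : ℂ, 1 < s.re → LK k χ s ≠ 0 :=
    fun s hs => Pool.Agent.H304R3.HK.F_ne_zero (Pool.Agent.W354.PK.bK k χ)
      (Pool.Agent.H304R3.HK.ccf (psik k χ)) hLg (LK k χ) hser s hs
  have hnz : ∀ s : ℂ, 1 ≤ s.re → LK k χ s ≠ 0 := by
    intro s h1
    rcases h1.lt_or_eq with h1 | h1
    · exact hne s h1
    · obtain ⟨G, hG, sG⟩ := Pool.Agent.W354.PK.psi_sq hk d χ Hd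
      have h3 := nz_line Pool.Agent.H304R3.HK.lg_bb Pool.Agent.H304R3.HK.lam_eq
        Pool.Agent.H304R3.HK.lam_one Pool.Agent.H304R3.HK.F_ne_zero Pool.Agent.H304R3.HK.F_ld
        (psik k χ) (Pool.Agent.W354.PK.uh_psik Hd) (LK k χ) G hent hG
        hser sG s.im
      have h4 : s = ⟨1, s.im⟩ := Complex.ext h1.symm rfl
      rw [h4]
      exact h3
  have hlogH : 0 ≤ Real.log (1 + H + w) := Real.log_nonneg (by linarith)
  have hE1 : 1 ≤ E := by linarith
  have hL1 : 1 ≤ ℒ := by linarith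
  have hre : ∀ s : ℂ, (s - (w : ℂ) * I).re = s.re := by intro s; simp
  have him : ∀ s : ℂ, (s - (w : ℂ) * I).im = s.im - w := by intro s; simp
  have hosc : ∀ s : ℂ, 1 - (starRingEnd ℂ) s - (w : ℂ) * I =
      1 - (starRingEnd ℂ) (s - (w : ℂ) * I) := by
    intro s
    simp only [map_sub, map_mul, Complex.conj_ofReal, Complex.conj_I]
    ring
  have himH : ∀ s : ℂ, |s.im| ≤ H → |(s - (w : ℂ) * I).im| ≤ H + w := by
    intro s hs
    rw [him]
    refine (abs_sub _ _).trans ?_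
    rw [abs_of_nonneg hw]
    linarith
  have hder : ∀ s : ℂ, deriv (fun z => LK k χ (z - (w : ℂ) * I)) s =
      deriv (LK k χ) (s - (w : ℂ) * I) := by
    intro s
    exact deriv_comp_sub_const (LK k χ) ((w : ℂ) * I) s
  constructor
  · exact hA
  · exact hL1
  · exact hE1
  · exact hEL
  · exact mul_nonneg zero_le_two (Real.log_nonneg hκ1)
  · linarith
  · exact hent.comp (differentiable_id.sub_const _)
  · -- growth
    intro s h1 h2 h3
    have g := Pool.Agent.A856.SE.GoodKAux.FF_right k hT (s - (w : ℂ) * I) (by rw [hre]; linarith)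
    have hn : ‖s - (w : ℂ) * I‖ ≤ 4 + H + w := by
      refine (Complex.norm_le_abs_re_add_abs_im _).trans ?_
      have := himH s h3
      rw [hre, abs_of_nonneg (by linarith : (0 : ℝ) ≤ s.re)]
      linarith
    have hP : (1 + ‖s - (w : ℂ) * I‖) ^ 2 ≤ 25 * (1 + H + w) ^ 2 := by
      calc (1 + ‖s - (w : ℂ) * I‖) ^ 2 ≤ (5 * (1 + H + w)) ^ 2 :=
            pow_le_pow_left₀ (by positivity) (by linarith) 2
        _ = _ := by ring
    have h5 : ‖LK k χ (s - (w : ℂ) * I)‖ ≤ 2 * (3 + k) ^ 2 * C0 * ‖tc d‖ ^ 2 * (25 * (1 + H + w) ^ 2) := by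
      refine g.trans ?_
      exact mul_le_mul_of_nonneg_left hP (by positivity)
    have h6 : 2 * (3 + k) ^ 2 * C0 * ‖tc d‖ ^ 2 * (25 * (1 + H + w) ^ 2) ≤
        (50 * (3 + k : ℝ) ^ 2 * C0 + 1) * ‖tc d‖ ^ 2 * (1 + H + w) ^ 2 := by
      have : 0 ≤ ‖tc d‖ ^ 2 * (1 + H + w) ^ 2 := by positivity
      nlinarith
    have h7 : (50 * (3 + k : ℝ) ^ 2 * C0 + 1) * ‖tc d‖ ^ 2 * (1 + H + w) ^ 2 =
        Real.exp (A1 + 2 * Real.log ‖tc d‖ + 2 * Real.log (1 + H + w)) := by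
      have hx : 0 < 1 + H + w := by linarith
      have e1 : Real.exp (2 * Real.log ‖tc d‖) = ‖tc d‖ ^ 2 := by
        rw [two_mul, Real.exp_add, Real.exp_log hκ0, sq]
      have e2 : Real.exp (2 * Real.log (1 + H + w)) = (1 + H + w) ^ 2 := by
        rw [two_mul, Real.exp_add, Real.exp_log hx, sq]
      rw [Real.exp_add, Real.exp_add, e1, e2, hA1d, Real.exp_log (by linarith)]
    refine (h5.trans (h6.trans h7.le)).trans (Real.exp_le_exp.mpr ?_)
    have h8 : A1 ≤ A1 * ℒ := by nlinarith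
    have h9 : (A1 + 4) * ℒ ≤ A * ℒ := mul_le_mul_of_nonneg_right hAa (by linarith)
    nlinarith
  · -- lower bound
    intro t
    have h1 : A⁻¹ ≤ c0 := by
      rw [inv_le_comm₀ (by linarith) hc0]
      exact hAb
    have h2 := hlow (Pool.Agent.W354.PK.bK k χ)
      (Pool.Agent.H304R3.HK.ccf (psik k χ)) (LK k χ) hLg hser (t - w)
    have h3 : (⟨2, t⟩ : ℂ) - (w : ℂ) * I = ⟨2, t - w⟩ := by
      apply Complex.ext
      · rw [hre]
      · rw [him]
    show A⁻¹ ≤ ‖LK k χ ((⟨2, t⟩ : ℂ) - (w : ℂ) * I)‖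
    rw [h3]
    exact h1.trans h2
  · intro s h1
    exact hnz _ (by rw [hre]; exact h1)
  · intro s h1 h2
    show LK k χ (s - (w : ℂ) * I) ≠ 0
    have g1 : -1 / 2 < (s - (w : ℂ) * I).re := by rw [hre]; linarith
    have g2 : (s - (w : ℂ) * I).re < 1 := by rw [hre]; linarith
    have hκ : 0 < ‖tc d‖ / Real.pi := div_pos hκ0 Real.pi_pos
    have hw0 : w0 ≠ 0 := by
      intro h
      have := hT.w1
      rw [h, norm_zero] at this
      exact zero_ne_one this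
    have hfe := fe_refl hT (s - (w : ℂ) * I) g2
    have hfe' : LK k χ (s - (w : ℂ) * I) = _ := hfe
    rw [hfe']
    refine mul_ne_zero (LX_ne hk hw0 hκ g1 g2) ?_
    show (starRingEnd ℂ) (LK k χ (1 - (starRingEnd ℂ) (s - (w : ℂ) * I))) ≠ 0
    rw [Ne, map_eq_zero]
    refine hnz _ ?_
    rw [Complex.sub_re, Complex.one_re, Complex.conj_re, hre]
    linarith
  · intro s h1 h2
    rw [order_shift hent, order_shift hent, hosc]
    exact symm_all hk hT _ (by rw [hre]; exact h1) (by rw [hre]; exact h2)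
  · intro n
    rcases Nat.eq_zero_or_pos n with rfl | hn
    · rw [ha0, zero_mul, norm_zero]
      simp
    · rw [norm_mul, norm_cpow_I n hn.ne', mul_one]
      exact hab n
  · intro s hs
    rw [hder]
    show deriv (LK k χ) (s - (w : ℂ) * I) / LK k χ (s - (w : ℂ) * I) = _
    rw [Pool.Agent.H304R3.HK.F_ld (Pool.Agent.W354.PK.bK k χ)
      (Pool.Agent.H304R3.HK.ccf (psik k χ)) hLg (LK k χ) hser _
      (by rw [hre]; exact hs)]
    congr 1
    apply tsum_congr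
    intro n
    rw [← haH]
    rcases Nat.eq_zero_or_pos n with rfl | hn
    · rw [ha0]; simp
    · have hn0 : (n : ℂ) ≠ 0 := by exact_mod_cast hn.ne'
      rw [mul_assoc, ← Complex.cpow_add _ _ hn0]
      congr 2
      ring
  · intro s h1 h2 h3 h4
    rw [hder, hder, hosc]
    have h5 := hleft _ _ _ hT (s - (w : ℂ) * I) (by rw [hre]; linarith) (by rw [hre]; linarith) h4
    refine h5.trans ?_
    have h6 : Real.log (1 + |(s - (w : ℂ) * I).im|) ≤ Real.log (1 + H + w) := by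
      apply Real.log_le_log (by positivity)
      have := himH s h3
      linarith
    have h7 : Cl ≤ Cl * E := by nlinarith
    have h8 : (Cl + 2) * E ≤ A * E := mul_le_mul_of_nonneg_right hAc (by linarith)
    nlinarith

end Pool.Agent.A856.BH
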