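import Pool.Agent.A856.BH.HeIntU
import Pool.Agent.Y762.EG.FinA
import Pool.Agent.Y762.HK.Pt

/-!
# Mean square over the Hecke characters of infinity type `k` modulo `q`, with the weights `n^(iw)`

(`HeInt.lean`, `HeIntU.lean` and `H385R5/HE4.lean` for infinity type one.)  Owner helper856.
-/

set_option autoImplicit false

open Complex Filter Topology Set MeasureTheory

set_option maxHeartbeats 4000000

namespace Pool.Agent.A856.BH

open H385 hiding ee ee_norm ee_add SS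
open Pool.Agent.H304R3.HK (tc LamK bb)
open Pool.Agent.W354.PK (HCk psik aK)
open Pool.Agent.Y762.EG (FQk mem_FQk ind_k card_FQk)
open Pool.Agent.Y762.HK (AllC mem_AllC all_orth)
open Pool.Agent.H304R3.HK.M4 (LamK_ii bb_eq mem_T norm_nn norm_zero_iff)
open H385.HE5
open H385.HE4 (unit_im1 tc_im1 nrm_im1)

open Classical in
/-- coefficients of the prime sum, infinity type `k` -/
noncomputable def wZk (k : ℕ) (q : ZI) (b : ℕ → ℂ) (a : ZI) : ℂ :=
  if IsCoprime a q then (LamK a : ℂ) * (tc a / (‖tc a‖ : ℂ)) ^ k * b (nrm a) else 0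

open Classical in
/-- orthogonality -/
theorem fqk_orth (k : ℕ) (q : ZI) (hq : q ≠ 0) (a b : ZI) (hb : IsCoprime b q) :
    ∑ χ ∈ FQk q k, chiZ q χ a * (starRingEnd ℂ) (chiZ q χ b) =
      (phiQ q : ℂ) / 4 * ∑ j ∈ Finset.range 4, (I ^ k) ^ j *
        (if Ideal.Quotient.mk (Ideal.span {q}) (im1 ^ j * a) =
            Ideal.Quotient.mk (Ideal.span {q}) b then 1 else 0) := by
  unfold FQk
  rw [Finset.sum_filter]
  have e1 : ∀ χ ∈ AllC q, (if chiZ q χ im1 = (-I) ^ k then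
      chiZ q χ a * (starRingEnd ℂ) (chiZ q χ b) else 0) =
      1 / 4 * ∑ j ∈ Finset.range 4, (I ^ k) ^ j *
        (chiZ q χ (im1 ^ j * a) * (starRingEnd ℂ) (chiZ q χ b)) := by
    intro χ _
    have h1 : (if chiZ q χ im1 = (-I) ^ k then
        chiZ q χ a * (starRingEnd ℂ) (chiZ q χ b) else 0) =
        (if chiZ q χ im1 = (-I) ^ k then (1 : ℂ) else 0) *
          (chiZ q χ a * (starRingEnd ℂ) (chiZ q χ b)) := by
      split_ifs <;> simp
    rw [h1, ind_k q k χ, mul_assoc, Finset.sum_mul]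
    congr 1
    refine Finset.sum_congr rfl fun j _ => ?_
    rw [map_mul (chiZ q χ), map_pow (chiZ q χ) im1 j]
    ring
  rw [Finset.sum_congr rfl e1, ← Finset.mul_sum, Finset.sum_comm]
  have e2 : ∀ j ∈ Finset.range 4, ∑ χ ∈ AllC q, (I ^ k) ^ j *
        (chiZ q χ (im1 ^ j * a) * (starRingEnd ℂ) (chiZ q χ b)) =
      (phiQ q : ℂ) * ((I ^ k) ^ j * (if Ideal.Quotient.mk (Ideal.span {q}) (im1 ^ j * a) =
            Ideal.Quotient.mk (Ideal.span {q}) b then 1 else 0)) := by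
    intro j _
    rw [← Finset.mul_sum, all_orth q hq _ b hb]
    have h3 : (q ∣ im1 ^ j * a - b) ↔ Ideal.Quotient.mk (Ideal.span {q}) (im1 ^ j * a) =
            Ideal.Quotient.mk (Ideal.span {q}) b := by
      rw [Ideal.Quotient.eq, Ideal.mem_span_singleton]
    by_cases h4 : q ∣ im1 ^ j * a - b
    · rw [if_pos h4, if_pos (h3.1 h4)]
      ring
    · rw [if_neg h4, if_neg (fun h => h4 (h3.2 h))]
      ring
  rw [Finset.sum_congr rfl e2, ← Finset.mul_sum]
  ring

theorem wZk_im1 (k : ℕ) (q : ZI) (b : ℕ → ℂ) (a : ZI) : wZk k q b (im1 * a) = I ^ k * wZk k q b a := by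
  unfold wZk
  by_cases h : IsCoprime a q
  · rw [if_pos h, if_pos ((isCoprime_mul_unit_left_left unit_im1 a q).2 h), nrm_im1, tc_im1, norm_mul,
      Complex.norm_I, one_mul]
    have : LamK (im1 * a) = LamK a := LamK_ii a
    rw [this, mul_div_assoc, mul_pow]
    ring
  · rw [if_neg h, if_neg (fun h2 => h ((isCoprime_mul_unit_left_left unit_im1 a q).1 h2)), mul_zero]

theorem pow_factsK (k : ℕ) (q : ZI) (b : ℕ → ℂ) (a : ZI) (j : ℕ) :
    wZk k q b (im1 ^ j * a) = (I ^ k) ^ j * wZk k q b a ∧ nrm (im1 ^ j * a) = nrm a := by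
  induction j with
  | zero => simp
  | succ j ih =>
    have e : im1 ^ (j + 1) * a = im1 * (im1 ^ j * a) := by ring
    rw [e, wZk_im1, nrm_im1, ih.1, ih.2]
    refine ⟨by ring, rfl⟩

theorem wZk_of_not (k : ℕ) (q : ZI) (b : ℕ → ℂ) (a : ZI) (h : ¬ IsCoprime a q) : wZk k q b a = 0 := by
  unfold wZk
  rw [if_neg h]

theorem wZk_norm (k : ℕ) (q : ZI) (b : ℕ → ℂ) (a : ZI) :
    ‖wZk k q b a‖ ^ 2 ≤ LamK a ^ 2 * ‖b (nrm a)‖ ^ 2 := by
  unfold wZk
  split_ifs with h
  · have h1 : ‖(tc a / (‖tc a‖ : ℂ)) ^ k‖ ≤ 1 := by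
      rw [norm_pow, norm_div, Complex.norm_real, norm_norm]
      exact pow_le_one₀ (by positivity) (div_self_le_one _)
    have h2 : ‖((LamK a : ℝ) : ℂ)‖ = |LamK a| := by
      rw [Complex.norm_real, Real.norm_eq_abs]
    rw [norm_mul, norm_mul, h2, mul_pow, mul_pow, sq_abs]
    have h3 : ‖(tc a / (‖tc a‖ : ℂ)) ^ k‖ ^ 2 ≤ 1 := pow_le_one₀ (norm_nonneg _) h1
    have h4 : LamK a ^ 2 * ‖(tc a / (‖tc a‖ : ℂ)) ^ k‖ ^ 2 ≤ LamK a ^ 2 * 1 :=
      mul_le_mul_of_nonneg_left h3 (sq_nonneg _)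
    rw [mul_one] at h4
    exact mul_le_mul_of_nonneg_right h4 (sq_nonneg _)
  · have h5 : (0 : ℝ) ≤ LamK a ^ 2 * ‖b (nrm a)‖ ^ 2 := by positivity
    rw [norm_zero, zero_pow two_ne_zero]
    exact h5

open Classical in
/-- orthogonality against the weights -/
theorem orth_wK (k : ℕ) (q : ZI) (N : ℕ) (hN : 4 * N < nrm q) (b : ℕ → ℂ) (a b' : ZI)
    (ha : a ∈ BX N) (hb : b' ∈ BX N) :
    (wZk k q b a * (starRingEnd ℂ) (wZk k q b b')) *
        ∑ χ ∈ FQk q k, chiZ q χ a * (starRingEnd ℂ) (chiZ q χ b') =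
      (phiQ q : ℂ) / 4 * ∑ j ∈ Finset.range 4,
        (if im1 ^ j * a = b' then (I ^ k) ^ j * (wZk k q b a * (starRingEnd ℂ) (wZk k q b b')) else 0) := by
  have hq : q ≠ 0 := by
    rintro rfl
    have : nrm (0 : ZI) = 0 := by
      unfold nrm
      simp
    omega
  rw [HE4.mem_BX] at ha hb
  by_cases hca : IsCoprime a q
  · by_cases hcb : IsCoprime b' q
    · rw [fqk_orth k q hq a b' hcb]
      rw [Finset.mul_sum, Finset.mul_sum, Finset.mul_sum]
      refine Finset.sum_congr rfl fun j _ => ?_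
      have h1 := HE4.eq_of_mk q N hN (im1 ^ j * a) b' (by rw [(pow_factsK k q b a j).2]; exact ha.2) hb.2
      by_cases h2 : im1 ^ j * a = b'
      · rw [if_pos (h1.2 h2), if_pos h2]
        ring
      · rw [if_neg (fun h3 => h2 (h1.1 h3)), if_neg h2]
        ring
    · rw [wZk_of_not k q b b' hcb]
      simp
  · rw [wZk_of_not k q b a hca]
    simp

theorem diagK (k : ℕ) (q : ZI) (N : ℕ) (hN : 4 * N < nrm q) (b : ℕ → ℂ) :
    ∑ χ ∈ FQk q k, ‖(1 / 4 : ℂ) * ∑ a ∈ BX N, wZk k q b a * chiZ q χ a‖ ^ 2 =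
      (phiQ q : ℝ) / 16 * ∑ a ∈ BX N, ‖wZk k q b a‖ ^ 2 := by
  classical
  have h1 : ∀ χ : MulChar (RQ q) ℂ,
      ((‖(1 / 4 : ℂ) * ∑ a ∈ BX N, wZk k q b a * chiZ q χ a‖ ^ 2 : ℝ) : ℂ) =
      (1 / 16 : ℂ) * ∑ a ∈ BX N, ∑ b' ∈ BX N, (wZk k q b a * (starRingEnd ℂ) (wZk k q b b')) *
        (chiZ q χ a * (starRingEnd ℂ) (chiZ q χ b')) := by
    intro χ
    push_cast
    rw [← Complex.mul_conj']
    rw [map_mul, map_sum]
    have e4 : (starRingEnd ℂ) (1 / 4 : ℂ) = 1 / 4 := by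
      rw [map_div₀, map_one, Complex.conj_ofNat]
    rw [e4]
    have e5 : (1 / 4 : ℂ) * (∑ a ∈ BX N, wZk k q b a * chiZ q χ a) *
        (1 / 4 * ∑ a ∈ BX N, (starRingEnd ℂ) (wZk k q b a * chiZ q χ a)) =
        1 / 16 * ((∑ a ∈ BX N, wZk k q b a * chiZ q χ a) *
          ∑ a ∈ BX N, (starRingEnd ℂ) (wZk k q b a * chiZ q χ a)) := by ring
    rw [e5, Finset.sum_mul_sum]
    congr 1
    refine Finset.sum_congr rfl fun a _ => Finset.sum_congr rfl fun b' _ => ?_
    rw [map_mul]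
    ring
  have h2 : ((∑ χ ∈ FQk q k, ‖(1 / 4 : ℂ) * ∑ a ∈ BX N, wZk k q b a * chiZ q χ a‖ ^ 2 : ℝ) : ℂ) =
      (((phiQ q : ℝ) / 16 * ∑ a ∈ BX N, ‖wZk k q b a‖ ^ 2 : ℝ) : ℂ) := by
    rw [Complex.ofReal_sum, Finset.sum_congr rfl fun χ _ => h1 χ, ← Finset.mul_sum,
      Finset.sum_comm]
    have h3 : ∀ a ∈ BX N, ∑ χ ∈ FQk q k, ∑ b' ∈ BX N, (wZk k q b a * (starRingEnd ℂ) (wZk k q b b')) *
        (chiZ q χ a * (starRingEnd ℂ) (chiZ q χ b')) = (phiQ q : ℂ) * ((‖wZk k q b a‖ ^ 2 : ℝ) : ℂ) := by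
      intro a ha
      rw [Finset.sum_comm]
      have h4 : ∀ b' ∈ BX N, ∑ χ ∈ FQk q k, (wZk k q b a * (starRingEnd ℂ) (wZk k q b b')) *
          (chiZ q χ a * (starRingEnd ℂ) (chiZ q χ b')) =
          (phiQ q : ℂ) / 4 * ∑ j ∈ Finset.range 4,
        (if im1 ^ j * a = b' then (I ^ k) ^ j * (wZk k q b a * (starRingEnd ℂ) (wZk k q b b')) else 0) := by
        intro b' hb'
        rw [← Finset.mul_sum]
        exact orth_wK k q N hN b a b' ha hb'
      rw [Finset.sum_congr rfl h4, ← Finset.mul_sum, Finset.sum_comm]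
      have h5 : ∀ j ∈ Finset.range 4, ∑ b' ∈ BX N, (if im1 ^ j * a = b' then
          (I ^ k) ^ j * (wZk k q b a * (starRingEnd ℂ) (wZk k q b b')) else 0) =
          ((‖wZk k q b a‖ ^ 2 : ℝ) : ℂ) := by
        intro j _
        have hm : im1 ^ j * a ∈ BX N := by
          rw [HE4.mem_BX] at ha ⊢
          rw [(pow_factsK k q b a j).2]
          exact ha
        rw [Finset.sum_ite_eq, if_pos hm, (pow_factsK k q b a j).1, map_mul, map_pow, map_pow, Complex.conj_I]
        have e6 : (I ^ k) ^ j * ((-I) ^ k) ^ j = 1 := by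
          rw [← mul_pow, ← mul_pow]
          have : I * -I = 1 := by
            rw [mul_neg, Complex.I_mul_I, neg_neg]
          rw [this, one_pow, one_pow]
        push_cast
        rw [← Complex.mul_conj']
        linear_combination (wZk k q b a * (starRingEnd ℂ) (wZk k q b a)) * e6
      rw [Finset.sum_congr rfl h5, Finset.sum_const, Finset.card_range, nsmul_eq_mul]
      push_cast
      ring
    rw [Finset.sum_congr rfl h3, ← Finset.mul_sum]
    push_cast
    ring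
  exact_mod_cast h2

theorem fqk_ms (k : ℕ) (q : ZI) (N : ℕ) (hN : 4 * N < nrm q) (b : ℕ → ℂ) :
    ∑ χ ∈ FQk q k, ‖(1 / 4 : ℂ) * ∑ a ∈ BX N, wZk k q b a * chiZ q χ a‖ ^ 2 ≤
      (phiQ q : ℝ) / 4 * ∑ n ∈ Finset.Icc 1 N, lamK2 n * ‖b n‖ ^ 2 := by
  rw [diagK k q N hN b]
  have h1 : ∑ a ∈ BX N, ‖wZk k q b a‖ ^ 2 ≤ ∑ a ∈ BX N, LamK a ^ 2 * ‖b (nrm a)‖ ^ 2 :=
    Finset.sum_le_sum fun a _ => wZk_norm k q b a
  rw [HE4.group] at h1
  have h2 : (0 : ℝ) ≤ (phiQ q : ℝ) / 16 := by positivity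
  have h3 := mul_le_mul_of_nonneg_left h1 h2
  refine h3.trans (le_of_eq ?_)
  ring

theorem mainK (k : ℕ) (q d : ZI) (χ : MulChar (RQ q) ℂ) (χ' : ZI →* ℂ)
    (h : HCk k d χ') (hχ : ∀ a : ZI, IsCoprime a q → χ' a = chiZ q χ a) (N : ℕ) (T' u t : ℝ)
    (hT : 0 ≤ T') (b : ℕ → ℂ) (hb : ∀ n, ‖b n‖ ≤ ‖bn T' u t n‖) :
    ‖∑' n : ℕ, aK k χ' n * b n -
      (1 / 4 : ℂ) * ∑ a ∈ BX N, wZk k q b a * chiZ q χ a‖ ≤
      wt T' t * (2 * (Gq (nrm q) u + Tl N u)) := by
  classical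
  have hpsi : ∀ a : ZI, ‖psik k χ' a‖ ≤ 1 := (Pool.Agent.W354.PK.uh_psik h).hb
  -- the coefficient bound
  have hvb : ∀ n, ArithmeticFunction.vonMangoldt n * ‖b n‖ ≤
      ArithmeticFunction.vonMangoldt n * ‖bn T' u t n‖ := fun n =>
    mul_le_mul_of_nonneg_left (hb n) ArithmeticFunction.vonMangoldt_nonneg
  have haH0 : ∀ n, ‖aK k χ' n * b n‖ ≤ 2 * (ArithmeticFunction.vonMangoldt n * ‖b n‖) := by
    intro n
    have h1 : ‖aK k χ' n‖ ≤ 2 * (ArithmeticFunction.vonMangoldt n * 1) := by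
      unfold aK
      refine bb_le _ n 1 (by norm_num) ?_
      intro a _
      rw [norm_mul, Complex.norm_real, Real.norm_of_nonneg (LamK_nn a)]
      exact mul_le_mul_of_nonneg_left (hpsi a) (LamK_nn a)
    rw [norm_mul]
    calc ‖aK k χ' n‖ * ‖b n‖ ≤ (2 * (ArithmeticFunction.vonMangoldt n * 1)) * ‖b n‖ :=
          mul_le_mul_of_nonneg_right h1 (norm_nonneg _)
      _ = _ := by ring
  have haH : ∀ n, ‖aK k χ' n * b n‖ ≤ 2 * (ArithmeticFunction.vonMangoldt n * ‖bn T' u t n‖) :=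
    fun n => (haH0 n).trans (mul_le_mul_of_nonneg_left (hvb n) (by norm_num))
  have hsb : Summable (fun n : ℕ => ArithmeticFunction.vonMangoldt n * ‖bn T' u t n‖) :=
    b_summable T' u t hT
  have hsc : Summable (fun n : ℕ => aK k χ' n * b n) :=
    Summable.of_norm_bounded (hsb.mul_left 2) haH
  -- the short sum as a sum over `n`
  set s : ℕ → ℂ := fun n => if n ∈ Finset.Icc 1 N then
    bb (fun a => wZk k q b a * chiZ q χ a) n else 0 with hs
  have hS : (1 / 4 : ℂ) * ∑ a ∈ BX N, wZk k q b a * chiZ q χ a = ∑' n, s n := by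
    rw [sum_BX, tsum_eq_sum (s := Finset.Icc 1 N)]
    · apply Finset.sum_congr rfl
      intro n hn
      rw [hs]
      simp only
      rw [if_pos hn]
    · intro n hn
      rw [hs]
      simp only
      rw [if_neg hn]
  have hss : Summable s := summable_of_ne_finset_zero (s := Finset.Icc 1 N) (by
    intro n hn
    rw [hs]
    simp only
    rw [if_neg hn])
  rw [hS, ← hsc.tsum_sub hss]
  -- the pointwise bound of the difference
  set B1 : ℕ → ℝ := fun n => if ¬ Nat.Coprime n (nrm q) then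
    ArithmeticFunction.vonMangoldt n * ‖bn T' u t n‖ else 0 with hB1
  set B2 : ℕ → ℝ := fun n => if N < n then
    ArithmeticFunction.vonMangoldt n * ‖bn T' u t n‖ else 0 with hB2
  have hpos : ∀ n, 0 ≤ ArithmeticFunction.vonMangoldt n * ‖bn T' u t n‖ := fun n =>
    mul_nonneg ArithmeticFunction.vonMangoldt_nonneg (norm_nonneg _)
  have hB1n : ∀ n, 0 ≤ B1 n := by
    intro n; rw [hB1]; simp only; split_ifs
    · exact le_rfl
    · exact hpos n
  have hB2n : ∀ n, 0 ≤ B2 n := by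
    intro n; rw [hB2]; simp only; split_ifs
    · exact hpos n
    · exact le_rfl
  have hB1s : Summable B1 := by
    refine Summable.of_nonneg_of_le hB1n (fun n => ?_) hsb
    rw [hB1]; simp only; split_ifs
    · exact hpos n
    · exact le_rfl
  have hB2s : Summable B2 := by
    refine Summable.of_nonneg_of_le hB2n (fun n => ?_) hsb
    rw [hB2]; simp only; split_ifs
    · exact le_rfl
    · exact hpos n
  have hd : ∀ n, ‖aK k χ' n * b n - s n‖ ≤ 2 * (B1 n + B2 n) := by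
    intro n
    by_cases hn : n ∈ Finset.Icc 1 N
    · have e1 : s n = bb (fun a => wZk k q b a * chiZ q χ a) n := by
        rw [hs]; simp only; rw [if_pos hn]
      have e2 : aK k χ' n * b n - s n = bb (fun a => if IsCoprime a q then 0 else
          (LamK a : ℂ) * psik k χ' a * b n) n := by
        rw [e1]
        unfold aK
        rw [bb_eq, bb_eq, bb_eq, mul_assoc, ← mul_sub, Finset.sum_mul, ← Finset.sum_sub_distrib]
        congr 1
        apply Finset.sum_congr rfl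
        intro a ha
        have hna : nrm a = n := nrm_eq.2 (mem_T.1 ha)
        unfold wZk
        by_cases hc : IsCoprime a q
        · rw [if_pos hc, if_pos hc, hna]
          have ha0 : a ≠ 0 := by
            rintro rfl
            have h1 : nrm (0 : ZI) = 0 := by simp [nrm]
            rw [h1] at hna
            rw [Finset.mem_Icc] at hn
            omega
          have hp : psik k χ' a = χ' a * (tc a / (‖tc a‖ : ℂ)) ^ k := by
            show (if a = 0 then 0 else χ' a * (tc a / (‖tc a‖ : ℂ)) ^ k) = _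
            rw [if_neg ha0]
          rw [hp, hχ a hc]
          ring
        · rw [if_neg hc, if_neg hc]
          ring
      rw [e2]
      by_cases hcn : Nat.Coprime n (nrm q)
      · have h0 : bb (fun a => if IsCoprime a q then 0 else
            (LamK a : ℂ) * psik k χ' a * b n) n = 0 := by
          rw [bb_eq, Finset.sum_eq_zero, mul_zero]
          intro a ha
          have hna : nrm a = n := nrm_eq.2 (mem_T.1 ha)
          by_cases hc : IsCoprime a q
          · rw [if_pos hc]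
          · rw [if_neg hc]
            have hL : LamK a = 0 := by
              by_contra hL
              apply cop_of hc hL
              rw [hna]
              exact hcn
            rw [hL]
            simp
        rw [h0, norm_zero]
        have := hB1n n
        have := hB2n n
        positivity
      · have h1 : ‖bb (fun a => if IsCoprime a q then 0 else
            (LamK a : ℂ) * psik k χ' a * b n) n‖ ≤
            2 * (ArithmeticFunction.vonMangoldt n * ‖bn T' u t n‖) := by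
          refine bb_le _ n ‖bn T' u t n‖ (norm_nonneg _) ?_
          intro a _
          split_ifs
          · rw [norm_zero]
            exact mul_nonneg (LamK_nn a) (norm_nonneg _)
          · rw [norm_mul, norm_mul, Complex.norm_real, Real.norm_of_nonneg (LamK_nn a)]
            refine mul_le_mul ?_ (hb n) (norm_nonneg _) (LamK_nn a)
            calc LamK a * ‖psik k χ' a‖ ≤ LamK a * 1 :=
                  mul_le_mul_of_nonneg_left (hpsi a) (LamK_nn a)
              _ = LamK a := mul_one _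
        have h2 : B1 n = ArithmeticFunction.vonMangoldt n * ‖bn T' u t n‖ := by
          rw [hB1]; simp only; rw [if_pos hcn]
        have := hB2n n
        linarith
    · have e1 : s n = 0 := by
        rw [hs]; simp only; rw [if_neg hn]
      rw [e1, sub_zero]
      by_cases hn0 : n = 0
      · subst hn0
        have h1 := haH 0
        have h2 : ArithmeticFunction.vonMangoldt 0 = 0 := by simp
        rw [h2, zero_mul, mul_zero] at h1
        have := hB1n 0
        have := hB2n 0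
        linarith
      · have hNn : N < n := by
          rw [Finset.mem_Icc] at hn
          omega
        have h2 : B2 n = ArithmeticFunction.vonMangoldt n * ‖bn T' u t n‖ := by
          rw [hB2]; simp only; rw [if_pos hNn]
        have h1 := haH n
        have := hB1n n
        linarith
  have hfin : ‖∑' n, (aK k χ' n * b n - s n)‖ ≤ ∑' n, 2 * (B1 n + B2 n) :=
    tsum_of_norm_bounded ((hB1s.add hB2s).mul_left 2).hasSum hd
  refine hfin.trans ?_
  rw [tsum_mul_left, hB1s.tsum_add hB2s]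
  have k1 : ∑' n, B1 n ≤ wt T' t * Gq (nrm q) u := by
    have h1 := b_tsum_le T' u t hT (fun n => ¬ Nat.Coprime n (nrm q))
    have h2 : Gq (nrm q) u = ∑' n : ℕ, (if ¬ Nat.Coprime n (nrm q) then
        ArithmeticFunction.vonMangoldt n / Real.sqrt n *
          Real.exp (-(u - Real.log n) ^ 2 / 4) else 0) := by
      unfold Gq
      simp only [ite_not]
    rw [h2]
    exact h1
  have k2 : ∑' n, B2 n ≤ wt T' t * Tl N u := b_tsum_le T' u t hT (fun n => N < n)
  linarith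

/-- pointwise bound -/
theorem he_ptK (k : ℕ) (δ : ℝ) (hδ : 0 < δ) (q : ZI) (hq : q ≠ 0) (hq4 : 4 < nrm q)
    (cd : MulChar (RQ q) ℂ → ZI) (pr : MulChar (RQ q) ℂ → (ZI →* ℂ))
    (hpr : ∀ χ ∈ FQk q k, HCk k (cd χ) (pr χ) ∧ ∀ a : ZI, IsCoprime a q → pr χ a = chiZ q χ a)
    (N : ℕ) (hNq : 4 * N < nrm q) (T u t : ℝ) (hT : 0 ≤ T) (hu : 0 ≤ u)
    (hN : Tl N u ≤ 1) (b : ℕ → ℂ) (hb : ∀ n, ‖b n‖ ≤ ‖bn T u t n‖) (hlam : ∀ n, 0 ≤ lamK2 n) :
    ∑ χ ∈ FQk q k, (1 / ((FQk q k).card : ℝ)) * ‖∑' n : ℕ, aK k (pr χ) n * b n‖ ^ 2 ≤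
      (1 + δ) * (∑ n ∈ Finset.Icc 1 N, lamK2 n * ‖bn T u t n‖ ^ 2) +
      (1 + 1 / δ) * (wt T t ^ 2 * (4 * (Gq (nrm q) u + 1) ^ 2)) := by
  classical
  obtain ⟨-, hφ, -⟩ := fq_finite q hq
  have hφ0 : (0 : ℝ) < phiQ q := by exact_mod_cast hφ
  have hcard := card_FQk hq4 k
  have hc0 : (0 : ℝ) < (FQk q k).card := by rw [hcard]; positivity
  have hw := wt_nonneg T t hT
  have hG := Gq_nonneg (nrm q) u
  have hpt : ∀ χ ∈ FQk q k, ‖∑' n : ℕ, aK k (pr χ) n * b n‖ ^ 2 ≤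
      (1 + δ) * ‖(1 / 4 : ℂ) * ∑ a ∈ BX N, wZk k q b a * chiZ q χ a‖ ^ 2 +
      (1 + 1 / δ) * (wt T t ^ 2 * (4 * (Gq (nrm q) u + 1) ^ 2)) := by
    intro χ hχ
    obtain ⟨p1, p2⟩ := hpr χ hχ
    have h1 := mainK k q (cd χ) χ (pr χ) p1 p2 N T u t hT b hb
    set S := (1 / 4 : ℂ) * ∑ a ∈ BX N, wZk k q b a * chiZ q χ a with hS
    set R := ∑' n : ℕ, aK k (pr χ) n * b n with hR
    have h2 : R = S + (R - S) := by ring
    have h3 : ‖R - S‖ ≤ wt T t * (2 * (Gq (nrm q) u + 1)) := by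
      refine h1.trans ?_
      refine mul_le_mul_of_nonneg_left ?_ hw
      linarith
    have h4 : ‖R - S‖ ^ 2 ≤ wt T t ^ 2 * (4 * (Gq (nrm q) u + 1) ^ 2) := by
      have := pow_le_pow_left₀ (norm_nonneg _) h3 2
      refine this.trans (le_of_eq ?_)
      ring
    rw [h2]
    refine (FamLS.sq_add_le S (R - S) δ hδ).trans ?_
    have h5 : 0 ≤ 1 + 1 / δ := by positivity
    have h6 := mul_le_mul_of_nonneg_left h4 h5
    linarith
  have hms := fqk_ms k q N hNq b
  calc _ ≤ ∑ χ ∈ FQk q k, (1 / ((FQk q k).card : ℝ)) * ((1 + δ) *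
        ‖(1 / 4 : ℂ) * ∑ a ∈ BX N, wZk k q b a * chiZ q χ a‖ ^ 2 +
      (1 + 1 / δ) * (wt T t ^ 2 * (4 * (Gq (nrm q) u + 1) ^ 2))) :=
        Finset.sum_le_sum fun χ hχ => mul_le_mul_of_nonneg_left (hpt χ hχ) (by positivity)
    _ = (1 + δ) * ((1 / ((FQk q k).card : ℝ)) * ∑ χ ∈ FQk q k,
        ‖(1 / 4 : ℂ) * ∑ a ∈ BX N, wZk k q b a * chiZ q χ a‖ ^ 2) +
      (1 + 1 / δ) * (wt T t ^ 2 * (4 * (Gq (nrm q) u + 1) ^ 2)) := by
        simp only [mul_add, Finset.sum_add_distrib, Finset.sum_const, nsmul_eq_mul,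
          ← Finset.mul_sum]
        field_simp
    _ ≤ _ := by
        refine add_le_add (mul_le_mul_of_nonneg_left ?_ (by positivity)) le_rfl
        calc (1 / ((FQk q k).card : ℝ)) * ∑ χ ∈ FQk q k,
            ‖(1 / 4 : ℂ) * ∑ a ∈ BX N, wZk k q b a * chiZ q χ a‖ ^ 2 ≤
            (1 / ((FQk q k).card : ℝ)) * ((phiQ q : ℝ) / 4 *
              ∑ n ∈ Finset.Icc 1 N, lamK2 n * ‖bn T u t n‖ ^ 2) :=
              mul_le_mul_of_nonneg_left (hms.trans (mul_le_mul_of_nonneg_left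
                (Finset.sum_le_sum fun n _ => mul_le_mul_of_nonneg_left
                  (pow_le_pow_left₀ (norm_nonneg _) (hb n) 2) (hlam n)) (by positivity)))
                (by positivity)
          _ = _ := by rw [hcard]; field_simp

theorem he_intK (k : ℕ) (hk : 1 ≤ k) : ∃ C : ℝ, 0 < C ∧ ∀ (w δ : ℝ) (q : ZI) (cd : MulChar (RQ q) ℂ → ZI)
    (pr : MulChar (RQ q) ℂ → (ZI →* ℂ)) (N : ℕ) (T κ u : ℝ), 0 < δ → q ≠ 0 → 4 < nrm q →
    (∀ χ ∈ FQk q k, HCk k (cd χ) (pr χ) ∧ ∀ a : ZI, IsCoprime a q → pr χ a = chiZ q χ a) →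
    4 * N < nrm q → 1 ≤ κ → 1 ≤ T → T ≤ Real.exp (κ ^ 2) → 0 ≤ u → Tl N u ≤ 1 →
    ∫ t : ℝ, ∑ χ ∈ FQk q k, (1 / ((FQk q k).card : ℝ)) *
      ‖∑' n : ℕ, aK k (pr χ) n * (n : ℂ) ^ ((w : ℂ) * I) *
        ((Real.sqrt n : ℂ)⁻¹ * bt T u t (Real.log n))‖ ^ 2 ≤
      YH cK δ C (nrm q) T κ u := by
  obtain ⟨C0, hC0, hS, hcK, hlam⟩ := selb_cK
  obtain ⟨C1, hC1, h1⟩ := btc_sum_int cK C0 hS
  obtain ⟨C2, hC2, h2⟩ := wt_sq_int
  refine ⟨C1 + C2, by positivity, ?_⟩
  intro w δ q cd pr N T κ u hδ hq hq4 hpr hNq hκ hT hTκ hu hN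
  have hT0 : 0 ≤ T := by linarith
  obtain ⟨a1, a2⟩ := h1 T κ u N hκ hT hTκ hu
  obtain ⟨b1, b2⟩ := h2 T hT0
  have e : (fun t : ℝ => ∑ n ∈ Finset.Icc 1 N, lamK2 n * ‖bn T u t n‖ ^ 2) =
      fun t => ∑ n ∈ Finset.Icc 1 N, (ArithmeticFunction.vonMangoldt n) ^ 2 *
        ‖cK n * ((Real.sqrt n : ℂ)⁻¹ * bt T u t (Real.log n))‖ ^ 2 := by
    funext t
    refine Finset.sum_congr rfl (fun n _ => ?_)
    rw [hlam n, norm_mul (cK n), mul_pow]
    unfold bn
    ring
  have a1' : Integrable (fun t : ℝ => ∑ n ∈ Finset.Icc 1 N, lamK2 n * ‖bn T u t n‖ ^ 2) := by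
    rw [e]; exact a1
  have hlam0 : ∀ n, 0 ≤ lamK2 n := fun n => by
    rw [hlam n]; positivity
  calc _ ≤ ∫ t : ℝ, ((1 + δ) * (∑ n ∈ Finset.Icc 1 N, lamK2 n * ‖bn T u t n‖ ^ 2) +
      (1 + 1 / δ) * (wt T t ^ 2 * (4 * (Gq (nrm q) u + 1) ^ 2))) := by
        refine integral_mono_of_nonneg ?_ ?_ ?_
        · exact Filter.Eventually.of_forall (fun t => Finset.sum_nonneg fun χ _ => by positivity)
        · exact (a1'.const_mul _).add ((b1.mul_const _).const_mul _)
        · refine Filter.Eventually.of_forall (fun t => ?_)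
          have hp := he_ptK k δ hδ q hq hq4 cd pr hpr N hNq T u t hT0 hu hN
            (fun n : ℕ => (n : ℂ) ^ ((w : ℂ) * I) * bn T u t n) (fun n => by
              rw [norm_mul]
              exact mul_le_of_le_one_left (norm_nonneg _) (norm_cpow_le w n)) hlam0
          simp only [← mul_assoc] at hp
          simp only [← mul_assoc]
          simpa only [bn, ← mul_assoc] using hp
    _ = (1 + δ) * (∫ t : ℝ, ∑ n ∈ Finset.Icc 1 N, lamK2 n * ‖bn T u t n‖ ^ 2) +
      (1 + 1 / δ) * ((∫ t : ℝ, wt T t ^ 2) * (4 * (Gq (nrm q) u + 1) ^ 2)) := by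
        rw [integral_add (a1'.const_mul _) ((b1.mul_const _).const_mul _),
          integral_const_mul, integral_const_mul, integral_mul_const]
    _ ≤ (1 + δ) * (T / (2 * Real.pi) * SW cK u + C1 * κ * (u + 1)) +
        (1 + 1 / δ) * ((T + C2) * (4 * (Gq (nrm q) u + 1) ^ 2)) := by
        refine add_le_add ?_ ?_
        · refine mul_le_mul_of_nonneg_left ?_ (by positivity)
          rw [e]
          exact a2
        · refine mul_le_mul_of_nonneg_left ?_ (by positivity)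
          exact mul_le_mul_of_nonneg_right b2 (by positivity)
    _ ≤ _ := by
        unfold YH
        have e1 : C1 * κ * (u + 1) ≤ (C1 + C2) * κ * (u + 1) := by gcongr; linarith
        have e3 : (T + C2) * (4 * (Gq (nrm q) u + 1) ^ 2) ≤
            (T + (C1 + C2)) * (4 * (Gq (nrm q) u + 1) ^ 2) := by
          gcongr; linarith
        have e4 : 0 ≤ 1 + δ := by positivity
        have e5 : 0 ≤ 1 + 1 / δ := by positivity
        refine add_le_add (mul_le_mul_of_nonneg_left (by linarith) e4)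
          (mul_le_mul_of_nonneg_left e3 e5)


end Pool.Agent.A856.BH
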