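import Pool.Agent.A856.BH.Core3R
import Pool.Agent.A856.BH.AvgK
import Pool.Agent.A856.BH.GoodLK
import Pool.Agent.A856.BH.HeIntK

/-!
# Zeros of bounded height: the core estimate for one odd infinity type

(`Core3R.lean` for infinity type one.)  Owner helper856.
-/

set_option autoImplicit false

open NumberField Complex Filter Topology Set MeasureTheory
open H370 (zset mult NN Nd Ns)

namespace Pool.Agent.A856.BH

open Pool.Agent.A856.SD (Zst Zst_bdd fin_zeros cnt_cover)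
open Pool.Agent.H304R3.HK (tc tc_star_mul one_le_norm_tc)
open Pool.Agent.W354.PK (HCk psik LK aK bK uh_psik goodK)
open Pool.Agent.Y762.HK (PrimData cond_all AllC mem_AllC)
open Pool.Agent.Y762.EG (FQk mem_FQk card_FQk)
open H385 (ZI RQ chiZ phiQ nrm im1)
open Pool.Agent.A856.SE (nzK nzK_zero nzK_mono dens_exactK pr_injK tc_nrm hck_finite sum_Dv)

open H385 (Rw Rw_nonneg I1_nonneg cyc_num YH_point YH_integral YH YH_cont cK
  he_tail he_short he_param he_aux norm_tc_le_of_dvd nrm_eq fq_finite selb_cK bt)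

/-- the L-function shifted by `3T/2` -/
noncomputable def FSk (k : ℕ) (χ : ZI →* ℂ) (T : ℝ) : ℂ → ℂ :=
  fun z => LK k χ (z - ((3 / 2 * T : ℝ) : ℂ) * I)

set_option maxHeartbeats 4000000 in
/-- the core estimate -/
theorem bh_coreK (cd : (q : ZI) → MulChar (RQ q) ℂ → ZI)
    (pr : (q : ZI) → MulChar (RQ q) ℂ → (ZI →* ℂ))
    (hprim : ∀ q : ZI, q ≠ 0 → ∀ χ, PrimData q χ (cd q χ) (pr q χ)) (l : ℕ)
    (γ β ε : ℝ) (h0 : 0 < γ) (hπ : γ < Real.pi) (hβ : 0 < β) (hβ1 : β < 2)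
    (hε : 0 < ε) : ∃ C0 N0 η : ℝ, 1 ≤ C0 ∧ 0 < η ∧ ∀ (q : ZI) (T : ℝ),
      N0 ≤ (nrm q : ℝ) → C0 * (1 + Real.sqrt (Real.log (rho q))) ≤ T → T ≤ ‖tc q‖ ^ η →
      0 < (FQk q (2 * l + 1)).card ∧
      ((FQk q (2 * l + 1)).card : ℝ) * (T * Real.log ‖tc q‖ / 8) ≤
        ∑ χ ∈ FQk q (2 * l + 1), (NN (FSk (2 * l + 1) (pr q χ) T) T (2 * T) : ℝ) ∧
      (∑ χ ∈ FQk q (2 * l + 1), (2 * (NN (FSk (2 * l + 1) (pr q χ) T) T (2 * T) : ℝ) - (Ns (FSk (2 * l + 1) (pr q χ) T) T (2 * T) : ℝ)) ≤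
        (2 * Rw γ 0 / β + β * (∫ α in (0 : ℝ)..1, α * Rw γ α) + ε) *
        ∑ χ ∈ FQk q (2 * l + 1), (NN (FSk (2 * l + 1) (pr q χ) T) T (2 * T) : ℝ)) := by
  classical
  obtain ⟨A, hA1, hgood⟩ := goodB_LK (2 * l + 1) (by omega)
  obtain ⟨CS0, hCS0, hS, hcK, hlam⟩ := selb_cK
  obtain ⟨K1, hK1, hfam⟩ := fam_B γ h0 hπ A hA1
  obtain ⟨C2, hC2, hlow⟩ := low_B A hA1
  obtain ⟨C4, B, hC4, hnb⟩ := nb_totalK cd pr hprim l A hA1
  set J : ℝ := ∫ α in (0 : ℝ)..1, α * Rw γ α with hJ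
  have hJ0 : 0 ≤ J := I1_nonneg γ h0 hπ
  have hR0 : 0 ≤ Rw γ 0 := Rw_nonneg γ h0 hπ 0
  obtain ⟨CC, hCC⟩ : ∃ CC : ℝ, CC = K1 + 12 * C4 := ⟨_, rfl⟩
  have hCC0 : 0 < CC := by rw [hCC]; positivity
  obtain ⟨ε1, L0, hε1, hL0, hnum⟩ := cyc_num (4 * Rw γ 0) (2 * β * J) β (2 * ε) CC C2
    (by positivity) (by positivity) hβ (by positivity) hCC0 hC2
  obtain ⟨C5, hC5, hint⟩ := he_intK (2 * l + 1) (by omega)
  obtain ⟨δ, hδ, hδ1, hδ2⟩ : ∃ δ : ℝ, 0 < δ ∧ δ ≤ 1 ∧ 2 * β * J * δ ≤ ε1 / 4 := by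
    refine ⟨min 1 (ε1 / 4 / (2 * β * J + 1)), lt_min one_pos (by positivity), min_le_left _ _, ?_⟩
    calc 2 * β * J * min 1 (ε1 / 4 / (2 * β * J + 1)) ≤
        (2 * β * J + 1) * (ε1 / 4 / (2 * β * J + 1)) := by
          gcongr
          · linarith
          · exact min_le_right _ _
      _ = ε1 / 4 := by field_simp
  obtain ⟨L1, hL1, hpoint⟩ := YH_point cK CS0 hS ε1 C5 hε1 hC5 δ hδ hδ1
  obtain ⟨L2, η2, hL2, hη2, hYint⟩ := YH_integral cK CS0 hS γ β ε1 C5 h0 hπ hβ hβ1 hε1 hC5 δ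
    hδ hδ1 hδ2
  obtain ⟨ε2, hε2d⟩ : ∃ ε2 : ℝ, ε2 = min ε1 (1 / 4) := ⟨_, rfl⟩
  have hε2 : 0 < ε2 := by rw [hε2d]; positivity
  have hε21 : ε2 ≤ ε1 := by rw [hε2d]; exact min_le_left _ _
  have hε22 : ε2 ≤ 1 / 4 := by rw [hε2d]; exact min_le_right _ _
  obtain ⟨C3, hC3, hcond3⟩ := condK cd pr hprim (2 * l + 1) (ε2 / 2) (by positivity)
  obtain ⟨s, hs⟩ : ∃ s : ℝ, s = (2 - β) / 4 := ⟨_, rfl⟩
  have hs0 : 0 < s := by rw [hs]; linarith
  have hβs : β = 2 - 4 * s := by rw [hs]; ring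
  obtain ⟨L3, hL3, htail⟩ := he_tail s hs0
  obtain ⟨μ, hμd⟩ : ∃ μ : ℝ, μ = min (min (ε1 / 2) η2) (min (1 / 4) (1 / (40 * C2))) := ⟨_, rfl⟩
  have hμ : 0 < μ := by rw [hμd]; positivity
  have hμ1 : μ ≤ ε1 / 2 := by rw [hμd]; exact (min_le_left _ _).trans (min_le_left _ _)
  have hμ2 : μ ≤ η2 := by rw [hμd]; exact (min_le_left _ _).trans (min_le_right _ _)
  have hμ3 : μ ≤ 1 / 4 := by rw [hμd]; exact (min_le_right _ _).trans (min_le_left _ _)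
  have hμ4 : μ ≤ 1 / (40 * C2) := by rw [hμd]; exact (min_le_right _ _).trans (min_le_right _ _)
  have hμ5 : C2 * μ ≤ 1 / 40 := by
    calc C2 * μ ≤ C2 * (1 / (40 * C2)) := mul_le_mul_of_nonneg_left hμ4 hC2.le
      _ = 1 / 40 := by field_simp
  obtain ⟨D, hD⟩ : ∃ D : ℝ, D = 32 * ((B : ℝ) + 1) := ⟨_, rfl⟩
  have hD0 : 0 < D := by rw [hD]; positivity
  obtain ⟨T0, hT01, hedge⟩ := bh_edge D μ hD0 hμ
  obtain ⟨Cρ, hCρ, hrho⟩ := rho_small (ε := 1 / 256) (by norm_num)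
  obtain ⟨r1, hr1⟩ : ∃ r1 : ℝ, r1 = |Real.log Cρ| := ⟨_, rfl⟩
  have hr10 : 0 ≤ r1 := by rw [hr1]; exact abs_nonneg _
  obtain ⟨k1, hk1⟩ : ∃ k1 : ℝ, k1 = Real.sqrt (D + 64 * r1) + 3 := ⟨_, rfl⟩
  obtain ⟨η, hηd⟩ : ∃ η : ℝ, η = min (μ / 2) (1 / (2 * D)) := ⟨_, rfl⟩
  have hη : 0 < η := by rw [hηd]; positivity
  have hη1 : η ≤ μ / 2 := by rw [hηd]; exact min_le_left _ _
  have hηD : D * η ≤ 1 / 2 := by
    have : η ≤ 1 / (2 * D) := by rw [hηd]; exact min_le_right _ _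
    calc D * η ≤ D * (1 / (2 * D)) := mul_le_mul_of_nonneg_left this hD0.le
      _ = 1 / 2 := by field_simp
  have hη2 : η ≤ 1 := by linarith
  obtain ⟨M, hM⟩ : ∃ M : ℝ, M = L0 + L1 + L2 + L3 + 1 / β + 2 * C3 / ε2 + 3 / s + 4 +
    484 / μ ^ 2 + k1 ^ 2 + 1 + 2 * (r1 + 3) := ⟨_, rfl⟩
  refine ⟨T0, Real.exp (2 * M), η, hT01, hη, ?_⟩
  intro q T hN hTa' hTb
  have hNp : (0 : ℝ) < nrm q := lt_of_lt_of_le (Real.exp_pos _) hN
  have hq : q ≠ 0 := by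
    rintro rfl
    simp [nrm] at hNp
  have hQ1 : 1 ≤ ‖tc q‖ := one_le_norm_tc hq
  have hQ0 : 0 < ‖tc q‖ := by linarith
  have hnq : ((nrm q : ℕ) : ℝ) = ‖tc q‖ ^ 2 := nrm_eq q
  obtain ⟨ℒ, hℒd⟩ : ∃ ℒ : ℝ, ℒ = Real.log ‖tc q‖ := ⟨_, rfl⟩
  have hlogn : Real.log (nrm q : ℕ) = 2 * ℒ := by
    rw [hnq, Real.log_pow, hℒd]
    push_cast; ring
  have hnexp : ((nrm q : ℕ) : ℝ) = Real.exp (2 * ℒ) := by
    rw [← hlogn, Real.exp_log hNp]
  have hMℒ : M ≤ ℒ := by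
    have h1 : 2 * M ≤ Real.log (nrm q : ℕ) := by
      rw [Real.le_log_iff_exp_le hNp]
      exact hN
    rw [hlogn] at h1
    linarith only [h1]
  have hρ1 := rho_ge hq
  have hρe := rho_mul hq
  have hρs := hrho q hq
  obtain ⟨ρ, hρ⟩ : ∃ ρ : ℝ, ρ = rho q := ⟨_, rfl⟩
  rw [← hρ] at hρ1 hρe hρs hTa'
  have hρ0 : 0 < ρ := by linarith only [hρ1]
  obtain ⟨r, hr⟩ : ∃ r : ℝ, r = Real.log ρ := ⟨_, rfl⟩
  rw [← hr] at hTa'
  have hr0 : 0 ≤ r := by rw [hr]; exact Real.log_nonneg hρ1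
  obtain ⟨hTa, hedge'⟩ := hedge T r hr0 hTa'
  have hrℒ : r ≤ r1 + ℒ / 128 := by
    have e1 : r ≤ Real.log (Cρ * (nrm q : ℝ) ^ (1 / 256 : ℝ)) := by
      rw [hr]
      exact Real.log_le_log hρ0 hρs
    rw [Real.log_mul hCρ.ne' (Real.rpow_pos_of_pos hNp _).ne', Real.log_rpow hNp, hlogn] at e1
    have e2 := le_abs_self (Real.log Cρ)
    rw [← hr1] at e2
    linarith only [e1, e2]
  have hT1 : 1 ≤ T := hT01.trans hTa
  have hT0 : 0 < T := by linarith only [hT1]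
  have hβi : 0 < 1 / β := by positivity
  have hCi : 0 < 2 * C3 / ε2 := by positivity
  have hsi : 0 < 3 / s := by positivity
  have hμi : 0 < 484 / μ ^ 2 := by positivity
  have hk1a : 0 ≤ k1 ^ 2 := sq_nonneg _
  have hℒL0 : L0 ≤ ℒ := by linarith only [hMℒ, hM, hL0, hL1, hL2, hL3, hβi, hCi, hsi, hμi, hk1a, hr10]
  have hℒ1 : 1 ≤ ℒ := hL0.trans hℒL0
  have hℒL1 : L1 ≤ ℒ := by linarith only [hMℒ, hM, hL0, hL1, hL2, hL3, hβi, hCi, hsi, hμi, hk1a, hr10]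
  have hℒL2 : L2 ≤ ℒ := by linarith only [hMℒ, hM, hL0, hL1, hL2, hL3, hβi, hCi, hsi, hμi, hk1a, hr10]
  have hℒL3 : L3 ≤ ℒ := by linarith only [hMℒ, hM, hL0, hL1, hL2, hL3, hβi, hCi, hsi, hμi, hk1a, hr10]
  have hℒC3 : 2 * C3 / ε2 ≤ ℒ := by linarith only [hMℒ, hM, hL0, hL1, hL2, hL3, hβi, hCi, hsi, hμi, hk1a, hr10]
  have hℒs : 3 / s < ℒ := by linarith only [hMℒ, hM, hL0, hL1, hL2, hL3, hβi, hCi, hsi, hμi, hk1a, hr10]
  have hℒ4 : 4 ≤ ℒ := by linarith only [hMℒ, hM, hL0, hL1, hL2, hL3, hβi, hCi, hsi, hμi, hk1a, hr10]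
  have hℒμ : 484 / μ ^ 2 ≤ ℒ := by linarith only [hMℒ, hM, hL0, hL1, hL2, hL3, hβi, hCi, hsi, hμi, hk1a, hr10]
  have hℒk : k1 ^ 2 ≤ ℒ := by linarith only [hMℒ, hM, hL0, hL1, hL2, hL3, hβi, hCi, hsi, hμi, hk1a, hr10]
  have hℒ0 : 0 < ℒ := by linarith only [hℒ1]
  have hΛ1 : 1 ≤ β * ℒ := by
    have : 1 / β ≤ ℒ := by linarith only [hMℒ, hM, hL0, hL1, hL2, hL3, hβi, hCi, hsi, hμi, hk1a, hr10]
    rw [div_le_iff₀ hβ] at this
    linarith only [this]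
  obtain ⟨κ, hκd⟩ : ∃ κ : ℝ, κ = 4 * Real.sqrt ℒ := ⟨_, rfl⟩
  have hTη : T ≤ Real.exp (η * ℒ) := by
    refine hTb.trans (le_of_eq ?_)
    rw [Real.rpow_def_of_pos hQ0, hℒd, mul_comm]
  obtain ⟨b1, b2, b3, b4, hTexp⟩ := bh_param μ β hμ hβ1 ℒ T κ η hℒ4 hℒμ hT1 hη1 hη2 hTη hκd
  obtain ⟨p1, p2, -, -, -, p6⟩ := he_param β ℒ T κ hβ1 hℒ1 hκd hTexp
  -- the edges
  obtain ⟨κe, hκe⟩ : ∃ κe : ℝ, κe = Real.sqrt (D * Real.log (1 + T) + 64 * r) + 3 :=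
    ⟨_, rfl⟩
  have hlogT : 0 ≤ Real.log (1 + T) := Real.log_nonneg (by linarith only [hT0])
  have hκe3 : 3 ≤ κe := by
    rw [hκe]
    have := Real.sqrt_nonneg (D * Real.log (1 + T) + 64 * r)
    linarith only [this]
  have hκe0 : 0 < κe := by linarith only [hκe3]
  have hκeμ : κe ≤ μ * T := by rw [hκe]; exact hedge'
  have hκeκ : κe ≤ κ := by
    have h1 : κe ≤ k1 + Real.sqrt ℒ := by
      have a1 : Real.log (1 + T) ≤ 1 + η * ℒ := by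
        have e1 : Real.log (1 + T) ≤ Real.log (2 * T) :=
          Real.log_le_log (by linarith only [hT0]) (by linarith only [hT1])
        have e2 : Real.log (2 * T) = Real.log 2 + Real.log T :=
          Real.log_mul (by norm_num) hT0.ne'
        have e3 : Real.log T ≤ η * ℒ := by
          rw [Real.log_le_iff_le_exp hT0]
          exact hTη
        have e4 := Real.log_two_lt_d9
        rw [e2] at e1
        linarith only [e1, e3, e4]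
      have hD1 : 0 ≤ D + 64 * r1 := by positivity
      have a2 : D * Real.log (1 + T) + 64 * r ≤
          (Real.sqrt (D + 64 * r1) + Real.sqrt ℒ) ^ 2 := by
        have e1 : D * Real.log (1 + T) ≤ D * (1 + η * ℒ) := mul_le_mul_of_nonneg_left a1 hD0.le
        have e2 : D * (1 + η * ℒ) = D + (D * η) * ℒ := by ring
        have e3 : (D * η) * ℒ ≤ 1 / 2 * ℒ := mul_le_mul_of_nonneg_right hηD hℒ0.le
        have e4 : (Real.sqrt (D + 64 * r1) + Real.sqrt ℒ) ^ 2 =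
            (D + 64 * r1) + ℒ + 2 * (Real.sqrt (D + 64 * r1) * Real.sqrt ℒ) := by
          rw [add_sq, Real.sq_sqrt hD1, Real.sq_sqrt hℒ0.le]; ring
        have e5 : 0 ≤ Real.sqrt (D + 64 * r1) * Real.sqrt ℒ := by positivity
        rw [e4]
        linarith only [e1, e2, e3, e5, hrℒ]
      have a3 := Real.sqrt_le_sqrt a2
      rw [Real.sqrt_sq (by positivity)] at a3
      rw [hκe, hk1]
      linarith only [a3]
    have hk10 : 0 ≤ k1 := by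
      rw [hk1]
      positivity
    have h2 : k1 ≤ Real.sqrt ℒ := by
      have := Real.sqrt_le_sqrt hℒk
      rwa [Real.sqrt_sq hk10] at this
    rw [hκd]
    have := Real.sqrt_nonneg ℒ
    linarith only [this, h1, h2]
  have hκe4 : 4 * κe ≤ T := by
    have : μ * T ≤ 1 / 4 * T := mul_le_mul_of_nonneg_right hμ3 hT0.le
    linarith only [this, hκeμ]
  have hDκ : D * Real.log (1 + T) + 64 * r ≤ κe ^ 2 := by
    have h1 : Real.sqrt (D * Real.log (1 + T) + 64 * r) ≤ κe := by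
      rw [hκe]
      linarith only
    have h2 := pow_le_pow_left₀ (Real.sqrt_nonneg _) h1 2
    rwa [Real.sq_sqrt (by positivity)] at h2
  have hBexp' : ρ ^ 2 * (1 + T) ^ (B + 1) ≤ Real.exp (κe ^ 2 / 32) := by
    have h1 : (1 + T) ^ (B + 1) = Real.exp (((B : ℝ) + 1) * Real.log (1 + T)) := by
      rw [mul_comm, Real.exp_mul, Real.exp_log (by linarith only [hT0])]
      rw [← Real.rpow_natCast]
      push_cast
      rfl
    have h2 : ρ ^ 2 = Real.exp (2 * r) := by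
      rw [hr, mul_comm, Real.exp_mul, Real.exp_log hρ0]
      norm_num
    rw [h1, h2, ← Real.exp_add]
    apply Real.exp_le_exp.mpr
    rw [hD] at hDκ
    linarith only [hDκ]
  have hBexp : (1 + T) ^ (B + 1) ≤ Real.exp (κe ^ 2 / 32) := by
    refine le_trans ?_ hBexp'
    refine le_mul_of_one_le_left (pow_nonneg (by linarith only [hT0]) _) ?_
    exact one_le_pow₀ hρ1
  have h1T : 1 + T ≤ (1 + T) ^ (B + 1) := by
    have := pow_le_pow_right₀ (show (1 : ℝ) ≤ 1 + T by linarith only [hT0]) (show 1 ≤ B + 1 by omega)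
    simpa using this
  have hTe2 : T ≤ Real.exp (κe ^ 2 / 2) := by
    have h2 : Real.exp (κe ^ 2 / 32) ≤ Real.exp (κe ^ 2 / 2) := by
      apply Real.exp_le_exp.mpr
      linarith only [sq_nonneg κe]
    linarith only [h2, h1T, hBexp]
  have hTe1 : T ≤ Real.exp (κe ^ 2) := by
    have h2 : Real.exp (κe ^ 2 / 2) ≤ Real.exp (κe ^ 2) := by
      apply Real.exp_le_exp.mpr
      linarith only [sq_nonneg κe]
    linarith only [h2, hTe2]
  obtain ⟨w, hw⟩ : ∃ w : ℝ, w = 3 / 2 * T := ⟨_, rfl⟩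
  obtain ⟨H, hH⟩ : ∃ H : ℝ, H = 2 * T + 3 * κ + 6 := ⟨_, rfl⟩
  have hκ0' : 0 ≤ κ := by linarith only [p1]
  have hH0 : 0 ≤ H := by
    rw [hH]
    linarith only [hT0, hκ0']
  obtain ⟨E, hE⟩ : ∃ E : ℝ, E = 1 + Real.log (1 + H + w) := ⟨_, rfl⟩
  have hE1 : 1 ≤ E := by
    rw [hE]
    have : 0 ≤ Real.log (1 + H + w) := Real.log_nonneg (by
      rw [hw]
      linarith only [hH0, hT0])
    linarith only [this]
  have hEμ : E ≤ μ * ℒ := by rw [hE, hH, hw]; exact b2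
  have hEℒ : E ≤ ℒ := by
    have : μ * ℒ ≤ 1 / 4 * ℒ := mul_le_mul_of_nonneg_right hμ3 hℒ0.le
    linarith only [this, hEμ, hℒ0]
  have hq8 : 8 ≤ nrm q := by
    have : (8 : ℝ) ≤ (nrm q : ℕ) := by rw [hnexp]; exact b4
    exact_mod_cast this
  have hq4 : 4 < nrm q := by omega
  have hnq1 : 1 ≤ nrm q := by omega
  have hcard := card_FQk hq4 (2 * l + 1)
  obtain ⟨-, hφ0', -⟩ := fq_finite q hq
  have hφ0 : (0 : ℝ) < phiQ q := by exact_mod_cast hφ0'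
  have hc0 : (0 : ℝ) < (FQk q (2 * l + 1)).card := by rw [hcard]; positivity
  have hcn : 0 < (FQk q (2 * l + 1)).card := by exact_mod_cast hc0
  obtain ⟨cr, hcr⟩ : ∃ cr : ℝ, cr = ((FQk q (2 * l + 1)).card : ℝ) := ⟨_, rfl⟩
  rw [← hcr] at hc0
  have hcr0 : 0 ≤ 1 / cr := div_nonneg zero_le_one hc0.le
  have hW : ∑ _χ ∈ FQk q (2 * l + 1), (1 / cr) = 1 := by
    rw [Finset.sum_const, nsmul_eq_mul, ← hcr]
    field_simp
  obtain ⟨N, hNb, hNt⟩ := htail (β * ℒ) ℒ hℒL3 (by positivity)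
    (mul_le_mul_of_nonneg_right hβ1.le hℒ0.le)
  have hNq : 4 * N < nrm q := by
    have h1 := he_short β s ‖tc q‖ 1 ℒ hβ hs0 hβs hQ1 le_rfl (Real.one_le_rpow hQ1 hs0.le)
      (by rw [mul_one]; exact hℒd) (by rw [← hℒd]; exact hℒs) N hNb
    rw [← hnq] at h1
    exact_mod_cast h1
  have hκeT : κe ≤ T := by linarith only [hκe4, hκe0]
  obtain ⟨y1, y2, hy1, hy2, m2', m5⟩ := hpoint (nrm q) T κe ℒ hnq1 hT1 hℒL1 hlogn.le hκe0.le hκeT
  have m2 : ∀ u ∈ Set.Icc 0 (β * ℒ), YH cK δ C5 (nrm q) T κe u ≤ T * (y1 * (u + 1) + y2) :=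
    fun u hu => m2' u hu.1
  have m4 := hYint (nrm q) T κe ℒ hnq1 hT1 hℒL2 hlogn.le hκe0.le
    (hκeμ.trans (mul_le_mul_of_nonneg_right hμ2 hT0.le))
  have hpr : ∀ χ ∈ FQk q (2 * l + 1), HCk (2 * l + 1) (cd q χ) (pr q χ) ∧
      ∀ a : ZI, IsCoprime a q → pr q χ a = chiZ q χ a := fun χ hχ => (hprimK cd pr hprim (2 * l + 1) q hq χ hχ).2
  have m1 : ∀ u ∈ Set.Icc 0 (β * ℒ), ∫ t : ℝ, ∑ χ ∈ FQk q (2 * l + 1), (1 / cr) *
      ‖∑' n : ℕ, (fun n => aK (2 * l + 1) (pr q χ) n * (n : ℂ) ^ ((w : ℂ) * I)) n *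
        ((Real.sqrt n : ℂ)⁻¹ * bt T u t (Real.log n))‖ ^ 2 ≤
      YH cK δ C5 (nrm q) T κe u := by
    intro u hu
    rw [hcr]
    exact hint w δ q (cd q) (pr q) N T κe u hδ hq hq4 hpr hNq (by linarith only [hκe3]) hT1 hTe1 hu.1
      (hNt u hu)
  have m3 : IntervalIntegrable (YH cK δ C5 (nrm q) T κe) volume 0 (β * ℒ) :=
    (YH_cont _ CS0 hS _ _ _ _ _).intervalIntegrable _ _
  have hcond1 : ∀ χ ∈ FQk q (2 * l + 1), (1 : ℝ) ≤ ‖tc (cd q χ)‖ :=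
    fun χ hχ => one_le_norm_tc (hpr χ hχ).1.q0
  have hcondq : ∀ χ ∈ FQk q (2 * l + 1), ‖tc (cd q χ)‖ ≤ ‖tc q‖ :=
    fun χ hχ => norm_tc_le_of_dvd _ _ hq (hprimK cd pr hprim (2 * l + 1) q hq χ hχ).1
  have hlogc : ∀ χ ∈ FQk q (2 * l + 1), Real.log ‖tc (cd q χ)‖ ≤ ℒ := by
    intro χ hχ
    rw [hℒd]
    refine Real.log_le_log ?_ (hcondq χ hχ)
    have := hcond1 χ hχ
    positivity
  have hGd : ∀ χ ∈ FQk q (2 * l + 1), GoodB A ℒ E H (2 * Real.log ‖tc (cd q χ)‖) (FSk (2 * l + 1) (pr q χ) T)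
      (fun n => aK (2 * l + 1) (pr q χ) n * (n : ℂ) ^ ((w : ℂ) * I)) := by
    intro χ hχ
    have := hgood (cd q χ) (pr q χ) (hpr χ hχ).1 w H E ℒ (by rw [hw]; positivity) hH0
      (by rw [hE]) hEℒ (hlogc χ hχ)
    unfold FSk
    rw [← hw]
    exact this
  obtain ⟨V1, V2, hV, k1'⟩ := hfam (FQk q (2 * l + 1)) (fun _ => 1 / cr)
    (fun χ => 2 * Real.log ‖tc (cd q χ)‖) (fun χ => FSk (2 * l + 1) (pr q χ) T)
    (fun χ n => aK (2 * l + 1) (pr q χ) n * (n : ℂ) ^ ((w : ℂ) * I)) T κ κe (β * ℒ) ℒ E H y1 y2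
    (YH cK δ C5 (nrm q) T κe) (fun χ hχ => ⟨hcr0, hGd χ hχ⟩) hℒ1 hE1 hEℒ hκe3 hκeκ hκe4 hTe2
    (by rw [hH]) hΛ1 b1 hy1 hy2 m1 m2 m3
  -- the bad zeros
  have hbad : ∑ χ ∈ FQk q (2 * l + 1), (1 / cr) * NB (FSk (2 * l + 1) (pr q χ) T) (V1 χ) (V2 χ) T κe (β * ℒ) ≤ C4 * ℒ := by
    rw [hcr]
    refine hnb q T κ κe (β * ℒ) ℒ E H (fun χ => 2 * Real.log ‖tc (cd q χ)‖)
      (fun χ n => aK (2 * l + 1) (pr q χ) n * (n : ℂ) ^ ((w : ℂ) * I)) V1 V2 hq8 hlogn hGd hκe3 hκeκ hκe4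
      (by positivity) (mul_le_mul_of_nonneg_right hβ1.le hℒ0.le) (by rw [← hρ]; exact hBexp')
      (by rw [hH]) ?_ hV
    refine b3.trans ?_
    -- `φ(q) = N(q)/ρ` is large
    have e1 : ρ * (phiQ q : ℝ) = Real.exp ℒ * Real.exp ℒ := by
      rw [hρe, hnexp, ← Real.exp_add]
      congr 1
      ring
    have e2 : 10 * ρ ≤ Real.exp ℒ := by
      have e3 : ρ = Real.exp r := by rw [hr, Real.exp_log hρ0]
      have e4 : (10 : ℝ) ≤ Real.exp 3 := by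
        have e5 : Real.exp 3 = Real.exp 1 ^ 3 := by rw [← Real.exp_nat_mul]; norm_num
        have e6 := Real.exp_one_gt_d9
        have e7 : (2.7 : ℝ) ^ 3 ≤ Real.exp 1 ^ 3 := pow_le_pow_left₀ (by norm_num)
          (by linarith only [e6]) 3
        rw [e5]
        exact le_trans (by norm_num) e7
      calc 10 * ρ ≤ Real.exp 3 * Real.exp r := by
            rw [← e3]
            exact mul_le_mul_of_nonneg_right e4 hρ0.le
        _ = Real.exp (3 + r) := by rw [Real.exp_add]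
        _ ≤ Real.exp ℒ := by
            apply Real.exp_le_exp.mpr
            linarith only [hrℒ, hMℒ, hM, hL0, hL1, hL2, hL3, hβi, hCi, hsi, hμi, hk1a, hr10]
    have e3 : (10 * Real.exp ℒ) * ρ ≤ (phiQ q : ℝ) * ρ := by
      calc (10 * Real.exp ℒ) * ρ = Real.exp ℒ * (10 * ρ) := by ring
        _ ≤ Real.exp ℒ * Real.exp ℒ := mul_le_mul_of_nonneg_left e2 (Real.exp_pos _).le
        _ = (phiQ q : ℝ) * ρ := by rw [← e1]; ring
    exact le_of_mul_le_mul_right e3 hρ0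
  obtain ⟨SN, hSN⟩ : ∃ SN : ℝ, SN = ∑ χ ∈ FQk q (2 * l + 1), (1 / cr) *
    (NN (FSk (2 * l + 1) (pr q χ) T) T (2 * T) : ℝ) := ⟨_, rfl⟩
  have hSN2 : cr * SN = ∑ χ ∈ FQk q (2 * l + 1), (NN (FSk (2 * l + 1) (pr q χ) T) T (2 * T) : ℝ) := by
    rw [hSN, ← Finset.mul_sum, ← mul_assoc, mul_one_div_cancel hc0.ne', one_mul]
  -- lower bound for the number of zeros
  have hNlow : T / (2 * Real.pi) * ℒ * (1 - ε2) - C2 * (T * E + κe * ℒ) ≤ SN / 2 := by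
    have hpt : ∀ χ ∈ FQk q (2 * l + 1),
        2 * (T / (2 * Real.pi) * (ℒ - (Real.log ‖tc q‖ - Real.log ‖tc (cd q χ)‖)) -
          C2 * (T * E + κe * ℒ)) ≤
        (NN (FSk (2 * l + 1) (pr q χ) T) T (2 * T) : ℝ) := by
      intro χ hχ
      have hl := hlow ℒ E H (2 * Real.log ‖tc (cd q χ)‖) (FSk (2 * l + 1) (pr q χ) T) _ (hGd χ hχ) T κ κe hκe3
        hκeκ hκe4 hTe2 p6 (by rw [hH])
      refine le_trans ?_ hl
      have e1 : ℒ - (Real.log ‖tc q‖ - Real.log ‖tc (cd q χ)‖) = Real.log ‖tc (cd q χ)‖ := by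
        rw [hℒd]; ring
      rw [e1]
      have h2 : 0 ≤ C2 * (T * E + κe * ℒ) := by positivity
      have h3 : T / (2 * Real.pi) * (2 * Real.log ‖tc (cd q χ)‖) =
        2 * (T / (2 * Real.pi) * Real.log ‖tc (cd q χ)‖) := by ring
      rw [h3]
      linarith only [h2]
    have hsum : ∑ χ ∈ FQk q (2 * l + 1), (1 / cr) *
        (2 * (T / (2 * Real.pi) * (ℒ - (Real.log ‖tc q‖ - Real.log ‖tc (cd q χ)‖)) -
          C2 * (T * E + κe * ℒ))) ≤ SN := by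
      rw [hSN]
      exact Finset.sum_le_sum fun χ hχ => mul_le_mul_of_nonneg_left (hpt χ hχ) hcr0
    have hcs := hcond3 q hq4
    rw [← hcr] at hcs
    obtain ⟨Sc, hSc⟩ : ∃ Sc : ℝ, Sc = ∑ χ ∈ FQk q (2 * l + 1), (Real.log ‖tc q‖ - Real.log ‖tc (cd q χ)‖) :=
      ⟨_, rfl⟩
    have e2 : ∑ χ ∈ FQk q (2 * l + 1), (1 / cr) *
        (2 * (T / (2 * Real.pi) * (ℒ - (Real.log ‖tc q‖ - Real.log ‖tc (cd q χ)‖)) -
          C2 * (T * E + κe * ℒ))) =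
        2 * (T / (2 * Real.pi) * (ℒ - Sc / cr) - C2 * (T * E + κe * ℒ)) := by
      rw [← Finset.mul_sum, ← Finset.mul_sum, Finset.sum_sub_distrib, ← Finset.mul_sum,
        Finset.sum_sub_distrib, ← hSc, Finset.sum_const, Finset.sum_const, nsmul_eq_mul,
        nsmul_eq_mul, ← hcr]
      exact he_aux cr _ ℒ Sc _ hc0.ne'
    rw [e2] at hsum
    rw [← hSc] at hcs
    have hSc2 : Sc / cr ≤ ε2 * ℒ := by
      rw [div_le_iff₀ hc0]
      refine hcs.trans (mul_le_mul_of_nonneg_right ?_ hc0.le)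
      rw [← hℒd]
      have h3 : C3 ≤ ε2 / 2 * ℒ := by
        rw [div_le_iff₀ hε2] at hℒC3
        linarith only [hℒC3]
      linarith only [h3]
    have h5 : T / (2 * Real.pi) * ℒ * (1 - ε2) ≤ T / (2 * Real.pi) * (ℒ - Sc / cr) := by
      have : T / (2 * Real.pi) * ℒ * (1 - ε2) = T / (2 * Real.pi) * (ℒ - ε2 * ℒ) := by ring
      rw [this]
      exact mul_le_mul_of_nonneg_left (by linarith only [hSc2]) (by positivity)
    linarith only [h5, hsum]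
  have hTℒ0 : 0 ≤ T * ℒ := by positivity
  have hC2E : C2 * (T * E + κe * ℒ) ≤ T * ℒ / 20 := by
    have h1 : T * E ≤ μ * (T * ℒ) := by
      calc T * E ≤ T * (μ * ℒ) := mul_le_mul_of_nonneg_left hEμ hT0.le
        _ = _ := by ring
    have h2 : κe * ℒ ≤ μ * (T * ℒ) := by
      calc κe * ℒ ≤ (μ * T) * ℒ := mul_le_mul_of_nonneg_right hκeμ hℒ0.le
        _ = _ := by ring
    calc C2 * (T * E + κe * ℒ) ≤ C2 * (2 * (μ * (T * ℒ))) :=
          mul_le_mul_of_nonneg_left (by linarith only [h1, h2]) hC2.le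
      _ = 2 * (C2 * μ) * (T * ℒ) := by ring
      _ ≤ 2 * (1 / 40) * (T * ℒ) := by gcongr
      _ = _ := by ring
  refine ⟨hcn, ?_, ?_⟩
  · -- the number of zeros
    rw [← hcr, ← hSN2, ← hℒd]
    apply mul_le_mul_of_nonneg_left _ hc0.le
    have h1 : T / (2 * Real.pi) * ℒ * (3 / 4) ≤ T / (2 * Real.pi) * ℒ * (1 - ε2) :=
      mul_le_mul_of_nonneg_left (by linarith only [hε22]) (by positivity)
    have h2 : T * ℒ / 8.4 ≤ T / (2 * Real.pi) * ℒ * (3 / 4) := by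
      have e : T / (2 * Real.pi) * ℒ * (3 / 4) = T * ℒ * (3 / (8 * Real.pi)) := by
        field_simp
        ring
      rw [e, div_eq_mul_inv]
      apply mul_le_mul_of_nonneg_left _ hTℒ0
      rw [le_div_iff₀ (by positivity)]
      have := Real.pi_lt_d2
      norm_num
      linarith only [this]
    have h3 : T * ℒ / 8.4 = T * ℒ * (1 / 8.4) := by ring
    rw [h3] at h2
    norm_num at h2
    linarith only [h1, h2, hNlow, hC2E, hTℒ0]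
  · -- the main inequality
    obtain ⟨κ', hκ'⟩ : ∃ κ' : ℝ, κ' = κe + E * T / ℒ := ⟨_, rfl⟩
    have hET : E * T / ℒ ≤ ε1 / 2 * T := by
      rw [div_le_iff₀ hℒ0]
      have h1 : E ≤ ε1 / 2 * ℒ := hEμ.trans (mul_le_mul_of_nonneg_right hμ1 hℒ0.le)
      calc E * T ≤ (ε1 / 2 * ℒ) * T := mul_le_mul_of_nonneg_right h1 hT0.le
        _ = _ := by ring
    have hκ'1 : κ' ≤ ε1 * T := by
      have h1 : κe ≤ ε1 / 2 * T := hκeμ.trans (mul_le_mul_of_nonneg_right hμ1 hT0.le)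
      rw [hκ']
      linarith only [h1, hET]
    have hκ'0 : 0 ≤ κ' := by rw [hκ']; positivity
    have hκ'ℒ : κ' * ℒ = κe * ℒ + E * T := by
      rw [hκ']
      field_simp
    obtain ⟨SM, hSM⟩ : ∃ SM : ℝ, SM = ∑ χ ∈ FQk q (2 * l + 1), (1 / cr) *
      (2 * (NN (FSk (2 * l + 1) (pr q χ) T) T (2 * T) : ℝ) - (Ns (FSk (2 * l + 1) (pr q χ) T) T (2 * T) : ℝ)) := ⟨_, rfl⟩
    rw [← hSM, hW, Real.sqrt_one, one_mul, one_mul, one_mul] at k1'
    have h1 : SM ≤ (4 * Rw γ 0 / β + 2 * β * J + 2 * ε) * (SN / 2) := by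
      refine hnum T ℒ κ' (Real.sqrt y1 + Real.sqrt y2) _ SM _ hT0 hℒL0 hκ'0 hκ'1 m5 m4 ?_ ?_
      · refine k1'.trans ?_
        have e : (2 * ℒ) ^ 2 * Rw γ 0 * T = ℒ ^ 2 * (4 * Rw γ 0) * T := by ring
        rw [e]
        have hX : ℒ ^ 2 * κe / (β * ℒ) + E * ℒ * T / (β * ℒ) = ℒ ^ 2 * κ' / (β * ℒ) := by
          rw [hκ']
          field_simp
        obtain ⟨X, hXd⟩ : ∃ X : ℝ, X = ℒ ^ 2 * κ' / (β * ℒ) := ⟨_, rfl⟩
        obtain ⟨Z, hZd⟩ : ∃ Z : ℝ, Z = ℒ * T * (Real.sqrt y1 + Real.sqrt y2) / (β * ℒ) :=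
          ⟨_, rfl⟩
        obtain ⟨W, hWd⟩ : ∃ W : ℝ, W = ℒ * T / (β * ℒ) := ⟨_, rfl⟩
        have hX0 : 0 ≤ X := by rw [hXd]; positivity
        have hZ0 : 0 ≤ Z := by rw [hZd]; positivity
        have hW0 : 0 ≤ W := by rw [hWd]; positivity
        rw [hX, ← hXd, ← hZd, ← hWd, hκ'ℒ]
        have hb2 : 12 * ∑ χ ∈ FQk q (2 * l + 1), (1 / cr) * NB (FSk (2 * l + 1) (pr q χ) T) (V1 χ) (V2 χ) T κe (β * ℒ) ≤
            12 * C4 * (κe * ℒ) := by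
          have h2 : C4 * ℒ ≤ C4 * (κe * ℒ) := by
            apply mul_le_mul_of_nonneg_left _ hC4.le
            exact le_mul_of_one_le_left hℒ0.le (by linarith only [hκe3])
          linarith only [h2, hbad]
        have h3 : K1 * (X + κe * ℒ + Z) + 12 * C4 * (κe * ℒ) ≤
            CC * ((X + W + (κe * ℒ + E * T)) + Z) := by
          rw [hCC]
          exact bh_alg K1 C4 X W Z (κe * ℒ) (E * T) hK1.le hC4.le hX0 hW0 hZ0 (by positivity)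
        linarith only [h3, hb2]
      · have h2 : T / (2 * Real.pi) * ℒ * (1 - ε1) ≤ T / (2 * Real.pi) * ℒ * (1 - ε2) :=
          mul_le_mul_of_nonneg_left (by linarith only [hε21]) (by positivity)
        have h3 : C2 * (T * E + κe * ℒ) ≤ C2 * (T + κ' * ℒ) := by
          apply mul_le_mul_of_nonneg_left _ hC2.le
          rw [hκ'ℒ]
          linarith only [hT0]
        linarith only [h2, h3, hNlow]
    have h2 : (4 * Rw γ 0 / β + 2 * β * J + 2 * ε) * (SN / 2) =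
        (2 * Rw γ 0 / β + β * J + ε) * SN := by ring
    rw [h2] at h1
    have h3 : cr * SM = ∑ χ ∈ FQk q (2 * l + 1),
        (2 * (NN (FSk (2 * l + 1) (pr q χ) T) T (2 * T) : ℝ) - (Ns (FSk (2 * l + 1) (pr q χ) T) T (2 * T) : ℝ)) := by
      rw [hSM, ← Finset.mul_sum, ← mul_assoc, mul_one_div_cancel hc0.ne', one_mul]
    rw [← h3, ← hSN2]
    calc cr * SM ≤ cr * ((2 * Rw γ 0 / β + β * J + ε) * SN) :=
          mul_le_mul_of_nonneg_left h1 hc0.le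
      _ = _ := by ring


end Pool.Agent.A856.BH
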