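import Pool.Agent.A856.BH.Defs
import Pool.Agent.A856.SE.GoodH
import Pool.Agent.H304R3.HK.Fin
import Pool.Agent.W354.PK.DigK

/-!
The shifted Hecke L-functions of infinity type one satisfy `GoodB`.
-/

set_option autoImplicit false

section NZ

open Finset Filter Topology Complex
open ArithmeticFunction (vonMangoldt)
open ArithmeticFunction.vonMangoldt
open Pool.Agent.H304R3.HK
open Pool.Agent.H304R2.EC (tendsto_logDeriv summable_vM limS1 summable_term LSeries_eq_tsum)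

namespace Pool.Agent.A856.BH.GoodLHAux

theorem nz_line
    (lg_bb : ∀ (h : GaussianInt →* ℂ), UH h → Lg (bb h) (ccf h))
    (lam_eq : ∀ (h : GaussianInt →* ℂ), UH h → ∀ n : ℕ,
      bb (fun a => (LamK a : ℂ) * h a) n = (ArithmeticFunction.vonMangoldt n : ℂ) * ccf h n)
    (lam_one : ∀ n : ℕ, bb (fun a => (LamK a : ℂ)) n =
      ((ArithmeticFunction.vonMangoldt n * (1 + ((ZMod.χ₄ (n : ZMod 4) : ℤ) : ℝ)) : ℝ) : ℂ))
    (F_ne_zero : ∀ (b c : ℕ → ℂ), Lg b c → ∀ (F : ℂ → ℂ),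
      (∀ s : ℂ, 1 < s.re → HasSum (fun n : ℕ => b n * (n : ℂ) ^ (-s)) (F s)) →
      ∀ (s : ℂ), 1 < s.re → F s ≠ 0)
    (F_ld : ∀ (b c : ℕ → ℂ), Lg b c → ∀ (F : ℂ → ℂ),
      (∀ s : ℂ, 1 < s.re → HasSum (fun n : ℕ => b n * (n : ℂ) ^ (-s)) (F s)) →
      ∀ (s : ℂ), 1 < s.re →
      deriv F s / F s = - ∑' n : ℕ, ((ArithmeticFunction.vonMangoldt n : ℂ) * c n) * (n : ℂ) ^ (-s))
    (h : GaussianInt →* ℂ) (hh : UH h) (F G : ℂ → ℂ) (hF : Differentiable ℂ F)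
    (hG : Differentiable ℂ G)
    (sF : ∀ s : ℂ, 1 < s.re → HasSum (fun n : ℕ => bb h n * (n : ℂ) ^ (-s)) (F s))
    (sG : ∀ s : ℂ, 1 < s.re →
      HasSum (fun n : ℕ => bb (fun a => (h a) ^ 2) n * (n : ℂ) ^ (-s)) (G s))
    (t : ℝ) : F (⟨1, t⟩ : ℂ) ≠ 0 := by
  intro h0
  set z0 : ℂ := ⟨1, t⟩ with hz0
  have hz0' : z0 = 1 + t * I := by
    rw [hz0]; apply Complex.ext <;> simp
  set z1 : ℂ := 1 + (2 * t : ℝ) * I with hz1
  have hh2 := nzr_sq_UH h hh
  have hlg := lg_bb h hh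
  have hlg2 := lg_bb (nzr_sq h) hh2
  have sG' : ∀ s : ℂ, 1 < s.re →
      HasSum (fun n : ℕ => bb (nzr_sq h) n * (n : ℂ) ^ (-s)) (G s) := sG
  obtain ⟨m, hm⟩ := nzr_order F hF (F_ne_zero _ _ hlg F sF 2 (by norm_num)) z0
  obtain ⟨m2, hm2⟩ := nzr_order G hG (F_ne_zero _ _ hlg2 G sG' 2 (by norm_num)) z1
  have hm1 : 1 ≤ m := by
    by_contra hc
    have : m = 0 := by omega
    rw [this] at hm
    have h2 := (hF.analyticAt z0).analyticOrderAt_eq_zero.1 (by rw [hm]; rfl)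
    exact h2 h0
  have hL := tendsto_logDeriv F hF z0 m hm
  have hL2 := tendsto_logDeriv G hG z1 m2 hm2
  have h1 := nzr_limA
  have hcomb := ((h1.const_mul 3).sub (hL.const_mul 4)).sub hL2
  have hre : Tendsto (fun σ : ℝ => ((3 * ((σ : ℂ) *
      ∑' n : ℕ, ((vonMangoldt n * (1 + ((ZMod.χ₄ (n : ZMod 4) : ℤ) : ℝ)) : ℝ) : ℂ) *
        (n : ℂ) ^ (-(1 + σ : ℂ))) -
      4 * (((σ : ℂ)) * (deriv F (z0 + σ) / F (z0 + σ)))) -
      (σ : ℂ) * (deriv G (z1 + σ) / G (z1 + σ))).re) (𝓝[>] 0)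
      (𝓝 ((3 * 1 - 4 * (m : ℂ) - (m2 : ℂ) : ℂ).re)) :=
    (Complex.continuous_re.tendsto _).comp hcomb
  have hpos : ∀ᶠ σ : ℝ in 𝓝[>] 0, 0 ≤ ((3 * ((σ : ℂ) *
      ∑' n : ℕ, ((vonMangoldt n * (1 + ((ZMod.χ₄ (n : ZMod 4) : ℤ) : ℝ)) : ℝ) : ℂ) *
        (n : ℂ) ^ (-(1 + σ : ℂ))) -
      4 * (((σ : ℂ)) * (deriv F (z0 + σ) / F (z0 + σ)))) -
      (σ : ℂ) * (deriv G (z1 + σ) / G (z1 + σ))).re := by
    filter_upwards [self_mem_nhdsWithin] with σ hσ
    have hσ0 : (0 : ℝ) < σ := hσ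
    have hs0 : 1 < (z0 + σ).re := by
      rw [hz0']; simp; linarith
    have hs1 : 1 < (z1 + σ).re := by
      rw [hz1]; simp; linarith
    rw [F_ld _ _ hlg F sF (z0 + σ) hs0, F_ld _ _ hlg2 G sG' (z1 + σ) hs1]
    have sum1 : Summable (fun n : ℕ =>
        ((vonMangoldt n * (1 + ((ZMod.χ₄ (n : ZMod 4) : ℤ) : ℝ)) : ℝ) : ℂ) *
        (n : ℂ) ^ (-(1 + σ : ℂ))) := by
      refine summable_term _ 2 ?_ _ (by simp; linarith)
      intro n
      rw [Complex.norm_real, Real.norm_eq_abs, abs_mul,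
        abs_of_nonneg ArithmeticFunction.vonMangoldt_nonneg, mul_comm]
      exact mul_le_mul_of_nonneg_right (nzr_chi_bound n) ArithmeticFunction.vonMangoldt_nonneg
    have sumc : ∀ (c : ℕ → ℂ), (∀ n, ‖c n‖ ≤ 2) → ∀ s : ℂ, 1 < s.re →
        Summable (fun n : ℕ => ((vonMangoldt n : ℂ) * c n) * (n : ℂ) ^ (-s)) := by
      intro c hc s hs
      refine summable_term _ 2 ?_ _ hs
      intro n
      rw [norm_mul, Complex.norm_real, Real.norm_of_nonneg ArithmeticFunction.vonMangoldt_nonneg,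
        mul_comm]
      exact mul_le_mul_of_nonneg_right (hc n) ArithmeticFunction.vonMangoldt_nonneg
    have sum2 := sumc _ hlg.cd (z0 + σ) hs0
    have sum3 := sumc _ hlg2.cd (z1 + σ) hs1
    have htot : (3 * ((σ : ℂ) *
      ∑' n : ℕ, ((vonMangoldt n * (1 + ((ZMod.χ₄ (n : ZMod 4) : ℤ) : ℝ)) : ℝ) : ℂ) *
        (n : ℂ) ^ (-(1 + σ : ℂ))) -
      4 * (((σ : ℂ)) * -∑' n : ℕ, ((vonMangoldt n : ℂ) * ccf h n) * (n : ℂ) ^ (-(z0 + σ)))) -
      (σ : ℂ) * -∑' n : ℕ, ((vonMangoldt n : ℂ) * ccf (nzr_sq h) n) * (n : ℂ) ^ (-(z1 + σ)) =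
      (σ : ℂ) * ∑' n : ℕ, (3 * (((vonMangoldt n * (1 + ((ZMod.χ₄ (n : ZMod 4) : ℤ) : ℝ)) : ℝ) : ℂ) *
        (n : ℂ) ^ (-(1 + σ : ℂ))) +
        4 * (((vonMangoldt n : ℂ) * ccf h n) * (n : ℂ) ^ (-(z0 + σ))) +
        ((vonMangoldt n : ℂ) * ccf (nzr_sq h) n) * (n : ℂ) ^ (-(z1 + σ))) := by
      rw [Summable.tsum_add ((sum1.mul_left 3).add (sum2.mul_left 4)) sum3,
        Summable.tsum_add (sum1.mul_left 3) (sum2.mul_left 4), tsum_mul_left, tsum_mul_left]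
      ring
    rw [htot, Complex.re_ofReal_mul]
    refine mul_nonneg hσ0.le ?_
    rw [Complex.re_tsum (((sum1.mul_left 3).add (sum2.mul_left 4)).add sum3)]
    refine tsum_nonneg fun n => ?_
    rcases Nat.eq_zero_or_pos n with rfl | hn
    · simp
    have hn0 : (n : ℂ) ≠ 0 := by exact_mod_cast hn.ne'
    set y : ℂ := (n : ℂ) ^ (-(t * I)) with hy
    have hy1 : ‖y‖ ≤ 1 := by
      rw [hy, Complex.norm_natCast_cpow_of_pos hn]
      simp
    have e0 : (n : ℂ) ^ (-(1 + σ : ℂ)) = (((n : ℝ) ^ (-(1 + σ)) : ℝ) : ℂ) := by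
      rw [Complex.ofReal_cpow (by positivity)]; push_cast; rfl
    have e2 : (n : ℂ) ^ (-(z0 + σ)) = (((n : ℝ) ^ (-(1 + σ)) : ℝ) : ℂ) * y := by
      rw [← e0, hy, ← Complex.cpow_add _ _ hn0, hz0']; congr 1; ring
    have e3 : (n : ℂ) ^ (-(z1 + σ)) = (((n : ℝ) ^ (-(1 + σ)) : ℝ) : ℂ) * y ^ 2 := by
      rw [← e0, hy, pow_two, ← Complex.cpow_add _ _ hn0, ← Complex.cpow_add _ _ hn0]
      congr 1; rw [hz1]; push_cast; ring
    have e4 : 3 * (((vonMangoldt n * (1 + ((ZMod.χ₄ (n : ZMod 4) : ℤ) : ℝ)) : ℝ) : ℂ) *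
        (n : ℂ) ^ (-(1 + σ : ℂ))) +
        4 * (((vonMangoldt n : ℂ) * ccf h n) * (n : ℂ) ^ (-(z0 + σ))) +
        ((vonMangoldt n : ℂ) * ccf (nzr_sq h) n) * (n : ℂ) ^ (-(z1 + σ)) =
        (((n : ℝ) ^ (-(1 + σ)) : ℝ) : ℂ) * ∑ p ∈ CS n, (((1 / 4) * LamK ⟨p.1, p.2⟩ : ℝ) : ℂ) *
          (3 + 4 * (h ⟨p.1, p.2⟩ * y) + (h ⟨p.1, p.2⟩ * y) ^ 2) := by
      rw [← lam_one n, ← lam_eq h hh n, ← lam_eq (nzr_sq h) hh2 n, e0, e2, e3]
      unfold bb
      have hsq : ∀ a, nzr_sq h a = (h a) ^ 2 := fun a => rfl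
      simp only [hsq]
      have expand : ∀ (A B C D E : ℂ), 3 * (A * D) + 4 * (B * (D * E)) + C * (D * E ^ 2) =
          D * (A * 3 + B * (4 * E) + C * E ^ 2) := by
        intro A B C D E; ring
      rw [expand, Finset.mul_sum, Finset.mul_sum, Finset.mul_sum, Finset.sum_mul, Finset.sum_mul,
        Finset.sum_mul, ← Finset.sum_add_distrib, ← Finset.sum_add_distrib]
      congr 1
      apply Finset.sum_congr rfl
      intro p _
      push_cast
      ring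
    rw [e4, Complex.re_ofReal_mul]
    refine mul_nonneg (by positivity) ?_
    rw [Complex.re_sum]
    apply Finset.sum_nonneg
    intro p _
    rw [Complex.re_ofReal_mul]
    refine mul_nonneg (mul_nonneg (by norm_num) (nzr_LamK_nonneg _)) (nzr_ineq _ ?_)
    rw [norm_mul]
    calc ‖h ⟨p.1, p.2⟩‖ * ‖y‖ ≤ 1 * 1 := mul_le_mul (hh.hb _) hy1 (norm_nonneg _) zero_le_one
      _ = 1 := one_mul 1
  have hfin := ge_of_tendsto hre hpos
  have hval : (3 * 1 - 4 * (m : ℂ) - (m2 : ℂ) : ℂ).re = 3 - 4 * (m : ℝ) - m2 := by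
    simp
  rw [hval] at hfin
  have hm1' : (1 : ℝ) ≤ m := by exact_mod_cast hm1
  have hm2' : (0 : ℝ) ≤ m2 := Nat.cast_nonneg _
  linarith

end Pool.Agent.A856.BH.GoodLHAux

end NZ

open Complex Filter Topology Set MeasureTheory

namespace Pool.Agent.A856.BH

open Pool.Agent.H304R3.HK (tc HC LH aH)

namespace GoodLHAux

open H370.DL (refl analyticAt_refl logDeriv_refl order_refl digamma_ext)
open Pool.Agent.H304R2.EC (LX)
open Pool.Agent.A856.SE.GoodHAux (XH XH_fe FF_right)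
open Pool.Agent.H304R3.HK (FF Th)

theorem ne_nat {u : ℂ} (hu : 0 < u.re) (m : ℕ) : u ≠ -m := by
  intro h
  have h1 := congrArg Complex.re h
  simp at h1
  have h0 : (0 : ℝ) ≤ m := Nat.cast_nonneg m
  linarith

theorem re1 (s : ℂ) : (3 / 2 - s : ℂ).re = 3 / 2 - s.re := by
  rw [Complex.sub_re]; norm_num

theorem re2 (s : ℂ) : (s + 1 / 2 : ℂ).re = s.re + 1 / 2 := by
  rw [Complex.add_re]; norm_num

theorem im1 (s : ℂ) : (3 / 2 - s : ℂ).im = -s.im := by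
  rw [Complex.sub_im]; norm_num

theorem im2 (s : ℂ) : (s + 1 / 2 : ℂ).im = s.im := by
  rw [Complex.add_im]; norm_num

theorem XH_eq (κ : ℝ) (w z : ℂ) : XH κ w z = LX w (κ / Real.pi) z := by
  unfold XH LX
  rw [div_eq_mul_inv (_ * _ * _) _]
  ring

theorem fe_refl {κ : ℝ} {b : ℕ → ℂ} {w : ℂ} (H : Th κ b w) (z : ℂ) (hz : z.re < 1) :
    FF b z = LX w (κ / Real.pi) z * refl (FF b) z := by
  rw [← XH_eq]
  exact XH_fe H z hz

theorem LX_ne {w : ℂ} (hw : w ≠ 0) {κ : ℝ} (hκ : 0 < κ) {s : ℂ} (h1 : -1 / 2 < s.re)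
    (h2 : s.re < 1) : LX w κ s ≠ 0 := by
  have hg1 := Gamma_ne_zero_of_re_pos (s := 3 / 2 - s) (by rw [re1]; linarith)
  have hg2 := Gamma_ne_zero_of_re_pos (s := s + 1 / 2) (by rw [re2]; linarith)
  have hκc : (κ : ℂ) ≠ 0 := ofReal_ne_zero.mpr hκ.ne'
  have hqne : (κ : ℂ) ^ (1 - 2 * s) ≠ 0 := by
    rw [Ne, cpow_eq_zero_iff]
    exact fun h => hκc h.1
  unfold LX
  exact div_ne_zero (mul_ne_zero (mul_ne_zero hqne hw) hg1) hg2

theorem logDeriv_LX' (w : ℂ) (hw : w ≠ 0) (κ : ℝ) (hκ : 0 < κ) {s : ℂ} (h1 : -1 / 2 < s.re)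
    (h2 : s.re < 1) :
    logDeriv (LX w κ) s = -(2 * Real.log κ : ℂ) - logDeriv Gamma (3 / 2 - s) -
      logDeriv Gamma (s + 1 / 2) := by
  have hr1 : 0 < (3 / 2 - s).re := by rw [re1]; linarith
  have hr2 : 0 < (s + 1 / 2).re := by rw [re2]; linarith
  have hg1 := Gamma_ne_zero_of_re_pos hr1
  have hg2 := Gamma_ne_zero_of_re_pos hr2
  have hκc : (κ : ℂ) ≠ 0 := ofReal_ne_zero.mpr hκ.ne'
  have hqne : (κ : ℂ) ^ (1 - 2 * s) ≠ 0 := by
    rw [Ne, cpow_eq_zero_iff]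
    exact fun h => hκc h.1
  have d1 : HasDerivAt (fun z : ℂ => (κ : ℂ) ^ (1 - 2 * z))
      ((κ : ℂ) ^ (1 - 2 * s) * log (κ : ℂ) * (-(2 * 1))) s := by
    have h1 : HasDerivAt (fun z : ℂ => 1 - 2 * z) (-(2 * 1)) s :=
      ((hasDerivAt_id s).const_mul 2).const_sub 1
    exact h1.const_cpow (Or.inl hκc)
  have d2 : HasDerivAt (fun z : ℂ => Gamma (3 / 2 - z)) (deriv Gamma (3 / 2 - s) * (-1)) s := by
    have h1 : HasDerivAt (fun z : ℂ => 3 / 2 - z) (-1) s := (hasDerivAt_id s).const_sub _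
    exact HasDerivAt.comp s (differentiableAt_Gamma _ (ne_nat hr1)).hasDerivAt h1
  have d3 : HasDerivAt (fun z : ℂ => Gamma (z + 1 / 2)) (deriv Gamma (s + 1 / 2)) s := by
    have h1 : HasDerivAt (fun z : ℂ => z + 1 / 2) 1 s := (hasDerivAt_id s).add_const _
    simpa [Function.comp_def] using
      HasDerivAt.comp s (differentiableAt_Gamma _ (ne_nat hr2)).hasDerivAt h1
  have d4 := ((d1.mul_const w).mul d2).div d3 hg2
  have e : deriv (LX w κ) s = _ := d4.deriv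
  rw [logDeriv_apply, e, logDeriv_apply, logDeriv_apply, LX]
  have hlog : log (κ : ℂ) = (Real.log κ : ℂ) := by
    rw [Complex.ofReal_log hκ.le]
  simp only [Pi.mul_apply]
  rw [hlog]
  generalize (κ : ℂ) ^ (1 - 2 * s) = P at *
  generalize Gamma (3 / 2 - s) = G1 at *
  generalize Gamma (s + 1 / 2) = G2 at *
  field_simp
  ring

theorem ev_strip {s : ℂ} (h1 : -1 / 2 < s.re) (h2 : s.re < 1) :
    ∀ᶠ z : ℂ in 𝓝 s, -1 / 2 < z.re ∧ z.re < 1 :=
  (Complex.continuous_re.continuousAt.eventually (lt_mem_nhds h1)).and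
    (Complex.continuous_re.continuousAt.eventually (gt_mem_nhds h2))

theorem LX_an (w : ℂ) (κ : ℝ) (hκ : 0 < κ) {s : ℂ} (h1 : -1 / 2 < s.re) (h2 : s.re < 1) :
    AnalyticAt ℂ (LX w κ) s := by
  rw [analyticAt_iff_eventually_differentiableAt]
  filter_upwards [ev_strip h1 h2] with z hz
  have hr1 : 0 < (3 / 2 - z).re := by rw [re1]; linarith [hz.2]
  have hr2 : 0 < (z + 1 / 2).re := by rw [re2]; linarith [hz.1]
  have hκc : (κ : ℂ) ≠ 0 := ofReal_ne_zero.mpr hκ.ne'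
  have hg2 := Gamma_ne_zero_of_re_pos hr2
  have a1 : DifferentiableAt ℂ (fun z : ℂ => (κ : ℂ) ^ (1 - 2 * z)) z :=
    DifferentiableAt.const_cpow (by fun_prop) (Or.inl hκc)
  have a2 : DifferentiableAt ℂ (fun z : ℂ => Gamma (3 / 2 - z)) z :=
    DifferentiableAt.comp z (differentiableAt_Gamma _ (ne_nat hr1)) (by fun_prop)
  have a3 : DifferentiableAt ℂ (fun z : ℂ => Gamma (z + 1 / 2)) z :=
    DifferentiableAt.comp z (differentiableAt_Gamma _ (ne_nat hr2)) (by fun_prop)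
  exact ((a1.mul_const w).mul a2).div a3 hg2

theorem psi_bd : ∃ C : ℝ, 0 ≤ C ∧ ∀ u : ℂ, 1 / 4 ≤ u.re → u.re ≤ 7 / 4 →
    ‖logDeriv Gamma u‖ ≤ C + Real.log (1 + |u.im|) := by
  obtain ⟨C1, hC1, hC⟩ := digamma_ext
  have hU : IsOpen {u : ℂ | 0 < u.re} := isOpen_lt continuous_const Complex.continuous_re
  have hd : DifferentiableOn ℂ Gamma {u : ℂ | 0 < u.re} := fun u hu =>
    (differentiableAt_Gamma u (ne_nat hu)).differentiableWithinAt
  have hc : ContinuousOn (logDeriv Gamma) {u : ℂ | 0 < u.re} := by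
    have h1 : ContinuousOn (deriv Gamma) {u : ℂ | 0 < u.re} := (hd.deriv hU).continuousOn
    exact h1.div hd.continuousOn (fun u hu => Gamma_ne_zero_of_re_pos hu)
  have hK : IsCompact (Set.Icc (1 / 4 : ℝ) (7 / 4) ×ℂ Set.Icc (-1 : ℝ) 1) :=
    isCompact_Icc.reProdIm isCompact_Icc
  obtain ⟨C2, hC2⟩ := hK.exists_bound_of_continuousOn (hc.mono (by
    intro u hu
    have := hu.1.1
    show 0 < u.re
    linarith))
  refine ⟨C1 + |C2|, by positivity, fun u h1 h2 => ?_⟩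
  have hl : 0 ≤ Real.log (1 + |u.im|) := Real.log_nonneg (by linarith [abs_nonneg u.im])
  rcases le_total |u.im| 1 with h3 | h3
  · have h4 := hC2 u ⟨⟨h1, h2⟩, abs_le.mp h3⟩
    linarith [le_abs_self C2]
  · have h4 := hC u (by linarith) (by linarith) (by linarith)
    have h5 : ‖logDeriv Gamma u‖ ≤ ‖logDeriv Gamma u - Real.log |u.im|‖ + ‖(Real.log |u.im| : ℂ)‖ := by
      have := norm_add_le (logDeriv Gamma u - Real.log |u.im|) (Real.log |u.im| : ℂ)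
      rwa [sub_add_cancel] at this
    have h6 : ‖(Real.log |u.im| : ℂ)‖ ≤ Real.log (1 + |u.im|) := by
      rw [Complex.norm_real, Real.norm_eq_abs, abs_of_nonneg (Real.log_nonneg h3)]
      exact Real.log_le_log (by linarith) (by linarith)
    linarith [abs_nonneg C2]

/-- the logarithmic derivative of the functional equation -/
theorem left_bd : ∃ C : ℝ, 0 ≤ C ∧ ∀ (κ : ℝ) (b : ℕ → ℂ) (w : ℂ), Th κ b w →
    ∀ s : ℂ, -1 / 4 ≤ s.re → s.re ≤ 1 / 2 → FF b s ≠ 0 →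
    ‖deriv (FF b) s / FF b s + ((2 * Real.log κ : ℝ) : ℂ) +
      (starRingEnd ℂ) (deriv (FF b) (1 - (starRingEnd ℂ) s) /
        FF b (1 - (starRingEnd ℂ) s))‖ ≤ C + 2 * Real.log (1 + |s.im|) := by
  obtain ⟨C, hC0, hC⟩ := psi_bd
  refine ⟨2 * Real.log Real.pi + 2 * C, by
    have := Real.log_nonneg (by linarith [Real.pi_gt_three] : (1 : ℝ) ≤ Real.pi)
    linarith, ?_⟩
  intro κ b w H s h1 h2 h4
  have hk1 := H.k1
  have hk0 : (0 : ℝ) < κ := by linarith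
  have hpi := Real.pi_pos
  have hκ : 0 < κ / Real.pi := by positivity
  have hw := H.w1
  have hw0 : w ≠ 0 := by
    intro h
    rw [h, norm_zero] at hw
    exact zero_ne_one hw
  set κ' : ℝ := κ / Real.pi with hκd
  have hd : Differentiable ℂ (FF b) := Pool.Agent.H304R3.HK.FF_entire κ b w H
  have ha : AnalyticAt ℂ (FF b) (1 - (starRingEnd ℂ) s) := hd.analyticAt _
  have g1 : -1 / 2 < s.re := by linarith
  have g2 : s.re < 1 := by linarith
  have e1 : FF b =ᶠ[𝓝 s] fun z => LX w κ' z * refl (FF b) z := by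
    filter_upwards [ev_strip g1 g2] with z hz
    exact fe_refl H z hz.2
  have hr : refl (FF b) s ≠ 0 := by
    intro h
    apply h4
    rw [fe_refl H s g2, h, mul_zero]
  have e2 : logDeriv (FF b) s = logDeriv (LX w κ') s + logDeriv (refl (FF b)) s := by
    rw [(logDeriv_congr_nhds e1).eq_of_nhds]
    exact logDeriv_mul s (LX_ne hw0 hκ g1 g2) hr (LX_an w κ' hκ g1 g2).differentiableAt
      (analyticAt_refl ha).differentiableAt
  rw [logDeriv_refl ha.differentiableAt, logDeriv_LX' w hw0 κ' hκ g1 g2] at e2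
  change ‖logDeriv (FF b) s + ((2 * Real.log κ : ℝ) : ℂ) +
    (starRingEnd ℂ) (logDeriv (FF b) (1 - (starRingEnd ℂ) s))‖ ≤ _
  rw [e2]
  have b1 := hC (3 / 2 - s) (by rw [re1]; linarith) (by rw [re1]; linarith)
  have b2 := hC (s + 1 / 2) (by rw [re2]; linarith) (by rw [re2]; linarith)
  rw [im1, abs_neg] at b1
  rw [im2] at b2
  have hlogκ : Real.log κ' = Real.log κ - Real.log Real.pi := Real.log_div hk0.ne' hpi.ne'
  have e3 : -(2 * Real.log κ' : ℂ) - logDeriv Gamma (3 / 2 - s) - logDeriv Gamma (s + 1 / 2) +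
      -(starRingEnd ℂ) (logDeriv (FF b) (1 - (starRingEnd ℂ) s)) +
        ((2 * Real.log κ : ℝ) : ℂ) +
      (starRingEnd ℂ) (logDeriv (FF b) (1 - (starRingEnd ℂ) s)) =
      ((2 * Real.log Real.pi : ℝ) : ℂ) - logDeriv Gamma (3 / 2 - s) -
      logDeriv Gamma (s + 1 / 2) := by
    rw [hlogκ]
    push_cast
    ring
  rw [e3]
  have n0 : ‖((2 * Real.log Real.pi : ℝ) : ℂ)‖ = 2 * Real.log Real.pi := by
    rw [Complex.norm_real, Real.norm_eq_abs, abs_of_nonneg]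
    have := Real.log_nonneg (by linarith [Real.pi_gt_three] : (1 : ℝ) ≤ Real.pi)
    linarith
  have n1 := norm_sub_le (((2 * Real.log Real.pi : ℝ) : ℂ) - logDeriv Gamma (3 / 2 - s))
    (logDeriv Gamma (s + 1 / 2))
  have n2 := norm_sub_le ((2 * Real.log Real.pi : ℝ) : ℂ) (logDeriv Gamma (3 / 2 - s))
  linarith

/-- symmetry of the zeros -/
theorem symm_all {κ : ℝ} {b : ℕ → ℂ} {w : ℂ} (H : Th κ b w) (s : ℂ) (h1 : 0 < s.re)
    (h2 : s.re < 1) :
    analyticOrderAt (FF b) (1 - (starRingEnd ℂ) s) = analyticOrderAt (FF b) s := by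
  have hk0 : (0 : ℝ) < κ := by linarith [H.k1]
  have hκ : 0 < κ / Real.pi := div_pos hk0 Real.pi_pos
  have hw0 : w ≠ 0 := by
    intro h
    have := H.w1
    rw [h, norm_zero] at this
    exact zero_ne_one this
  have g1 : -1 / 2 < s.re := by linarith
  have ha : AnalyticAt ℂ (FF b) (1 - (starRingEnd ℂ) s) :=
    (Pool.Agent.H304R3.HK.FF_entire κ b w H).analyticAt _
  have h1 : FF b =ᶠ[𝓝 s] (LX w (κ / Real.pi)) * refl (FF b) := by
    filter_upwards [ev_strip g1 h2] with z hz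
    exact fe_refl H z hz.2
  have hX : AnalyticAt ℂ (LX w (κ / Real.pi)) s := LX_an w _ hκ g1 h2
  rw [analyticOrderAt_congr h1, analyticOrderAt_mul hX (analyticAt_refl ha),
    hX.analyticOrderAt_eq_zero.mpr (LX_ne hw0 hκ g1 h2), zero_add, order_refl ha]

/-- analytic order and a translation -/
theorem order_shift {F : ℂ → ℂ} (hF : Differentiable ℂ F) (c s : ℂ) :
    analyticOrderAt (fun z => F (z - c)) s = analyticOrderAt F (s - c) := by
  have han : AnalyticAt ℂ F (s - c) := hF.analyticAt _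
  have han' : AnalyticAt ℂ (fun z => F (z - c)) s :=
    (hF.comp (differentiable_id.sub_const c)).analyticAt s
  have hc1 : Tendsto (fun z : ℂ => z - c) (𝓝 s) (𝓝 (s - c)) :=
    (continuous_id.sub continuous_const).tendsto s
  rcases eq_or_ne (analyticOrderAt F (s - c)) ⊤ with h0 | h0
  · rw [h0, analyticOrderAt_eq_top]
    rw [analyticOrderAt_eq_top] at h0
    exact hc1.eventually h0
  · obtain ⟨n, hn⟩ := ENat.ne_top_iff_exists.mp h0
    rw [← hn]
    obtain ⟨g, hg, hg0, hfg⟩ := (han.analyticOrderAt_eq_natCast).mp hn.symm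
    rw [han'.analyticOrderAt_eq_natCast]
    refine ⟨fun z => g (z - c), ?_, hg0, ?_⟩
    · exact AnalyticAt.comp' hg (analyticAt_id.sub analyticAt_const)
    · filter_upwards [hc1.eventually hfg] with z hz
      rw [hz]
      congr 2
      ring

theorem norm_cpow_I (n : ℕ) (hn : n ≠ 0) (w : ℝ) : ‖(n : ℂ) ^ ((w : ℂ) * I)‖ = 1 := by
  rw [Complex.norm_natCast_cpow_of_pos (Nat.pos_of_ne_zero hn)]
  simp

end GoodLHAux

open GoodLHAux in
theorem goodB_LH : ∃ A : ℝ, 1 ≤ A ∧ ∀ (d : GaussianInt) (χ : GaussianInt →* ℂ), HC d χ →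
    ∀ w H E ℒ : ℝ, 0 ≤ w → 0 ≤ H → 1 + Real.log (1 + H + w) ≤ E → E ≤ ℒ →
      Real.log ‖tc d‖ ≤ ℒ →
      GoodB A ℒ E H (2 * Real.log ‖tc d‖) (fun z => LH χ (z - (w : ℂ) * I))
        (fun n => aH χ n * (n : ℂ) ^ ((w : ℂ) * I)) := by
  obtain ⟨c0, hc0, hlow⟩ := Pool.Agent.H304R3.HK.F_lower
  obtain ⟨Cl, hCl, hleft⟩ := left_bd
  have hC0 := Pool.Agent.H304R3.HK.L2x.C0_nonneg
  set C0 : ℝ := Pool.Agent.H304R3.HK.L2x.C0 with hC0d
  set A1 : ℝ := Real.log (450 * C0 + 1) with hA1d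
  have hA1 : 0 ≤ A1 := Real.log_nonneg (by linarith)
  obtain ⟨A, hAd⟩ : ∃ A : ℝ, A = max (A1 + 4) (max c0⁻¹ (Cl + 2)) := ⟨_, rfl⟩
  have hAa : A1 + 4 ≤ A := by rw [hAd]; exact le_max_left _ _
  have hAb : c0⁻¹ ≤ A := by rw [hAd]; exact (le_max_left _ _).trans (le_max_right _ _)
  have hAc : Cl + 2 ≤ A := by rw [hAd]; exact (le_max_right _ _).trans (le_max_right _ _)
  have hA : 1 ≤ A := by linarith
  refine ⟨A, hA, ?_⟩
  intro d χ Hd w H E ℒ hw hH hE hEL hκL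
  obtain ⟨w0, hT⟩ := Pool.Agent.H304R3.HK.th_psi d χ Hd
  have hLg := Pool.Agent.H304R3.HK.lg_bb (Pool.Agent.H304R3.HK.psi χ)
    (Pool.Agent.H304R3.HK.uh_psi d χ Hd)
  have hκ1 : 1 ≤ ‖tc d‖ := hT.k1
  have hκ0 : 0 < ‖tc d‖ := by linarith
  have hent : Differentiable ℂ (LH χ) := Pool.Agent.H304R3.HK.FF_entire _ _ _ hT
  have hser : ∀ s : ℂ, 1 < s.re →
      HasSum (fun n : ℕ => Pool.Agent.H304R3.HK.bH χ n * (n : ℂ) ^ (-s)) (LH χ s) := by
    intro s hs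
    exact Pool.Agent.H304R3.HK.FF_series (Pool.Agent.H304R3.HK.bH χ) hLg.b0 hLg.bd s hs
  have haH : ∀ n, aH χ n = (ArithmeticFunction.vonMangoldt n : ℂ) *
      Pool.Agent.H304R3.HK.ccf (Pool.Agent.H304R3.HK.psi χ) n :=
    fun n => Pool.Agent.H304R3.HK.lam_eq (Pool.Agent.H304R3.HK.psi χ)
      (Pool.Agent.H304R3.HK.uh_psi d χ Hd) n
  have hab : ∀ n, ‖aH χ n‖ ≤ 2 * ArithmeticFunction.vonMangoldt n := by
    intro n
    rw [haH, norm_mul, Complex.norm_real, Real.norm_of_nonneg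
      ArithmeticFunction.vonMangoldt_nonneg]
    nlinarith [hLg.cd n, norm_nonneg (Pool.Agent.H304R3.HK.ccf (Pool.Agent.H304R3.HK.psi χ) n),
      ArithmeticFunction.vonMangoldt_nonneg (n := n)]
  have ha0 : aH χ 0 = 0 := by
    rw [haH]; simp
  have hne : ∀ s : ℂ, 1 < s.re → LH χ s ≠ 0 :=
    fun s hs => Pool.Agent.H304R3.HK.F_ne_zero (Pool.Agent.H304R3.HK.bH χ)
      (Pool.Agent.H304R3.HK.ccf (Pool.Agent.H304R3.HK.psi χ)) hLg (LH χ) hser s hs
  have hnz : ∀ s : ℂ, 1 ≤ s.re → LH χ s ≠ 0 := by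
    intro s h1
    rcases h1.lt_or_eq with h1 | h1
    · exact hne s h1
    · obtain ⟨G, hG, sG⟩ := Pool.Agent.H304R3.HK.psi_sq d χ Hd
      have h3 := nz_line Pool.Agent.H304R3.HK.lg_bb Pool.Agent.H304R3.HK.lam_eq
        Pool.Agent.H304R3.HK.lam_one Pool.Agent.H304R3.HK.F_ne_zero Pool.Agent.H304R3.HK.F_ld
        (Pool.Agent.H304R3.HK.psi χ) (Pool.Agent.H304R3.HK.uh_psi d χ Hd) (LH χ) G hent hG
        hser sG s.im
      have h4 : s = ⟨1, s.im⟩ := Complex.ext h1.symm rfl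
      rw [h4]
      exact h3
  have hlogH : 0 ≤ Real.log (1 + H + w) := Real.log_nonneg (by linarith)
  have hE1 : 1 ≤ E := by linarith
  have hL1 : 1 ≤ ℒ := by linarith
  have hre : ∀ s : ℂ, (s - (w : ℂ) * I).re = s.re := by intro s; simp
  have him : ∀ s : ℂ, (s - (w : ℂ) * I).im = s.im - w := by intro s; simp
  have hosc : ∀ s : ℂ, 1 - (starRingEnd ℂ) s - (w : ℂ) * I =
      1 - (starRingEnd ℂ) (s - (w : ℂ) * I) := by
    intro s
    simp only [map_sub, map_mul, Complex.conj_ofReal, Complex.conj_I]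
    ring
  have himH : ∀ s : ℂ, |s.im| ≤ H → |(s - (w : ℂ) * I).im| ≤ H + w := by
    intro s hs
    rw [him]
    refine (abs_sub _ _).trans ?_
    rw [abs_of_nonneg hw]
    linarith
  have hder : ∀ s : ℂ, deriv (fun z => LH χ (z - (w : ℂ) * I)) s =
      deriv (LH χ) (s - (w : ℂ) * I) := by
    intro s
    exact deriv_comp_sub_const (LH χ) ((w : ℂ) * I) s
  constructor
  · exact hA
  · exact hL1
  · exact hE1
  · exact hEL
  · exact mul_nonneg zero_le_two (Real.log_nonneg hκ1)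
  · linarith
  · exact hent.comp (differentiable_id.sub_const _)
  · -- growth
    intro s h1 h2 h3
    have g := Pool.Agent.A856.SE.GoodHAux.FF_right hT (s - (w : ℂ) * I) (by rw [hre]; linarith)
    have hn : ‖s - (w : ℂ) * I‖ ≤ 4 + H + w := by
      refine (Complex.norm_le_abs_re_add_abs_im _).trans ?_
      have := himH s h3
      rw [hre, abs_of_nonneg (by linarith : (0 : ℝ) ≤ s.re)]
      linarith
    have hP : (1 + ‖s - (w : ℂ) * I‖) ^ 2 ≤ 25 * (1 + H + w) ^ 2 := by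
      calc (1 + ‖s - (w : ℂ) * I‖) ^ 2 ≤ (5 * (1 + H + w)) ^ 2 :=
            pow_le_pow_left₀ (by positivity) (by linarith) 2
        _ = _ := by ring
    have h5 : ‖LH χ (s - (w : ℂ) * I)‖ ≤ 18 * C0 * ‖tc d‖ ^ 2 * (25 * (1 + H + w) ^ 2) := by
      refine g.trans ?_
      exact mul_le_mul_of_nonneg_left hP (by positivity)
    have h6 : 18 * C0 * ‖tc d‖ ^ 2 * (25 * (1 + H + w) ^ 2) ≤
        (450 * C0 + 1) * ‖tc d‖ ^ 2 * (1 + H + w) ^ 2 := by
      have : 0 ≤ ‖tc d‖ ^ 2 * (1 + H + w) ^ 2 := by positivity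
      nlinarith
    have h7 : (450 * C0 + 1) * ‖tc d‖ ^ 2 * (1 + H + w) ^ 2 =
        Real.exp (A1 + 2 * Real.log ‖tc d‖ + 2 * Real.log (1 + H + w)) := by
      have hx : 0 < 1 + H + w := by linarith
      have e1 : Real.exp (2 * Real.log ‖tc d‖) = ‖tc d‖ ^ 2 := by
        rw [two_mul, Real.exp_add, Real.exp_log hκ0, sq]
      have e2 : Real.exp (2 * Real.log (1 + H + w)) = (1 + H + w) ^ 2 := by
        rw [two_mul, Real.exp_add, Real.exp_log hx, sq]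
      rw [Real.exp_add, Real.exp_add, e1, e2, hA1d, Real.exp_log (by linarith)]
    refine (h5.trans (h6.trans h7.le)).trans (Real.exp_le_exp.mpr ?_)
    have h8 : A1 ≤ A1 * ℒ := by nlinarith
    have h9 : (A1 + 4) * ℒ ≤ A * ℒ := mul_le_mul_of_nonneg_right hAa (by linarith)
    nlinarith
  · -- lower bound
    intro t
    have h1 : A⁻¹ ≤ c0 := by
      rw [inv_le_comm₀ (by linarith) hc0]
      exact hAb
    have h2 := hlow (Pool.Agent.H304R3.HK.bH χ)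
      (Pool.Agent.H304R3.HK.ccf (Pool.Agent.H304R3.HK.psi χ)) (LH χ) hLg hser (t - w)
    have h3 : (⟨2, t⟩ : ℂ) - (w : ℂ) * I = ⟨2, t - w⟩ := by
      apply Complex.ext
      · rw [hre]
      · rw [him]
    show A⁻¹ ≤ ‖LH χ ((⟨2, t⟩ : ℂ) - (w : ℂ) * I)‖
    rw [h3]
    exact h1.trans h2
  · intro s h1
    exact hnz _ (by rw [hre]; exact h1)
  · intro s h1 h2
    show LH χ (s - (w : ℂ) * I) ≠ 0
    have g1 : -1 / 2 < (s - (w : ℂ) * I).re := by rw [hre]; linarith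
    have g2 : (s - (w : ℂ) * I).re < 1 := by rw [hre]; linarith
    have hκ : 0 < ‖tc d‖ / Real.pi := div_pos hκ0 Real.pi_pos
    have hw0 : w0 ≠ 0 := by
      intro h
      have := hT.w1
      rw [h, norm_zero] at this
      exact zero_ne_one this
    have hfe := fe_refl hT (s - (w : ℂ) * I) g2
    have hfe' : LH χ (s - (w : ℂ) * I) = _ := hfe
    rw [hfe']
    refine mul_ne_zero (LX_ne hw0 hκ g1 g2) ?_
    show (starRingEnd ℂ) (LH χ (1 - (starRingEnd ℂ) (s - (w : ℂ) * I))) ≠ 0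
    rw [Ne, map_eq_zero]
    refine hnz _ ?_
    rw [Complex.sub_re, Complex.one_re, Complex.conj_re, hre]
    linarith
  · intro s h1 h2
    rw [order_shift hent, order_shift hent, hosc]
    exact symm_all hT _ (by rw [hre]; exact h1) (by rw [hre]; exact h2)
  · intro n
    rcases Nat.eq_zero_or_pos n with rfl | hn
    · rw [ha0, zero_mul, norm_zero]
      simp
    · rw [norm_mul, norm_cpow_I n hn.ne', mul_one]
      exact hab n
  · intro s hs
    rw [hder]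
    show deriv (LH χ) (s - (w : ℂ) * I) / LH χ (s - (w : ℂ) * I) = _
    rw [Pool.Agent.H304R3.HK.F_ld (Pool.Agent.H304R3.HK.bH χ)
      (Pool.Agent.H304R3.HK.ccf (Pool.Agent.H304R3.HK.psi χ)) hLg (LH χ) hser _
      (by rw [hre]; exact hs)]
    congr 1
    apply tsum_congr
    intro n
    rw [← haH]
    rcases Nat.eq_zero_or_pos n with rfl | hn
    · rw [ha0]; simp
    · have hn0 : (n : ℂ) ≠ 0 := by exact_mod_cast hn.ne'
      rw [mul_assoc, ← Complex.cpow_add _ _ hn0]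
      congr 2
      ring
  · intro s h1 h2 h3 h4
    rw [hder, hder, hosc]
    have h5 := hleft _ _ _ hT (s - (w : ℂ) * I) (by rw [hre]; linarith) (by rw [hre]; linarith) h4
    refine h5.trans ?_
    have h6 : Real.log (1 + |(s - (w : ℂ) * I).im|) ≤ Real.log (1 + H + w) := by
      apply Real.log_le_log (by positivity)
      have := himH s h3
      linarith
    have h7 : Cl ≤ Cl * E := by nlinarith
    have h8 : (Cl + 2) * E ≤ A * E := mul_le_mul_of_nonneg_right hAc (by linarith)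
    nlinarith

end Pool.Agent.A856.BH
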