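import Pool.Agent.A856.BH.HeInt

/-!
Mean square over the characters modulo `q` with the weights multiplied by `n^(iw)`, uniformly in `w`
(the same proof as `he_intW`).
-/

set_option autoImplicit false

open Complex Filter Topology Set MeasureTheory

set_option maxHeartbeats 4000000

namespace H385

open Pool.Agent.H304R3.HK (tc HC CS bb LamK psi bH aH LH)

open HE5W HE5 Pool.Agent.H304R3.HK Pool.Agent.H304R3.HK.M4

theorem he_intU : ∃ C : ℝ, 0 < C ∧ ∀ (w δ : ℝ) (q : ZI) (cd : MulChar (RQ q) ℂ → ZI)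
    (pr : MulChar (RQ q) ℂ → (ZI →* ℂ)) (N : ℕ) (T κ u : ℝ), 0 < δ → q ≠ 0 → 4 < nrm q →
    (∀ χ ∈ FQs q, HC (cd χ) (pr χ) ∧ ∀ a : ZI, IsCoprime a q → pr χ a = chiZ q χ a) →
    4 * N < nrm q → 1 ≤ κ → 1 ≤ T → T ≤ Real.exp (κ ^ 2) → 0 ≤ u → Tl N u ≤ 1 →
    ∫ t : ℝ, ∑ χ ∈ FQs q, (1 / ((FQs q).card : ℝ)) *
      ‖∑' n : ℕ, aH (pr χ) n * (n : ℂ) ^ ((w : ℂ) * I) *
        ((Real.sqrt n : ℂ)⁻¹ * bt T u t (Real.log n))‖ ^ 2 ≤
      YH cK δ C (nrm q) T κ u := by
  obtain ⟨C0, hC0, hS, hcK, hlam⟩ := selb_cK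
  obtain ⟨C1, hC1, h1⟩ := btc_sum_int cK C0 hS
  obtain ⟨C2, hC2, h2⟩ := wt_sq_int
  refine ⟨C1 + C2, by positivity, ?_⟩
  intro w δ q cd pr N T κ u hδ hq hq4 hpr hNq hκ hT hTκ hu hN
  have hT0 : 0 ≤ T := by linarith
  obtain ⟨a1, a2⟩ := h1 T κ u N hκ hT hTκ hu
  obtain ⟨b1, b2⟩ := h2 T hT0
  have e : (fun t : ℝ => ∑ n ∈ Finset.Icc 1 N, lamK2 n * ‖bn T u t n‖ ^ 2) =
      fun t => ∑ n ∈ Finset.Icc 1 N, (ArithmeticFunction.vonMangoldt n) ^ 2 *
        ‖cK n * ((Real.sqrt n : ℂ)⁻¹ * bt T u t (Real.log n))‖ ^ 2 := by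
    funext t
    refine Finset.sum_congr rfl (fun n _ => ?_)
    rw [hlam n, norm_mul (cK n), mul_pow]
    unfold bn
    ring
  have a1' : Integrable (fun t : ℝ => ∑ n ∈ Finset.Icc 1 N, lamK2 n * ‖bn T u t n‖ ^ 2) := by
    rw [e]; exact a1
  have hlam0 : ∀ n, 0 ≤ lamK2 n := fun n => by
    rw [hlam n]; positivity
  calc _ ≤ ∫ t : ℝ, ((1 + δ) * (∑ n ∈ Finset.Icc 1 N, lamK2 n * ‖bn T u t n‖ ^ 2) +
      (1 + 1 / δ) * (wt T t ^ 2 * (4 * (Gq (nrm q) u + 1) ^ 2))) := by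
        refine integral_mono_of_nonneg ?_ ?_ ?_
        · exact Filter.Eventually.of_forall (fun t => Finset.sum_nonneg fun χ _ => by positivity)
        · exact (a1'.const_mul _).add ((b1.mul_const _).const_mul _)
        · refine Filter.Eventually.of_forall (fun t => ?_)
          have hp := he_ptW δ hδ q hq hq4 cd pr hpr N hNq T u t hT0 hu hN
            (fun n : ℕ => (n : ℂ) ^ ((w : ℂ) * I) * bn T u t n) (fun n => by
              rw [norm_mul]
              exact mul_le_of_le_one_left (norm_nonneg _) (norm_cpow_le w n)) hlam0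
          simp only [← mul_assoc] at hp
          simp only [← mul_assoc]
          simpa only [bn, ← mul_assoc] using hp
    _ = (1 + δ) * (∫ t : ℝ, ∑ n ∈ Finset.Icc 1 N, lamK2 n * ‖bn T u t n‖ ^ 2) +
      (1 + 1 / δ) * ((∫ t : ℝ, wt T t ^ 2) * (4 * (Gq (nrm q) u + 1) ^ 2)) := by
        rw [integral_add (a1'.const_mul _) ((b1.mul_const _).const_mul _),
          integral_const_mul, integral_const_mul, integral_mul_const]
    _ ≤ (1 + δ) * (T / (2 * Real.pi) * SW cK u + C1 * κ * (u + 1)) +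
        (1 + 1 / δ) * ((T + C2) * (4 * (Gq (nrm q) u + 1) ^ 2)) := by
        refine add_le_add ?_ ?_
        · refine mul_le_mul_of_nonneg_left ?_ (by positivity)
          rw [e]
          exact a2
        · refine mul_le_mul_of_nonneg_left ?_ (by positivity)
          exact mul_le_mul_of_nonneg_right b2 (by positivity)
    _ ≤ _ := by
        unfold YH
        have e1 : C1 * κ * (u + 1) ≤ (C1 + C2) * κ * (u + 1) := by gcongr; linarith
        have e3 : (T + C2) * (4 * (Gq (nrm q) u + 1) ^ 2) ≤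
            (T + (C1 + C2)) * (4 * (Gq (nrm q) u + 1) ^ 2) := by
          gcongr; linarith
        have e4 : 0 ≤ 1 + δ := by positivity
        have e5 : 0 ≤ 1 + 1 / δ := by positivity
        refine add_le_add (mul_le_mul_of_nonneg_left (by linarith) e4)
          (mul_le_mul_of_nonneg_left e3 e5)

end H385
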