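import Pool.Agent.A856.BH.Fin1R
import Pool.Agent.A856.SE.Tot

/-!
# Zeros of bounded height: counting the zeros of the product of the L-functions

Owner helper856.
-/

set_option autoImplicit false

open Complex Filter Topology Set
open H370 (zset mult NN Nd Ns)

namespace Pool.Agent.A856.BH

open Pool.Agent.A856.SD (Zst)
open Pool.Agent.A856.SE (LH_diff LH_nz Zst_fin Zst_eq Wst tot_Zst ord_top)
open Pool.Agent.H304R3.HK (tc HC psi LH one_le_norm_tc uh_psi)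
open H385 (ZI RQ chiZ FQs phiQ nrm)
open Pool.Agent.H82R3.EK (cnt cnt_prod NN_eq Ns_le strip line)
open Pool.Agent.W164.RC (FE FE_diff Cq Cq_diff Cq_ne order_mul_ne cnt_mul_ne cnt_mul)

/-- the critical strip, `|Im s| ≤ τ` -/
def Wc (τ : ℝ) : Set ℂ := {s | 0 < s.re ∧ s.re < 1 ∧ |s.im| ≤ τ}

/-- the critical line, `|Im s| ≤ τ` -/
def Lc (τ : ℝ) : Set ℂ := {s | s.re = 1 / 2 ∧ |s.im| ≤ τ}

lemma Lc_sub (τ : ℝ) : Lc τ ⊆ Wc τ := by
  rintro s ⟨h1, h2⟩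
  exact ⟨by rw [h1]; norm_num, by rw [h1]; norm_num, h2⟩

/-- translation of the multiplicity -/
lemma mult_trans (L : ℂ → ℂ) (c s : ℂ) : mult (fun z => L (z - c)) (s + c) = mult L s := by
  have hg : AnalyticAt ℂ (fun z : ℂ => z - c) (s + c) := by fun_prop
  have hd : deriv (fun z : ℂ => z - c) (s + c) ≠ 0 := by
    simp
  have h := analyticOrderAt_comp_of_deriv_ne_zero (f := L) hg hd
  unfold mult analyticOrderNatAt
  have h2 : (fun z : ℂ => L (z - c)) = L ∘ (fun z : ℂ => z - c) := rfl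
  rw [h2, h]
  simp

lemma inj_trans (c : ℂ) : Function.Injective (fun s : ℂ => s + c) := fun a b h => by
  simpa using h

/-- translation of the counting function -/
lemma cnt_trans (L : ℂ → ℂ) (c : ℂ) (W W' : Set ℂ)
    (h : ∀ s : ℂ, L s = 0 → (s ∈ W ↔ s + c ∈ W')) :
    cnt (fun z => L (z - c)) W' = cnt L W := by
  unfold cnt
  have hset : {s : ℂ | s ∈ W' ∧ L (s - c) = 0} = (fun s : ℂ => s + c) '' {s | s ∈ W ∧ L s = 0} := by
    ext s
    constructor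
    · rintro ⟨h1, h2⟩
      refine ⟨s - c, ⟨?_, h2⟩, by ring⟩
      rw [h _ h2, sub_add_cancel]
      exact h1
    · rintro ⟨t, ⟨h1, h2⟩, rfl⟩
      refine ⟨(h t h2).1 h1, ?_⟩
      show L (t + c - c) = 0
      rw [add_sub_cancel_right]
      exact h2
  rw [hset, finsum_mem_image ((inj_trans c).injOn)]
  refine finsum_congr fun s => finsum_congr fun _ => ?_
  exact mult_trans L c s

/-- the zeros of one L-function -/
theorem one_cnt {d : ZI} {χ : ZI →* ℂ} (H : HC d χ) {τ T : ℝ} (hT : 2 * τ < T)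
    (hgap : ∀ ρ : ℂ, LH χ ρ = 0 → 0 < ρ.re → ρ.re < 1 → |ρ.im| ≤ T / 2 → |ρ.im| ≤ τ) :
    NN (FS χ T) T (2 * T) = cnt (LH χ) (Wc τ) ∧ Ns (FS χ T) T (2 * T) ≤ cnt (LH χ) (Lc τ) := by
  obtain ⟨c, hc⟩ : ∃ c : ℂ, c = ((3 / 2 * T : ℝ) : ℂ) * I := ⟨_, rfl⟩
  have hcre : c.re = 0 := by rw [hc]; simp
  have hcim : c.im = 3 / 2 * T := by rw [hc]; simp
  have hFS : FS χ T = fun z => LH χ (z - c) := by unfold FS; rw [← hc]
  have key : ∀ s : ℂ, |s.im| ≤ τ → T < (s + c).im ∧ (s + c).im ≤ 2 * T := by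
    intro s hs
    rw [abs_le] at hs
    rw [add_im, hcim]
    constructor <;> linarith
  have key2 : ∀ s : ℂ, LH χ s = 0 → 0 < s.re → s.re < 1 → T < (s + c).im → (s + c).im ≤ 2 * T →
      |s.im| ≤ τ := by
    intro s h1 h2 h3 h4 h5
    rw [add_im, hcim] at h4 h5
    apply hgap s h1 h2 h3
    rw [abs_le]
    constructor <;> linarith
  have hre : ∀ s : ℂ, (s + c).re = s.re := fun s => by rw [add_re, hcre, add_zero]
  have e1 : cnt (FS χ T) (strip T (2 * T)) = cnt (LH χ) (Wc τ) := by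
    rw [hFS]
    apply cnt_trans
    intro s h0
    constructor
    · rintro ⟨h1, h2, h3⟩
      exact ⟨by rw [hre]; exact h1, by rw [hre]; exact h2, (key s h3).1, (key s h3).2⟩
    · rintro ⟨h1, h2, h3, h4⟩
      rw [hre] at h1 h2
      exact ⟨h1, h2, key2 s h0 h1 h2 h3 h4⟩
  have e2 : cnt (FS χ T) (line T (2 * T)) = cnt (LH χ) (Lc τ) := by
    rw [hFS]
    apply cnt_trans
    intro s h0
    constructor
    · rintro ⟨h1, h3⟩
      exact ⟨by rw [hre]; exact h1, (key s h3).1, (key s h3).2⟩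
    · rintro ⟨h1, h3, h4⟩
      rw [hre] at h1
      exact ⟨h1, key2 s h0 (by rw [h1]; norm_num) (by rw [h1]; norm_num) h3 h4⟩
  have hfin : (zset (FS χ T) T (2 * T)).Finite := by
    have h1 : zset (FS χ T) T (2 * T) ⊆ (fun s : ℂ => s + c) '' (Zst (LH χ) 0 0 τ) := by
      rintro s ⟨h1, h2, h3, h4, h5⟩
      rw [hFS] at h5
      have h6 : LH χ (s - c) = 0 := h5
      have h7 : (s - c).re = s.re := by rw [sub_re, hcre, sub_zero]
      refine ⟨s - c, ⟨h6, ?_, ?_, abs_nonneg _, ?_⟩, by ring⟩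
      · rw [h7]; exact h1
      · rw [h7]; exact h2
      · rw [sub_zero]
        exact key2 _ h6 (by rw [h7]; exact h1) (by rw [h7]; exact h2)
          (by rw [sub_add_cancel]; exact h3) (by rw [sub_add_cancel]; exact h4)
    exact ((Zst_fin H 0 0 τ).image _).subset h1
  refine ⟨?_, ?_⟩
  · rw [NN_eq, e1]
  · rw [← e2]
    exact Ns_le _ _ _ hfin

section
variable (cd : (q : ZI) → MulChar (RQ q) ℂ → ZI)
    (pr : (q : ZI) → MulChar (RQ q) ℂ → (ZI →* ℂ))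
    (hprim : ∀ q : ZI, q ≠ 0 → ∀ χ ∈ FQs q, cd q χ ∣ q ∧ HC (cd q χ) (pr q χ) ∧
      ∀ a : ZI, IsCoprime a q → pr q χ a = chiZ q χ a)

include hprim

theorem FE_cntB {q : ZI} (hq : q ≠ 0) {τ : ℝ} {W : Set ℂ} (hWW : W ⊆ Wc τ) :
    cnt (FE pr q) W = ∑ χ ∈ FQs q, cnt (LH (pr q χ)) W ∧
    (∀ s ∈ W, analyticOrderAt (FE pr q) s ≠ ⊤) ∧
    {s : ℂ | s ∈ W ∧ FE pr q s = 0}.Finite := by
  classical
  have han1 : ∀ χ ∈ FQs q, ∀ s, AnalyticAt ℂ (LH (pr q χ)) s := fun χ hχ s =>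
    (LH_diff (hprim q hq χ hχ).2.1).analyticAt s
  have hre : ∀ s ∈ W, 0 < s.re := fun s hs => (hWW hs).1
  have hC : ∀ χ ∈ FQs q, ∀ s ∈ W, Cq q (psi (pr q χ)) s ≠ 0 := fun χ hχ s hs =>
    Cq_ne q (uh_psi _ _ (hprim q hq χ hχ).2.1) (hre s hs)
  have han : ∀ χ ∈ FQs q, ∀ s ∈ W,
      AnalyticAt ℂ (fun z => LH (pr q χ) z * Cq q (psi (pr q χ)) z) s :=
    fun χ hχ s _ => (han1 χ hχ s).mul ((Cq_diff q _).analyticAt s)
  have hord : ∀ χ ∈ FQs q, ∀ s ∈ W,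
      analyticOrderAt (fun z => LH (pr q χ) z * Cq q (psi (pr q χ)) z) s ≠ ⊤ := by
    intro χ hχ s hs
    rw [order_mul_ne (han1 χ hχ s) ((Cq_diff q _).analyticAt s) (hC χ hχ s hs)]
    exact ord_top cd pr hprim hq χ hχ s
  have hset : ∀ χ ∈ FQs q, {s : ℂ | s ∈ W ∧ LH (pr q χ) s * Cq q (psi (pr q χ)) s = 0}.Finite := by
    intro χ hχ
    refine (Zst_fin (hprim q hq χ hχ).2.1 0 0 τ).subset ?_
    rintro s ⟨h1, h2⟩
    have h3 := (mul_eq_zero.1 h2).resolve_right (hC χ hχ s h1)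
    obtain ⟨a1, a2, a3⟩ := hWW h1
    exact ⟨h3, a1, a2, abs_nonneg _, by rw [sub_zero]; exact a3⟩
  refine ⟨?_, ?_, ?_⟩
  · have h := cnt_prod (FQs q) (fun χ z => LH (pr q χ) z * Cq q (psi (pr q χ)) z) han hord hset
    have h0 : FE pr q = fun s => ∏ χ ∈ FQs q, (LH (pr q χ) s * Cq q (psi (pr q χ)) s) := rfl
    rw [h0, h]
    refine Finset.sum_congr rfl fun χ hχ => ?_
    exact cnt_mul_ne (fun s _ => han1 χ hχ s) (fun s _ => (Cq_diff q _).analyticAt s) (hC χ hχ)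
  · intro s hs
    have h := Pool.Agent.H82R3.EK.mult_prod (FQs q)
      (fun χ z => LH (pr q χ) z * Cq q (psi (pr q χ)) z) (s := s)
      (fun χ hχ => han χ hχ s hs) (fun χ hχ => hord χ hχ s hs)
    exact h.2.1
  · have hunion : (⋃ χ ∈ FQs q,
        {s : ℂ | s ∈ W ∧ LH (pr q χ) s * Cq q (psi (pr q χ)) s = 0}).Finite :=
      Set.Finite.biUnion (FQs q).finite_toSet hset
    refine hunion.subset ?_
    rintro s ⟨h1, h2⟩
    unfold FE at h2
    rw [Finset.prod_eq_zero_iff] at h2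
    obtain ⟨χ, hχ, h3⟩ := h2
    exact Set.mem_biUnion hχ ⟨h1, h3⟩

theorem tot_cntB {q : ZI} (hq : q ≠ 0) {τ : ℝ} {W : Set ℂ} (hWW : W ⊆ Wc τ) :
    cnt (fun z => FE pr q z * FE pr (star q) z) W =
      ∑ χ ∈ FQs q, cnt (LH (pr q χ)) W + ∑ χ ∈ FQs (star q), cnt (LH (pr (star q) χ)) W ∧
    {s : ℂ | s ∈ W ∧ FE pr q s * FE pr (star q) s = 0}.Finite := by
  have hq' : star q ≠ 0 := fun h => hq (by rw [← star_star q, h, star_zero])
  have hd1 := FE_diff cd pr hprim hq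
  have hd2 := FE_diff cd pr hprim hq'
  obtain ⟨a1, a2, a3⟩ := FE_cntB cd pr hprim hq hWW
  obtain ⟨b1, b2, b3⟩ := FE_cntB cd pr hprim hq' hWW
  refine ⟨?_, ?_⟩
  · rw [cnt_mul (fun s _ => hd1.analyticAt s) (fun s _ => hd2.analyticAt s) a2 b2 a3 b3, a1, b1]
  · refine (a3.union b3).subset ?_
    rintro s ⟨h1, h2⟩
    rcases mul_eq_zero.1 h2 with h | h
    · exact Or.inl ⟨h1, h⟩
    · exact Or.inr ⟨h1, h⟩

end

/-- a gap above `τ` in the absolute values of the ordinates of finitely many points -/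
theorem exists_gap (Z : Set ℂ) (hZ : Z.Finite) (τ : ℝ) : ∃ e : ℝ, 0 < e ∧ e < 1 ∧
    ∀ ρ ∈ Z, |ρ.im| ≤ τ + e → |ρ.im| ≤ τ := by
  have h1 : ∀ᶠ e : ℝ in 𝓝[>] 0, ∀ ρ ∈ Z, |ρ.im| ≤ τ + e → |ρ.im| ≤ τ := by
    rw [Filter.eventually_all_finite hZ]
    intro ρ _
    by_cases h : |ρ.im| ≤ τ
    · exact Eventually.of_forall fun _ _ => h
    · push Not at h
      have h2 : ∀ᶠ e : ℝ in 𝓝[>] 0, e < |ρ.im| - τ :=
        (eventually_lt_nhds (show (0 : ℝ) < |ρ.im| - τ by linarith)).filter_mono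
          nhdsWithin_le_nhds
      filter_upwards [h2] with e he h3
      linarith
  have h2 : ∀ᶠ e : ℝ in 𝓝[>] 0, e < 1 :=
    (eventually_lt_nhds (show (0 : ℝ) < 1 by norm_num)).filter_mono nhdsWithin_le_nhds
  have h3 : ∀ᶠ e : ℝ in 𝓝[>] 0, 0 < e := eventually_mem_nhdsWithin
  obtain ⟨e, he1, he2, he3⟩ := (h1.and (h2.and h3)).exists
  exact ⟨e, he3, he2, he1⟩

end Pool.Agent.A856.BH
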