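import Pool.Agent.A856.BH.Fin1K
import Pool.Agent.A856.BH.Fin2
import Pool.Agent.A856.SE.TotK

/-!
# Zeros of bounded height: counting the zeros of the L-functions of the powers of `E`

(`Fin2.lean`, `SE/TotK.lean`.)  Owner helper856.
-/

set_option autoImplicit false

open Complex Filter Topology Set
open H370 (zset mult NN Nd Ns)

namespace Pool.Agent.A856.BH

open Pool.Agent.A856.SD (Zst)
open Pool.Agent.A856.SE (LK_diff LK_nz Zst_finK hck_of)
open Pool.Agent.H304R3.HK (tc one_le_norm_tc)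
open Pool.Agent.W354.PK (HCk psik LK bK uh_psik goodK)
open H385 (ZI RQ chiZ phiQ nrm im1)
open Pool.Agent.H82R3.EK (cnt cnt_prod NN_eq Ns_le strip line)
open Pool.Agent.W164.RC (Cq Cq_diff Cq_ne order_mul_ne cnt_mul_ne cnt_mul)
open Pool.Agent.W354.HW (mu)
open Pool.Agent.Y762.HK (PrimData)
open Pool.Agent.Y762.EG (FQk mem_FQk FEk FEk_diff fac_props LG LG_diff cnt_eq')

/-- the zeros of one L-function of infinity type `k` -/
theorem one_cntK {k : ℕ} (hk : 1 ≤ k) {d : ZI} {χ : ZI →* ℂ} (H : HCk k d χ) {τ T : ℝ} (hT : 2 * τ < T)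
    (hgap : ∀ ρ : ℂ, LK k χ ρ = 0 → 0 < ρ.re → ρ.re < 1 → |ρ.im| ≤ T / 2 → |ρ.im| ≤ τ) :
    NN (FSk k χ T) T (2 * T) = cnt (LK k χ) (Wc τ) ∧ Ns (FSk k χ T) T (2 * T) ≤ cnt (LK k χ) (Lc τ) := by
  obtain ⟨c, hc⟩ : ∃ c : ℂ, c = ((3 / 2 * T : ℝ) : ℂ) * I := ⟨_, rfl⟩
  have hcre : c.re = 0 := by rw [hc]; simp
  have hcim : c.im = 3 / 2 * T := by rw [hc]; simp
  have hFS : FSk k χ T = fun z => LK k χ (z - c) := by unfold FSk; rw [← hc]
  have key : ∀ s : ℂ, |s.im| ≤ τ → T < (s + c).im ∧ (s + c).im ≤ 2 * T := by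
    intro s hs
    rw [abs_le] at hs
    rw [add_im, hcim]
    constructor <;> linarith
  have key2 : ∀ s : ℂ, LK k χ s = 0 → 0 < s.re → s.re < 1 → T < (s + c).im → (s + c).im ≤ 2 * T →
      |s.im| ≤ τ := by
    intro s h1 h2 h3 h4 h5
    rw [add_im, hcim] at h4 h5
    apply hgap s h1 h2 h3
    rw [abs_le]
    constructor <;> linarith
  have hre : ∀ s : ℂ, (s + c).re = s.re := fun s => by rw [add_re, hcre, add_zero]
  have e1 : cnt (FSk k χ T) (strip T (2 * T)) = cnt (LK k χ) (Wc τ) := by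
    rw [hFS]
    apply cnt_trans
    intro s h0
    constructor
    · rintro ⟨h1, h2, h3⟩
      exact ⟨by rw [hre]; exact h1, by rw [hre]; exact h2, (key s h3).1, (key s h3).2⟩
    · rintro ⟨h1, h2, h3, h4⟩
      rw [hre] at h1 h2
      exact ⟨h1, h2, key2 s h0 h1 h2 h3 h4⟩
  have e2 : cnt (FSk k χ T) (line T (2 * T)) = cnt (LK k χ) (Lc τ) := by
    rw [hFS]
    apply cnt_trans
    intro s h0
    constructor
    · rintro ⟨h1, h3⟩
      exact ⟨by rw [hre]; exact h1, (key s h3).1, (key s h3).2⟩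
    · rintro ⟨h1, h3, h4⟩
      rw [hre] at h1
      exact ⟨h1, key2 s h0 (by rw [h1]; norm_num) (by rw [h1]; norm_num) h3 h4⟩
  have hfin : (zset (FSk k χ T) T (2 * T)).Finite := by
    have h1 : zset (FSk k χ T) T (2 * T) ⊆ (fun s : ℂ => s + c) '' (Zst (LK k χ) 0 0 τ) := by
      rintro s ⟨h1, h2, h3, h4, h5⟩
      rw [hFS] at h5
      have h6 : LK k χ (s - c) = 0 := h5
      have h7 : (s - c).re = s.re := by rw [sub_re, hcre, sub_zero]
      refine ⟨s - c, ⟨h6, ?_, ?_, abs_nonneg _, ?_⟩, by ring⟩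
      · rw [h7]; exact h1
      · rw [h7]; exact h2
      · rw [sub_zero]
        exact key2 _ h6 (by rw [h7]; exact h1) (by rw [h7]; exact h2)
          (by rw [sub_add_cancel]; exact h3) (by rw [sub_add_cancel]; exact h4)
    exact ((Zst_finK hk H 0 0 τ).image _).subset h1
  refine ⟨?_, ?_⟩
  · rw [NN_eq, e1]
  · rw [← e2]
    exact Ns_le _ _ _ hfin

section
variable (cd : (q : ZI) → MulChar (RQ q) ℂ → ZI)
    (pr : (q : ZI) → MulChar (RQ q) ℂ → (ZI →* ℂ))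
    (hprim : ∀ q : ZI, q ≠ 0 → ∀ χ, PrimData q χ (cd q χ) (pr q χ))

include hprim

theorem FEk_cntB {q : ZI} (hq : q ≠ 0) {k : ℕ} (hk : 1 ≤ k) {τ : ℝ} {W : Set ℂ} (hWW : W ⊆ Wc τ) :
    cnt (FEk pr q k) W = ∑ χ ∈ FQk q k, cnt (LK k (pr q χ)) W ∧
    (∀ s ∈ W, analyticOrderAt (FEk pr q k) s ≠ ⊤) ∧
    {s : ℂ | s ∈ W ∧ FEk pr q k s = 0}.Finite := by
  classical
  have hp := fac_props cd pr hprim hq hk (le_refl (1 : ℝ))
  have hre : ∀ s ∈ W, 0 < s.re := fun s hs => (hWW hs).1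
  have hC : ∀ χ ∈ FQk q k, ∀ s ∈ W, Cq q (psik k (pr q χ)) s ≠ 0 := fun χ hχ s hs =>
    (hp χ hχ).2.2.2 s (hre s hs)
  have han : ∀ χ ∈ FQk q k, ∀ s ∈ W,
      AnalyticAt ℂ (fun z => LK k (pr q χ) z * Cq q (psik k (pr q χ)) z) s :=
    fun χ hχ s _ => ((hp χ hχ).1 s).mul ((Cq_diff q _).analyticAt s)
  have hord : ∀ χ ∈ FQk q k, ∀ s ∈ W,
      analyticOrderAt (fun z => LK k (pr q χ) z * Cq q (psik k (pr q χ)) z) s ≠ ⊤ := by
    intro χ hχ s hs
    rw [order_mul_ne ((hp χ hχ).1 s) ((Cq_diff q _).analyticAt s) (hC χ hχ s hs)]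
    exact (hp χ hχ).2.1 s
  have hset : ∀ χ ∈ FQk q k,
      {s : ℂ | s ∈ W ∧ LK k (pr q χ) s * Cq q (psik k (pr q χ)) s = 0}.Finite := by
    intro χ hχ
    refine (Zst_finK hk (hck_of cd pr hprim hq χ hχ) 0 0 τ).subset ?_
    rintro s ⟨h1, h2⟩
    have h3 := (mul_eq_zero.1 h2).resolve_right (hC χ hχ s h1)
    obtain ⟨a1, a2, a3⟩ := hWW h1
    exact ⟨h3, a1, a2, abs_nonneg _, by rw [sub_zero]; exact a3⟩
  refine ⟨?_, ?_, ?_⟩
  · have h := cnt_prod (FQk q k) (fun χ z => LK k (pr q χ) z * Cq q (psik k (pr q χ)) z) han hord hset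
    have h0 : FEk pr q k = fun s => ∏ χ ∈ FQk q k, (LK k (pr q χ) s * Cq q (psik k (pr q χ)) s) := rfl
    rw [h0, h]
    refine Finset.sum_congr rfl fun χ hχ => ?_
    exact cnt_mul_ne (fun s _ => (hp χ hχ).1 s) (fun s _ => (Cq_diff q _).analyticAt s) (hC χ hχ)
  · intro s hs
    have h := Pool.Agent.H82R3.EK.mult_prod (FQk q k)
      (fun χ z => LK k (pr q χ) z * Cq q (psik k (pr q χ)) z) (s := s)
      (fun χ hχ => han χ hχ s hs) (fun χ hχ => hord χ hχ s hs)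
    exact h.2.1
  · have hunion : (⋃ χ ∈ FQk q k,
        {s : ℂ | s ∈ W ∧ LK k (pr q χ) s * Cq q (psik k (pr q χ)) s = 0}).Finite :=
      Set.Finite.biUnion (FQk q k).finite_toSet hset
    refine hunion.subset ?_
    rintro s ⟨h1, h2⟩
    unfold FEk at h2
    rw [Finset.prod_eq_zero_iff] at h2
    obtain ⟨χ, hχ, h3⟩ := h2
    exact Set.mem_biUnion hχ ⟨h1, h3⟩

/-- both moduli -/
theorem pair_cntB {q : ZI} (hq : q ≠ 0) {k : ℕ} (hk : 1 ≤ k) {τ : ℝ} {W : Set ℂ} (hWW : W ⊆ Wc τ) :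
    cnt (fun s => FEk pr q k s * FEk pr (star q) k s) W =
      ∑ χ ∈ FQk q k, cnt (LK k (pr q χ)) W +
      ∑ χ ∈ FQk (star q) k, cnt (LK k (pr (star q) χ)) W ∧
    (∀ s ∈ W, analyticOrderAt (fun s => FEk pr q k s * FEk pr (star q) k s) s ≠ ⊤) ∧
    {s : ℂ | s ∈ W ∧ FEk pr q k s * FEk pr (star q) k s = 0}.Finite := by
  have hq' : star q ≠ 0 := fun h => hq (by rw [← star_star q, h, star_zero])
  have hd1 := FEk_diff cd pr hprim hq hk
  have hd2 := FEk_diff cd pr hprim hq' hk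
  obtain ⟨a1, a2, a3⟩ := FEk_cntB cd pr hprim hq hk hWW
  obtain ⟨b1, b2, b3⟩ := FEk_cntB cd pr hprim hq' hk hWW
  refine ⟨?_, ?_, ?_⟩
  · rw [cnt_mul (fun s _ => hd1.analyticAt s) (fun s _ => hd2.analyticAt s) a2 b2 a3 b3, a1, b1]
  · intro s hs
    have h1 : analyticOrderAt (FEk pr q k * FEk pr (star q) k) s =
        analyticOrderAt (FEk pr q k) s + analyticOrderAt (FEk pr (star q) k) s :=
      analyticOrderAt_mul (hd1.analyticAt s) (hd2.analyticAt s)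
    have h2 : (fun s => FEk pr q k s * FEk pr (star q) k s) = FEk pr q k * FEk pr (star q) k := rfl
    rw [h2, h1]
    exact WithTop.add_ne_top.mpr ⟨a2 s hs, b2 s hs⟩
  · refine (a3.union b3).subset ?_
    rintro s ⟨h1, h2⟩
    rcases mul_eq_zero.1 h2 with h | h
    · exact Or.inl ⟨h1, h⟩
    · exact Or.inr ⟨h1, h⟩

/-- the zeros of the product of all the L-functions -/
theorem LG_cntB {q : ZI} (hq : q ≠ 0) (g m : ℕ) {τ : ℝ} {W : Set ℂ} (hWW : W ⊆ Wc τ) :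
    cnt (LG pr q g m) W = ∑ l ∈ Finset.range (m + 1), mu g m l *
        (∑ χ ∈ FQk q (2 * l + 1), cnt (LK (2 * l + 1) (pr q χ)) W +
          ∑ χ ∈ FQk (star q) (2 * l + 1), cnt (LK (2 * l + 1) (pr (star q) χ)) W) ∧
    {s : ℂ | s ∈ W ∧ LG pr q g m s = 0}.Finite := by
  have hq' : star q ≠ 0 := fun h => hq (by rw [← star_star q, h, star_zero])
  have h1 : ∀ l : ℕ, _ := fun l => pair_cntB cd pr hprim hq (k := 2 * l + 1) (by omega) hWW
  have hfin : {s : ℂ | s ∈ W ∧ LG pr q g m s = 0}.Finite :=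
    Pool.Agent.W354.HW.zeros_prod_finite (Finset.range (m + 1))
      (fun l s => FEk pr q (2 * l + 1) s * FEk pr (star q) (2 * l + 1) s) (mu g m)
      (fun l _ => (h1 l).2.2)
  refine ⟨?_, hfin⟩
  have h := Pool.Agent.W354.HW.cnt_prod (Finset.range (m + 1))
    (fun l s => FEk pr q (2 * l + 1) s * FEk pr (star q) (2 * l + 1) s) (mu g m) (W := W)
    (fun l _ s _ => ((FEk_diff cd pr hprim hq (by omega)).analyticAt s).mul
      ((FEk_diff cd pr hprim hq' (by omega)).analyticAt s))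
    (fun l _ => (h1 l).2.1) (fun l _ => (h1 l).2.2)
  have h2 : LG pr q g m = fun z => ∏ l ∈ Finset.range (m + 1),
    (FEk pr q (2 * l + 1) z * FEk pr (star q) (2 * l + 1) z) ^ mu g m l := rfl
  rw [h2, ← cnt_eq', h]
  refine Finset.sum_congr rfl fun l _ => ?_
  congr 1
  rw [cnt_eq', (h1 l).1]

end

end Pool.Agent.A856.BH
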