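import Pool.Agent.A856.BH.Fin2
import Pool.Agent.A856.SE.Main

/-!
# Zeros of bounded height: the L-function of the elliptic curve over the ray class field

Owner helper856.
-/

set_option autoImplicit false

open Complex Filter Topology Set NumberField IsDedekindDomain
open H370 (zset mult NN Nd Ns)

namespace Pool.Agent.A856.BH

open Pool.Agent.A856.SE (nrm_star)
open Pool.Agent.H304R3.HK (tc HC psi LH one_le_norm_tc uh_psi)
open H385 (ZI RQ chiZ FQs phiQ nrm im1)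
open Pool.Agent.H82R3.EK (cnt)
open Pool.Agent.W164.RC (FE FE_diff Cq_ne two2 IsRayClassField ray_card hasProd_K eulerFactor
  eight_le_nrm phiQ_star two_dvd_star norm_tc_star)

/-- the zeros of `F` with `Re s > 1/2`, `|Im s| ≤ τ` -/
def zerosB (F : ℂ → ℂ) (τ : ℝ) : Set ℂ := {s : ℂ | 1 / 2 < s.re ∧ |s.im| ≤ τ ∧ F s = 0}

/-- their number -/
noncomputable def NZ (F : ℂ → ℂ) (τ : ℝ) : ℕ := ∑ᶠ s ∈ zerosB F τ, analyticOrderNatAt F s

/-- the number of those on `Re s = 1` -/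
noncomputable def NZ₀ (F : ℂ → ℂ) (τ : ℝ) : ℕ :=
  ∑ᶠ s ∈ {s : ℂ | s ∈ zerosB F τ ∧ s.re = 1}, analyticOrderNatAt F s

section
variable {G : ℂ → ℂ} (hG : ∀ z : ℂ, 1 ≤ z.re → G z ≠ 0)
include hG

theorem NZ_shift (τ : ℝ) : NZ (fun z => G (z - 1 / 2)) τ = cnt G (Wc τ) := by
  have h := cnt_trans G (1 / 2) (Wc τ) {s : ℂ | 1 / 2 < s.re ∧ |s.im| ≤ τ} (by
    intro s h0
    have e1 : (s + 1 / 2 : ℂ).re = s.re + 1 / 2 := by simp
    have e2 : (s + 1 / 2 : ℂ).im = s.im := by simp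
    constructor
    · rintro ⟨h1, h2, h3⟩
      exact ⟨by rw [e1]; linarith, by rw [e2]; exact h3⟩
    · rintro ⟨h1, h3⟩
      rw [e1] at h1
      rw [e2] at h3
      refine ⟨by linarith, ?_, h3⟩
      by_contra hcon
      exact hG s (by linarith) h0)
  rw [← h]
  unfold NZ cnt mult
  have hs : zerosB (fun z => G (z - 1 / 2)) τ =
      {s : ℂ | s ∈ {s : ℂ | 1 / 2 < s.re ∧ |s.im| ≤ τ} ∧ G (s - 1 / 2) = 0} := by
    ext s
    simp only [zerosB, Set.mem_ofPred_eq, and_assoc]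
  rw [hs]

theorem NZ₀_shift (τ : ℝ) : NZ₀ (fun z => G (z - 1 / 2)) τ = cnt G (Lc τ) := by
  have h := cnt_trans G (1 / 2) (Lc τ) {s : ℂ | s.re = 1 ∧ |s.im| ≤ τ} (by
    intro s h0
    have e1 : (s + 1 / 2 : ℂ).re = s.re + 1 / 2 := by simp
    have e2 : (s + 1 / 2 : ℂ).im = s.im := by simp
    constructor
    · rintro ⟨h1, h3⟩
      exact ⟨by rw [e1, h1]; norm_num, by rw [e2]; exact h3⟩
    · rintro ⟨h1, h3⟩
      rw [e1] at h1
      rw [e2] at h3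
      exact ⟨by linarith, h3⟩)
  rw [← h]
  unfold NZ₀ cnt mult
  have hs : {s : ℂ | s ∈ zerosB (fun z => G (z - 1 / 2)) τ ∧ s.re = 1} =
      {s : ℂ | s ∈ {s : ℂ | s.re = 1 ∧ |s.im| ≤ τ} ∧ G (s - 1 / 2) = 0} := by
    ext s
    simp only [zerosB, Set.mem_ofPred_eq]
    constructor
    · rintro ⟨⟨h1, h2, h3⟩, h4⟩
      exact ⟨⟨h4, h2⟩, h3⟩
    · rintro ⟨⟨h4, h2⟩, h3⟩
      exact ⟨⟨by rw [h4]; norm_num, h2, h3⟩, h4⟩
  rw [hs]

theorem zerosB_fin {τ : ℝ} (hfin : {s : ℂ | s ∈ Wc τ ∧ G s = 0}.Finite) :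
    (zerosB (fun z => G (z - 1 / 2)) τ).Finite := by
  have h1 : zerosB (fun z => G (z - 1 / 2)) τ ⊆
      (fun s : ℂ => s + 1 / 2) '' {s : ℂ | s ∈ Wc τ ∧ G s = 0} := by
    rintro s ⟨h1, h2, h3⟩
    have e1 : (s - 1 / 2 : ℂ).re = s.re - 1 / 2 := by simp
    have e2 : (s - 1 / 2 : ℂ).im = s.im := by simp
    refine ⟨s - 1 / 2, ⟨⟨by rw [e1]; linarith, ?_, by rw [e2]; exact h2⟩, h3⟩, by ring⟩
    by_contra hcon
    exact hG (s - 1 / 2) (by linarith) h3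
  exact (hfin.image _).subset h1

end

theorem bh_mainR : ∃ F : ZI → ℂ → ℂ,
    (∀ q : ZI, q ≠ 0 → two2 ∣ q → Differentiable ℂ (F q) ∧
      (∀ (K : Type) [Field K] [NumberField K] (ι : ZI →+* 𝓞 K)
        (art : (RQ q)ˣ →* (𝓞 K ≃+* 𝓞 K)), IsRayClassField q K ι art →
        4 * Nat.card art.range = phiQ q ∧
        ∀ s : ℂ, 3 / 2 < s.re → HasProd (open Classical in fun v : HeightOneSpectrum (𝓞 K) =>
          if ι q ∈ v.asIdeal then 1 else eulerFactor s v) (F q s)) ∧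
      ∀ τ : ℝ, (zerosB (F q) τ).Finite) ∧
    ∃ C N0 η : ℝ, 0 < η ∧ ∀ q : ZI, q ≠ 0 → two2 ∣ q → N0 ≤ (nrm q : ℝ) →
      ∀ τ : ℝ, C * (1 + Real.sqrt (Real.log (rho q))) ≤ τ → τ ≤ (nrm q : ℝ) ^ η →
        τ * (phiQ q : ℝ) * Real.log (nrm q) / 16 ≤ (NZ (F q) τ : ℝ) ∧
        0.6725 * (NZ (F q) τ : ℝ) ≤ (NZ₀ (F q) τ : ℝ) := by
  classical
  obtain ⟨cd, pr, hp, -⟩ := H385.he_main
  have hprim : ∀ q : ZI, q ≠ 0 → ∀ χ ∈ FQs q, cd q χ ∣ q ∧ HC (cd q χ) (pr q χ) ∧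
      ∀ a : ZI, IsCoprime a q → pr q χ a = chiZ q χ a :=
    fun q hq χ hχ => hp q hq χ (((H385.fq_finite q hq).2.2 χ).1 hχ)
  obtain ⟨G, hG⟩ : ∃ G : ZI → ℂ → ℂ, ∀ q, G q = fun z => FE pr q z * FE pr (star q) z :=
    ⟨_, fun _ => rfl⟩
  have hst0 : ∀ q : ZI, q ≠ 0 → star q ≠ 0 := fun q hq h => hq (by rw [← star_star q, h, star_zero])
  have hGd : ∀ q : ZI, q ≠ 0 → Differentiable ℂ (G q) := by
    intro q hq
    rw [hG]
    exact (FE_diff cd pr hprim hq).mul (FE_diff cd pr hprim (hst0 q hq))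
  -- non-vanishing
  obtain ⟨A, hA, hgood⟩ := goodB_LH
  have hne : ∀ q : ZI, q ≠ 0 → ∀ z : ℂ, 1 ≤ z.re → FE pr q z ≠ 0 := by
    intro q hq z h1
    unfold FE
    rw [Finset.prod_ne_zero_iff]
    intro χ hχ
    obtain ⟨b1, b2, b3⟩ := hprim q hq χ hχ
    refine mul_ne_zero ?_ (Cq_ne q (uh_psi _ _ b2) (by linarith))
    have hg := hgood _ _ b2 0 0 (1 + Real.log (1 + 0 + 0))
      (max (1 + Real.log (1 + 0 + 0)) (Real.log ‖tc (cd q χ)‖)) le_rfl le_rfl le_rfl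
      (le_max_left _ _) (le_max_right _ _)
    have := hg.nzr z h1
    simpa using this
  have hGne : ∀ q : ZI, q ≠ 0 → ∀ z : ℂ, 1 ≤ z.re → G q z ≠ 0 := by
    intro q hq z h1
    rw [hG]
    exact mul_ne_zero (hne q hq z h1) (hne _ (hst0 q hq) z h1)
  refine ⟨fun q s => G q (s - 1 / 2), ?_, ?_⟩
  · intro q hq h2
    refine ⟨(hGd q hq).comp (by fun_prop), ?_, ?_⟩
    · intro K _ _ ι art H
      refine ⟨ray_card hq h2 H, fun s hs => ?_⟩
      have h3 := hasProd_K cd pr hprim hq h2 H hs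
      have h4 : G q (s - 1 / 2) = FE pr q (s - 1 / 2) * FE pr (star q) (s - 1 / 2) := by rw [hG]
      rw [← h4] at h3
      exact h3
    · intro τ
      apply zerosB_fin (hGne q hq)
      rw [hG]
      exact (tot_cntB cd pr hprim hq (τ := τ) subset_rfl).2
  · obtain ⟨T0, N0, η, hT0, hη, H⟩ := bh_finalR cd pr hprim
    refine ⟨T0, max N0 ((4 : ℝ) ^ (4 / η)), η / 4, by positivity, ?_⟩
    intro q hq h2 hN τ hτ1 hτ2
    have hq' := hst0 q hq
    have hN1 : N0 ≤ (nrm q : ℝ) := (le_max_left _ _).trans hN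
    have hN2 : (4 : ℝ) ^ (4 / η) ≤ (nrm q : ℝ) := (le_max_right _ _).trans hN
    have h8 := eight_le_nrm hq h2
    have h8' : (8 : ℝ) ≤ (nrm q : ℝ) := by exact_mod_cast h8
    have hNp : (0 : ℝ) < (nrm q : ℝ) := by linarith
    have hτ0 : 1 ≤ τ := by
      have := Real.sqrt_nonneg (Real.log (rho q))
      nlinarith
    have hρst : rho (star q) = rho q := by unfold rho; rw [nrm_star, phiQ_star]
    have hN4 : 4 ≤ (nrm q : ℝ) ^ (η / 4) := by
      have h3 := Real.rpow_le_rpow (by positivity) hN2 (show 0 ≤ η / 4 by positivity)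
      rw [← Real.rpow_mul (by norm_num)] at h3
      have h4 : 4 / η * (η / 4) = 1 := by field_simp
      rwa [h4, Real.rpow_one] at h3
    -- the gap
    have hZ : {s : ℂ | s ∈ Wc (τ + 1) ∧ G q s = 0}.Finite := by
      rw [hG]
      exact (tot_cntB cd pr hprim hq (τ := τ + 1) subset_rfl).2
    obtain ⟨e, he0, he1, hgap⟩ := exists_gap _ hZ τ
    obtain ⟨T, hT⟩ : ∃ T : ℝ, T = 2 * (τ + e) := ⟨_, rfl⟩
    have hτT : 2 * τ < T := by rw [hT]; linarith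
    have hnq : ((nrm q : ℕ) : ℝ) = ‖tc q‖ ^ 2 := H385.nrm_eq q
    have hQ1 : 1 ≤ ‖tc q‖ := one_le_norm_tc hq
    have hQη : ‖tc q‖ ^ η = (nrm q : ℝ) ^ (η / 4) * (nrm q : ℝ) ^ (η / 4) := by
      rw [← Real.rpow_add hNp, hnq, ← Real.rpow_natCast, ← Real.rpow_mul (by linarith)]
      congr 1
      push_cast
      ring
    have hTη : T ≤ ‖tc q‖ ^ η := by
      rw [hQη, hT]
      have h3 : 4 * (nrm q : ℝ) ^ (η / 4) ≤ (nrm q : ℝ) ^ (η / 4) * (nrm q : ℝ) ^ (η / 4) :=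
        mul_le_mul_of_nonneg_right hN4 (by positivity)
      linarith
    obtain ⟨a1, a2⟩ := H q T hN1 (by linarith) hTη
    obtain ⟨b1, b2⟩ := H (star q) T (by rw [nrm_star]; exact hN1)
      (by rw [hρst]; linarith) (by rw [norm_tc_star]; exact hTη)
    have hone : ∀ q' : ZI, q' ≠ 0 → (∀ z, FE pr q' z = 0 → G q z = 0) → ∀ χ ∈ FQs q',
        NN (FS (pr q' χ) T) T (2 * T) = cnt (LH (pr q' χ)) (Wc τ) ∧
        Ns (FS (pr q' χ) T) T (2 * T) ≤ cnt (LH (pr q' χ)) (Lc τ) := by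
      intro q' hq'0 hz χ hχ
      refine one_cnt (hprim q' hq'0 χ hχ).2.1 hτT ?_
      intro ρ h3 h4 h5 h6
      have h7 : |ρ.im| ≤ τ + e := by rw [hT] at h6; linarith
      refine hgap ρ ⟨⟨h4, h5, by linarith⟩, hz ρ ?_⟩ h7
      unfold FE
      exact Finset.prod_eq_zero hχ (by rw [h3, zero_mul])
    have hone1 := hone q hq (fun z hz => by rw [hG]; show FE pr q z * _ = 0; rw [hz, zero_mul])
    have hone2 := hone (star q) hq' (fun z hz => by rw [hG]; show _ * FE pr (star q) z = 0; rw [hz, mul_zero])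
    have t1 := (tot_cntB cd pr hprim hq (τ := τ) (W := Wc τ) subset_rfl).1
    have t2 := (tot_cntB cd pr hprim hq (τ := τ) (W := Lc τ) (Lc_sub τ)).1
    rw [← hG] at t1 t2
    have n1 := NZ_shift (hGne q hq) τ
    have n2 := NZ₀_shift (hGne q hq) τ
    have s1 : ∑ χ ∈ FQs q, (NN (FS (pr q χ) T) T (2 * T) : ℝ) =
        ((∑ χ ∈ FQs q, cnt (LH (pr q χ)) (Wc τ) : ℕ) : ℝ) := by
      push_cast
      exact Finset.sum_congr rfl fun χ hχ => by rw [(hone1 χ hχ).1]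
    have s2 : ∑ χ ∈ FQs (star q), (NN (FS (pr (star q) χ) T) T (2 * T) : ℝ) =
        ((∑ χ ∈ FQs (star q), cnt (LH (pr (star q) χ)) (Wc τ) : ℕ) : ℝ) := by
      push_cast
      exact Finset.sum_congr rfl fun χ hχ => by rw [(hone2 χ hχ).1]
    have s3 : ∑ χ ∈ FQs q, (Ns (FS (pr q χ) T) T (2 * T) : ℝ) ≤
        ((∑ χ ∈ FQs q, cnt (LH (pr q χ)) (Lc τ) : ℕ) : ℝ) := by
      push_cast
      exact Finset.sum_le_sum fun χ hχ => by exact_mod_cast (hone1 χ hχ).2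
    have s4 : ∑ χ ∈ FQs (star q), (Ns (FS (pr (star q) χ) T) T (2 * T) : ℝ) ≤
        ((∑ χ ∈ FQs (star q), cnt (LH (pr (star q) χ)) (Lc τ) : ℕ) : ℝ) := by
      push_cast
      exact Finset.sum_le_sum fun χ hχ => by exact_mod_cast (hone2 χ hχ).2
    have m1 : (NZ (fun s => G q (s - 1 / 2)) τ : ℝ) =
        ∑ χ ∈ FQs q, (NN (FS (pr q χ) T) T (2 * T) : ℝ) +
        ∑ χ ∈ FQs (star q), (NN (FS (pr (star q) χ) T) T (2 * T) : ℝ) := by
      rw [n1, t1, s1, s2]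
      push_cast
      ring
    have m2 : ∑ χ ∈ FQs q, (Ns (FS (pr q χ) T) T (2 * T) : ℝ) +
        ∑ χ ∈ FQs (star q), (Ns (FS (pr (star q) χ) T) T (2 * T) : ℝ) ≤
        (NZ₀ (fun s => G q (s - 1 / 2)) τ : ℝ) := by
      rw [n2, t2]
      push_cast at s3 s4 ⊢
      linarith
    refine ⟨?_, ?_⟩
    · rw [m1]
      refine le_trans ?_ (add_le_add a1 b1)
      rw [norm_tc_star]
      have c1 := H385.fq_card q (by omega)
      have c2 := H385.fq_card (star q) (by rw [nrm_star]; omega)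
      rw [phiQ_star] at c2
      rw [c1, c2]
      have hlog : Real.log (nrm q) = 2 * Real.log ‖tc q‖ := by
        rw [hnq, Real.log_pow]
        push_cast; ring
      rw [hlog]
      have hl0 : 0 ≤ Real.log ‖tc q‖ := Real.log_nonneg hQ1
      have hp0 : (0 : ℝ) ≤ (phiQ q : ℝ) := Nat.cast_nonneg _
      have h3 : 0 ≤ (phiQ q : ℝ) * Real.log ‖tc q‖ := mul_nonneg hp0 hl0
      have h4 : (2 * τ) * ((phiQ q : ℝ) * Real.log ‖tc q‖) ≤
          T * ((phiQ q : ℝ) * Real.log ‖tc q‖) := mul_le_mul_of_nonneg_right hτT.le h3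
      calc τ * (phiQ q : ℝ) * (2 * Real.log ‖tc q‖) / 16 =
          (2 * τ) * ((phiQ q : ℝ) * Real.log ‖tc q‖) / 16 := by ring
        _ ≤ T * ((phiQ q : ℝ) * Real.log ‖tc q‖) / 16 := by linarith
        _ = _ := by ring
    · rw [m1]
      linarith

end Pool.Agent.A856.BH
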