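import Pool.Agent.A856.BH.Fin2K
import Pool.Agent.A856.BH.Fin3R
import Pool.Agent.A856.SE.MainK

/-!
# Zeros of bounded height: the L-functions of the powers of the elliptic curve

(`Fin3R.lean` for the elliptic curve itself.)  Owner helper856.
-/

set_option autoImplicit false

open Complex Filter Topology Set NumberField IsDedekindDomain
open H370 (zset mult NN Nd Ns)

namespace Pool.Agent.A856.BH

open Pool.Agent.A856.SE (nrm_star hck_of)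
open Pool.Agent.H304R3.HK (tc one_le_norm_tc)
open Pool.Agent.W354.PK (HCk psik LK bK uh_psik)
open H385 (ZI RQ chiZ phiQ nrm im1)
open Pool.Agent.H82R3.EK (cnt)
open Pool.Agent.W164.RC (Cq_ne two2 eight_le_nrm phiQ_star two_dvd_star norm_tc_star)
open Pool.Agent.W354.HW (mu)
open Pool.Agent.Y762.HK (PrimData)
open Pool.Agent.Y762.EG (FQk mem_FQk FEk FEk_diff LG LG_diff card_FQk sum_mu)

/-- the zeros of the L-functions of infinity type `2l+1` modulo `q` and modulo the conjugate -/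
noncomputable def cnt2 (pr : (q : ZI) → MulChar (RQ q) ℂ → (ZI →* ℂ)) (q : ZI) (l : ℕ)
    (W : Set ℂ) : ℕ :=
  ∑ χ ∈ FQk q (2 * l + 1), cnt (LK (2 * l + 1) (pr q χ)) W +
    ∑ χ ∈ FQk (star q) (2 * l + 1), cnt (LK (2 * l + 1) (pr (star q) χ)) W

section
variable (cd : (q : ZI) → MulChar (RQ q) ℂ → ZI)
    (pr : (q : ZI) → MulChar (RQ q) ℂ → (ZI →* ℂ))
    (hprim : ∀ q : ZI, q ≠ 0 → ∀ χ, PrimData q χ (cd q χ) (pr q χ))

include hprim

theorem one_type (l : ℕ) : ∃ C N0 η : ℝ, 1 ≤ C ∧ 0 < η ∧ ∀ q : ZI, q ≠ 0 → two2 ∣ q →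
    N0 ≤ (nrm q : ℝ) → ∀ τ : ℝ, C * (1 + Real.sqrt (Real.log (rho q))) ≤ τ →
      τ ≤ (nrm q : ℝ) ^ η →
        τ * (phiQ q : ℝ) * Real.log (nrm q) / 16 ≤ (cnt2 pr q l (Wc τ) : ℝ) ∧
        0.6725 * (cnt2 pr q l (Wc τ) : ℝ) ≤ (cnt2 pr q l (Lc τ) : ℝ) := by
  classical
  have hst0 : ∀ q : ZI, q ≠ 0 → star q ≠ 0 := fun q hq h => hq (by rw [← star_star q, h, star_zero])
  obtain ⟨T0, N0, η, hT0, hη, H⟩ := bh_finalK cd pr hprim l
  refine ⟨T0, max N0 ((4 : ℝ) ^ (4 / η)), η / 4, hT0, by positivity, ?_⟩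
  intro q hq h2 hN τ hτ1 hτ2
  have hq' := hst0 q hq
  have hN1 : N0 ≤ (nrm q : ℝ) := (le_max_left _ _).trans hN
  have hN2 : (4 : ℝ) ^ (4 / η) ≤ (nrm q : ℝ) := (le_max_right _ _).trans hN
  have h8 := eight_le_nrm hq h2
  have h8' : (8 : ℝ) ≤ (nrm q : ℝ) := by exact_mod_cast h8
  have hNp : (0 : ℝ) < (nrm q : ℝ) := by linarith
  have hτ0 : 1 ≤ τ := by
    have := Real.sqrt_nonneg (Real.log (rho q))
    nlinarith
  have hρst : rho (star q) = rho q := by unfold rho; rw [nrm_star, phiQ_star]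
  have hN4 : 4 ≤ (nrm q : ℝ) ^ (η / 4) := by
    have h3 := Real.rpow_le_rpow (by positivity) hN2 (show 0 ≤ η / 4 by positivity)
    rw [← Real.rpow_mul (by norm_num)] at h3
    have h4 : 4 / η * (η / 4) = 1 := by field_simp
    rwa [h4, Real.rpow_one] at h3
  -- the gap
  obtain ⟨G, hG⟩ : ∃ G : ℂ → ℂ, G = fun z => FEk pr q (2 * l + 1) z * FEk pr (star q) (2 * l + 1) z :=
    ⟨_, rfl⟩
  have hZ : {s : ℂ | s ∈ Wc (τ + 1) ∧ G s = 0}.Finite := by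
    rw [hG]
    exact (pair_cntB cd pr hprim hq (k := 2 * l + 1) (by omega) (τ := τ + 1) subset_rfl).2.2
  obtain ⟨e, he0, he1, hgap⟩ := exists_gap _ hZ τ
  obtain ⟨T, hT⟩ : ∃ T : ℝ, T = 2 * (τ + e) := ⟨_, rfl⟩
  have hτT : 2 * τ < T := by rw [hT]; linarith
  have hnq : ((nrm q : ℕ) : ℝ) = ‖tc q‖ ^ 2 := H385.nrm_eq q
  have hQ1 : 1 ≤ ‖tc q‖ := one_le_norm_tc hq
  have hQη : ‖tc q‖ ^ η = (nrm q : ℝ) ^ (η / 4) * (nrm q : ℝ) ^ (η / 4) := by
    rw [← Real.rpow_add hNp, hnq, ← Real.rpow_natCast, ← Real.rpow_mul (by linarith)]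
    congr 1
    push_cast
    ring
  have hTη : T ≤ ‖tc q‖ ^ η := by
    rw [hQη, hT]
    have h3 : 4 * (nrm q : ℝ) ^ (η / 4) ≤ (nrm q : ℝ) ^ (η / 4) * (nrm q : ℝ) ^ (η / 4) :=
      mul_le_mul_of_nonneg_right hN4 (by positivity)
    linarith
  obtain ⟨a1, a2⟩ := H q T hN1 (by linarith) hTη
  obtain ⟨b1, b2⟩ := H (star q) T (by rw [nrm_star]; exact hN1)
    (by rw [hρst]; linarith) (by rw [norm_tc_star]; exact hTη)
  have hone : ∀ q' : ZI, q' ≠ 0 → (∀ z, FEk pr q' (2 * l + 1) z = 0 → G z = 0) →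
      ∀ χ ∈ FQk q' (2 * l + 1),
      NN (FSk (2 * l + 1) (pr q' χ) T) T (2 * T) = cnt (LK (2 * l + 1) (pr q' χ)) (Wc τ) ∧
      Ns (FSk (2 * l + 1) (pr q' χ) T) T (2 * T) ≤ cnt (LK (2 * l + 1) (pr q' χ)) (Lc τ) := by
    intro q' hq'0 hz χ hχ
    refine one_cntK (by omega) (hck_of cd pr hprim hq'0 χ hχ) hτT ?_
    intro ρ h3 h4 h5 h6
    have h7 : |ρ.im| ≤ τ + e := by rw [hT] at h6; linarith
    refine hgap ρ ⟨⟨h4, h5, by linarith⟩, hz ρ ?_⟩ h7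
    unfold FEk
    exact Finset.prod_eq_zero hχ (by rw [h3, zero_mul])
  have hone1 := hone q hq (fun z hz => by
    rw [hG]; show FEk pr q (2 * l + 1) z * _ = 0; rw [hz, zero_mul])
  have hone2 := hone (star q) hq' (fun z hz => by
    rw [hG]; show _ * FEk pr (star q) (2 * l + 1) z = 0; rw [hz, mul_zero])
  have s1 : ∑ χ ∈ FQk q (2 * l + 1), (NN (FSk (2 * l + 1) (pr q χ) T) T (2 * T) : ℝ) =
      ((∑ χ ∈ FQk q (2 * l + 1), cnt (LK (2 * l + 1) (pr q χ)) (Wc τ) : ℕ) : ℝ) := by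
    push_cast
    exact Finset.sum_congr rfl fun χ hχ => by rw [(hone1 χ hχ).1]
  have s2 : ∑ χ ∈ FQk (star q) (2 * l + 1), (NN (FSk (2 * l + 1) (pr (star q) χ) T) T (2 * T) : ℝ) =
      ((∑ χ ∈ FQk (star q) (2 * l + 1), cnt (LK (2 * l + 1) (pr (star q) χ)) (Wc τ) : ℕ) : ℝ) := by
    push_cast
    exact Finset.sum_congr rfl fun χ hχ => by rw [(hone2 χ hχ).1]
  have s3 : ∑ χ ∈ FQk q (2 * l + 1), (Ns (FSk (2 * l + 1) (pr q χ) T) T (2 * T) : ℝ) ≤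
      ((∑ χ ∈ FQk q (2 * l + 1), cnt (LK (2 * l + 1) (pr q χ)) (Lc τ) : ℕ) : ℝ) := by
    push_cast
    exact Finset.sum_le_sum fun χ hχ => by exact_mod_cast (hone1 χ hχ).2
  have s4 : ∑ χ ∈ FQk (star q) (2 * l + 1), (Ns (FSk (2 * l + 1) (pr (star q) χ) T) T (2 * T) : ℝ) ≤
      ((∑ χ ∈ FQk (star q) (2 * l + 1), cnt (LK (2 * l + 1) (pr (star q) χ)) (Lc τ) : ℕ) : ℝ) := by
    push_cast
    exact Finset.sum_le_sum fun χ hχ => by exact_mod_cast (hone2 χ hχ).2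
  have m1 : (cnt2 pr q l (Wc τ) : ℝ) =
      ∑ χ ∈ FQk q (2 * l + 1), (NN (FSk (2 * l + 1) (pr q χ) T) T (2 * T) : ℝ) +
      ∑ χ ∈ FQk (star q) (2 * l + 1),
        (NN (FSk (2 * l + 1) (pr (star q) χ) T) T (2 * T) : ℝ) := by
    unfold cnt2
    rw [s1, s2]
    push_cast
    ring
  have m2 : ∑ χ ∈ FQk q (2 * l + 1), (Ns (FSk (2 * l + 1) (pr q χ) T) T (2 * T) : ℝ) +
      ∑ χ ∈ FQk (star q) (2 * l + 1), (Ns (FSk (2 * l + 1) (pr (star q) χ) T) T (2 * T) : ℝ) ≤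
      (cnt2 pr q l (Lc τ) : ℝ) := by
    unfold cnt2
    push_cast at s3 s4 ⊢
    linarith
  refine ⟨?_, ?_⟩
  · rw [m1]
    refine le_trans ?_ (add_le_add a1 b1)
    rw [norm_tc_star]
    have c1 := card_FQk (q := q) (by omega) (2 * l + 1)
    have c2 := card_FQk (q := star q) (by rw [nrm_star]; omega) (2 * l + 1)
    rw [phiQ_star] at c2
    rw [c1, c2]
    have hlog : Real.log (nrm q) = 2 * Real.log ‖tc q‖ := by
      rw [hnq, Real.log_pow]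
      push_cast; ring
    rw [hlog]
    have hl0 : 0 ≤ Real.log ‖tc q‖ := Real.log_nonneg hQ1
    have hp0 : (0 : ℝ) ≤ (phiQ q : ℝ) := Nat.cast_nonneg _
    have h3 : 0 ≤ (phiQ q : ℝ) * Real.log ‖tc q‖ := mul_nonneg hp0 hl0
    have h4 : (2 * τ) * ((phiQ q : ℝ) * Real.log ‖tc q‖) ≤
        T * ((phiQ q : ℝ) * Real.log ‖tc q‖) := mul_le_mul_of_nonneg_right hτT.le h3
    calc τ * (phiQ q : ℝ) * (2 * Real.log ‖tc q‖) / 16 =
        (2 * τ) * ((phiQ q : ℝ) * Real.log ‖tc q‖) / 16 := by ring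
      _ ≤ T * ((phiQ q : ℝ) * Real.log ‖tc q‖) / 16 := by linarith
      _ = _ := by ring
  · rw [m1]
    linarith

/-- the main theorem -/
theorem bh_mainK (J : ℕ) : ∃ C N0 η : ℝ, 1 ≤ C ∧ 0 < η ∧ ∀ g m : ℕ, 2 * m + 1 < 2 * g →
    min (2 * m + 1) (2 * g - (2 * m + 1)) ≤ J → ∀ q : ZI, q ≠ 0 → two2 ∣ q →
    N0 ≤ (nrm q : ℝ) → ∀ τ : ℝ, C * (1 + Real.sqrt (Real.log (rho q))) ≤ τ →
      τ ≤ (nrm q : ℝ) ^ η →
        (((2 * g).choose (2 * m + 1) : ℕ) : ℝ) * τ * (phiQ q : ℝ) * Real.log (nrm q) / 32 ≤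
          (cnt (LG pr q g m) (Wc τ) : ℝ) ∧
        0.6725 * (cnt (LG pr q g m) (Wc τ) : ℝ) ≤ (cnt (LG pr q g m) (Lc τ) : ℝ) := by
  classical
  have h1 := fun l : ℕ => one_type cd pr hprim l
  choose C N0 η hC hη h using h1
  obtain ⟨η0, hη0⟩ : ∃ η0 : ℝ, η0 = (Finset.range (J + 1)).inf' ⟨0, by simp⟩ η := ⟨_, rfl⟩
  have hη0p : 0 < η0 := by
    rw [hη0, Finset.lt_inf'_iff]
    exact fun l _ => hη l
  have hη0l : ∀ l ∈ Finset.range (J + 1), η0 ≤ η l := fun l hl => by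
    rw [hη0]; exact Finset.inf'_le _ hl
  refine ⟨∑ l ∈ Finset.range (J + 1), C l, ∑ l ∈ Finset.range (J + 1), |N0 l|, η0, ?_, hη0p, ?_⟩
  · have h2 : C 0 ≤ ∑ l ∈ Finset.range (J + 1), C l :=
      Finset.single_le_sum (f := C) (fun l _ => by linarith [hC l]) (by simp)
    linarith [hC 0]
  intro g m hmg hJ q hq h2 hN τ hτ1 hτ2
  have h8 := eight_le_nrm hq h2
  have h8' : (8 : ℝ) ≤ (nrm q : ℝ) := by exact_mod_cast h8
  have hs0 := Real.sqrt_nonneg (Real.log (rho q))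
  have key : ∀ l ∈ Finset.range (m + 1), mu g m l ≠ 0 →
      τ * (phiQ q : ℝ) * Real.log (nrm q) / 16 ≤ (cnt2 pr q l (Wc τ) : ℝ) ∧
        0.6725 * (cnt2 pr q l (Wc τ) : ℝ) ≤ (cnt2 pr q l (Lc τ) : ℝ) := by
    intro l hl' hmu
    have hl : l ∈ Finset.range (J + 1) := by
      rw [Finset.mem_range] at hl' ⊢
      have h3 : m + 1 + l ≤ g := by
        by_contra hcon
        apply hmu
        unfold mu
        rw [Nat.choose_eq_zero_of_lt (show g < m + 1 + l by omega), mul_zero]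
      have h4 : 2 * l + 1 ≤ min (2 * m + 1) (2 * g - (2 * m + 1)) := by
        rw [le_min_iff]
        omega
      omega
    refine h l q hq h2 ?_ τ ?_ ?_
    · refine (le_abs_self _).trans (le_trans ?_ hN)
      exact Finset.single_le_sum (f := fun l => |N0 l|) (fun l _ => abs_nonneg _) hl
    · refine le_trans ?_ hτ1
      refine mul_le_mul_of_nonneg_right ?_ (by linarith)
      exact Finset.single_le_sum (f := C) (fun l _ => by linarith [hC l]) hl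
    · refine hτ2.trans ?_
      exact Real.rpow_le_rpow_of_exponent_le (by linarith) (hη0l l hl)
  have t1 := (LG_cntB cd pr hprim hq g m (τ := τ) (W := Wc τ) subset_rfl).1
  have t2 := (LG_cntB cd pr hprim hq g m (τ := τ) (W := Lc τ) (Lc_sub τ)).1
  have e1 : (cnt (LG pr q g m) (Wc τ) : ℝ) =
      ∑ l ∈ Finset.range (m + 1), (mu g m l : ℝ) * (cnt2 pr q l (Wc τ) : ℝ) := by
    rw [t1]
    unfold cnt2
    push_cast
    rfl
  have e2 : (cnt (LG pr q g m) (Lc τ) : ℝ) =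
      ∑ l ∈ Finset.range (m + 1), (mu g m l : ℝ) * (cnt2 pr q l (Lc τ) : ℝ) := by
    rw [t2]
    unfold cnt2
    push_cast
    rfl
  rw [e1, e2]
  refine ⟨?_, ?_⟩
  · rw [← sum_mu g m]
    push_cast
    have e3 : 2 * (∑ l ∈ Finset.range (m + 1), (mu g m l : ℝ)) * τ * (phiQ q : ℝ) *
        Real.log (nrm q) / 32 =
        ∑ l ∈ Finset.range (m + 1), (mu g m l : ℝ) *
          (τ * (phiQ q : ℝ) * Real.log (nrm q) / 16) := by
      rw [← Finset.sum_mul]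
      ring
    rw [e3]
    refine Finset.sum_le_sum fun l hl => ?_
    by_cases hmu : mu g m l = 0
    · rw [hmu]; simp
    · exact mul_le_mul_of_nonneg_left (key l hl hmu).1 (Nat.cast_nonneg _)
  · rw [Finset.mul_sum]
    refine Finset.sum_le_sum fun l hl => ?_
    by_cases hmu : mu g m l = 0
    · rw [hmu]; simp
    · have := mul_le_mul_of_nonneg_left (key l hl hmu).2 (Nat.cast_nonneg (α := ℝ) (mu g m l))
      calc 0.6725 * ((mu g m l : ℝ) * (cnt2 pr q l (Wc τ) : ℝ)) =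
          (mu g m l : ℝ) * (0.6725 * (cnt2 pr q l (Wc τ) : ℝ)) := by ring
        _ ≤ _ := this

end

end Pool.Agent.A856.BH
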