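import Pool.Agent.H385R5.HE8b

/-!
Job for helper856: mean square over the characters modulo `q` with the weights multiplied by `n^(iw)`.
-/

set_option autoImplicit false

open Complex Filter Topology Set MeasureTheory

set_option maxHeartbeats 4000000

namespace H385

open Pool.Agent.H304R3.HK (tc HC CS bb LamK psi bH aH LH)

namespace HE5W

open HE5 Pool.Agent.H304R3.HK Pool.Agent.H304R3.HK.M4

theorem mainW (q d : ZI) (χ : MulChar (RQ q) ℂ) (χ' : ZI →* ℂ)
    (h : HC d χ') (hχ : ∀ a : ZI, IsCoprime a q → χ' a = chiZ q χ a) (N : ℕ) (T' u t : ℝ)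
    (hT : 0 ≤ T') (b : ℕ → ℂ) (hb : ∀ n, ‖b n‖ ≤ ‖bn T' u t n‖) :
    ‖∑' n : ℕ, aH χ' n * b n -
      (1 / 4 : ℂ) * ∑ a ∈ BX N, wZ q b a * chiZ q χ a‖ ≤
      wt T' t * (2 * (Gq (nrm q) u + Tl N u)) := by
  classical
  have hpsi : ∀ a : ZI, ‖psi χ' a‖ ≤ 1 := (Pool.Agent.H304R3.HK.uh_psi d χ' h).hb
  -- the coefficient bound
  have hvb : ∀ n, ArithmeticFunction.vonMangoldt n * ‖b n‖ ≤
      ArithmeticFunction.vonMangoldt n * ‖bn T' u t n‖ := fun n =>
    mul_le_mul_of_nonneg_left (hb n) ArithmeticFunction.vonMangoldt_nonneg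
  have haH0 : ∀ n, ‖aH χ' n * b n‖ ≤ 2 * (ArithmeticFunction.vonMangoldt n * ‖b n‖) := by
    intro n
    have h1 : ‖aH χ' n‖ ≤ 2 * (ArithmeticFunction.vonMangoldt n * 1) := by
      unfold aH
      refine bb_le _ n 1 (by norm_num) ?_
      intro a _
      rw [norm_mul, Complex.norm_real, Real.norm_of_nonneg (LamK_nn a)]
      exact mul_le_mul_of_nonneg_left (hpsi a) (LamK_nn a)
    rw [norm_mul]
    calc ‖aH χ' n‖ * ‖b n‖ ≤ (2 * (ArithmeticFunction.vonMangoldt n * 1)) * ‖b n‖ :=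
          mul_le_mul_of_nonneg_right h1 (norm_nonneg _)
      _ = _ := by ring
  have haH : ∀ n, ‖aH χ' n * b n‖ ≤ 2 * (ArithmeticFunction.vonMangoldt n * ‖bn T' u t n‖) :=
    fun n => (haH0 n).trans (mul_le_mul_of_nonneg_left (hvb n) (by norm_num))
  have hsb : Summable (fun n : ℕ => ArithmeticFunction.vonMangoldt n * ‖bn T' u t n‖) :=
    b_summable T' u t hT
  have hsc : Summable (fun n : ℕ => aH χ' n * b n) :=
    Summable.of_norm_bounded (hsb.mul_left 2) haH
  -- the short sum as a sum over `n`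
  set s : ℕ → ℂ := fun n => if n ∈ Finset.Icc 1 N then
    bb (fun a => wZ q b a * chiZ q χ a) n else 0 with hs
  have hS : (1 / 4 : ℂ) * ∑ a ∈ BX N, wZ q b a * chiZ q χ a = ∑' n, s n := by
    rw [sum_BX, tsum_eq_sum (s := Finset.Icc 1 N)]
    · apply Finset.sum_congr rfl
      intro n hn
      rw [hs]
      simp only
      rw [if_pos hn]
    · intro n hn
      rw [hs]
      simp only
      rw [if_neg hn]
  have hss : Summable s := summable_of_ne_finset_zero (s := Finset.Icc 1 N) (by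
    intro n hn
    rw [hs]
    simp only
    rw [if_neg hn])
  rw [hS, ← hsc.tsum_sub hss]
  -- the pointwise bound of the difference
  set B1 : ℕ → ℝ := fun n => if ¬ Nat.Coprime n (nrm q) then
    ArithmeticFunction.vonMangoldt n * ‖bn T' u t n‖ else 0 with hB1
  set B2 : ℕ → ℝ := fun n => if N < n then
    ArithmeticFunction.vonMangoldt n * ‖bn T' u t n‖ else 0 with hB2
  have hpos : ∀ n, 0 ≤ ArithmeticFunction.vonMangoldt n * ‖bn T' u t n‖ := fun n =>
    mul_nonneg ArithmeticFunction.vonMangoldt_nonneg (norm_nonneg _)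
  have hB1n : ∀ n, 0 ≤ B1 n := by
    intro n; rw [hB1]; simp only; split_ifs
    · exact le_rfl
    · exact hpos n
  have hB2n : ∀ n, 0 ≤ B2 n := by
    intro n; rw [hB2]; simp only; split_ifs
    · exact hpos n
    · exact le_rfl
  have hB1s : Summable B1 := by
    refine Summable.of_nonneg_of_le hB1n (fun n => ?_) hsb
    rw [hB1]; simp only; split_ifs
    · exact hpos n
    · exact le_rfl
  have hB2s : Summable B2 := by
    refine Summable.of_nonneg_of_le hB2n (fun n => ?_) hsb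
    rw [hB2]; simp only; split_ifs
    · exact le_rfl
    · exact hpos n
  have hd : ∀ n, ‖aH χ' n * b n - s n‖ ≤ 2 * (B1 n + B2 n) := by
    intro n
    by_cases hn : n ∈ Finset.Icc 1 N
    · have e1 : s n = bb (fun a => wZ q b a * chiZ q χ a) n := by
        rw [hs]; simp only; rw [if_pos hn]
      have e2 : aH χ' n * b n - s n = bb (fun a => if IsCoprime a q then 0 else
          (LamK a : ℂ) * psi χ' a * b n) n := by
        rw [e1]
        unfold aH
        rw [bb_eq, bb_eq, bb_eq, mul_assoc, ← mul_sub, Finset.sum_mul, ← Finset.sum_sub_distrib]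
        congr 1
        apply Finset.sum_congr rfl
        intro a ha
        have hna : nrm a = n := nrm_eq.2 (mem_T.1 ha)
        unfold wZ
        by_cases hc : IsCoprime a q
        · rw [if_pos hc, if_pos hc, hna]
          have ha0 : a ≠ 0 := by
            rintro rfl
            have h1 : nrm (0 : ZI) = 0 := by simp [nrm]
            rw [h1] at hna
            rw [Finset.mem_Icc] at hn
            omega
          have hp : psi χ' a = χ' a * (tc a / (‖tc a‖ : ℂ)) := by
            show (if a = 0 then 0 else χ' a * (tc a / (‖tc a‖ : ℂ))) = _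
            rw [if_neg ha0]
          rw [hp, hχ a hc]
          ring
        · rw [if_neg hc, if_neg hc]
          ring
      rw [e2]
      by_cases hcn : Nat.Coprime n (nrm q)
      · have h0 : bb (fun a => if IsCoprime a q then 0 else
            (LamK a : ℂ) * psi χ' a * b n) n = 0 := by
          rw [bb_eq, Finset.sum_eq_zero, mul_zero]
          intro a ha
          have hna : nrm a = n := nrm_eq.2 (mem_T.1 ha)
          by_cases hc : IsCoprime a q
          · rw [if_pos hc]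
          · rw [if_neg hc]
            have hL : LamK a = 0 := by
              by_contra hL
              apply cop_of hc hL
              rw [hna]
              exact hcn
            rw [hL]
            simp
        rw [h0, norm_zero]
        have := hB1n n
        have := hB2n n
        positivity
      · have h1 : ‖bb (fun a => if IsCoprime a q then 0 else
            (LamK a : ℂ) * psi χ' a * b n) n‖ ≤
            2 * (ArithmeticFunction.vonMangoldt n * ‖bn T' u t n‖) := by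
          refine bb_le _ n ‖bn T' u t n‖ (norm_nonneg _) ?_
          intro a _
          split_ifs
          · rw [norm_zero]
            exact mul_nonneg (LamK_nn a) (norm_nonneg _)
          · rw [norm_mul, norm_mul, Complex.norm_real, Real.norm_of_nonneg (LamK_nn a)]
            refine mul_le_mul ?_ (hb n) (norm_nonneg _) (LamK_nn a)
            calc LamK a * ‖psi χ' a‖ ≤ LamK a * 1 :=
                  mul_le_mul_of_nonneg_left (hpsi a) (LamK_nn a)
              _ = LamK a := mul_one _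
        have h2 : B1 n = ArithmeticFunction.vonMangoldt n * ‖bn T' u t n‖ := by
          rw [hB1]; simp only; rw [if_pos hcn]
        have := hB2n n
        linarith
    · have e1 : s n = 0 := by
        rw [hs]; simp only; rw [if_neg hn]
      rw [e1, sub_zero]
      by_cases hn0 : n = 0
      · subst hn0
        have h1 := haH 0
        have h2 : ArithmeticFunction.vonMangoldt 0 = 0 := by simp
        rw [h2, zero_mul, mul_zero] at h1
        have := hB1n 0
        have := hB2n 0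
        linarith
      · have hNn : N < n := by
          rw [Finset.mem_Icc] at hn
          omega
        have h2 : B2 n = ArithmeticFunction.vonMangoldt n * ‖bn T' u t n‖ := by
          rw [hB2]; simp only; rw [if_pos hNn]
        have h1 := haH n
        have := hB1n n
        linarith
  have hfin : ‖∑' n, (aH χ' n * b n - s n)‖ ≤ ∑' n, 2 * (B1 n + B2 n) :=
    tsum_of_norm_bounded ((hB1s.add hB2s).mul_left 2).hasSum hd
  refine hfin.trans ?_
  rw [tsum_mul_left, hB1s.tsum_add hB2s]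
  have k1 : ∑' n, B1 n ≤ wt T' t * Gq (nrm q) u := by
    have h1 := b_tsum_le T' u t hT (fun n => ¬ Nat.Coprime n (nrm q))
    have h2 : Gq (nrm q) u = ∑' n : ℕ, (if ¬ Nat.Coprime n (nrm q) then
        ArithmeticFunction.vonMangoldt n / Real.sqrt n *
          Real.exp (-(u - Real.log n) ^ 2 / 4) else 0) := by
      unfold Gq
      simp only [ite_not]
    rw [h2]
    exact h1
  have k2 : ∑' n, B2 n ≤ wt T' t * Tl N u := b_tsum_le T' u t hT (fun n => N < n)
  linarith

end HE5W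

/-- pointwise bound -/
theorem he_ptW (δ : ℝ) (hδ : 0 < δ) (q : ZI) (hq : q ≠ 0) (hq4 : 4 < nrm q)
    (cd : MulChar (RQ q) ℂ → ZI) (pr : MulChar (RQ q) ℂ → (ZI →* ℂ))
    (hpr : ∀ χ ∈ FQs q, HC (cd χ) (pr χ) ∧ ∀ a : ZI, IsCoprime a q → pr χ a = chiZ q χ a)
    (N : ℕ) (hNq : 4 * N < nrm q) (T u t : ℝ) (hT : 0 ≤ T) (hu : 0 ≤ u)
    (hN : Tl N u ≤ 1) (b : ℕ → ℂ) (hb : ∀ n, ‖b n‖ ≤ ‖bn T u t n‖) (hlam : ∀ n, 0 ≤ lamK2 n) :
    ∑ χ ∈ FQs q, (1 / ((FQs q).card : ℝ)) * ‖∑' n : ℕ, aH (pr χ) n * b n‖ ^ 2 ≤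
      (1 + δ) * (∑ n ∈ Finset.Icc 1 N, lamK2 n * ‖bn T u t n‖ ^ 2) +
      (1 + 1 / δ) * (wt T t ^ 2 * (4 * (Gq (nrm q) u + 1) ^ 2)) := by
  classical
  obtain ⟨-, hφ, -⟩ := fq_finite q hq
  have hφ0 : (0 : ℝ) < phiQ q := by exact_mod_cast hφ
  have hcard := fq_card q hq4
  have hc0 : (0 : ℝ) < (FQs q).card := by rw [hcard]; positivity
  have hw := wt_nonneg T t hT
  have hG := Gq_nonneg (nrm q) u
  have hpt : ∀ χ ∈ FQs q, ‖∑' n : ℕ, aH (pr χ) n * b n‖ ^ 2 ≤
      (1 + δ) * ‖(1 / 4 : ℂ) * ∑ a ∈ BX N, wZ q b a * chiZ q χ a‖ ^ 2 +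
      (1 + 1 / δ) * (wt T t ^ 2 * (4 * (Gq (nrm q) u + 1) ^ 2)) := by
    intro χ hχ
    obtain ⟨p1, p2⟩ := hpr χ hχ
    have h1 := HE5W.mainW q (cd χ) χ (pr χ) p1 p2 N T u t hT b hb
    set S := (1 / 4 : ℂ) * ∑ a ∈ BX N, wZ q b a * chiZ q χ a with hS
    set R := ∑' n : ℕ, aH (pr χ) n * b n with hR
    have h2 : R = S + (R - S) := by ring
    have h3 : ‖R - S‖ ≤ wt T t * (2 * (Gq (nrm q) u + 1)) := by
      refine h1.trans ?_
      refine mul_le_mul_of_nonneg_left ?_ hw
      linarith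
    have h4 : ‖R - S‖ ^ 2 ≤ wt T t ^ 2 * (4 * (Gq (nrm q) u + 1) ^ 2) := by
      have := pow_le_pow_left₀ (norm_nonneg _) h3 2
      refine this.trans (le_of_eq ?_)
      ring
    rw [h2]
    refine (FamLS.sq_add_le S (R - S) δ hδ).trans ?_
    have h5 : 0 ≤ 1 + 1 / δ := by positivity
    have h6 := mul_le_mul_of_nonneg_left h4 h5
    linarith
  have hms := fq_ms q N hNq b
  calc _ ≤ ∑ χ ∈ FQs q, (1 / ((FQs q).card : ℝ)) * ((1 + δ) *
        ‖(1 / 4 : ℂ) * ∑ a ∈ BX N, wZ q b a * chiZ q χ a‖ ^ 2 +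
      (1 + 1 / δ) * (wt T t ^ 2 * (4 * (Gq (nrm q) u + 1) ^ 2))) :=
        Finset.sum_le_sum fun χ hχ => mul_le_mul_of_nonneg_left (hpt χ hχ) (by positivity)
    _ = (1 + δ) * ((1 / ((FQs q).card : ℝ)) * ∑ χ ∈ FQs q,
        ‖(1 / 4 : ℂ) * ∑ a ∈ BX N, wZ q b a * chiZ q χ a‖ ^ 2) +
      (1 + 1 / δ) * (wt T t ^ 2 * (4 * (Gq (nrm q) u + 1) ^ 2)) := by
        simp only [mul_add, Finset.sum_add_distrib, Finset.sum_const, nsmul_eq_mul,
          ← Finset.mul_sum]
        field_simp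
    _ ≤ _ := by
        refine add_le_add (mul_le_mul_of_nonneg_left ?_ (by positivity)) le_rfl
        calc (1 / ((FQs q).card : ℝ)) * ∑ χ ∈ FQs q,
            ‖(1 / 4 : ℂ) * ∑ a ∈ BX N, wZ q b a * chiZ q χ a‖ ^ 2 ≤
            (1 / ((FQs q).card : ℝ)) * ((phiQ q : ℝ) / 4 *
              ∑ n ∈ Finset.Icc 1 N, lamK2 n * ‖bn T u t n‖ ^ 2) :=
              mul_le_mul_of_nonneg_left (hms.trans (mul_le_mul_of_nonneg_left
                (Finset.sum_le_sum fun n _ => mul_le_mul_of_nonneg_left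
                  (pow_le_pow_left₀ (norm_nonneg _) (hb n) 2) (hlam n)) (by positivity)))
                (by positivity)
          _ = _ := by rw [hcard]; field_simp

theorem norm_cpow_le (w : ℝ) (n : ℕ) : ‖(n : ℂ) ^ ((w : ℂ) * I)‖ ≤ 1 := by
  rcases Nat.eq_zero_or_pos n with h | h
  · subst h
    by_cases hw : (w : ℂ) * I = 0
    · rw [hw, cpow_zero, norm_one]
    · rw [Nat.cast_zero, zero_cpow hw, norm_zero]
      exact zero_le_one
  · rw [Complex.norm_natCast_cpow_of_pos h]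
    simp

/-- mean square -/
theorem he_intW (w : ℝ) : ∃ C : ℝ, 0 < C ∧ ∀ (δ : ℝ) (q : ZI) (cd : MulChar (RQ q) ℂ → ZI)
    (pr : MulChar (RQ q) ℂ → (ZI →* ℂ)) (N : ℕ) (T κ u : ℝ), 0 < δ → q ≠ 0 → 4 < nrm q →
    (∀ χ ∈ FQs q, HC (cd χ) (pr χ) ∧ ∀ a : ZI, IsCoprime a q → pr χ a = chiZ q χ a) →
    4 * N < nrm q → 1 ≤ κ → 1 ≤ T → T ≤ Real.exp (κ ^ 2) → 0 ≤ u → Tl N u ≤ 1 →
    ∫ t : ℝ, ∑ χ ∈ FQs q, (1 / ((FQs q).card : ℝ)) *
      ‖∑' n : ℕ, aH (pr χ) n * (n : ℂ) ^ ((w : ℂ) * I) *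
        ((Real.sqrt n : ℂ)⁻¹ * bt T u t (Real.log n))‖ ^ 2 ≤
      YH cK δ C (nrm q) T κ u := by
  obtain ⟨C0, hC0, hS, hcK, hlam⟩ := selb_cK
  obtain ⟨C1, hC1, h1⟩ := btc_sum_int cK C0 hS
  obtain ⟨C2, hC2, h2⟩ := wt_sq_int
  refine ⟨C1 + C2, by positivity, ?_⟩
  intro δ q cd pr N T κ u hδ hq hq4 hpr hNq hκ hT hTκ hu hN
  have hT0 : 0 ≤ T := by linarith
  obtain ⟨a1, a2⟩ := h1 T κ u N hκ hT hTκ hu
  obtain ⟨b1, b2⟩ := h2 T hT0
  have e : (fun t : ℝ => ∑ n ∈ Finset.Icc 1 N, lamK2 n * ‖bn T u t n‖ ^ 2) =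
      fun t => ∑ n ∈ Finset.Icc 1 N, (ArithmeticFunction.vonMangoldt n) ^ 2 *
        ‖cK n * ((Real.sqrt n : ℂ)⁻¹ * bt T u t (Real.log n))‖ ^ 2 := by
    funext t
    refine Finset.sum_congr rfl (fun n _ => ?_)
    rw [hlam n, norm_mul (cK n), mul_pow]
    unfold bn
    ring
  have a1' : Integrable (fun t : ℝ => ∑ n ∈ Finset.Icc 1 N, lamK2 n * ‖bn T u t n‖ ^ 2) := by
    rw [e]; exact a1
  have hlam0 : ∀ n, 0 ≤ lamK2 n := fun n => by
    rw [hlam n]; positivity
  calc _ ≤ ∫ t : ℝ, ((1 + δ) * (∑ n ∈ Finset.Icc 1 N, lamK2 n * ‖bn T u t n‖ ^ 2) +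
      (1 + 1 / δ) * (wt T t ^ 2 * (4 * (Gq (nrm q) u + 1) ^ 2))) := by
        refine integral_mono_of_nonneg ?_ ?_ ?_
        · exact Filter.Eventually.of_forall (fun t => Finset.sum_nonneg fun χ _ => by positivity)
        · exact (a1'.const_mul _).add ((b1.mul_const _).const_mul _)
        · refine Filter.Eventually.of_forall (fun t => ?_)
          have hp := he_ptW δ hδ q hq hq4 cd pr hpr N hNq T u t hT0 hu hN
            (fun n : ℕ => (n : ℂ) ^ ((w : ℂ) * I) * bn T u t n) (fun n => by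
              rw [norm_mul]
              exact mul_le_of_le_one_left (norm_nonneg _) (norm_cpow_le w n)) hlam0
          simp only [← mul_assoc] at hp
          simp only [← mul_assoc]
          simpa only [bn, ← mul_assoc] using hp
    _ = (1 + δ) * (∫ t : ℝ, ∑ n ∈ Finset.Icc 1 N, lamK2 n * ‖bn T u t n‖ ^ 2) +
      (1 + 1 / δ) * ((∫ t : ℝ, wt T t ^ 2) * (4 * (Gq (nrm q) u + 1) ^ 2)) := by
        rw [integral_add (a1'.const_mul _) ((b1.mul_const _).const_mul _),
          integral_const_mul, integral_const_mul, integral_mul_const]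
    _ ≤ (1 + δ) * (T / (2 * Real.pi) * SW cK u + C1 * κ * (u + 1)) +
        (1 + 1 / δ) * ((T + C2) * (4 * (Gq (nrm q) u + 1) ^ 2)) := by
        refine add_le_add ?_ ?_
        · refine mul_le_mul_of_nonneg_left ?_ (by positivity)
          rw [e]
          exact a2
        · refine mul_le_mul_of_nonneg_left ?_ (by positivity)
          exact mul_le_mul_of_nonneg_right b2 (by positivity)
    _ ≤ _ := by
        unfold YH
        have e1 : C1 * κ * (u + 1) ≤ (C1 + C2) * κ * (u + 1) := by gcongr; linarith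
        have e3 : (T + C2) * (4 * (Gq (nrm q) u + 1) ^ 2) ≤
            (T + (C1 + C2)) * (4 * (Gq (nrm q) u + 1) ^ 2) := by
          gcongr; linarith
        have e4 : 0 ≤ 1 + δ := by positivity
        have e5 : 0 ≤ 1 + 1 / δ := by positivity
        refine add_le_add (mul_le_mul_of_nonneg_left (by linarith) e4)
          (mul_le_mul_of_nonneg_left e3 e5)

end H385
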