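import Pool.Agent.A856.BH.Defs
import Pool.Agent.H385R2.LocalD

/-!
Zeros of bounded height: local statements (adaptation of `Pool/Agent/H385R2/LocalD.lean`).
Written by helper334 for helper856.
-/

set_option autoImplicit false

open Complex Filter Topology Set MeasureTheory Metric
open H370 (zset mult NN Nd Ns)

namespace Pool.Agent.A856.BH

open H370.Loc H385.LocU

section aux

variable {A ℒ E H q0 : ℝ} {F : ℂ → ℂ} {a : ℕ → ℂ}

lemma F2ne (hF : GoodB A ℒ E H q0 F a) (t : ℝ) : F ⟨2, t⟩ ≠ 0 := by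
  have h3 := hF.lower t
  have hA := hF.hA
  have : 0 < A⁻¹ := by positivity
  exact norm_pos_iff.1 (this.trans_le h3)

lemma anB (hF : GoodB A ℒ E H q0 F a) (s : ℂ) : AnalyticAt ℂ F s :=
  hF.diff.analyticAt s

/-- data in the ball of radius 1.9 about `2 + it` -/
lemma ball_data_B (hF : GoodB A ℒ E H q0 F a) {t : ℝ} (ht : |t| + 2 ≤ H) :
    ∃ M : ℝ, 1 ≤ M ∧ AnalyticOnNhd ℂ F (closedBall (⟨2, t⟩ : ℂ) 1.9) ∧ F ⟨2, t⟩ ≠ 0 ∧
      (∀ z ∈ closedBall (⟨2, t⟩ : ℂ) 1.9, ‖F z‖ ≤ M) ∧ ‖F ⟨2, t⟩‖ ≤ M ∧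
      0 ≤ Real.log (M / ‖F ⟨2, t⟩‖) ∧ Real.log (M / ‖F ⟨2, t⟩‖) ≤ (2 * A) * ℒ := by
  have hA := hF.hA
  have hL := hF.hL
  have hA0 : 0 < A := by linarith
  have hball : ∀ z ∈ closedBall (⟨2, t⟩ : ℂ) 1.9, (1 / 16 : ℝ) ≤ z.re ∧ z.re ≤ 4 ∧ |z.im| ≤ H := by
    intro z hz
    rw [mem_closedBall, dist_eq_norm] at hz
    have h1 := (Complex.abs_re_le_norm (z - ⟨2, t⟩)).trans hz
    have h2 := (Complex.abs_im_le_norm (z - ⟨2, t⟩)).trans hz
    simp only [sub_re, sub_im] at h1 h2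
    have h3 : |z.im| ≤ |t| + 1.9 := by
      have h4 : |z.im| ≤ |t| + |z.im - t| := by
        have := abs_add_le t (z.im - t)
        rwa [add_sub_cancel] at this
      linarith
    rw [abs_le] at h1
    refine ⟨by norm_num at h1 ⊢; linarith [h1.1], by norm_num at h1 ⊢; linarith [h1.2],
      by norm_num at h3 ⊢; linarith⟩
  have hc0 : A⁻¹ ≤ ‖F ⟨2, t⟩‖ := hF.lower t
  have hAi : 0 < A⁻¹ := by positivity
  have hFc : 0 < ‖F ⟨2, t⟩‖ := hAi.trans_le hc0
  have hAL : 0 ≤ A * ℒ := by positivity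
  have hM1 : 1 ≤ Real.exp (A * ℒ) := Real.one_le_exp hAL
  have hb : ∀ z ∈ closedBall (⟨2, t⟩ : ℂ) 1.9, ‖F z‖ ≤ Real.exp (A * ℒ) := by
    intro z hz
    obtain ⟨h1, h2, h3⟩ := hball z hz
    exact hF.growth z h1 h2 h3
  have hMc : ‖F ⟨2, t⟩‖ ≤ Real.exp (A * ℒ) := hb _ (mem_closedBall_self (by norm_num))
  refine ⟨Real.exp (A * ℒ), hM1, fun z _ => anB hF z, norm_pos_iff.1 hFc, hb, hMc, ?_, ?_⟩
  · exact Real.log_nonneg (by rw [le_div_iff₀ hFc]; linarith)
  · rw [Real.log_div (Real.exp_ne_zero _) hFc.ne', Real.log_exp]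
    have h1 : -Real.log ‖F ⟨2, t⟩‖ ≤ Real.log A := by
      have h2 := Real.log_le_log hAi hc0
      rw [Real.log_inv] at h2
      linarith
    have h2 : Real.log A ≤ A := (Real.log_le_sub_one_of_pos hA0).trans (by linarith)
    have h3 : A ≤ A * ℒ := by nlinarith
    linarith

end aux

theorem zfin {A ℒ E H q0 : ℝ} {F : ℂ → ℂ} {a : ℕ → ℂ} (hF : GoodB A ℒ E H q0 F a) (T1 T2 : ℝ) :
    (zset F T1 T2).Finite := by
  by_contra hinf
  have hinf : (zset F T1 T2).Infinite := hinf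
  have hcomp : IsCompact (Icc (0 : ℝ) 1 ×ℂ Icc T1 T2) := isCompact_Icc.reProdIm isCompact_Icc
  have hsub : zset F T1 T2 ⊆ Icc (0 : ℝ) 1 ×ℂ Icc T1 T2 := by
    rintro s ⟨h1, h2, h3, h4, -⟩
    exact ⟨⟨h1.le, h2.le⟩, ⟨h3.le, h4⟩⟩
  obtain ⟨x, hx, hacc⟩ := hinf.exists_accPt_of_subset_isCompact hcomp hsub
  have hfreq : ∃ᶠ z in 𝓝[≠] x, F z = 0 := by
    rw [accPt_iff_frequently_nhdsNE] at hacc
    exact hacc.mono fun z hz => hz.2.2.2.2
  have hz := AnalyticOnNhd.eqOn_zero_of_preconnected_of_frequently_eq_zero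
    (f := F) (U := Set.univ) (fun s _ => anB hF s) isPreconnected_univ (mem_univ x) hfreq
  exact F2ne hF 1 (hz (mem_univ _))

theorem mult_posB {A ℒ E H q0 : ℝ} {F : ℂ → ℂ} {a : ℕ → ℂ} (hF : GoodB A ℒ E H q0 F a) {s : ℂ}
    (h0 : F s = 0) : 1 ≤ mult F s :=
  (mult_pos (f := F) (K := Set.univ) isPreconnected_univ (fun s _ => anB hF s) (c := ⟨2, 1⟩)
    (mem_univ _) (F2ne hF 1) (mem_univ s)).2 h0

/-- bound by Jensen's inequality with the constant made explicit -/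
lemma zcountB' {A ℒ E H q0 : ℝ} {F : ℂ → ℂ} {a : ℕ → ℂ} (hF : GoodB A ℒ E H q0 F a) {t : ℝ}
    (ht : |t| + 2 ≤ H) :
    (NN F (t - 1) (t + 1) : ℝ) ≤ (2 * (2 * A) / Real.log (1.9 / 1.81)) * ℒ := by
  classical
  have hlog : 0 < Real.log (1.9 / 1.81) := Real.log_pos (by norm_num)
  obtain ⟨M, hM1, han, hF0, hb, -, -, hlogM⟩ := ball_data_B hF ht
  have hfin := zfin hF (t - 1) (t + 1)
  have hNN : NN F (t - 1) (t + 1) = ∑ s ∈ hfin.toFinset, mult F s := by
    unfold H370.NN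
    exact finsum_mem_eq_finite_toFinset_sum _ hfin
  have key : ∀ S : Finset ℂ, (∀ z ∈ S, 1 / 2 ≤ z.re ∧ z.re < 1 ∧ |z.im - t| ≤ 1) →
      ∑ z ∈ S, (mult F z : ℝ) ≤ (2 * A) / Real.log (1.9 / 1.81) * ℒ := by
    intro S hS
    refine (jensen_mult (c := ⟨2, t⟩) (r := 1.81) (R := 1.9) (by norm_num) (by norm_num) hM1 han
      hF0 hb S ?_).trans ?_
    · intro z hz
      obtain ⟨h1, h2, h3⟩ := hS z hz
      rw [mem_closedBall, dist_eq_norm]
      apply abs_le_of_sq_le_sq' _ (by norm_num) |>.2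
      rw [← Complex.normSq_eq_norm_sq, Complex.normSq_apply]
      simp only [sub_re, sub_im]
      rw [abs_le] at h3
      nlinarith
    · rw [div_mul_eq_mul_div]
      exact div_le_div_of_nonneg_right hlogM hlog.le
  rw [hNN]
  push_cast
  rw [← Finset.sum_filter_add_sum_filter_not _ (fun s : ℂ => 1 / 2 ≤ s.re)]
  have h1 := key (hfin.toFinset.filter (fun s : ℂ => 1 / 2 ≤ s.re)) (by
    intro z hz
    simp only [Finset.mem_filter, Set.Finite.mem_toFinset] at hz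
    obtain ⟨⟨a1, a2, a3, a4, -⟩, h⟩ := hz
    exact ⟨h, a2, abs_le.2 ⟨by linarith, by linarith⟩⟩)
  have h2 := key ((hfin.toFinset.filter (fun s : ℂ => ¬ 1 / 2 ≤ s.re)).image
      (fun s : ℂ => 1 - (starRingEnd ℂ) s)) (by
    intro z hz
    simp only [Finset.mem_image, Finset.mem_filter, Set.Finite.mem_toFinset] at hz
    obtain ⟨s, ⟨⟨a1, a2, a3, a4, -⟩, h⟩, rfl⟩ := hz
    rw [reflect_re, reflect_im]
    push Not at h
    exact ⟨by linarith, by linarith, abs_le.2 ⟨by linarith, by linarith⟩⟩)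
  rw [Finset.sum_image (fun a _ b _ hab => reflect_inj hab)] at h2
  have h3 : ∑ s ∈ hfin.toFinset.filter (fun s : ℂ => ¬ 1 / 2 ≤ s.re),
      (mult F (1 - (starRingEnd ℂ) s) : ℝ) =
      ∑ s ∈ hfin.toFinset.filter (fun s : ℂ => ¬ 1 / 2 ≤ s.re), (mult F s : ℝ) := by
    refine Finset.sum_congr rfl fun s hs => ?_
    simp only [Finset.mem_filter, Set.Finite.mem_toFinset] at hs
    obtain ⟨⟨a1, a2, a3, a4, -⟩, h⟩ := hs
    have h5 := hF.symm s a1 a2
    unfold H370.mult analyticOrderNatAt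
    rw [h5]
  rw [h3] at h2
  calc _ ≤ (2 * A) / Real.log (1.9 / 1.81) * ℒ + (2 * A) / Real.log (1.9 / 1.81) * ℒ :=
        add_le_add h1 h2
    _ = _ := by ring

theorem zcountB (A : ℝ) (hA : 1 ≤ A) : ∃ C : ℝ, 0 < C ∧
    ∀ (ℒ E H q0 : ℝ) (F : ℂ → ℂ) (a : ℕ → ℂ), GoodB A ℒ E H q0 F a → ∀ t : ℝ, |t| + 2 ≤ H →
      (NN F (t - 1) (t + 1) : ℝ) ≤ C * ℒ := by
  have hlog : 0 < Real.log (1.9 / 1.81) := Real.log_pos (by norm_num)
  exact ⟨2 * (2 * A) / Real.log (1.9 / 1.81), by positivity,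
    fun ℒ E H q0 F a hF t ht => zcountB' hF ht⟩

/-- `NN` is subadditive under splitting of the interval -/
lemma NN_le_addB {A ℒ E H q0 : ℝ} {F : ℂ → ℂ} {a : ℕ → ℂ} (hF : GoodB A ℒ E H q0 F a)
    (T1 T2 T3 T4 : ℝ) (h23 : T3 ≤ T2) :
    NN F T1 T4 ≤ NN F T1 T2 + NN F T3 T4 := by
  classical
  have f1 := zfin hF T1 T4
  have f2 := zfin hF T1 T2
  have f3 := zfin hF T3 T4
  unfold H370.NN
  rw [finsum_mem_eq_finite_toFinset_sum _ f1, finsum_mem_eq_finite_toFinset_sum _ f2,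
    finsum_mem_eq_finite_toFinset_sum _ f3]
  refine le_trans (Finset.sum_le_sum_of_subset (t := f2.toFinset ∪ f3.toFinset) ?_) ?_
  · intro s hs
    simp only [Finset.mem_union, Set.Finite.mem_toFinset] at hs ⊢
    obtain ⟨a1, a2, a3, a4, a5⟩ := hs
    by_cases h : s.im ≤ T2
    · exact Or.inl ⟨a1, a2, a3, h, a5⟩
    · push Not at h
      exact Or.inr ⟨a1, a2, by linarith, a4, a5⟩
  · have := Finset.sum_union_inter (s₁ := f2.toFinset) (s₂ := f3.toFinset) (f := mult F)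
    omega

/-- `NN` is monotone in the interval -/
lemma NN_monoB {A ℒ E H q0 : ℝ} {F : ℂ → ℂ} {a : ℕ → ℂ} (hF : GoodB A ℒ E H q0 F a)
    {T1 T2 T3 T4 : ℝ} (h13 : T3 ≤ T1) (h24 : T2 ≤ T4) :
    NN F T1 T2 ≤ NN F T3 T4 := by
  have f1 := zfin hF T1 T2
  have f2 := zfin hF T3 T4
  unfold H370.NN
  rw [finsum_mem_eq_finite_toFinset_sum _ f1, finsum_mem_eq_finite_toFinset_sum _ f2]
  refine Finset.sum_le_sum_of_subset ?_
  intro s hs
  simp only [Set.Finite.mem_toFinset] at hs ⊢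
  obtain ⟨a1, a2, a3, a4, a5⟩ := hs
  exact ⟨a1, a2, by linarith, by linarith, a5⟩

theorem zcount_longB (A : ℝ) (hA : 1 ≤ A) : ∃ C : ℝ, 0 < C ∧
    ∀ (ℒ E H q0 : ℝ) (F : ℂ → ℂ) (a : ℕ → ℂ), GoodB A ℒ E H q0 F a → ∀ T1 T2 : ℝ, T1 + 1 ≤ T2 →
      |T1| + 3 ≤ H → |T2| + 3 ≤ H → (NN F T1 T2 : ℝ) ≤ C * (T2 - T1) * ℒ := by
  obtain ⟨C, hC, hc⟩ := zcountB A hA
  refine ⟨2 * C, by positivity, fun ℒ E H q0 F a hF T1 T2 h2 hH1 hH2 => ?_⟩
  have hL := hF.hL
  have hone : ∀ t : ℝ, T1 ≤ t → t ≤ T2 → (NN F t (t + 1) : ℝ) ≤ C * ℒ := by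
    intro t ht htT
    have e1 : (NN F t (t + 1) : ℝ) ≤ NN F (t - 1) (t + 1) := by
      exact_mod_cast NN_monoB hF (by linarith) le_rfl
    refine e1.trans (hc ℒ E H q0 F a hF t ?_)
    have e2 : |t| ≤ max |T1| |T2| := by
      rw [abs_le]
      have f1 := neg_abs_le T1
      have f2 := le_abs_self T2
      have f3 := le_max_left |T1| |T2|
      have f4 := le_max_right |T1| |T2|
      constructor <;> linarith
    have e3 : max |T1| |T2| ≤ H - 3 := max_le (by linarith) (by linarith)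
    linarith
  have hind : ∀ n : ℕ, T1 + n ≤ T2 + 1 → (NN F T1 (T1 + n) : ℝ) ≤ n * (C * ℒ) := by
    intro n
    induction n with
    | zero =>
      intro _
      have : zset F T1 (T1 + (0 : ℕ)) = ∅ := by
        ext s
        simp only [H370.zset, mem_setOf_eq, mem_empty_iff_false, iff_false, Nat.cast_zero, add_zero]
        rintro ⟨-, -, h3, h4, -⟩
        linarith
      unfold H370.NN
      rw [this]
      simp
    | succ n ih =>
      intro hn
      push_cast at hn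
      have hn0 : (0 : ℝ) ≤ n := by positivity
      have i1 := ih (by linarith)
      have i2 := hone (T1 + n) (by linarith) (by linarith)
      have i3 := NN_le_addB hF T1 (T1 + n) (T1 + n) (T1 + n + 1) le_rfl
      have i4 : (NN F T1 (T1 + n + 1) : ℝ) ≤ (NN F T1 (T1 + n) : ℝ) + NN F (T1 + n) (T1 + n + 1) := by
        exact_mod_cast i3
      have e : T1 + ((n + 1 : ℕ) : ℝ) = T1 + n + 1 := by push_cast; ring
      rw [e]
      push_cast
      linarith
  set n : ℕ := ⌈T2 - T1⌉₊ with hn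
  have hn1 : T2 - T1 ≤ n := Nat.le_ceil _
  have hn2 : (n : ℝ) < T2 - T1 + 1 := Nat.ceil_lt_add_one (by linarith)
  have h3 := hind n (by linarith)
  have h4 : (NN F T1 T2 : ℝ) ≤ NN F T1 (T1 + n) := by
    exact_mod_cast NN_monoB hF le_rfl (by linarith)
  have h5 : 0 ≤ C * ℒ := by positivity
  calc (NN F T1 T2 : ℝ) ≤ n * (C * ℒ) := h4.trans h3
    _ ≤ (2 * (T2 - T1)) * (C * ℒ) := mul_le_mul_of_nonneg_right (by linarith) h5
    _ = _ := by ring

/-- the number of distinct zeros is at most the number of zeros with multiplicity -/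
lemma card_le_NN_B {A ℒ E H q0 : ℝ} {F : ℂ → ℂ} {a : ℕ → ℂ} (hF : GoodB A ℒ E H q0 F a)
    (T1 T2 : ℝ) : (zfin hF T1 T2).toFinset.card ≤ NN F T1 T2 := by
  have hfin := zfin hF T1 T2
  have hNN : NN F T1 T2 = ∑ s ∈ hfin.toFinset, mult F s := by
    unfold H370.NN
    exact finsum_mem_eq_finite_toFinset_sum _ hfin
  rw [hNN, Finset.card_eq_sum_ones]
  refine Finset.sum_le_sum fun s hs => ?_
  rw [Set.Finite.mem_toFinset] at hs
  exact mult_posB hF hs.2.2.2.2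

theorem good_heightB (A : ℝ) (hA : 1 ≤ A) : ∃ C : ℝ, 0 < C ∧
    ∀ (ℒ E H q0 : ℝ) (F : ℂ → ℂ) (a : ℕ → ℂ), GoodB A ℒ E H q0 F a → ∀ T : ℝ, |T| + 5 ≤ H →
      ∃ U ∈ Set.Icc T (T + 1), ∀ σ ∈ Set.Icc (-1 / 4 : ℝ) (3 / 2),
        F (⟨σ, U⟩ : ℂ) ≠ 0 ∧ ‖deriv F (⟨σ, U⟩ : ℂ) / F (⟨σ, U⟩ : ℂ)‖ ≤ C * ℒ ^ 2 := by
  classical
  obtain ⟨C0, hC0, hcount⟩ := zcountB A hA
  set K : ℝ := 2 * A with hKdef
  have hK : 0 < K := by positivity
  set q : ℝ := Real.log (1.9 / 1.8) with hq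
  have hq0 : 0 < q := Real.log_pos (by norm_num)
  set ℓ : ℝ := Real.log (1.8 / (1.9 - 1.8)) with hℓ
  have hℓ0 : 0 < ℓ := Real.log_pos (by norm_num)
  -- the bound on the right
  set D : ℝ := K / q * (2 * (2 * C0 + 1)) +
    2 * (K + K / q * ℓ + 1) * 1.7 / (1.8 - 1.7) / (1.7 - 1.5) with hD
  have hD0 : 0 < D := by
    have : (0 : ℝ) < 1.8 - 1.7 := by norm_num
    have : (0 : ℝ) < 1.7 - 1.5 := by norm_num
    positivity
  refine ⟨D + A + 2, by positivity, fun ℒ E H q1 F a hF T hT => ?_⟩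
  have hL := hF.hL
  have hleft := hF.left
  have hlL2 : ℒ ≤ ℒ ^ 2 := by nlinarith
  -- zeros in the window
  have hfin := zfin hF (T - 1) (T + 2)
  set Γ : Finset ℝ := hfin.toFinset.image (fun s : ℂ => s.im) with hΓ
  obtain ⟨U, hU, hUΓ⟩ := pigeon Γ T
  have hU1 : T ≤ U := hU.1
  have hU2 : U ≤ T + 1 := hU.2
  have hUabs : |U| ≤ |T| + 1 := by
    have f1 := neg_abs_le T
    have f2 := le_abs_self T
    rw [abs_le]
    constructor <;> linarith
  -- cardinality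
  have hcard : (Γ.card : ℝ) ≤ 2 * C0 * ℒ := by
    have h1 : Γ.card ≤ hfin.toFinset.card := Finset.card_image_le
    have h2 : hfin.toFinset.card ≤ NN F (T - 1) (T + 1) + NN F ((T + 1) - 1) ((T + 1) + 1) := by
      refine le_trans ?_ (add_le_add (card_le_NN_B hF (T - 1) (T + 1))
        (card_le_NN_B hF ((T + 1) - 1) ((T + 1) + 1)))
      refine le_trans (Finset.card_le_card ?_) (Finset.card_union_le _ _)
      intro s hs
      simp only [Finset.mem_union, Set.Finite.mem_toFinset] at hs ⊢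
      obtain ⟨a1, a2, a3, a4, a5⟩ := hs
      by_cases h : s.im ≤ T + 1
      · exact Or.inl ⟨a1, a2, a3, h, a5⟩
      · push Not at h
        exact Or.inr ⟨a1, a2, by linarith, by linarith, a5⟩
    have h3 := hcount ℒ E H q1 F a hF T (by linarith)
    have h4 := hcount ℒ E H q1 F a hF (T + 1) (by
      have := abs_add_le T 1
      rw [abs_one] at this
      linarith)
    have h6 : (Γ.card : ℝ) ≤ (NN F (T - 1) (T + 1) : ℝ) + NN F ((T + 1) - 1) ((T + 1) + 1) := by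
      exact_mod_cast h1.trans h2
    linarith
  -- right half
  have hright : ∀ σ ∈ Set.Icc (1 / 2 : ℝ) (3 / 2), F (⟨σ, U⟩ : ℂ) ≠ 0 ∧
      ‖deriv F (⟨σ, U⟩ : ℂ) / F (⟨σ, U⟩ : ℂ)‖ ≤ D * ℒ ^ 2 := by
    intro σ hσ
    obtain ⟨M, hM1, han, hF0, hb, hMc, hL0, hLM⟩ := ball_data_B hF (t := U) (by linarith)
    set L := Real.log (M / ‖F ⟨2, U⟩‖) with hL'
    have hδ : (0 : ℝ) < 1 / (2 * ((Γ.card : ℝ) + 1)) := by positivity
    have hland := landau (f := F) (c := ⟨2, U⟩) (r := 1.8) (r1 := 1.7) (r2 := 1.5) (R := 1.9)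
      (M := M) (by norm_num) (by norm_num) (by norm_num) (by norm_num) (by norm_num) hM1 hMc han
      hF0 hb ⟨σ, U⟩ (by
        rw [mem_closedBall, dist_eq_norm]
        apply abs_le_of_sq_le_sq' _ (by norm_num) |>.2
        rw [← Complex.normSq_eq_norm_sq, Complex.normSq_apply]
        simp only [sub_re, sub_im]
        have := hσ.1
        have := hσ.2
        nlinarith) (1 / (2 * ((Γ.card : ℝ) + 1))) hδ (by
        intro ρ hρ hFρ
        have h1 : |U - ρ.im| ≤ ‖(⟨σ, U⟩ : ℂ) - ρ‖ := by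
          have := Complex.abs_im_le_norm ((⟨σ, U⟩ : ℂ) - ρ)
          simpa using this
        refine le_trans ?_ h1
        rw [mem_closedBall, dist_eq_norm] at hρ
        have h2 := (Complex.abs_re_le_norm (ρ - ⟨2, U⟩)).trans hρ
        simp only [sub_re] at h2
        rw [abs_le] at h2
        have hre0 : 0 < ρ.re := by norm_num at h2 ⊢; linarith [h2.1]
        have hre1 : ρ.re < 1 := by
          by_contra hcon
          push Not at hcon
          exact hF.nzr ρ hcon hFρ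
        by_cases hw : T - 1 < ρ.im ∧ ρ.im ≤ T + 2
        · refine hUΓ ρ.im ?_
          rw [hΓ, Finset.mem_image]
          exact ⟨ρ, by rw [Set.Finite.mem_toFinset]; exact ⟨hre0, hre1, hw.1, hw.2, hFρ⟩, rfl⟩
        · have h5 : 1 ≤ |U - ρ.im| := by
            rw [not_and_or] at hw
            push Not at hw
            rcases hw with hw | hw
            · rw [le_abs]; left; linarith
            · rw [le_abs]; right; linarith
          refine le_trans ?_ h5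
          rw [div_le_one (by positivity)]
          have : (0 : ℝ) ≤ Γ.card := by positivity
          linarith)
    refine ⟨hland.1, hland.2.trans ?_⟩
    rw [← hL', ← hq, ← hℓ]
    have hL2 : L ≤ K * ℒ := hLM
    have e1 : L / q / (1 / (2 * ((Γ.card : ℝ) + 1))) = L / q * (2 * ((Γ.card : ℝ) + 1)) := by
      rw [div_div_eq_mul_div, div_one]
    rw [e1]
    have e2 : 2 * ((Γ.card : ℝ) + 1) ≤ 2 * (2 * C0 + 1) * ℒ := by nlinarith
    have e3 : L / q ≤ K / q * ℒ := by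
      rw [div_mul_eq_mul_div]
      exact div_le_div_of_nonneg_right hL2 hq0.le
    have e4 : L / q * (2 * ((Γ.card : ℝ) + 1)) ≤
        (K / q * ℒ) * (2 * (2 * C0 + 1) * ℒ) :=
      mul_le_mul e3 e2 (by positivity) (by positivity)
    have e5 : L + L / q * ℓ + 1 ≤ (K + K / q * ℓ + 1) * ℒ ^ 2 := by
      have f2 : L / q * ℓ ≤ K / q * ℒ * ℓ := mul_le_mul_of_nonneg_right e3 hℓ0.le
      have f3 : (0 : ℝ) ≤ K / q * ℓ := by positivity
      have f4 : K * ℒ ≤ K * ℒ ^ 2 :=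
        mul_le_mul_of_nonneg_left hlL2 (by positivity)
      have f5 : K / q * ℓ * ℒ ≤ K / q * ℓ * ℒ ^ 2 :=
        mul_le_mul_of_nonneg_left hlL2 f3
      nlinarith
    have e6 : 2 * (L + L / q * ℓ + 1) * 1.7 / (1.8 - 1.7) / (1.7 - 1.5) ≤
        2 * ((K + K / q * ℓ + 1) * ℒ ^ 2) * 1.7 / (1.8 - 1.7) /
          (1.7 - 1.5) := by
      have g1 : (0 : ℝ) < 1.8 - 1.7 := by norm_num
      have g2 : (0 : ℝ) < 1.7 - 1.5 := by norm_num
      gcongr
    calc _ ≤ (K / q * ℒ) * (2 * (2 * C0 + 1) * ℒ) +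
        2 * ((K + K / q * ℓ + 1) * ℒ ^ 2) * 1.7 / (1.8 - 1.7) /
          (1.7 - 1.5) := add_le_add e4 e6
      _ = D * ℒ ^ 2 := by rw [hD]; ring
  refine ⟨U, hU, fun σ hσ => ?_⟩
  have hbig : D * ℒ ^ 2 ≤ (D + A + 2) * ℒ ^ 2 := by
    have h2 : 0 ≤ ℒ ^ 2 := by positivity
    exact mul_le_mul_of_nonneg_right (by linarith) h2
  by_cases hs : 1 / 2 ≤ σ
  · have := hright σ ⟨hs, hσ.2⟩
    exact ⟨this.1, this.2.trans hbig⟩
  · push Not at hs
    have hrf : (1 : ℂ) - (starRingEnd ℂ) (⟨σ, U⟩ : ℂ) = ⟨1 - σ, U⟩ := by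
      apply Complex.ext <;> simp
    obtain ⟨g1, g2⟩ := hright (1 - σ) ⟨by linarith, by linarith [hσ.1]⟩
    have hne : F (⟨σ, U⟩ : ℂ) ≠ 0 := by
      by_cases h0 : σ ≤ 0
      · exact hF.nzl ⟨σ, U⟩ hσ.1 h0
      · push Not at h0
        have hsym := hF.symm ⟨σ, U⟩ h0 (by simp only; linarith)
        rw [hrf] at hsym
        rw [(anB hF (⟨1 - σ, U⟩ : ℂ)).analyticOrderAt_eq_zero.2 g1] at hsym
        exact (anB hF (⟨σ, U⟩ : ℂ)).analyticOrderAt_eq_zero.1 hsym.symm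
    refine ⟨hne, ?_⟩
    have h3 := hleft ⟨σ, U⟩ hσ.1 hs.le (by simp only; linarith) hne
    rw [hrf] at h3
    set a := deriv F (⟨σ, U⟩ : ℂ) / F (⟨σ, U⟩ : ℂ) with ha
    set b := deriv F (⟨1 - σ, U⟩ : ℂ) / F (⟨1 - σ, U⟩ : ℂ) with hb
    have hq1 := hF.hq0
    have hq2 := hF.hq1
    have h4 : ‖a‖ ≤ A * E + q1 + ‖b‖ := by
      have h5 : a = (a + ((q1 : ℝ) : ℂ) + (starRingEnd ℂ) b) -
          ((q1 : ℝ) : ℂ) - (starRingEnd ℂ) b := by ring
      rw [h5]
      refine (norm_sub_le _ _).trans ?_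
      rw [RCLike.norm_conj]
      refine add_le_add ((norm_sub_le _ _).trans (add_le_add h3 ?_)) le_rfl
      rw [Complex.norm_real, Real.norm_eq_abs, abs_of_nonneg hq1]
    refine h4.trans ?_
    have h6 : A * E ≤ A * ℒ ^ 2 := mul_le_mul_of_nonneg_left (hF.hEL.trans hlL2) (by linarith)
    have h9 : ‖b‖ ≤ D * ℒ ^ 2 := g2
    nlinarith

/-- zeros in a set of ordinates of diameter less than one -/
lemma small_set {C0 A ℒ E H q0 : ℝ} {F : ℂ → ℂ} {a : ℕ → ℂ} (hF : GoodB A ℒ E H q0 F a)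
    (hC0 : 0 < C0) (hcount : ∀ t : ℝ, |t| + 2 ≤ H → (NN F (t - 1) (t + 1) : ℝ) ≤ C0 * ℒ)
    {V1 V2 : ℝ} (hV1 : |V1| + 4 ≤ H) (hV2 : |V2| + 4 ≤ H) (S : Finset ℂ)
    (hS : ∀ s ∈ S, s ∈ zset F V1 V2) (hd : ∀ s ∈ S, ∀ s' ∈ S, |s.im - s'.im| < 1) :
    ∑ s ∈ S, (mult F s : ℝ) ≤ C0 * ℒ := by
  have hL := hF.hL
  rcases S.eq_empty_or_nonempty with rfl | ⟨s0, hs0⟩
  · rw [Finset.sum_empty]; positivity
  have h0 := hS s0 hs0
  have e2 : |s0.im| ≤ max |V1| |V2| := by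
    rw [abs_le]
    have f1 := neg_abs_le V1
    have f2 := le_abs_self V2
    have f3 := le_max_left |V1| |V2|
    have f4 := le_max_right |V1| |V2|
    have f5 := h0.2.2.1
    have f6 := h0.2.2.2.1
    constructor <;> linarith
  have e3 : max |V1| |V2| ≤ H - 4 := max_le (by linarith) (by linarith)
  refine le_trans ?_ (hcount s0.im (by linarith))
  have hfin := zfin hF (s0.im - 1) (s0.im + 1)
  have hNN : NN F (s0.im - 1) (s0.im + 1) = ∑ s ∈ hfin.toFinset, mult F s := by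
    unfold H370.NN
    exact finsum_mem_eq_finite_toFinset_sum _ hfin
  rw [hNN]
  push_cast
  refine Finset.sum_le_sum_of_subset_of_nonneg ?_ fun _ _ _ => by positivity
  intro s hs
  rw [Set.Finite.mem_toFinset]
  obtain ⟨a1, a2, a3, a4, a5⟩ := hS s hs
  have h1 := hd s hs s0 hs0
  rw [abs_lt] at h1
  exact ⟨a1, a2, by linarith [h1.1], by linarith [h1.2], a5⟩

theorem shell (A : ℝ) (hA : 1 ≤ A) : ∃ C : ℝ, 0 < C ∧
    ∀ (ℒ E H q0 : ℝ) (F : ℂ → ℂ) (a : ℕ → ℂ), GoodB A ℒ E H q0 F a →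
      ∀ T κe V1 V2 : ℝ, 1 ≤ T → 0 ≤ κe → |V1| + 4 ≤ H → |V2| + 4 ≤ H → V1 ≤ T → 2 * T ≤ V2 →
      ∀ hfin : (zset F V1 V2).Finite,
        ∑ s ∈ hfin.toFinset, (if κe ≤ dd T s then (mult F s : ℝ) * Real.exp (-dd T s) else 0) ≤
          C * ℒ * Real.exp (-κe) := by
  classical
  obtain ⟨C0, hC0, hcount⟩ := zcountB A hA
  set r : ℝ := Real.exp (-1) with hr
  have hr0 : 0 ≤ r := (Real.exp_pos _).le
  have hr1 : r < 1 := by
    have h := Real.exp_lt_exp.2 (show (-1 : ℝ) < 0 by norm_num)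
    rwa [Real.exp_zero] at h
  have hG : 0 < (1 - r)⁻¹ := inv_pos.2 (by linarith)
  refine ⟨2 * C0 * (1 - r)⁻¹, by positivity,
    fun ℒ E H q0 F a hF T κe V1 V2 hT hκ hV1 hV2 hVT hTV hfin => ?_⟩
  have hL := hF.hL
  rw [← Finset.sum_filter]
  set Z := hfin.toFinset.filter (fun s => κe ≤ dd T s) with hZ
  set kk : ℂ → ℕ := fun s => ⌊dd T s - κe⌋₊ with hkk
  have hmem : ∀ s ∈ Z, s ∈ zset F V1 V2 ∧ κe ≤ dd T s := by
    intro s hs
    rw [hZ, Finset.mem_filter, Set.Finite.mem_toFinset] at hs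
    exact hs
  -- one shell
  have hshell : ∀ k : ℕ, ∑ s ∈ Z.filter (fun s => kk s = k), (mult F s : ℝ) ≤ 2 * (C0 * ℒ) := by
    intro k
    set S := Z.filter (fun s => kk s = k) with hS
    have hSm : ∀ s ∈ S, s ∈ zset F V1 V2 ∧ κe + k ≤ dd T s ∧ dd T s < κe + k + 1 := by
      intro s hs
      rw [hS, Finset.mem_filter] at hs
      obtain ⟨h1, h2⟩ := hs
      obtain ⟨h3, h4⟩ := hmem s h1
      have h5 : 0 ≤ dd T s - κe := by linarith
      have h6 := Nat.floor_le h5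
      have h7 := Nat.lt_floor_add_one (dd T s - κe)
      have h8 : ⌊dd T s - κe⌋₊ = k := h2
      rw [h8] at h6 h7
      exact ⟨h3, by linarith, by linarith⟩
    rw [← Finset.sum_filter_add_sum_filter_not S (fun s => s.im ≤ T)]
    have hk0 : (0 : ℝ) ≤ k := by positivity
    have hlow : ∀ s ∈ S.filter (fun s => s.im ≤ T),
        T - κe - k - 1 < s.im ∧ s.im ≤ T - κe - k := by
      intro s hs
      rw [Finset.mem_filter] at hs
      obtain ⟨h1, h2⟩ := hs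
      obtain ⟨-, h3, h4⟩ := hSm s h1
      have h5 : dd T s = T - s.im := by
        unfold dd
        exact max_eq_left (by linarith)
      rw [h5] at h3 h4
      constructor <;> linarith
    have hhigh : ∀ s ∈ S.filter (fun s => ¬ s.im ≤ T),
        2 * T + κe + k ≤ s.im ∧ s.im < 2 * T + κe + k + 1 := by
      intro s hs
      rw [Finset.mem_filter] at hs
      obtain ⟨h1, h2⟩ := hs
      push Not at h2
      obtain ⟨-, h3, h4⟩ := hSm s h1
      have h5 : dd T s = s.im - 2 * T := by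
        unfold dd
        refine max_eq_right ?_
        by_contra hcon
        push Not at hcon
        have h6 : dd T s = T - s.im := by
          unfold dd
          exact max_eq_left hcon.le
        rw [h6] at h3
        linarith
      rw [h5] at h3 h4
      constructor <;> linarith
    have b1 := small_set hF hC0 (hcount ℒ E H q0 F a hF) hV1 hV2
      (S.filter (fun s => s.im ≤ T)) (fun s hs => (hSm s (Finset.mem_filter.1 hs).1).1)
      (fun s hs s' hs' => by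
        have h1 := hlow s hs
        have h2 := hlow s' hs'
        rw [abs_lt]
        constructor <;> linarith [h1.1, h1.2, h2.1, h2.2])
    have b2 := small_set hF hC0 (hcount ℒ E H q0 F a hF) hV1 hV2
      (S.filter (fun s => ¬ s.im ≤ T)) (fun s hs => (hSm s (Finset.mem_filter.1 hs).1).1)
      (fun s hs s' hs' => by
        have h1 := hhigh s hs
        have h2 := hhigh s' hs'
        rw [abs_lt]
        constructor <;> linarith [h1.1, h1.2, h2.1, h2.2])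
    linarith
  -- the sum over all shells
  have hterm : ∀ s ∈ Z, (mult F s : ℝ) * Real.exp (-dd T s) ≤
      (mult F s : ℝ) * (Real.exp (-κe) * r ^ (kk s)) := by
    intro s hs
    obtain ⟨h3, h4⟩ := hmem s hs
    have h5 : 0 ≤ dd T s - κe := by linarith
    have h6 := Nat.floor_le h5
    refine mul_le_mul_of_nonneg_left ?_ (by positivity)
    rw [hr, ← Real.exp_nat_mul, ← Real.exp_add]
    refine Real.exp_le_exp.2 ?_
    have h7 : ((kk s : ℕ) : ℝ) ≤ dd T s - κe := h6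
    linarith
  calc ∑ s ∈ Z, (mult F s : ℝ) * Real.exp (-dd T s)
      ≤ ∑ s ∈ Z, (mult F s : ℝ) * (Real.exp (-κe) * r ^ (kk s)) := Finset.sum_le_sum hterm
    _ = ∑ k ∈ Z.image kk, ∑ s ∈ Z.filter (fun s => kk s = k),
          (mult F s : ℝ) * (Real.exp (-κe) * r ^ (kk s)) :=
        (Finset.sum_fiberwise_of_maps_to (fun s hs => Finset.mem_image_of_mem kk hs) _).symm
    _ ≤ ∑ k ∈ Z.image kk, (2 * (C0 * ℒ)) * (Real.exp (-κe) * r ^ k) := by
        refine Finset.sum_le_sum fun k _ => ?_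
        have h1 : ∑ s ∈ Z.filter (fun s => kk s = k), (mult F s : ℝ) * (Real.exp (-κe) * r ^ (kk s)) =
            (∑ s ∈ Z.filter (fun s => kk s = k), (mult F s : ℝ)) * (Real.exp (-κe) * r ^ k) := by
          rw [Finset.sum_mul]
          refine Finset.sum_congr rfl fun s hs => ?_
          rw [(Finset.mem_filter.1 hs).2]
        rw [h1]
        exact mul_le_mul_of_nonneg_right (hshell k) (by positivity)
    _ = (2 * (C0 * ℒ)) * Real.exp (-κe) * ∑ k ∈ Z.image kk, r ^ k := by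
        rw [Finset.mul_sum]
        refine Finset.sum_congr rfl fun k _ => ?_
        ring
    _ ≤ (2 * (C0 * ℒ)) * Real.exp (-κe) * (1 - r)⁻¹ := by
        refine mul_le_mul_of_nonneg_left ?_ (by positivity)
        rw [← tsum_geometric_of_lt_one hr0 hr1]
        exact (summable_geometric_of_lt_one hr0 hr1).sum_le_tsum _ fun k _ => by positivity
    _ = 2 * C0 * (1 - r)⁻¹ * ℒ * Real.exp (-κe) := by ring

end Pool.Agent.A856.BH
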