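import Pool.Agent.A856.SE.Fam2

/-!
# The density theorem for the Hecke characters modulo `q`, with explicit dependence on the height

Owner helper856 (zeros of bounded height).
-/

set_option autoImplicit false

open NumberField Complex

namespace Pool.Agent.A856.BH

open Pool.Agent.A856.SD (Zst Zst_bdd fin_zeros)
open Pool.Agent.H304R3.HK (tc HC psi LH tc_star_mul one_le_norm_tc goodH)
open H385 (ZI RQ chiZ FQs phiQ nrm)
open Pool.Agent.A856.SE (nz nz_zero nz_mono dens_exact div_sum pr_inj tc_nrm hc_finite)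

section
variable (cd : (q : ZI) → MulChar (RQ q) ℂ → ZI)
    (pr : (q : ZI) → MulChar (RQ q) ℂ → (ZI →* ℂ))
    (hprim : ∀ q : ZI, q ≠ 0 → ∀ χ ∈ FQs q, cd q χ ∣ q ∧ HC (cd q χ) (pr q χ) ∧
      ∀ a : ZI, IsCoprime a q → pr q χ a = chiZ q χ a)

include hprim

theorem lrg_dens (hsum : ∀ q : ZI, q ≠ 0 →
      (∑ d ∈ H385.H10.Dv q, nrm d) * phiQ q ≤ 4 * nrm q ^ 2)
    {c κ : ℝ} (hc0 : 0 < c) (hc1 : c < 1) (hκ : 0 < κ) :
    ∃ (C X₀ : ℝ) (B : ℕ), 0 < C ∧ ∀ q : ZI, 8 ≤ nrm q → κ * (nrm q : ℝ) ≤ phiQ q → ∀ δ t : ℝ, 0 ≤ δ →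
      ∑ χ ∈ (open Classical in (FQs q).filter (fun χ => X₀ ≤ (nrm (cd q χ) : ℝ))),
        nz (pr q χ) δ t (1 / Real.log (nrm q)) ≤
        C * (1 + |t|) ^ B * (nrm q : ℝ) ^ (1 - c * δ) := by
  classical
  obtain ⟨c', hc'⟩ : ∃ c' : ℝ, c' = (1 + c) / 2 := ⟨_, rfl⟩
  have hcc : c < c' := by rw [hc']; linarith
  have hc'1 : c' < 1 := by rw [hc']; linarith
  have hc'0 : 0 < c' := by linarith
  obtain ⟨C0, L₀, B, hC0, hL₀, hex⟩ := dens_exact hc'0 hc'1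
  obtain ⟨Cd, hCd, hdv⟩ := div_sum hc0 hcc hc'1 hsum hκ
  refine ⟨C0 * Cd, Real.exp L₀, B, by positivity, ?_⟩
  intro q hq8 hφ δ t hδ
  have hq : q ≠ 0 := by
    rintro rfl
    simp [nrm] at hq8
  obtain ⟨N, hN⟩ : ∃ N : ℝ, N = (nrm q : ℝ) := ⟨_, rfl⟩
  have hN8 : (8 : ℝ) ≤ N := by rw [hN]; exact_mod_cast hq8
  have hN0 : 0 < N := by linarith
  obtain ⟨L, hL⟩ : ∃ L : ℝ, L = Real.log N := ⟨_, rfl⟩
  have hL1 : 1 ≤ L := by
    rw [hL, Real.le_log_iff_exp_le hN0]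
    have := Real.exp_one_lt_d9
    linarith
  have hL0 : 0 < L := by linarith
  have hpos : 0 ≤ C0 * Cd * (1 + |t|) ^ B * N ^ (1 - c * δ) := by positivity
  have hP := hprim q hq
  rw [← hN, ← hL]
  rw [← hN] at hφ
  rcases lt_or_ge (1 / 2) δ with hδ2 | hδ2
  · refine le_trans (le_of_eq ?_) hpos
    exact Finset.sum_eq_zero fun χ _ => nz_zero hδ2
  have hcd0 : ∀ χ ∈ FQs q, cd q χ ≠ 0 := fun χ hχ => (hP χ hχ).2.1.q0
  have hcdm : ∀ χ ∈ FQs q, cd q χ ∈ H385.H10.Dv q := fun χ hχ =>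
    (H385.H10.mem_Dv hq _).2 (hP χ hχ).1
  rw [← Finset.sum_fiberwise_of_maps_to (g := fun χ => cd q χ) (t := H385.H10.Dv q)
    (fun χ hχ => hcdm χ (Finset.mem_filter.mp hχ).1)]
  have h1 : ∀ d ∈ H385.H10.Dv q, ∑ χ ∈ ((FQs q).filter
      (fun χ => Real.exp L₀ ≤ (nrm (cd q χ) : ℝ))).filter (fun χ => cd q χ = d),
      nz (pr q χ) δ t (1 / L) ≤ C0 * (1 + |t|) ^ B * (nrm d : ℝ) ^ (1 - c' * δ) := by
    intro d hd
    obtain ⟨S, hS⟩ : ∃ S : Finset (MulChar (RQ q) ℂ), S = ((FQs q).filter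
      (fun χ => Real.exp L₀ ≤ (nrm (cd q χ) : ℝ))).filter (fun χ => cd q χ = d) := ⟨_, rfl⟩
    rw [← hS]
    rcases S.eq_empty_or_nonempty with hE | ⟨χ₀, hχ₀⟩
    · rw [hE, Finset.sum_empty]
      positivity
    have hSm : ∀ χ ∈ S, χ ∈ FQs q ∧ Real.exp L₀ ≤ (nrm d : ℝ) ∧ cd q χ = d := by
      intro χ hχ
      rw [hS, Finset.mem_filter, Finset.mem_filter] at hχ
      obtain ⟨⟨h2, h3⟩, h4⟩ := hχ
      rw [h4] at h3
      exact ⟨h2, h3, h4⟩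
    obtain ⟨-, hdX, -⟩ := hSm χ₀ hχ₀
    have hd0 : (0 : ℝ) < nrm d := lt_of_lt_of_le (Real.exp_pos _) hdX
    obtain ⟨Ld, hLd⟩ : ∃ Ld : ℝ, Ld = Real.log (nrm d) := ⟨_, rfl⟩
    have hLde : Real.exp Ld = ‖tc d‖ ^ 2 := by rw [hLd, Real.exp_log hd0, tc_nrm]
    have hLdL : L₀ ≤ Ld := by rw [hLd, Real.le_log_iff_exp_le hd0]; exact hdX
    have hLdq : Ld ≤ L := by
      rw [hLd, hL]
      apply Real.log_le_log hd0
      rw [hN]
      rw [H385.H10.mem_Dv hq] at hd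
      exact_mod_cast H385.he3_nrm hd hq
    have hLd0 : 0 < Ld := by linarith
    have hinj : Set.InjOn (pr q) (S : Set (MulChar (RQ q) ℂ)) :=
      (pr_inj cd pr hprim hq).mono fun χ hχ => (hSm χ hχ).1
    have hY : ∀ χ ∈ S.image (pr q), HC d χ := by
      intro χ' hχ'
      obtain ⟨χ, hχ, rfl⟩ := Finset.mem_image.mp hχ'
      obtain ⟨h2, -, h4⟩ := hSm χ hχ
      have := (hP χ h2).2.1
      rwa [h4] at this
    obtain ⟨-, h2⟩ := hex d Ld hLde hLdL (S.image (pr q)) hY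
    have h3 := h2 δ t hδ
    rw [Finset.sum_image hinj] at h3
    have h4 : ∀ χ ∈ S, nz (pr q χ) δ t (1 / L) ≤ nz (pr q χ) δ t (1 / Ld) := by
      intro χ hχ
      refine nz_mono (hY _ (Finset.mem_image_of_mem _ hχ)) ?_
      rintro ρ ⟨a1, a2, a3, a4, a5⟩
      refine ⟨a1, a2, a3, a4, a5.trans ?_⟩
      exact one_div_le_one_div_of_le hLd0 hLdq
    refine (Finset.sum_le_sum h4).trans (h3.trans ?_)
    have h5 : Real.exp (Ld - c' * Ld * δ) = (nrm d : ℝ) ^ (1 - c' * δ) := by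
      rw [Real.rpow_def_of_pos hd0, ← hLd]
      congr 1
      ring
    rw [h5]
  refine (Finset.sum_le_sum h1).trans ?_
  rw [← Finset.mul_sum]
  have h2 := hdv q hq (by rw [← hN]; exact hφ) δ hδ hδ2
  rw [← hN] at h2
  calc C0 * (1 + |t|) ^ B * ∑ d ∈ H385.H10.Dv q, (nrm d : ℝ) ^ (1 - c' * δ)
      ≤ C0 * (1 + |t|) ^ B * (Cd * N ^ (1 - c * δ)) := by gcongr
    _ = _ := by ring

end

/-- the number of the characters of small conductor is bounded -/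
theorem small_card (X₀ : ℝ) : ∃ K : ℝ, 0 < K ∧ ∀ (cd : (q : ZI) → MulChar (RQ q) ℂ → ZI)
    (pr : (q : ZI) → MulChar (RQ q) ℂ → (ZI →* ℂ))
    (_ : ∀ q : ZI, q ≠ 0 → ∀ χ ∈ FQs q, cd q χ ∣ q ∧ HC (cd q χ) (pr q χ) ∧
      ∀ a : ZI, IsCoprime a q → pr q χ a = chiZ q χ a), ∀ q : ZI, q ≠ 0 →
      (((open Classical in (FQs q).filter (fun χ => ¬ X₀ ≤ (nrm (cd q χ) : ℝ))).card : ℕ) : ℝ) ≤ K := by
  classical
  have hfin : {χ : ZI →* ℂ | ∃ d : ZI, HC d χ ∧ (nrm d : ℝ) < X₀}.Finite := by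
    have h1 : {χ : ZI →* ℂ | ∃ d : ZI, HC d χ ∧ (nrm d : ℝ) < X₀} ⊆
        ⋃ d ∈ (H385.BX ⌈X₀⌉₊ : Finset ZI), {χ : ZI →* ℂ | HC d χ} := by
      rintro χ ⟨d, h2, h3⟩
      rw [Set.mem_iUnion₂]
      refine ⟨d, ?_, h2⟩
      rw [H385.H10.mem_BX]
      refine ⟨H385.H10.nrm_pos h2.q0, ?_⟩
      have h4 : (nrm d : ℝ) ≤ (⌈X₀⌉₊ : ℝ) := h3.le.trans (Nat.le_ceil _)
      exact_mod_cast h4
    refine Set.Finite.subset ?_ h1
    refine Set.Finite.biUnion (Finset.finite_toSet _) fun d hd => ?_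
    rw [Finset.mem_coe, H385.H10.mem_BX] at hd
    have hd0 : d ≠ 0 := by
      rintro rfl
      simp [nrm] at hd
    exact (hc_finite hd0).1
  refine ⟨hfin.toFinset.card + 1, by positivity, ?_⟩
  intro cd pr hprim q hq
  have hinj : Set.InjOn (pr q) ((FQs q).filter (fun χ => ¬ X₀ ≤ (nrm (cd q χ) : ℝ)) :
      Set (MulChar (RQ q) ℂ)) :=
    (pr_inj cd pr hprim hq).mono fun χ hχ => by
      rw [Finset.mem_coe, Finset.mem_filter] at hχ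
      exact hχ.1
  have h1 : ((FQs q).filter (fun χ => ¬ X₀ ≤ (nrm (cd q χ) : ℝ))).card ≤ hfin.toFinset.card := by
    rw [← Finset.card_image_of_injOn hinj]
    refine Finset.card_le_card fun χ' hχ' => ?_
    obtain ⟨χ, hχ, rfl⟩ := Finset.mem_image.mp hχ'
    rw [Finset.mem_filter, not_le] at hχ
    rw [Set.Finite.mem_toFinset]
    exact ⟨cd q χ, (hprim q hq χ hχ.1).2.1, hχ.2⟩
  have h2 : (((FQs q).filter (fun χ => ¬ X₀ ≤ (nrm (cd q χ) : ℝ))).card : ℝ) ≤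
      (hfin.toFinset.card : ℝ) := by exact_mod_cast h1
  linarith

end Pool.Agent.A856.BH
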